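import Pool.Agent.FFL.Defs

/-!
# [FFL-A0] linear differential equations for vectors of polynomials

`g' - B g = e` has a solution `g ∈ ℂ[l]^n` for every `e ∈ ℂ[l]^n` and every matrix `B`.
Proof.  (1) scalar case: `g' - β g = e` is solvable in `ℂ[l]`: for `β = 0` take an antiderivative; for `β ≠ 0`
take `g = - ∑_i β^(-i-1) e^(i)` (finite sum, iterated derivatives vanish beyond the degree).
(2) Let `V = Fin n → ℂ[l]`, `D` the componentwise derivative, `T` multiplication by the matrix `B`; both are
`ℂ`-linear (even elements of `Module.End ℂ V`) and commute.  Let `χ` be the characteristic polynomial of `B`,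
`χ = ∏ (X - C β_i)` (`IsAlgClosed.splits`).  `χ(T) = 0` (Cayley-Hamilton: `Matrix.aeval_self_charpoly`).  `χ(D) = ∏ (D - β_i)`
is surjective by (1) (apply (1) to every component; a product of surjective maps is surjective).
`χ(D) - χ(T) = (D - T) * H` for some `H` (commuting elements: for every polynomial `χ`, `D - T` divides
`aeval D χ - aeval T χ`: `Polynomial.sub_dvd_eval_sub`-like, or by induction from
`D^(k+1) - T^(k+1) = (D - T) * (D^k + ...)`, `Commute.mul_geom_sum₂`).  So for `e = χ(D) p`,
`g = H p` satisfies `(D - T) g = e`.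
Alternative: induction on `n` using an eigenvector of `B` (or a triangular form of `B`).
-/

set_option autoImplicit false

open Polynomial

namespace FFL

theorem a0_anti (e : ℂ[X]) : ∃ g : ℂ[X], derivative g = e := by
  induction e using Polynomial.induction_on' with
  | add p q hp hq =>
    obtain ⟨g, hg⟩ := hp
    obtain ⟨g', hg'⟩ := hq
    exact ⟨g + g', by rw [derivative_add, hg, hg']⟩
  | monomial k a =>
    refine ⟨monomial (k + 1) (a / (k + 1 : ℕ)), ?_⟩
    rw [derivative_monomial, Nat.add_sub_cancel]
    have h : ((k + 1 : ℕ) : ℂ) ≠ 0 := Nat.cast_ne_zero.mpr (Nat.succ_ne_zero k)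
    rw [div_mul_cancel₀ _ h]

theorem a0_scalar_ne (β : ℂ) (hβ : β ≠ 0) (N : ℕ) : ∀ e : ℂ[X], e.natDegree < N →
    ∃ g : ℂ[X], derivative g - C β * g = e := by
  induction N with
  | zero => intro e he; exact absurd he (Nat.not_lt_zero _)
  | succ N ih =>
    intro e he
    have key : ∀ h : ℂ[X], derivative h - C β * h = C β⁻¹ * derivative e →
        derivative (h - C β⁻¹ * e) - C β * (h - C β⁻¹ * e) = e := by
      intro h hh
      have h1 : C β * (C β⁻¹ * e) = e := by
        rw [← mul_assoc, ← C_mul, mul_inv_cancel₀ hβ, C_1, one_mul]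
      rw [derivative_sub, derivative_C_mul, mul_sub, h1]
      rw [← hh]
      ring
    by_cases h0 : e.natDegree = 0
    · have h1 : derivative e = 0 := derivative_of_natDegree_zero h0
      refine ⟨0 - C β⁻¹ * e, key 0 ?_⟩
      rw [h1, derivative_zero, mul_zero, mul_zero, sub_zero]
    · have h1 := natDegree_derivative_lt h0
      have h2 : (C β⁻¹ * derivative e).natDegree < N :=
        lt_of_le_of_lt (natDegree_C_mul_le _ _) (by omega)
      obtain ⟨h, hh⟩ := ih _ h2
      exact ⟨_, key h hh⟩

theorem a0_scalar (β : ℂ) (e : ℂ[X]) : ∃ g : ℂ[X], derivative g - C β * g = e := by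
  by_cases hβ : β = 0
  · obtain ⟨g, hg⟩ := a0_anti e
    exact ⟨g, by rw [hβ, C_0, zero_mul, sub_zero, hg]⟩
  · exact a0_scalar_ne β hβ (e.natDegree + 1) e (Nat.lt_succ_self _)

/-- the componentwise derivative -/
noncomputable def a0_D (n : ℕ) : Module.End ℂ (Fin n → ℂ[X]) where
  toFun g j := derivative (g j)
  map_add' g h := by
    funext j
    exact derivative_add
  map_smul' c g := by
    funext j
    exact derivative_smul c (g j)

/-- the action of matrices -/
noncomputable def a0_T (n : ℕ) : Matrix (Fin n) (Fin n) ℂ →ₐ[ℂ] Module.End ℂ (Fin n → ℂ[X]) :=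
  AlgHom.ofLinearMap
    { toFun := fun M =>
        { toFun := fun g j => ∑ k, C (M j k) * g k
          map_add' := fun g h => by
            funext j
            change ∑ k, C (M j k) * (g k + h k) =
              (∑ k, C (M j k) * g k) + ∑ k, C (M j k) * h k
            rw [← Finset.sum_add_distrib]
            exact Finset.sum_congr rfl fun k _ => mul_add _ _ _
          map_smul' := fun c g => by
            funext j
            change ∑ k, C (M j k) * (c • g k) = c • ∑ k, C (M j k) * g k
            rw [Finset.smul_sum]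
            exact Finset.sum_congr rfl fun k _ => mul_smul_comm _ _ _ }
      map_add' := fun M N => by
        refine LinearMap.ext fun g => funext fun j => ?_
        change ∑ k, C (M j k + N j k) * g k = (∑ k, C (M j k) * g k) + ∑ k, C (N j k) * g k
        rw [← Finset.sum_add_distrib]
        exact Finset.sum_congr rfl fun k _ => by rw [C_add, add_mul]
      map_smul' := fun c M => by
        refine LinearMap.ext fun g => funext fun j => ?_
        change ∑ k, C (c * M j k) * g k = c • ∑ k, C (M j k) * g k
        rw [Finset.smul_sum]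
        exact Finset.sum_congr rfl fun k _ => by rw [C_mul, mul_assoc, smul_eq_C_mul] }
    (by
      refine LinearMap.ext fun g => funext fun j => ?_
      change ∑ k, C ((1 : Matrix (Fin n) (Fin n) ℂ) j k) * g k = g j
      rw [Finset.sum_eq_single j]
      · rw [Matrix.one_apply_eq, C_1, one_mul]
      · intro k _ hk
        rw [Matrix.one_apply_ne (Ne.symm hk), C_0, zero_mul]
      · intro h
        exact absurd (Finset.mem_univ j) h)
    (fun M N => by
      refine LinearMap.ext fun g => funext fun j => ?_
      change ∑ k, C ((M * N) j k) * g k = ∑ k, C (M j k) * ∑ l, C (N k l) * g l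
      simp only [Finset.mul_sum]
      rw [Finset.sum_comm]
      refine Finset.sum_congr rfl fun l _ => ?_
      rw [Matrix.mul_apply, map_sum, Finset.sum_mul]
      exact Finset.sum_congr rfl fun k _ => by rw [C_mul, mul_assoc])

theorem a0_T_apply (n : ℕ) (M : Matrix (Fin n) (Fin n) ℂ) (g : Fin n → ℂ[X]) (j : Fin n) :
    a0_T n M g j = ∑ k, C (M j k) * g k := rfl

theorem a0_comm (n : ℕ) (M : Matrix (Fin n) (Fin n) ℂ) : Commute (a0_D n) (a0_T n M) := by
  refine LinearMap.ext fun g => funext fun j => ?_
  change derivative (∑ k, C (M j k) * g k) = ∑ k, C (M j k) * derivative (g k)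
  rw [derivative_sum]
  exact Finset.sum_congr rfl fun k _ => derivative_C_mul _ _

theorem a0_div {R : Type*} [Ring R] [Algebra ℂ R] (x y : R) (h : Commute x y) (χ : ℂ[X]) :
    ∃ H : R, aeval x χ - aeval y χ = (x - y) * H := by
  induction χ using Polynomial.induction_on' with
  | add p q hp hq =>
    obtain ⟨H, hH⟩ := hp
    obtain ⟨H', hH'⟩ := hq
    refine ⟨H + H', ?_⟩
    rw [map_add, map_add, mul_add, ← hH, ← hH']
    abel
  | monomial k a =>
    refine ⟨a • ∑ i ∈ Finset.range k, x ^ i * y ^ (k - 1 - i), ?_⟩
    rw [aeval_monomial, aeval_monomial, mul_smul_comm, h.mul_geom_sum₂, ← mul_sub,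
      ← Algebra.smul_def]

theorem a0_surj_one (n : ℕ) (β : ℂ) :
    Function.Surjective (aeval (a0_D n) (X - C β) : Module.End ℂ (Fin n → ℂ[X])) := by
  intro e
  have h : ∀ j, ∃ g : ℂ[X], derivative g - C β * g = e j := fun j => a0_scalar β (e j)
  choose g hg using h
  refine ⟨g, ?_⟩
  funext j
  rw [map_sub, aeval_X, aeval_C, ← hg j]
  change derivative (g j) - β • g j = _
  rw [smul_eq_C_mul]

theorem a0_surj (n : ℕ) (s : Multiset ℂ) :
    Function.Surjective (aeval (a0_D n) (s.map fun a => X - C a).prod :
      Module.End ℂ (Fin n → ℂ[X])) := by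
  induction s using Multiset.induction_on with
  | empty =>
    intro e
    refine ⟨e, ?_⟩
    rw [Multiset.map_zero, Multiset.prod_zero, map_one]
    rfl
  | cons a s ih =>
    rw [Multiset.map_cons, Multiset.prod_cons, map_mul]
    exact (a0_surj_one n a).comp ih

theorem poly_ode (n : ℕ) (Bm : Matrix (Fin n) (Fin n) ℂ) (e : Fin n → ℂ[X]) :
    ∃ g : Fin n → ℂ[X], ∀ j, derivative (g j) - ∑ k, C (Bm j k) * g k = e j := by
  have hsplit := IsAlgClosed.splits Bm.charpoly
  have hmonic := Bm.charpoly_monic
  have hprod : (Bm.charpoly.roots.map fun a => X - C a).prod = Bm.charpoly := by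
    have h1 := hsplit.eq_prod_roots
    rw [hmonic.leadingCoeff, C_1, one_mul] at h1
    exact h1.symm
  obtain ⟨p, hp⟩ := a0_surj n Bm.charpoly.roots e
  rw [hprod] at hp
  obtain ⟨H, hH⟩ := a0_div (a0_D n) (a0_T n Bm) (a0_comm n Bm) Bm.charpoly
  have h0 : aeval (a0_T n Bm) Bm.charpoly = 0 := by
    rw [aeval_algHom_apply, Matrix.aeval_self_charpoly, map_zero]
  rw [h0, sub_zero] at hH
  refine ⟨H p, fun j => ?_⟩
  rw [hH] at hp
  exact congrFun hp j

end FFL
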