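import Pool.Agent.FFL.Defs

/-!
# [FFL-A1] the ideal of the variables

`II ι` is `MvPolynomial.idealOfVars ι (Polynomial ℂ)` (by definition), see
`MvPolynomial.mem_pow_idealOfVars_iff'` in `Mathlib/RingTheory/MvPolynomial/Ideal.lean`.
-/

set_option autoImplicit false

open Polynomial

namespace FFL

variable {ι : Type}

theorem mem_II_pow (M : ℕ) (e : AA ι) :
    e ∈ II ι ^ M ↔ ∀ β : ι →₀ ℕ, β.degree < M → MvPolynomial.coeff β e = 0 := by
  exact MvPolynomial.mem_pow_idealOfVars_iff' M e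

theorem monomial_mem (β : ι →₀ ℕ) (p : ℂ[X]) {M : ℕ} (h : M ≤ β.degree) :
    MvPolynomial.monomial β p ∈ II ι ^ M := by
  classical
  rw [mem_II_pow]
  intro γ hγ
  rw [MvPolynomial.coeff_monomial, if_neg]
  rintro rfl
  omega

theorem X_mem (i : ι) : (MvPolynomial.X i : AA ι) ∈ II ι := by
  exact Ideal.subset_span ⟨i, rfl⟩

open Classical in
/-- The homogeneous part of degree `M`, as a sum of monomials (`MvPolynomial.support_sum_monomial_coeff`; the
coefficients of the difference vanish for `|β| ≤ M`). -/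
theorem sub_homog_mem (M : ℕ) {e : AA ι} (he : e ∈ II ι ^ M) :
    e - ∑ β ∈ e.support.filter (fun β => β.degree = M),
      MvPolynomial.monomial β (MvPolynomial.coeff β e) ∈ II ι ^ (M + 1) := by
  rw [mem_II_pow] at he ⊢
  intro γ hγ
  rw [MvPolynomial.coeff_sub, MvPolynomial.coeff_sum]
  simp only [MvPolynomial.coeff_monomial]
  rw [Finset.sum_ite_eq']
  by_cases h0 : MvPolynomial.coeff γ e = 0
  · rw [h0, ite_self, sub_zero]
  · rw [if_pos, sub_self]
    rw [Finset.mem_filter, MvPolynomial.mem_support_iff]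
    refine ⟨h0, ?_⟩
    by_contra h1
    exact h0 (he γ (by omega))

/-- `x_o² I^k ⊆ x_o I^(k+1)` -/
theorem sq_mul_mem (o : ι) (M : ℕ) {s e : AA ι}
    (hs : s ∈ Ideal.span {(MvPolynomial.X o : AA ι) ^ 2}) (he : e ∈ II ι ^ M) :
    s * e ∈ Ideal.span {(MvPolynomial.X o : AA ι)} * II ι ^ (M + 1) := by
  rw [Ideal.mem_span_singleton'] at hs
  obtain ⟨r, rfl⟩ := hs
  have h1 : r * (MvPolynomial.X o : AA ι) ^ 2 * e =
      MvPolynomial.X o * ((r * e) * MvPolynomial.X o) := by ring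
  rw [h1]
  refine Ideal.mul_mem_mul (Ideal.mem_span_singleton_self _) ?_
  rw [pow_succ]
  exact Ideal.mul_mem_mul (Ideal.mul_mem_left _ _ he) (X_mem o)

theorem mem_span_mul {o : ι} {M : ℕ} {e : AA ι}
    (he : e ∈ Ideal.span {(MvPolynomial.X o : AA ι)} * II ι ^ M) :
    ∃ e' ∈ II ι ^ M, e = MvPolynomial.X o * e' := by
  rw [Ideal.mem_span_singleton_mul] at he
  obtain ⟨z, hz, rfl⟩ := he
  exact ⟨z, hz, rfl⟩

theorem mul_mem_span {o : ι} {M : ℕ} {e : AA ι} (he : e ∈ II ι ^ M) :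
    MvPolynomial.X o * e ∈ Ideal.span {(MvPolynomial.X o : AA ι)} * II ι ^ M := by
  exact Ideal.mul_mem_mul (Ideal.mem_span_singleton_self _) he

end FFL
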