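import Pool.Agent.FFL.A1

/-!
# [FFL-A2] the formal shift of a monomial

`shf T Λ (x^β p(l)) = ∏ (x_i T_i)^(β_i) · p(l + Λ)`.  Modulo `x_o²`: `T_i = 1 - γ_i x_o`, `∏ T_i^(β_i) = 1 - ⟨β,γ⟩ x_o`
(induction over the product), `Λ = x_o`, `p(l + Λ) = p + p' x_o` (Taylor formula; e.g. `Polynomial.taylor`, or by
induction over `p`: the map `p ↦ p(l+Λ) - p - p' x_o` into the quotient by `x_o²` is additive and satisfies the product
rule; enough for `p = l^k`).  So `shf T Λ (x^β p) = x^β (p + x_o (p' - ⟨β,γ⟩ p) + x_o² r)`, and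
`x^β x_o² r ∈ x_o I^(|β|+1)` (`sq_mul_mem`, `monomial_mem`).
`monomial β p = C p * monomial β 1`, `monomial β 1 = ∏ X i ^ β i` (`MvPolynomial.monomial_eq`).
Convenient: work with congruences modulo the ideal `span {X o ^ 2}` (`Ideal.Quotient.mk`).
-/

set_option autoImplicit false

open Polynomial

namespace FFL

variable {n : ℕ} {ι : Type} [Fintype ι]

theorem a2_mul {R : Type} [CommRing R] (X a b u v : R)
    (ha : a - 1 + u * X ∈ Ideal.span {X ^ 2}) (hb : b - 1 + v * X ∈ Ideal.span {X ^ 2}) :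
    a * b - 1 + (u + v) * X ∈ Ideal.span {X ^ 2} := by
  have h : a * b - 1 + (u + v) * X = b * (a - 1 + u * X) + (1 - u * X) * (b - 1 + v * X) +
      u * v * X ^ 2 := by ring
  rw [h]
  exact Ideal.add_mem _ (Ideal.add_mem _ (Ideal.mul_mem_left _ _ ha) (Ideal.mul_mem_left _ _ hb))
    (Ideal.mul_mem_left _ _ (Ideal.mem_span_singleton_self _))

theorem a2_pow {R : Type} [CommRing R] (X a u : R) (ha : a - 1 + u * X ∈ Ideal.span {X ^ 2})
    (k : ℕ) : a ^ k - 1 + ((k : R) * u) * X ∈ Ideal.span {X ^ 2} := by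
  induction k with
  | zero =>
    have h : a ^ 0 - 1 + (((0 : ℕ) : R) * u) * X = 0 := by
      rw [pow_zero, Nat.cast_zero]
      ring
    rw [h]
    exact Ideal.zero_mem _
  | succ k ih =>
    have h := a2_mul X (a ^ k) a ((k : R) * u) u ih ha
    rw [← pow_succ] at h
    have h2 : ((k + 1 : ℕ) : R) * u = (k : R) * u + u := by
      rw [Nat.cast_add, Nat.cast_one]
      ring
    rw [h2]
    exact h

theorem a2_prod {R κ : Type} [CommRing R] (X : R) (s : Finset κ) (a u : κ → R)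
    (ha : ∀ i ∈ s, a i - 1 + u i * X ∈ Ideal.span {X ^ 2}) :
    (∏ i ∈ s, a i) - 1 + (∑ i ∈ s, u i) * X ∈ Ideal.span {X ^ 2} := by
  classical
  induction s using Finset.induction_on with
  | empty =>
    have h : (∏ i ∈ (∅ : Finset κ), a i) - 1 + (∑ i ∈ (∅ : Finset κ), u i) * X = 0 := by
      rw [Finset.prod_empty, Finset.sum_empty]
      ring
    rw [h]
    exact Ideal.zero_mem _
  | insert i s hi ih =>
    rw [Finset.prod_insert hi, Finset.sum_insert hi]
    exact a2_mul X _ _ _ _ (ha i (Finset.mem_insert_self i s))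
      (ih fun j hj => ha j (Finset.mem_insert_of_mem hj))

theorem a2_shf_C (T : ι → AA ι) (Λ : AA ι) (p : ℂ[X]) :
    shf T Λ (MvPolynomial.C p) =
      p.eval₂ ((MvPolynomial.C).comp Polynomial.C) (MvPolynomial.C Polynomial.X + Λ) := by
  unfold shf
  rw [MvPolynomial.eval₂Hom_C]
  rfl

theorem a2_taylor (o : ι) (T : ι → AA ι) (Λ : AA ι)
    (hL : Λ - MvPolynomial.X o ∈ Ideal.span {(MvPolynomial.X o : AA ι) ^ 2}) (p : ℂ[X]) :
    shf T Λ (MvPolynomial.C p) - MvPolynomial.C p -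
      MvPolynomial.X o * MvPolynomial.C (derivative p) ∈
      Ideal.span {(MvPolynomial.X o : AA ι) ^ 2} := by
  have hC : ∀ r : ℂ[X], ((r.map ((MvPolynomial.C : ℂ[X] →+* AA ι).comp Polynomial.C)).eval
      (MvPolynomial.C Polynomial.X)) = MvPolynomial.C r := by
    intro r
    rw [eval_map]
    have h := Polynomial.hom_eval₂ r (Polynomial.C : ℂ →+* ℂ[X]) (MvPolynomial.C : ℂ[X] →+* AA ι)
      Polynomial.X
    rw [eval₂_C_X] at h
    exact h.symm
  obtain ⟨k, hk⟩ := Polynomial.binomExpansion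
    (p.map ((MvPolynomial.C : ℂ[X] →+* AA ι).comp Polynomial.C)) (MvPolynomial.C Polynomial.X) Λ
  rw [derivative_map, hC, hC, eval_map, ← a2_shf_C T Λ p] at hk
  obtain ⟨r, hr⟩ := Ideal.mem_span_singleton'.mp hL
  have hΛ : Λ = MvPolynomial.X o + r * MvPolynomial.X o ^ 2 := by
    rw [hr]
    ring
  rw [hk, hΛ]
  refine Ideal.mem_span_singleton'.mpr
    ⟨MvPolynomial.C (derivative p) * r + k * (1 + r * MvPolynomial.X o) ^ 2, ?_⟩
  ring

theorem shf_monomial {o : ι} {γ : ι → ℂ} {q : Fin n → ℂ} {B : Fin n → AA ι} {T : ι → AA ι}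
    {Λ : AA ι} (h : Formal o γ q B T Λ) (β : ι →₀ ℕ) (p : ℂ[X]) :
    shf T Λ (MvPolynomial.monomial β p) - MvPolynomial.monomial β p -
      MvPolynomial.X o * MvPolynomial.monomial β (derivative p - C (∑ i, (β i : ℂ) * γ i) * p) ∈
      Ideal.span {(MvPolynomial.X o : AA ι)} * II ι ^ (β.degree + 1) := by
  classical
  have hm : ∀ r : ℂ[X], (MvPolynomial.monomial β r : AA ι) =
      MvPolynomial.C r * MvPolynomial.monomial β 1 := by
    intro r
    rw [MvPolynomial.C_mul_monomial, mul_one]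
  have hprod : (MvPolynomial.monomial β (1 : ℂ[X]) : AA ι) =
      ∏ i, (MvPolynomial.X i : AA ι) ^ β i := by
    rw [MvPolynomial.monomial_eq, MvPolynomial.C_1, one_mul, Finsupp.prod_fintype]
    intro i
    exact pow_zero _
  have hshm : shf T Λ (MvPolynomial.monomial β (1 : ℂ[X])) =
      MvPolynomial.monomial β (1 : ℂ[X]) * ∏ i, T i ^ β i := by
    rw [hprod, map_prod, ← Finset.prod_mul_distrib]
    refine Finset.prod_congr rfl fun i _ => ?_
    rw [map_pow, ← mul_pow]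
    congr 1
    unfold shf
    rw [MvPolynomial.eval₂Hom_X']
  have hT : (∏ i, T i ^ β i) - 1 + (∑ i, ((β i : ℕ) : AA ι) * cst ι (γ i)) * MvPolynomial.X o ∈
      Ideal.span {(MvPolynomial.X o : AA ι) ^ 2} :=
    a2_prod _ _ _ _ fun i _ => a2_pow _ _ _ (h.hT i) (β i)
  have hS : ∑ i, ((β i : ℕ) : AA ι) * cst ι (γ i) =
      MvPolynomial.C (C (∑ i, (β i : ℂ) * γ i)) := by
    rw [map_sum, map_sum]
    refine Finset.sum_congr rfl fun i _ => ?_
    rw [C_mul, MvPolynomial.C_mul, Polynomial.C_eq_natCast, map_natCast]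
    rfl
  rw [hS] at hT
  have hp := a2_taylor o T Λ h.hL p
  have key : shf T Λ (MvPolynomial.monomial β p) - MvPolynomial.monomial β p -
      MvPolynomial.X o * MvPolynomial.monomial β (derivative p - C (∑ i, (β i : ℂ) * γ i) * p) =
      ((∏ i, T i ^ β i) * (shf T Λ (MvPolynomial.C p) - MvPolynomial.C p -
        MvPolynomial.X o * MvPolynomial.C (derivative p)) +
      (MvPolynomial.C p + MvPolynomial.X o * MvPolynomial.C (derivative p)) *
        ((∏ i, T i ^ β i) - 1 +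
          MvPolynomial.C (C (∑ i, (β i : ℂ) * γ i)) * MvPolynomial.X o) -
      MvPolynomial.C (derivative p) * MvPolynomial.C (C (∑ i, (β i : ℂ) * γ i)) *
        MvPolynomial.X o ^ 2) * MvPolynomial.monomial β 1 := by
    rw [hm p, hm (derivative p - C (∑ i, (β i : ℂ) * γ i) * p), map_mul, hshm,
      MvPolynomial.C_sub, MvPolynomial.C_mul]
    ring
  rw [key]
  refine sq_mul_mem o _ ?_ (monomial_mem β 1 le_rfl)
  exact Ideal.sub_mem _ (Ideal.add_mem _ (Ideal.mul_mem_left _ _ hp) (Ideal.mul_mem_left _ _ hT))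
    (Ideal.mul_mem_left _ _ (Ideal.mem_span_singleton_self _))

theorem shf_cst (T : ι → AA ι) (Λ : AA ι) (c : ℂ) : shf T Λ (cst ι c) = cst ι c := by
  unfold cst
  rw [a2_shf_C, eval₂_C]
  rfl

end FFL
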