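import Pool.Agent.FFL.A1

/-!
# [FFL-A3] composition of polynomials with elements of the formal ring

`cmp Y : MvPolynomial (Fin n) ℂ → AA ι` is a ring homomorphism (`MvPolynomial.eval₂Hom`).
`cmp_const`: `cmp (cst c) p = cst (eval c p)` (induction over `p`).
`cmp_sub_mem`: modulo `I^M`, `Y + W` and `Y` agree, so their images under `p` agree (quotient ring, or induction).
`cmp_add`: induction over `p` (`MvPolynomial.induction_on`): constants: `0`; sums: clear; products with `X_k`:
`cmp (Y+W) (p X_k) = cmp (Y+W) p * (Y_k + W_k)`, and modulo `I^(M+1)`: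
`= (cmp Y p + ∑_i cst(∂_i p (c)) W_i) (Y_k + W_k) = cmp Y p * Y_k + ∑_i cst(∂_i p(c)) W_i Y_k + cmp Y p * W_k`
(`W_i W_k ∈ I^(2M) ⊆ I^(M+1)`), where `W_i Y_k = W_i cst(c_k)` and `cmp Y p * W_k = cst(p(c)) W_k` modulo `I^(M+1)` because
`Y_k - cst c_k ∈ I` and `cmp Y p - cst (eval c p) ∈ I` (`cmp_sub_mem` for `M = 1` and `cmp_const`); finally
`∂_i (p X_k) (c) = ∂_i p (c) c_k + δ_ik p(c)`.
-/

set_option autoImplicit false

open Polynomial

namespace FFL

variable {n : ℕ} {ι : Type}

theorem a3_C (Y : Fin n → AA ι) (a : ℂ) : cmp Y (MvPolynomial.C a) = cst ι a :=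
  MvPolynomial.eval₂_C _ _ a

theorem a3_add (Y : Fin n → AA ι) (p q : MvPolynomial (Fin n) ℂ) :
    cmp Y (p + q) = cmp Y p + cmp Y q := MvPolynomial.eval₂_add _ _

theorem a3_mul_X (Y : Fin n → AA ι) (p : MvPolynomial (Fin n) ℂ) (k : Fin n) :
    cmp Y (p * MvPolynomial.X k) = cmp Y p * Y k := by
  unfold cmp
  rw [MvPolynomial.eval₂_mul, MvPolynomial.eval₂_X]

theorem a3_cst_add (a b : ℂ) : cst ι (a + b) = cst ι a + cst ι b := by
  unfold cst
  rw [map_add, map_add]

theorem a3_cst_mul (a b : ℂ) : cst ι (a * b) = cst ι a * cst ι b := by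
  unfold cst
  rw [map_mul, map_mul]

theorem a3_cst_zero : cst ι 0 = 0 := by
  unfold cst
  rw [map_zero, map_zero]

theorem a3_cst_one : cst ι 1 = 1 := by
  unfold cst
  rw [map_one, map_one]

theorem cmp_const (c : Fin n → ℂ) (p : MvPolynomial (Fin n) ℂ) :
    cmp (fun j => cst ι (c j)) p = cst ι (MvPolynomial.eval c p) := by
  induction p using MvPolynomial.induction_on with
  | C a => rw [a3_C, MvPolynomial.eval_C]
  | add p q hp hq => rw [a3_add, hp, hq, map_add, a3_cst_add]
  | mul_X p k hp => rw [a3_mul_X, hp, map_mul, MvPolynomial.eval_X, a3_cst_mul]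

theorem cmp_sub_mem (Y W : Fin n → AA ι) (M : ℕ) (hW : ∀ j, W j ∈ II ι ^ M)
    (p : MvPolynomial (Fin n) ℂ) : cmp (fun j => Y j + W j) p - cmp Y p ∈ II ι ^ M := by
  induction p using MvPolynomial.induction_on with
  | C a =>
    rw [a3_C, a3_C, sub_self]
    exact Ideal.zero_mem _
  | add p q hp hq =>
    rw [a3_add, a3_add, add_sub_add_comm]
    exact Ideal.add_mem _ hp hq
  | mul_X p k hp =>
    rw [a3_mul_X, a3_mul_X]
    have h : cmp (fun j => Y j + W j) p * (Y k + W k) - cmp Y p * Y k =
        (Y k + W k) * (cmp (fun j => Y j + W j) p - cmp Y p) + cmp Y p * W k := by ring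
    rw [h]
    exact Ideal.add_mem _ (Ideal.mul_mem_left _ _ hp) (Ideal.mul_mem_left _ _ (hW k))

theorem cmp_add (c : Fin n → ℂ) (Y W : Fin n → AA ι) (M : ℕ) (hM : 1 ≤ M)
    (hY : ∀ j, Y j - cst ι (c j) ∈ II ι) (hW : ∀ j, W j ∈ II ι ^ M)
    (p : MvPolynomial (Fin n) ℂ) :
    cmp (fun j => Y j + W j) p - cmp Y p -
      ∑ k, cst ι (MvPolynomial.eval c (MvPolynomial.pderiv k p)) * W k ∈ II ι ^ (M + 1) := by
  classical
  have hI : ∀ k, W k ∈ II ι ^ M := hW
  induction p using MvPolynomial.induction_on with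
  | C a =>
    have h : cmp (fun j => Y j + W j) (MvPolynomial.C a) - cmp Y (MvPolynomial.C a) -
        ∑ k, cst ι (MvPolynomial.eval c (MvPolynomial.pderiv k (MvPolynomial.C a))) * W k = 0 := by
      rw [a3_C, a3_C, sub_self, Finset.sum_eq_zero, sub_zero]
      intro k _
      rw [MvPolynomial.pderiv_C, map_zero, a3_cst_zero, zero_mul]
    rw [h]
    exact Ideal.zero_mem _
  | add p q hp hq =>
    have h : cmp (fun j => Y j + W j) (p + q) - cmp Y (p + q) -
        ∑ k, cst ι (MvPolynomial.eval c (MvPolynomial.pderiv k (p + q))) * W k =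
        (cmp (fun j => Y j + W j) p - cmp Y p -
          ∑ k, cst ι (MvPolynomial.eval c (MvPolynomial.pderiv k p)) * W k) +
        (cmp (fun j => Y j + W j) q - cmp Y q -
          ∑ k, cst ι (MvPolynomial.eval c (MvPolynomial.pderiv k q)) * W k) := by
      have h1 : ∑ k, cst ι (MvPolynomial.eval c (MvPolynomial.pderiv k (p + q))) * W k =
          (∑ k, cst ι (MvPolynomial.eval c (MvPolynomial.pderiv k p)) * W k) +
          ∑ k, cst ι (MvPolynomial.eval c (MvPolynomial.pderiv k q)) * W k := by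
        rw [← Finset.sum_add_distrib]
        refine Finset.sum_congr rfl fun k _ => ?_
        rw [map_add, map_add, a3_cst_add, add_mul]
      rw [a3_add, a3_add, h1]
      ring
    rw [h]
    exact Ideal.add_mem _ hp hq
  | mul_X p k hp =>
    have hS : ∑ i, cst ι (MvPolynomial.eval c (MvPolynomial.pderiv i (p * MvPolynomial.X k))) *
        W i = cst ι (c k) * (∑ i, cst ι (MvPolynomial.eval c (MvPolynomial.pderiv i p)) * W i) +
        cst ι (MvPolynomial.eval c p) * W k := by
      have h1 : ∀ i, cst ι (MvPolynomial.eval c (MvPolynomial.pderiv i (p * MvPolynomial.X k))) *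
          W i = cst ι (c k) * (cst ι (MvPolynomial.eval c (MvPolynomial.pderiv i p)) * W i) +
          (if i = k then cst ι (MvPolynomial.eval c p) * W k else 0) := by
        intro i
        rw [MvPolynomial.pderiv_mul, map_add, map_mul, map_mul, MvPolynomial.eval_X,
          a3_cst_add, a3_cst_mul, a3_cst_mul]
        by_cases hik : i = k
        · subst hik
          rw [MvPolynomial.pderiv_X_self, map_one, a3_cst_one, if_pos rfl]
          ring
        · rw [MvPolynomial.pderiv_X_of_ne (Ne.symm hik), map_zero, a3_cst_zero, if_neg hik]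
          ring
      rw [Finset.sum_congr rfl fun i _ => h1 i, Finset.sum_add_distrib, ← Finset.mul_sum,
        Finset.sum_ite_eq', if_pos (Finset.mem_univ k)]
    have hSM : (∑ i, cst ι (MvPolynomial.eval c (MvPolynomial.pderiv i p)) * W i) ∈
        II ι ^ M := Ideal.sum_mem _ fun i _ => Ideal.mul_mem_left _ _ (hW i)
    have hP0 : cmp Y p - cst ι (MvPolynomial.eval c p) ∈ II ι := by
      have h1 := cmp_sub_mem (fun j => cst ι (c j)) (fun j => Y j - cst ι (c j)) 1
        (fun j => by
          rw [pow_one]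
          exact hY j) p
      rw [cmp_const, pow_one] at h1
      have h2 : (fun j => cst ι (c j) + (Y j - cst ι (c j))) = Y := by
        funext j
        rw [add_sub_cancel]
      rw [h2] at h1
      exact h1
    have key : cmp (fun j => Y j + W j) (p * MvPolynomial.X k) - cmp Y (p * MvPolynomial.X k) -
        ∑ i, cst ι (MvPolynomial.eval c (MvPolynomial.pderiv i (p * MvPolynomial.X k))) * W i =
        (Y k + W k) * (cmp (fun j => Y j + W j) p - cmp Y p -
          ∑ i, cst ι (MvPolynomial.eval c (MvPolynomial.pderiv i p)) * W i) +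
        (∑ i, cst ι (MvPolynomial.eval c (MvPolynomial.pderiv i p)) * W i) *
          (Y k - cst ι (c k)) +
        (∑ i, cst ι (MvPolynomial.eval c (MvPolynomial.pderiv i p)) * W i) * W k +
        W k * (cmp Y p - cst ι (MvPolynomial.eval c p)) := by
      rw [a3_mul_X, a3_mul_X, hS]
      ring
    rw [key]
    refine Ideal.add_mem _ (Ideal.add_mem _ (Ideal.add_mem _ (Ideal.mul_mem_left _ _ hp) ?_) ?_) ?_
    · rw [pow_succ]
      exact Ideal.mul_mem_mul hSM (hY k)
    · have h1 : (∑ i, cst ι (MvPolynomial.eval c (MvPolynomial.pderiv i p)) * W i) * W k ∈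
          II ι ^ (M + M) := by
        rw [pow_add]
        exact Ideal.mul_mem_mul hSM (hW k)
      exact Ideal.pow_le_pow_right (by omega) h1
    · rw [pow_succ]
      exact Ideal.mul_mem_mul (hW k) hP0

end FFL
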