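import Pool.Agent.FFL.A0
import Pool.Agent.FFL.A2
import Pool.Agent.FFL.A3

/-!
# [FFL-A5] one step of the formal solution

`err_j(Y) = x_o e_j` with `e_j ∈ I^M` (`mem_span_mul`), `e_j = ∑_{|β| = M} x^β e_{jβ}(l)` modulo `I^(M+1)`
(`sub_homog_mem`; take for the index set of `β` the union over `j` of the supports, or all `β` with `|β| = M`; extra terms are
`0`).  For every `β` take from `poly_ode`, with the matrix
`Bm j k = eval c (pderiv k (P j)) + δ_jk (q_j + ⟨β,γ⟩)`, polynomials `g_{kβ}` with `g_{jβ}' - ∑_k Bm j k g_{kβ} = e_{jβ}`, and put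
`W_j = ∑_β x^β g_{jβ} ∈ I^M`.  Then, modulo `J = x_o I^(M+1)`:
* `shf (Y_j + W_j) - shf Y_j = W_j + x_o ∑_β x^β (g_{jβ}' - ⟨β,γ⟩ g_{jβ})` (`shf_monomial`),
* `rhs (Y+W) - rhs Y = W_j + x_o (∑_k cst(∂_k P_j(c)) W_k)` (`cmp_add`; `x_i (cmp (Y+W) Q - cmp Y Q) ∈ I^(M+1)` by
  `cmp_sub_mem`),
* `B_j * (that) = W_j + x_o (q_j W_j + ∑_k cst(∂_k P_j(c)) W_k)` (`B_j = 1 + q_j x_o` modulo `x_o²`, `sq_mul_mem`;
  `x_o² W ∈ J`; `x_o · x_o · ... ∈ J`).
So `err_j (Y+W) - err_j Y = x_o ∑_β x^β (q_j g_{jβ} + ∑_k ∂_k P_j(c) g_{kβ} + ⟨β,γ⟩ g_{jβ} - g_{jβ}') = - x_o ∑_β x^β e_{jβ}`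
modulo `J`, and `err_j (Y+W) ∈ J`.
-/

set_option autoImplicit false

open Polynomial

namespace FFL

variable {n : ℕ} {ι : Type} [Fintype ι]

theorem a5_mono (β : ι →₀ ℕ) (a : ℂ) (p : ℂ[X]) :
    (MvPolynomial.monomial β (C a * p) : AA ι) = cst ι a * MvPolynomial.monomial β p := by
  unfold cst
  rw [MvPolynomial.C_mul_monomial]

theorem a5_ode (β : ι →₀ ℕ) (D : Fin n → Fin n → ℂ) (q : Fin n → ℂ) (s : ℂ) (g : Fin n → ℂ[X])
    (e : Fin n → ℂ[X])
    (hg : ∀ j, derivative (g j) - ∑ k, C (D j k + if j = k then q j + s else 0) * g k = e j)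
    (j : Fin n) :
    (MvPolynomial.monomial β (derivative (g j) - C s * g j) : AA ι) =
      MvPolynomial.monomial β (e j) + (∑ k, cst ι (D j k) * MvPolynomial.monomial β (g k)) +
        cst ι (q j) * MvPolynomial.monomial β (g j) := by
  have h1 : ∑ k, C (D j k + if j = k then q j + s else 0) * g k =
      (∑ k, C (D j k) * g k) + (C (q j) * g j + C s * g j) := by
    have h2 : ∀ k, C (D j k + if j = k then q j + s else 0) * g k =
        C (D j k) * g k + if j = k then (C (q j) + C s) * g k else 0 := by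
      intro k
      by_cases hk : j = k
      · rw [if_pos hk, if_pos hk, C_add, C_add, add_mul]
      · rw [if_neg hk, if_neg hk, add_zero, add_zero]
    rw [Finset.sum_congr rfl fun k _ => h2 k, Finset.sum_add_distrib, Finset.sum_ite_eq,
      if_pos (Finset.mem_univ j), add_mul]
  have h3 : derivative (g j) - C s * g j = e j + (∑ k, C (D j k) * g k) + C (q j) * g j := by
    rw [← hg j, h1]
    ring
  rw [h3, map_add, map_add, a5_mono, map_sum]
  refine congrArg₂ _ (congrArg₂ _ rfl ?_) rfl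
  exact Finset.sum_congr rfl fun k _ => a5_mono β _ _

theorem formal_step {o : ι} {γ : ι → ℂ} {q : Fin n → ℂ} {B : Fin n → AA ι} {T : ι → AA ι}
    {Λ : AA ι} (h : Formal o γ q B T Λ) (P : Fin n → MvPolynomial (Fin n) ℂ)
    (Q : ι → Fin n → MvPolynomial (Fin n) ℂ) (c : Fin n → ℂ) (M : ℕ) (hM : 1 ≤ M)
    (Y : Fin n → AA ι) (hY : ∀ j, Y j - cst ι (c j) ∈ II ι)
    (hE : ∀ j, err o B T Λ P Q Y j ∈ Ideal.span {(MvPolynomial.X o : AA ι)} * II ι ^ M) :
    ∃ W : Fin n → AA ι, (∀ j, W j ∈ II ι ^ M) ∧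
      ∀ j, err o B T Λ P Q (fun j => Y j + W j) j ∈
        Ideal.span {(MvPolynomial.X o : AA ι)} * II ι ^ (M + 1) := by
  classical
  have h0 : ∀ j, ∃ e' ∈ II ι ^ M, err o B T Λ P Q Y j = MvPolynomial.X o * e' :=
    fun j => mem_span_mul (hE j)
  choose e' he' hee using h0
  let S : Finset (ι →₀ ℕ) :=
    Finset.univ.biUnion fun j => (e' j).support.filter (fun β => β.degree = M)
  have hS : ∀ β ∈ S, β.degree = M := by
    intro β hβ
    obtain ⟨j, _, hj⟩ := Finset.mem_biUnion.mp hβ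
    exact (Finset.mem_filter.mp hj).2
  have hode : ∀ β : ι →₀ ℕ, ∃ g : Fin n → ℂ[X], ∀ j, derivative (g j) -
      ∑ k, C (MvPolynomial.eval c (MvPolynomial.pderiv k (P j)) +
        if j = k then q j + ∑ i, (β i : ℂ) * γ i else 0) * g k = MvPolynomial.coeff β (e' j) :=
    fun β => poly_ode n (fun j k => MvPolynomial.eval c (MvPolynomial.pderiv k (P j)) +
      if j = k then q j + ∑ i, (β i : ℂ) * γ i else 0) (fun j => MvPolynomial.coeff β (e' j))
  choose g hg using hode
  let W : Fin n → AA ι := fun j => ∑ β ∈ S, MvPolynomial.monomial β (g β j)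
  have hW : ∀ j, W j ∈ II ι ^ M := fun j =>
    Ideal.sum_mem _ fun β hβ => monomial_mem β _ (hS β hβ).ge
  refine ⟨W, hW, fun j => ?_⟩
  -- (a)
  have ha : e' j - ∑ β ∈ S, MvPolynomial.monomial β (MvPolynomial.coeff β (e' j)) ∈
      II ι ^ (M + 1) := by
    have h1 := sub_homog_mem M (he' j)
    have h2 : ∑ β ∈ (e' j).support.filter (fun β => β.degree = M),
        (MvPolynomial.monomial β (MvPolynomial.coeff β (e' j)) : AA ι) =
        ∑ β ∈ S, MvPolynomial.monomial β (MvPolynomial.coeff β (e' j)) := by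
      refine Finset.sum_subset (fun β hβ => Finset.mem_biUnion.mpr ⟨j, Finset.mem_univ j, hβ⟩) ?_
      intro β hβ hβ2
      have h3 : MvPolynomial.coeff β (e' j) = 0 := by
        by_contra h4
        exact hβ2 (Finset.mem_filter.mpr ⟨MvPolynomial.mem_support_iff.mpr h4, hS β hβ⟩)
      rw [h3, map_zero]
    rw [← h2]
    exact h1
  -- (b)
  have hb : shf T Λ (Y j + W j) - shf T Λ (Y j) - W j - MvPolynomial.X o *
      (∑ β ∈ S, MvPolynomial.monomial β
        (derivative (g β j) - C (∑ i, (β i : ℂ) * γ i) * g β j)) ∈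
      Ideal.span {(MvPolynomial.X o : AA ι)} * II ι ^ (M + 1) := by
    have h1 : shf T Λ (Y j + W j) - shf T Λ (Y j) - W j - MvPolynomial.X o *
      (∑ β ∈ S, MvPolynomial.monomial β
        (derivative (g β j) - C (∑ i, (β i : ℂ) * γ i) * g β j)) =
        ∑ β ∈ S, (shf T Λ (MvPolynomial.monomial β (g β j)) - MvPolynomial.monomial β (g β j) -
          MvPolynomial.X o * MvPolynomial.monomial β
            (derivative (g β j) - C (∑ i, (β i : ℂ) * γ i) * g β j)) := by
      rw [Finset.sum_sub_distrib, Finset.sum_sub_distrib, ← Finset.mul_sum, map_add,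
        add_sub_cancel_left]
      change shf T Λ (∑ β ∈ S, MvPolynomial.monomial β (g β j)) - _ - _ = _
      rw [map_sum]
    rw [h1]
    refine Ideal.sum_mem _ fun β hβ => ?_
    have h2 := shf_monomial h β (g β j)
    rw [hS β hβ] at h2
    exact h2
  -- (c)
  have hc1 : (cmp (fun j => Y j + W j) (P j) - cmp Y (P j) -
      ∑ k, cst ι (MvPolynomial.eval c (MvPolynomial.pderiv k (P j))) * W k) +
      ∑ i, MvPolynomial.X i * (cmp (fun j => Y j + W j) (Q i j) - cmp Y (Q i j)) ∈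
      II ι ^ (M + 1) := by
    refine Ideal.add_mem _ (cmp_add c Y W M hM hY hW (P j)) (Ideal.sum_mem _ fun i _ => ?_)
    rw [mul_comm, pow_succ]
    exact Ideal.mul_mem_mul (cmp_sub_mem Y W M hW (Q i j)) (X_mem i)
  have hD : rhs o P Q (fun j => Y j + W j) j - rhs o P Q Y j = W j + MvPolynomial.X o *
      ((∑ k, cst ι (MvPolynomial.eval c (MvPolynomial.pderiv k (P j))) * W k) +
        ((cmp (fun j => Y j + W j) (P j) - cmp Y (P j) -
      ∑ k, cst ι (MvPolynomial.eval c (MvPolynomial.pderiv k (P j))) * W k) +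
      ∑ i, MvPolynomial.X i * (cmp (fun j => Y j + W j) (Q i j) - cmp Y (Q i j)))) := by
    have h1 : ∑ i, (MvPolynomial.X i : AA ι) * (cmp (fun j => Y j + W j) (Q i j) - cmp Y (Q i j)) =
        (∑ i, MvPolynomial.X i * cmp (fun j => Y j + W j) (Q i j)) -
          ∑ i, MvPolynomial.X i * cmp Y (Q i j) := by
      rw [← Finset.sum_sub_distrib]
      exact Finset.sum_congr rfl fun i _ => mul_sub _ _ _
    unfold rhs
    rw [h1]
    ring
  have hSW : (∑ k, cst ι (MvPolynomial.eval c (MvPolynomial.pderiv k (P j))) * W k) ∈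
      II ι ^ M := Ideal.sum_mem _ fun k _ => Ideal.mul_mem_left _ _ (hW k)
  set E1 : AA ι := (cmp (fun j => Y j + W j) (P j) - cmp Y (P j) -
      ∑ k, cst ι (MvPolynomial.eval c (MvPolynomial.pderiv k (P j))) * W k) +
      ∑ i, MvPolynomial.X i * (cmp (fun j => Y j + W j) (Q i j) - cmp Y (Q i j)) with hE1
  set SW : AA ι := ∑ k, cst ι (MvPolynomial.eval c (MvPolynomial.pderiv k (P j))) * W k with hSWd
  have hE1M : E1 ∈ II ι ^ M := Ideal.pow_le_pow_right (Nat.le_succ M) hc1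
  set D : AA ι := rhs o P Q (fun j => Y j + W j) j - rhs o P Q Y j with hDd
  have hDM : D ∈ II ι ^ M := by
    rw [hD]
    exact Ideal.add_mem _ (hW j) (Ideal.mul_mem_left _ _ (Ideal.add_mem _ hSW hE1M))
  -- (d)
  have hd : (B j - 1 - cst ι (q j) * MvPolynomial.X o) * D ∈
      Ideal.span {(MvPolynomial.X o : AA ι)} * II ι ^ (M + 1) := sq_mul_mem o M (h.hB j) hDM
  have hDW : D - W j ∈ II ι ^ (M + 1) := by
    rw [hD, add_sub_cancel_left, mul_comm, pow_succ]
    exact Ideal.mul_mem_mul (Ideal.add_mem _ hSW hE1M) (X_mem o)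
  have hd2 : MvPolynomial.X o * (cst ι (q j) * (D - W j)) ∈
      Ideal.span {(MvPolynomial.X o : AA ι)} * II ι ^ (M + 1) :=
    mul_mem_span (Ideal.mul_mem_left _ _ hDW)
  have hd3 : MvPolynomial.X o * E1 ∈
      Ideal.span {(MvPolynomial.X o : AA ι)} * II ι ^ (M + 1) := mul_mem_span hc1
  have hbr : (∑ β ∈ S, (MvPolynomial.monomial β
        (derivative (g β j) - C (∑ i, (β i : ℂ) * γ i) * g β j) : AA ι)) =
      (∑ β ∈ S, MvPolynomial.monomial β (MvPolynomial.coeff β (e' j))) + SW +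
        cst ι (q j) * W j := by
    rw [Finset.sum_congr rfl fun β _ => a5_ode β
      (fun j k => MvPolynomial.eval c (MvPolynomial.pderiv k (P j))) q
      (∑ i, (β i : ℂ) * γ i) (g β) (fun j => MvPolynomial.coeff β (e' j)) (hg β) j,
      Finset.sum_add_distrib, Finset.sum_add_distrib, ← Finset.mul_sum, Finset.sum_comm]
    refine congrArg₂ _ (congrArg₂ _ rfl ?_) rfl
    refine Finset.sum_congr rfl fun k _ => ?_
    rw [← Finset.mul_sum]
  have key : err o B T Λ P Q (fun j => Y j + W j) j =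
      MvPolynomial.X o * (e' j - ∑ β ∈ S, MvPolynomial.monomial β (MvPolynomial.coeff β (e' j))) +
      (B j - 1 - cst ι (q j) * MvPolynomial.X o) * D +
      MvPolynomial.X o * (cst ι (q j) * (D - W j)) + MvPolynomial.X o * E1 -
      (shf T Λ (Y j + W j) - shf T Λ (Y j) - W j - MvPolynomial.X o *
      (∑ β ∈ S, MvPolynomial.monomial β
        (derivative (g β j) - C (∑ i, (β i : ℂ) * γ i) * g β j))) := by
    have h1 : err o B T Λ P Q (fun j => Y j + W j) j = err o B T Λ P Q Y j + B j * D -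
        (shf T Λ (Y j + W j) - shf T Λ (Y j)) := by
      rw [hDd]
      unfold err
      ring
    rw [h1, hee j, hbr]
    have h2 : D = W j + MvPolynomial.X o * (SW + E1) := hD
    have h3 : B j * D = (B j - 1 - cst ι (q j) * MvPolynomial.X o) * D + D +
        cst ι (q j) * MvPolynomial.X o * D := by ring
    rw [h3]
    linear_combination h2
  rw [key]
  exact Ideal.sub_mem _ (Ideal.add_mem _ (Ideal.add_mem _ (Ideal.add_mem _ (mul_mem_span ha) hd)
    hd2) hd3) hb

end FFL
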