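import Pool.Agent.FFL.A5

/-!
# [FFL-A6] the formal solution

Induction on `M`.  `M = 1`: `Y_j = cst c_j`: `cmp Y p = cst (eval c p)` (`cmp_const`), `shf Y_j = Y_j` (`shf_cst`), so
`err_j = B_j (c_j + x_o (P_j(c) + ∑ x_i Q_ij(c))) - c_j`.  With `B_j = 1 + q_j x_o + s`, `s ∈ (x_o²)`:
`= x_o (q_j c_j + P_j(c)) + x_o ∑ x_i Q_ij(c) + q_j x_o² (...) + s (...)`, the first term vanishes by `hc`, the others are
in `x_o I`.  Step: `formal_step`.  (`M = 0`: weaker than `M = 1`.)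
-/

set_option autoImplicit false

open Polynomial

namespace FFL

variable {n : ℕ} {ι : Type} [Fintype ι]

theorem a6_one {o : ι} {γ : ι → ℂ} {q : Fin n → ℂ} {B : Fin n → AA ι} {T : ι → AA ι}
    {Λ : AA ι} (h : Formal o γ q B T Λ) (P : Fin n → MvPolynomial (Fin n) ℂ)
    (Q : ι → Fin n → MvPolynomial (Fin n) ℂ) (c : Fin n → ℂ)
    (hc : ∀ j, MvPolynomial.eval c (P j) = -q j * c j) (j : Fin n) :
    err o B T Λ P Q (fun j => cst ι (c j)) j ∈
      Ideal.span {(MvPolynomial.X o : AA ι)} * II ι ^ 1 := by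
  have h1 : rhs o P Q (fun j => cst ι (c j)) j = cst ι (c j) + MvPolynomial.X o *
      (- (cst ι (q j) * cst ι (c j)) +
        ∑ i, MvPolynomial.X i * cst ι (MvPolynomial.eval c (Q i j))) := by
    unfold rhs
    rw [cmp_const, hc, neg_mul, neg_eq_neg_one_mul, a3_cst_mul, a3_cst_mul]
    have h2 : cst ι (-1) = -1 := by
      unfold cst
      rw [map_neg, map_neg, map_one, map_one]
    rw [h2]
    have h3 : ∑ i, MvPolynomial.X i * cmp (fun j => cst ι (c j)) (Q i j) =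
        ∑ i, MvPolynomial.X i * cst ι (MvPolynomial.eval c (Q i j)) :=
      Finset.sum_congr rfl fun i _ => by rw [cmp_const]
    rw [h3]
    ring
  set R : AA ι := ∑ i, MvPolynomial.X i * cst ι (MvPolynomial.eval c (Q i j)) with hR
  have hRI : R ∈ II ι ^ 1 := by
    rw [pow_one]
    exact Ideal.sum_mem _ fun i _ => Ideal.mul_mem_right _ _ (X_mem i)
  have key : err o B T Λ P Q (fun j => cst ι (c j)) j =
      (B j - 1 - cst ι (q j) * MvPolynomial.X o) * (cst ι (c j) + MvPolynomial.X o *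
        (- (cst ι (q j) * cst ι (c j)) + R)) + MvPolynomial.X o * (R +
        MvPolynomial.X o * (cst ι (q j) * (- (cst ι (q j) * cst ι (c j)) + R))) := by
    unfold err
    rw [h1, shf_cst]
    ring
  rw [key]
  refine Ideal.add_mem _ ?_ (mul_mem_span (Ideal.add_mem _ hRI ?_))
  · exact sq_mul_mem o 0 (h.hB j) (by
      rw [pow_zero, Ideal.one_eq_top]
      exact Submodule.mem_top)
  · rw [pow_one]
    exact Ideal.mul_mem_right _ _ (X_mem o)

theorem a6_succ {o : ι} {γ : ι → ℂ} {q : Fin n → ℂ} {B : Fin n → AA ι} {T : ι → AA ι}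
    {Λ : AA ι} (h : Formal o γ q B T Λ) (P : Fin n → MvPolynomial (Fin n) ℂ)
    (Q : ι → Fin n → MvPolynomial (Fin n) ℂ) (c : Fin n → ℂ)
    (hc : ∀ j, MvPolynomial.eval c (P j) = -q j * c j) (M : ℕ) :
    ∃ Y : Fin n → AA ι, (∀ j, Y j - cst ι (c j) ∈ II ι) ∧
      ∀ j, err o B T Λ P Q Y j ∈ Ideal.span {(MvPolynomial.X o : AA ι)} * II ι ^ (M + 1) := by
  induction M with
  | zero =>
    refine ⟨fun j => cst ι (c j), fun j => ?_, fun j => a6_one h P Q c hc j⟩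
    rw [sub_self]
    exact Ideal.zero_mem _
  | succ M ih =>
    obtain ⟨Y, hY, hE⟩ := ih
    obtain ⟨W, hW, hE2⟩ := formal_step h P Q c (M + 1) (Nat.succ_le_succ (Nat.zero_le M)) Y hY hE
    refine ⟨fun j => Y j + W j, fun j => ?_, hE2⟩
    have h1 : Y j + W j - cst ι (c j) = (Y j - cst ι (c j)) + W j := by ring
    rw [h1]
    exact Ideal.add_mem _ (hY j) (Ideal.pow_le_self (Nat.succ_ne_zero M) (hW j))

theorem formal_solution {o : ι} {γ : ι → ℂ} {q : Fin n → ℂ} {B : Fin n → AA ι} {T : ι → AA ι}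
    {Λ : AA ι} (h : Formal o γ q B T Λ) (P : Fin n → MvPolynomial (Fin n) ℂ)
    (Q : ι → Fin n → MvPolynomial (Fin n) ℂ) (c : Fin n → ℂ)
    (hc : ∀ j, MvPolynomial.eval c (P j) = -q j * c j) (M : ℕ) :
    ∃ Y : Fin n → AA ι, (∀ j, Y j - cst ι (c j) ∈ II ι) ∧
      ∀ j, err o B T Λ P Q Y j ∈ Ideal.span {(MvPolynomial.X o : AA ι)} * II ι ^ M := by
  obtain ⟨Y, hY, hE⟩ := a6_succ h P Q c hc M
  refine ⟨Y, hY, fun j => ?_⟩
  exact Ideal.mul_mono_right (Ideal.pow_le_pow_right (Nat.le_succ M)) (hE j)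

end FFL
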