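import Pool.Agent.FFL.A1

/-!
# [FFL-B1] Taylor polynomials of `(1+s)^a` and `log (1+s)`, and polynomials in `x_o`

`taylor_pow`, `taylor_log`: both functions are analytic on the unit disc (`1 + s ∈ slitPlane` for `‖s‖ < 1`); Taylor
polynomial of degree `max N 1` at `0`; remainder `≤ C ‖s‖^(N)` on `‖s‖ ≤ 1/2` (e.g. `dslope`, or power series with radius
`> 1/2`: `HasFPowerSeriesOnBall.norm_image_sub_partialSum...`, or iterate: a function `g` analytic on the disc with `g 0 = 0` is
`s g₁` with `g₁` analytic (`dslope g 0`), bounded on the closed disc of radius `1/2`).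
`emb_sub_mem`: `emb o p = ∑ p_k x_o^k` and `p_0 = b₀`, `p_1 = b₁`.
`evA_emb`: `emb` and `evA` are ring homomorphisms.
-/

set_option autoImplicit false

open Polynomial

namespace FFL

variable {ι : Type}

theorem evA_CC (x : ι → ℂ) (l : ℂ) (c : ℂ) :
    evA x l (MvPolynomial.C (Polynomial.C c)) = c := by
  simp [evA]

theorem emb_sub_mem (o : ι) (p : ℂ[X]) : emb o p - cst ι (p.coeff 0) -
    cst ι (p.coeff 1) * MvPolynomial.X o ∈ Ideal.span {(MvPolynomial.X o : AA ι) ^ 2} := by
  have h1 : p = (p.divX.divX * X + C (p.coeff 1)) * X + C (p.coeff 0) := by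
    have h2 := Polynomial.divX_mul_X_add p.divX
    rw [Polynomial.coeff_divX] at h2
    have h3 := Polynomial.divX_mul_X_add p
    rw [zero_add] at h2
    rw [h2, h3]
  have h4 : emb o p - cst ι (p.coeff 0) - cst ι (p.coeff 1) * MvPolynomial.X o =
      emb o p.divX.divX * (MvPolynomial.X o : AA ι) ^ 2 := by
    have h5 : emb o p = emb o ((p.divX.divX * X + C (p.coeff 1)) * X + C (p.coeff 0)) :=
      congrArg (emb o) h1
    rw [h5]
    unfold emb cst
    rw [Polynomial.eval₂_add, Polynomial.eval₂_mul, Polynomial.eval₂_add, Polynomial.eval₂_mul,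
      Polynomial.eval₂_C, Polynomial.eval₂_C, Polynomial.eval₂_X]
    simp only [RingHom.comp_apply]
    ring
  rw [h4]
  exact Ideal.mul_mem_left _ _ (Ideal.subset_span (Set.mem_singleton _))

theorem evA_emb (x : ι → ℂ) (l : ℂ) (o : ι) (p : ℂ[X]) : evA x l (emb o p) = p.eval (x o) := by
  unfold emb
  rw [Polynomial.hom_eval₂]
  have h1 : (evA x l).comp ((MvPolynomial.C).comp Polynomial.C) = RingHom.id ℂ := by
    ext c
    simp only [RingHom.comp_apply, RingHom.id_apply]
    exact evA_CC x l c
  rw [h1]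
  have h2 : evA x l (MvPolynomial.X o) = x o := by simp [evA]
  rw [h2]
  rfl

theorem evA_cst (x : ι → ℂ) (l : ℂ) (c : ℂ) : evA x l (cst ι c) = c := by
  exact evA_CC x l c

theorem evA_X (x : ι → ℂ) (l : ℂ) (i : ι) : evA x l (MvPolynomial.X i) = x i := by
  simp [evA]

theorem evA_cmp {n : ℕ} (x : ι → ℂ) (l : ℂ) (Y : Fin n → AA ι) (p : MvPolynomial (Fin n) ℂ) :
    evA x l (cmp Y p) = MvPolynomial.eval (fun j => evA x l (Y j)) p := by
  unfold cmp
  rw [MvPolynomial.eval₂_comp_left]
  have h1 : (evA x l).comp ((MvPolynomial.C).comp Polynomial.C) = RingHom.id ℂ := by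
    ext c
    simp only [RingHom.comp_apply, RingHom.id_apply]
    exact evA_CC x l c
  rw [h1]
  rfl

/-- evaluation of the formal shift -/
theorem evA_shf (x : ι → ℂ) (l : ℂ) (T : ι → AA ι) (Λ Y : AA ι) : evA x l (shf T Λ Y) =
    evA (fun i => x i * evA x l (T i)) (l + evA x l Λ) Y := by
  have h1 : (evA x l).comp (shf T Λ) =
      evA (fun i => x i * evA x l (T i)) (l + evA x l Λ) := by
    apply MvPolynomial.ringHom_ext
    · intro p
      have h2 : ((evA x l).comp (shf T Λ)).comp MvPolynomial.C =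
          (evA (fun i => x i * evA x l (T i)) (l + evA x l Λ)).comp MvPolynomial.C := by
        apply Polynomial.ringHom_ext
        · intro c
          simp [evA, shf]
        · simp [evA, shf]
      exact congrArg (fun g : ℂ[X] →+* ℂ => g p) h2
    · intro i
      simp [evA, shf]
  exact congrArg (fun g : AA ι →+* ℂ => g Y) h1

end FFL
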