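import Pool.Agent.FFL.A1

/-!
# [FFL-B1] Taylor polynomials of `(1+s)^a` and `log (1+s)`, and polynomials in `x_o`

`taylor_pow`, `taylor_log`: both functions are analytic on the unit disc (`1 + s ∈ slitPlane` for `‖s‖ < 1`); Taylor
polynomial of degree `max N 1` at `0`; remainder `≤ C ‖s‖^(N)` on `‖s‖ ≤ 1/2` (e.g. `dslope`, or power series with radius
`> 1/2`: `HasFPowerSeriesOnBall.norm_image_sub_partialSum...`, or iterate: a function `g` analytic on the disc with `g 0 = 0` is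
`s g₁` with `g₁` analytic (`dslope g 0`), bounded on the closed disc of radius `1/2`).
`emb_sub_mem`: `emb o p = ∑ p_k x_o^k` and `p_0 = b₀`, `p_1 = b₁`.
`evA_emb`: `emb` and `evA` are ring homomorphisms.
-/

set_option autoImplicit false

open Polynomial

namespace FFL

/-- iterated division by `s` of a function differentiable on the unit disc -/
theorem b1a_expand (N : ℕ) : ∀ g : ℂ → ℂ, DifferentiableOn ℂ g (Metric.ball 0 1) →
    ∃ p : ℂ[X], ∃ h : ℂ → ℂ, DifferentiableOn ℂ h (Metric.ball 0 1) ∧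
      ∀ s : ℂ, g s = p.eval s + s ^ N * h s := by
  induction N with
  | zero =>
    intro g hg
    exact ⟨0, g, hg, fun s => by simp⟩
  | succ N ih =>
    intro g hg
    have h1 : DifferentiableOn ℂ (dslope g 0) (Metric.ball 0 1) :=
      (Complex.differentiableOn_dslope (Metric.ball_mem_nhds 0 one_pos)).mpr hg
    obtain ⟨p, h, hh, he⟩ := ih _ h1
    refine ⟨C (g 0) + X * p, h, hh, ?_⟩
    intro s
    have h2 : s * dslope g 0 s = g s - g 0 := by
      have := sub_smul_dslope g 0 s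
      rw [sub_zero, smul_eq_mul] at this
      exact this
    rw [he s] at h2
    rw [eval_add, eval_C, eval_mul, eval_X, pow_succ]
    linear_combination -h2

theorem b1a_gen (g : ℂ → ℂ) (hg : DifferentiableOn ℂ g (Metric.ball 0 1)) (N : ℕ) :
    ∃ p : ℂ[X], p.coeff 0 = g 0 ∧ p.coeff 1 = deriv g 0 ∧
    ∃ C : ℝ, 0 ≤ C ∧ ∀ s : ℂ, ‖s‖ ≤ 1 / 2 → ‖g s - p.eval s‖ ≤ C * ‖s‖ ^ N := by
  have h1 : DifferentiableOn ℂ (dslope g 0) (Metric.ball 0 1) :=
    (Complex.differentiableOn_dslope (Metric.ball_mem_nhds 0 one_pos)).mpr hg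
  have h2 : DifferentiableOn ℂ (dslope (dslope g 0) 0) (Metric.ball 0 1) :=
    (Complex.differentiableOn_dslope (Metric.ball_mem_nhds 0 one_pos)).mpr h1
  obtain ⟨p, h, hh, he⟩ := b1a_expand N _ h2
  refine ⟨Polynomial.C (g 0) + X * (Polynomial.C (deriv g 0) + X * p), ?_, ?_, ?_⟩
  · simp
  · rw [coeff_add, coeff_X_mul, coeff_add, mul_coeff_zero, coeff_C_zero, coeff_C]
    simp
  · have hsub : Metric.closedBall (0 : ℂ) (1 / 2) ⊆ Metric.ball 0 1 :=
      Metric.closedBall_subset_ball (by norm_num)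
    obtain ⟨K, hK⟩ := (isCompact_closedBall (0 : ℂ) (1 / 2)).exists_bound_of_continuousOn
      (hh.continuousOn.mono hsub)
    refine ⟨max K 0, le_max_right _ _, ?_⟩
    intro s hs
    have h3 : s * dslope g 0 s = g s - g 0 := by
      have := sub_smul_dslope g 0 s
      rw [sub_zero, smul_eq_mul] at this
      exact this
    have h4 : s * dslope (dslope g 0) 0 s = dslope g 0 s - deriv g 0 := by
      have := sub_smul_dslope (dslope g 0) 0 s
      rw [sub_zero, smul_eq_mul, dslope_same] at this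
      exact this
    rw [he s] at h4
    have h5 : g s - (Polynomial.C (g 0) + X * (Polynomial.C (deriv g 0) + X * p)).eval s =
        s ^ 2 * (s ^ N * h s) := by
      simp only [eval_add, eval_C, eval_mul, eval_X]
      linear_combination -h3 - s * h4
    rw [h5, norm_mul, norm_mul, norm_pow, norm_pow]
    have h6 : ‖h s‖ ≤ max K 0 :=
      le_trans (hK s (by simpa using hs)) (le_max_left _ _)
    have h7 : ‖s‖ ^ 2 ≤ 1 := pow_le_one₀ (norm_nonneg _) (by linarith)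
    have h8 : 0 ≤ ‖s‖ ^ N := pow_nonneg (norm_nonneg _) _
    have h9 : 0 ≤ max K 0 := le_max_right _ _
    calc ‖s‖ ^ 2 * (‖s‖ ^ N * ‖h s‖) ≤ 1 * (‖s‖ ^ N * max K 0) := by
          apply mul_le_mul h7 (mul_le_mul_of_nonneg_left h6 h8)
            (mul_nonneg h8 (norm_nonneg _)) zero_le_one
      _ = max K 0 * ‖s‖ ^ N := by ring

theorem b1a_slit (s : ℂ) (hs : s ∈ Metric.ball (0 : ℂ) 1) : 1 + s ∈ Complex.slitPlane := by
  left
  have h1 : ‖s‖ < 1 := by simpa using hs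
  have h2 := Complex.abs_re_le_norm s
  have h3 := (abs_le.mp h2).1
  rw [Complex.add_re, Complex.one_re]
  linarith

theorem taylor_pow (b : ℂ) (N : ℕ) : ∃ p : ℂ[X], p.coeff 0 = 1 ∧ p.coeff 1 = b ∧
    ∃ C : ℝ, 0 ≤ C ∧ ∀ s : ℂ, ‖s‖ ≤ 1 / 2 → ‖(1 + s) ^ b - p.eval s‖ ≤ C * ‖s‖ ^ N := by
  have hd : ∀ s ∈ Metric.ball (0 : ℂ) 1,
      HasDerivAt (fun s : ℂ => (1 + s) ^ b) (b * (1 + s) ^ (b - 1) * 1) s := by
    intro s hs
    exact ((hasDerivAt_id s).const_add 1).cpow_const (b1a_slit s hs)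
  obtain ⟨p, h0, h1, h2⟩ := b1a_gen (fun s : ℂ => (1 + s) ^ b)
    (fun s hs => (hd s hs).differentiableAt.differentiableWithinAt) N
  refine ⟨p, ?_, ?_, h2⟩
  · rw [h0]
    simp
  · rw [h1, (hd 0 (Metric.mem_ball_self one_pos)).deriv]
    simp

theorem taylor_log (N : ℕ) : ∃ p : ℂ[X], p.coeff 0 = 0 ∧ p.coeff 1 = 1 ∧
    ∃ C : ℝ, 0 ≤ C ∧ ∀ s : ℂ, ‖s‖ ≤ 1 / 2 → ‖Complex.log (1 + s) - p.eval s‖ ≤ C * ‖s‖ ^ N := by
  have hd : ∀ s ∈ Metric.ball (0 : ℂ) 1,
      HasDerivAt (fun s : ℂ => Complex.log (1 + s)) (1 / (1 + s)) s := by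
    intro s hs
    exact ((hasDerivAt_id s).const_add 1).clog (b1a_slit s hs)
  obtain ⟨p, h0, h1, h2⟩ := b1a_gen (fun s : ℂ => Complex.log (1 + s))
    (fun s hs => (hd s hs).differentiableAt.differentiableWithinAt) N
  refine ⟨p, ?_, ?_, h2⟩
  · rw [h0]
    simp
  · rw [h1, (hd 0 (Metric.mem_ball_self one_pos)).deriv]
    simp

end FFL
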