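import Pool.Agent.FFL.B1

/-!
# [FFL-B2] values of elements of the formal ring on the half plane

For `ζ ∈ HP 1` (`Re ζ > 1`): `|arg ζ| ≤ π/2`, `‖ζ^(-g)‖ ≤ e^{π |Im g|/2} ‖ζ‖^(-Re g)` (`Complex.norm_cpow_of_ne_zero`,
`Complex.abs_arg_le_pi_div_two_iff`), `‖log ζ‖ ≤ log ‖ζ‖ + π/2`, and for all `k` and `ε > 0` there is a constant with
`(1 + ‖log ζ‖)^k ≤ C ‖ζ‖^ε` on `HP 1` (`Real.log_le_rpow_div` and `‖ζ‖ ≥ 1`).
`evA_bound`: `e` is a finite sum of monomials `x^β p(l)` with `|β| ≥ M` (`mem_II_pow`,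
`MvPolynomial.support_sum_monomial_coeff`); `‖x^β‖ ≤ C ‖ζ‖^(-∑ β_i Re γ_i) ≤ C ‖ζ‖^(-Mρ)` (`ρ ≤ Re γ_i`, `‖ζ‖ ≥ 1`) and
`‖p(log ζ)‖ ≤ C (1 + ‖log ζ‖)^(deg p)`.
`evA_bound_X`: `e = X_o e'` (`mem_span_mul`), `x_o = ζ^(-1)`.
`y0_lim`: `evA_bound` with `M = 1`, `κ = ρ/2`, `ρ = min Re γ_i` (if `ι` is empty any `ρ`).
`y0_holo`: `ζ ↦ ζ^(-γ i)` and `log` are holomorphic on `Re ζ > 0`; induction over the polynomials.
-/

set_option autoImplicit false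

open Polynomial

namespace FFL

variable {n : ℕ} {ι : Type} [Fintype ι]

theorem cpow_bound (g : ℂ) : ∃ C : ℝ, 0 < C ∧ ∀ ζ ∈ HP 0, ‖ζ ^ (-g)‖ ≤ C * ‖ζ‖ ^ (-g.re) := by
  refine ⟨Real.exp (Real.pi * |g.im|), Real.exp_pos _, fun ζ hζ => ?_⟩
  have hz : ζ ≠ 0 := by
    rintro rfl
    rw [mem_HP, Complex.zero_re] at hζ
    exact lt_irrefl _ hζ
  rw [Complex.norm_cpow_of_ne_zero hz, Complex.neg_re, Complex.neg_im, div_eq_mul_inv,
    ← Real.exp_neg, mul_comm]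
  apply mul_le_mul_of_nonneg_right _ (Real.rpow_nonneg (norm_nonneg _) _)
  apply Real.exp_le_exp.2
  have h1 : -(ζ.arg * -g.im) = ζ.arg * g.im := by ring
  rw [h1]
  calc ζ.arg * g.im ≤ |ζ.arg * g.im| := le_abs_self _
    _ = |ζ.arg| * |g.im| := abs_mul _ _
    _ ≤ Real.pi * |g.im| :=
      mul_le_mul_of_nonneg_right (Complex.abs_arg_le_pi ζ) (abs_nonneg _)

theorem log_bound (k : ℕ) (ε : ℝ) (hε : 0 < ε) : ∃ C : ℝ, 0 < C ∧ ∀ ζ ∈ HP 1,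
    (1 + ‖Complex.log ζ‖) ^ k ≤ C * ‖ζ‖ ^ ε := by
  have hk : (0 : ℝ) < k + 1 := by positivity
  have he : 0 < ε / (k + 1) := div_pos hε hk
  refine ⟨(1 + Real.pi + 1 / (ε / (k + 1))) ^ k, by positivity, fun ζ hζ => ?_⟩
  have hn : 1 ≤ ‖ζ‖ := by
    have h1 : 1 < ζ.re := hζ
    have h2 : ζ.re ≤ ‖ζ‖ := (le_abs_self _).trans (Complex.abs_re_le_norm ζ)
    linarith
  have hn0 : 0 < ‖ζ‖ := by linarith
  have h1 : ‖Complex.log ζ‖ ≤ Real.log ‖ζ‖ + Real.pi := by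
    have h2 := Complex.norm_le_abs_re_add_abs_im (Complex.log ζ)
    rw [Complex.log_re, Complex.log_im, abs_of_nonneg (Real.log_nonneg hn)] at h2
    have h3 := Complex.abs_arg_le_pi ζ
    linarith
  have h2 : Real.log ‖ζ‖ ≤ ‖ζ‖ ^ (ε / (k + 1)) / (ε / (k + 1)) :=
    Real.log_le_rpow_div hn0.le he
  have h3 : 1 ≤ ‖ζ‖ ^ (ε / (k + 1)) := Real.one_le_rpow hn he.le
  have h4 : 1 + ‖Complex.log ζ‖ ≤ (1 + Real.pi + 1 / (ε / (k + 1))) * ‖ζ‖ ^ (ε / (k + 1)) := by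
    have h5 : (1 + Real.pi + 1 / (ε / (k + 1))) * ‖ζ‖ ^ (ε / (k + 1)) =
        (1 + Real.pi) * ‖ζ‖ ^ (ε / (k + 1)) + ‖ζ‖ ^ (ε / (k + 1)) / (ε / (k + 1)) := by ring
    rw [h5]
    have h6 : 1 + Real.pi ≤ (1 + Real.pi) * ‖ζ‖ ^ (ε / (k + 1)) :=
      le_mul_of_one_le_right (by positivity) h3
    linarith
  calc (1 + ‖Complex.log ζ‖) ^ k
      ≤ ((1 + Real.pi + 1 / (ε / (k + 1))) * ‖ζ‖ ^ (ε / (k + 1))) ^ k := by
        gcongr
    _ = (1 + Real.pi + 1 / (ε / (k + 1))) ^ k * ‖ζ‖ ^ (ε / (k + 1) * k) := by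
        rw [mul_pow, Real.rpow_mul hn0.le, Real.rpow_natCast]
    _ ≤ (1 + Real.pi + 1 / (ε / (k + 1))) ^ k * ‖ζ‖ ^ ε := by
        apply mul_le_mul_of_nonneg_left _ (by positivity)
        apply Real.rpow_le_rpow_of_exponent_le hn
        rw [div_mul_eq_mul_div, div_le_iff₀ hk]
        nlinarith

omit [Fintype ι] in
theorem b2a_evA (γ : ι → ℂ) (p : AA ι) :
    DifferentiableOn ℂ (fun ζ => evA (xv γ ζ) (Complex.log ζ) p) (HP 0) := by
  have hsl : ∀ ζ ∈ HP 0, ζ ∈ Complex.slitPlane := fun ζ hζ => Or.inl hζ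
  have hlog : DifferentiableOn ℂ Complex.log (HP 0) := fun ζ hζ =>
    (Complex.differentiableAt_log (hsl ζ hζ)).differentiableWithinAt
  induction p using MvPolynomial.induction_on with
  | C a =>
    have h1 : (fun ζ => evA (xv γ ζ) (Complex.log ζ) (MvPolynomial.C a)) =
        fun ζ => a.eval (Complex.log ζ) := by
      funext ζ
      unfold evA
      rw [MvPolynomial.eval₂Hom_C]
      rfl
    rw [h1]
    exact (a.differentiable.differentiableOn (s := Set.univ)).comp hlog (fun _ _ => Set.mem_univ _)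
  | add p q hp hq =>
    have h1 : (fun ζ => evA (xv γ ζ) (Complex.log ζ) (p + q)) =
        fun ζ => evA (xv γ ζ) (Complex.log ζ) p + evA (xv γ ζ) (Complex.log ζ) q := by
      funext ζ
      rw [map_add]
    rw [h1]
    exact hp.add hq
  | mul_X p i hp =>
    have h1 : (fun ζ => evA (xv γ ζ) (Complex.log ζ) (p * MvPolynomial.X i)) =
        fun ζ => evA (xv γ ζ) (Complex.log ζ) p * ζ ^ (-γ i) := by
      funext ζ
      rw [map_mul]
      congr 1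
      unfold evA
      rw [MvPolynomial.eval₂Hom_X']
      rfl
    rw [h1]
    refine hp.mul fun ζ hζ => ?_
    exact (differentiableAt_id.cpow_const (hsl ζ hζ)).differentiableWithinAt

theorem y0_holo (γ : ι → ℂ) (Y : Fin n → AA ι) : DifferentiableOn ℂ (y0 γ Y) (HP 0) := by
  rw [differentiableOn_pi]
  intro j
  exact b2a_evA γ (Y j)

end FFL
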