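import Pool.Agent.FFL.B2a

/-!
# [FFL-B2] values of elements of the formal ring on the half plane

For `ζ ∈ HP 1` (`Re ζ > 1`): `|arg ζ| ≤ π/2`, `‖ζ^(-g)‖ ≤ e^{π |Im g|/2} ‖ζ‖^(-Re g)` (`Complex.norm_cpow_of_ne_zero`,
`Complex.abs_arg_le_pi_div_two_iff`), `‖log ζ‖ ≤ log ‖ζ‖ + π/2`, and for all `k` and `ε > 0` there is a constant with
`(1 + ‖log ζ‖)^k ≤ C ‖ζ‖^ε` on `HP 1` (`Real.log_le_rpow_div` and `‖ζ‖ ≥ 1`).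
`evA_bound`: `e` is a finite sum of monomials `x^β p(l)` with `|β| ≥ M` (`mem_II_pow`,
`MvPolynomial.support_sum_monomial_coeff`); `‖x^β‖ ≤ C ‖ζ‖^(-∑ β_i Re γ_i) ≤ C ‖ζ‖^(-Mρ)` (`ρ ≤ Re γ_i`, `‖ζ‖ ≥ 1`) and
`‖p(log ζ)‖ ≤ C (1 + ‖log ζ‖)^(deg p)`.
`evA_bound_X`: `e = X_o e'` (`mem_span_mul`), `x_o = ζ^(-1)`.
`y0_lim`: `evA_bound` with `M = 1`, `κ = ρ/2`, `ρ = min Re γ_i` (if `ι` is empty any `ρ`).
`y0_holo`: `ζ ↦ ζ^(-γ i)` and `log` are holomorphic on `Re ζ > 0`; induction over the polynomials.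
-/

set_option autoImplicit false

open Polynomial

namespace FFL

variable {n : ℕ} {ι : Type} [Fintype ι]

theorem B2b_one_le {ζ : ℂ} (hζ : ζ ∈ HP 1) : 1 ≤ ‖ζ‖ := by
  rw [mem_HP] at hζ
  exact hζ.le.trans (Complex.re_le_norm ζ)

theorem B2b_poly (p : ℂ[X]) (ε : ℝ) (hε : 0 < ε) : ∃ C : ℝ, 0 ≤ C ∧ ∀ ζ ∈ HP 1,
    ‖p.eval (Complex.log ζ)‖ ≤ C * ‖ζ‖ ^ ε := by
  choose C hC0 hC using fun k : ℕ => log_bound k ε hε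
  refine ⟨∑ k ∈ Finset.range (p.natDegree + 1), ‖p.coeff k‖ * C k,
    Finset.sum_nonneg fun k _ => mul_nonneg (norm_nonneg _) (hC0 k).le, ?_⟩
  intro ζ hζ
  rw [Polynomial.eval_eq_sum_range, Finset.sum_mul]
  refine (norm_sum_le _ _).trans (Finset.sum_le_sum fun k _ => ?_)
  rw [norm_mul, norm_pow, mul_assoc]
  refine mul_le_mul_of_nonneg_left ?_ (norm_nonneg _)
  refine le_trans ?_ (hC k ζ hζ)
  exact pow_le_pow_left₀ (norm_nonneg _) (by linarith [norm_nonneg (Complex.log ζ)]) k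

theorem B2b_mon (γ : ι → ℂ) (ρ : ℝ) (hγ : ∀ i, ρ ≤ (γ i).re) (β : ι →₀ ℕ) :
    ∃ C : ℝ, 0 ≤ C ∧ ∀ ζ ∈ HP 1, ‖∏ i, xv γ ζ i ^ β i‖ ≤ C * ‖ζ‖ ^ (-(ρ * (β.degree : ℝ))) := by
  choose C hC0 hC using fun i : ι => cpow_bound (γ i)
  refine ⟨∏ i, C i ^ β i, Finset.prod_nonneg fun i _ => pow_nonneg (hC0 i).le _, ?_⟩
  intro ζ hζ
  have hz1 := B2b_one_le hζ
  have hz0 : 0 < ‖ζ‖ := by linarith
  have h0 : ζ ∈ HP 0 := HP_mono zero_le_one hζ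
  have h1 : ∀ i, ‖xv γ ζ i‖ ≤ C i * ‖ζ‖ ^ (-ρ) := by
    intro i
    refine (hC i ζ h0).trans (mul_le_mul_of_nonneg_left ?_ (hC0 i).le)
    exact Real.rpow_le_rpow_of_exponent_le hz1 (neg_le_neg (hγ i))
  have h2 : ‖ζ‖ ^ (-(ρ * (β.degree : ℝ))) = ∏ i, (‖ζ‖ ^ (-ρ)) ^ β i := by
    rw [Finset.prod_pow_eq_pow_sum, ← Real.rpow_natCast, ← Real.rpow_mul hz0.le,
      Finsupp.degree_eq_sum]
    congr 1
    ring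
  rw [h2, ← Finset.prod_mul_distrib, norm_prod]
  refine Finset.prod_le_prod (fun i _ => norm_nonneg _) fun i _ => ?_
  rw [norm_pow, ← mul_pow]
  exact pow_le_pow_left₀ (norm_nonneg _) (h1 i) _

theorem evA_bound (γ : ι → ℂ) (ρ : ℝ) (hρ : 0 < ρ) (hγ : ∀ i, ρ ≤ (γ i).re) (M : ℕ) (e : AA ι)
    (he : e ∈ II ι ^ M) (κ : ℝ) (hκ : κ < M * ρ) :
    ∃ C : ℝ, 0 ≤ C ∧ ∀ ζ ∈ HP 1, ‖evA (xv γ ζ) (Complex.log ζ) e‖ ≤ C * ‖ζ‖ ^ (-κ) := by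
  have hε : 0 < M * ρ - κ := by linarith
  have hdeg : ∀ β ∈ e.support, M ≤ β.degree := by
    intro β hβ
    by_contra hlt
    exact (MvPolynomial.mem_support_iff.mp hβ) ((mem_II_pow M e).mp he β (by omega))
  choose Cp hCp0 hCp using fun p : ℂ[X] => B2b_poly p (M * ρ - κ) hε
  choose Cm hCm0 hCm using fun β : ι →₀ ℕ => B2b_mon γ ρ hγ β
  refine ⟨∑ β ∈ e.support, Cp (MvPolynomial.coeff β e) * Cm β,
    Finset.sum_nonneg fun β _ => mul_nonneg (hCp0 _) (hCm0 _), ?_⟩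
  intro ζ hζ
  have hz1 := B2b_one_le hζ
  have hz0 : 0 < ‖ζ‖ := by linarith
  have h1 : evA (xv γ ζ) (Complex.log ζ) e = ∑ β ∈ e.support,
      (MvPolynomial.coeff β e).eval (Complex.log ζ) * ∏ i, xv γ ζ i ^ β i := by
    show MvPolynomial.eval₂ (Polynomial.evalRingHom (Complex.log ζ)) (xv γ ζ) e = _
    rw [MvPolynomial.eval₂_eq']
    rfl
  rw [h1, Finset.sum_mul]
  refine (norm_sum_le _ _).trans (Finset.sum_le_sum fun β hβ => ?_)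
  rw [norm_mul]
  have h2 := hCp (MvPolynomial.coeff β e) ζ hζ
  have h3 := hCm β ζ hζ
  have h4 : ‖ζ‖ ^ (-(ρ * (β.degree : ℝ))) ≤ ‖ζ‖ ^ (-(M * ρ)) := by
    apply Real.rpow_le_rpow_of_exponent_le hz1
    have h5 : (M : ℝ) ≤ (β.degree : ℝ) := by exact_mod_cast hdeg β hβ
    have h6 := mul_le_mul_of_nonneg_left h5 hρ.le
    linarith
  have h7 : ‖∏ i, xv γ ζ i ^ β i‖ ≤ Cm β * ‖ζ‖ ^ (-(M * ρ)) :=
    h3.trans (mul_le_mul_of_nonneg_left h4 (hCm0 β))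
  calc _ ≤ (Cp (MvPolynomial.coeff β e) * ‖ζ‖ ^ (M * ρ - κ)) * (Cm β * ‖ζ‖ ^ (-(M * ρ))) :=
        mul_le_mul h2 h7 (norm_nonneg _)
          (mul_nonneg (hCp0 _) (Real.rpow_nonneg hz0.le _))
    _ = Cp (MvPolynomial.coeff β e) * Cm β * (‖ζ‖ ^ (M * ρ - κ) * ‖ζ‖ ^ (-(M * ρ))) := by ring
    _ = Cp (MvPolynomial.coeff β e) * Cm β * ‖ζ‖ ^ (-κ) := by
        rw [← Real.rpow_add hz0]
        congr 2
        ring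

theorem evA_bound_X (o : ι) (γ : ι → ℂ) (go : γ o = 1) (ρ : ℝ) (hρ : 0 < ρ)
    (hγ : ∀ i, ρ ≤ (γ i).re) (M : ℕ) (e : AA ι)
    (he : e ∈ Ideal.span {(MvPolynomial.X o : AA ι)} * II ι ^ M) (κ : ℝ) (hκ : κ < M * ρ) :
    ∃ C : ℝ, 0 ≤ C ∧ ∀ ζ ∈ HP 1, ‖evA (xv γ ζ) (Complex.log ζ) e‖ ≤ C * ‖ζ‖ ^ (-(κ + 1)) := by
  obtain ⟨e', he', hee⟩ := mem_span_mul he
  obtain ⟨C, hC0, hC⟩ := evA_bound γ ρ hρ hγ M e' he' κ hκ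
  refine ⟨C, hC0, ?_⟩
  intro ζ hζ
  have hz1 := B2b_one_le hζ
  have hz0 : 0 < ‖ζ‖ := by linarith
  have h1 : evA (xv γ ζ) (Complex.log ζ) e = ζ⁻¹ * evA (xv γ ζ) (Complex.log ζ) e' := by
    rw [hee, map_mul, evA_X]
    unfold xv
    rw [go, Complex.cpow_neg_one]
  rw [h1, norm_mul, norm_inv]
  calc ‖ζ‖⁻¹ * ‖evA (xv γ ζ) (Complex.log ζ) e'‖ ≤ ‖ζ‖⁻¹ * (C * ‖ζ‖ ^ (-κ)) :=
        mul_le_mul_of_nonneg_left (hC ζ hζ) (inv_nonneg.mpr hz0.le)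
    _ = C * (‖ζ‖ ^ (-κ) * ‖ζ‖ ^ (-1 : ℝ)) := by
        rw [Real.rpow_neg_one]
        ring
    _ = C * ‖ζ‖ ^ (-(κ + 1)) := by
        rw [← Real.rpow_add hz0]
        congr 2
        ring

theorem y0_lim (γ : ι → ℂ) (hγ : ∀ i, 0 < (γ i).re) (c : Fin n → ℂ) (Y : Fin n → AA ι)
    (hY : ∀ j, Y j - cst ι (c j) ∈ II ι) :
    ∃ C ρ : ℝ, 0 ≤ C ∧ 0 < ρ ∧ ∀ ζ ∈ HP 1, ∀ j, ‖y0 γ Y ζ j - c j‖ ≤ C * ‖ζ‖ ^ (-ρ) := by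
  obtain ⟨ρ, hρ, hρ'⟩ : ∃ ρ : ℝ, 0 < ρ ∧ ∀ i, ρ ≤ (γ i).re := by
    rcases isEmpty_or_nonempty ι with hi | hi
    · exact ⟨1, one_pos, fun i => (hi.false i).elim⟩
    · obtain ⟨i0, hi0⟩ := Finite.exists_min (fun i => (γ i).re)
      exact ⟨(γ i0).re, hγ i0, hi0⟩
  have h1 : ∀ j, ∃ C : ℝ, 0 ≤ C ∧ ∀ ζ ∈ HP 1,
      ‖evA (xv γ ζ) (Complex.log ζ) (Y j - cst ι (c j))‖ ≤ C * ‖ζ‖ ^ (-(ρ / 2)) := by
    intro j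
    refine evA_bound γ ρ hρ hρ' 1 _ ?_ (ρ / 2) ?_
    · rw [pow_one]; exact hY j
    · push_cast; linarith
  choose C hC0 hC using h1
  refine ⟨∑ j, C j, ρ / 2, Finset.sum_nonneg fun j _ => hC0 j, by linarith, ?_⟩
  intro ζ hζ j
  have hz1 := B2b_one_le hζ
  have hz0 : 0 < ‖ζ‖ := by linarith
  have h2 := hC j ζ hζ
  rw [map_sub, evA_cst] at h2
  refine h2.trans (mul_le_mul_of_nonneg_right ?_ (Real.rpow_nonneg hz0.le _))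
  exact Finset.single_le_sum (f := C) (fun j _ => hC0 j) (Finset.mem_univ j)

end FFL
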