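import Pool.Agent.FFL.B2

/-!
# [FFL-B3] the formal shift and the true shift

For `ζ ∈ HP 2`, `s = ζ⁻¹` (`‖s‖ ≤ 1/2`): `(ζ+1)^(-g) = ζ^(-g) (1+s)^(-g)` and `log (ζ+1) = log ζ + log (1+s)` (all
arguments are in `(-π/2, π/2)`, and their sum too).  By `evA_shf`, `evA_emb` the first term is the value of `Y` at
`x'_i = x_i tp_i(s)`, `l' = l + lp(s)`, the second one the value at `x''_i = x_i (1+s)^(-γ_i)`, `l'' = l + log (1+s)`.
`‖x'_i - x''_i‖ ≤ C ‖s‖^N`, `‖l' - l''‖ ≤ C ‖s‖^N`, `‖x'‖, ‖x''‖ ≤ C`, `‖l'‖, ‖l''‖ ≤ C (1 + ‖log ζ‖)`.  By induction over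
the polynomial `Y` (monomials): the difference of the values is `≤ C ‖s‖^N (1 + ‖log ζ‖)^k`, and
`(1 + ‖log ζ‖)^k ≤ C ‖ζ‖` (`log_bound`).
-/

set_option autoImplicit false

open Polynomial

namespace FFL

variable {ι : Type} [Fintype ι]

theorem b3a_ne {ζ : ℂ} (hζ : ζ ∈ HP 0) : ζ ≠ 0 := by
  intro h
  rw [mem_HP, h, Complex.zero_re] at hζ
  exact lt_irrefl _ hζ

theorem b3a_re {ζ : ℂ} (hζ : ζ ∈ HP 0) : 0 < (1 + ζ⁻¹ : ℂ).re := by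
  have h1 : 0 < ζ.re := hζ
  have h2 : 0 ≤ (ζ⁻¹ : ℂ).re := by
    rw [Complex.inv_re]
    exact div_nonneg h1.le (Complex.normSq_nonneg _)
  rw [Complex.add_re, Complex.one_re]
  linarith

theorem b3a_mul {ζ : ℂ} (hζ : ζ ∈ HP 0) : ζ * (1 + ζ⁻¹) = ζ + 1 := by
  have h := b3a_ne hζ
  field_simp

theorem log_shift {ζ : ℂ} (hζ : ζ ∈ HP 0) :
    Complex.log (ζ + 1) = Complex.log ζ + Complex.log (1 + ζ⁻¹) := by
  have h0 := b3a_ne hζ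
  have h1 := b3a_re hζ
  have h2 : (1 + ζ⁻¹ : ℂ) ≠ 0 := by
    intro h
    rw [h, Complex.zero_re] at h1
    exact lt_irrefl _ h1
  have h3 := abs_lt.1 (Complex.abs_arg_lt_pi_div_two_iff.2 (Or.inl (show 0 < ζ.re from hζ)))
  have h4 := abs_lt.1 (Complex.abs_arg_lt_pi_div_two_iff.2 (Or.inl h1))
  rw [← b3a_mul hζ]
  exact (Complex.log_mul_eq_add_log_iff h0 h2).2 ⟨by linarith, by linarith⟩

theorem cpow_shift (g : ℂ) {ζ : ℂ} (hζ : ζ ∈ HP 0) :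
    (ζ + 1) ^ g = ζ ^ g * (1 + ζ⁻¹) ^ g := by
  have h0 := b3a_ne hζ
  have h1 := b3a_re hζ
  have h2 : (1 + ζ⁻¹ : ℂ) ≠ 0 := by
    intro h
    rw [h, Complex.zero_re] at h1
    exact lt_irrefl _ h1
  have h3 : ζ + 1 ≠ 0 := by
    rw [← b3a_mul hζ]
    exact mul_ne_zero h0 h2
  rw [Complex.cpow_def_of_ne_zero h3, Complex.cpow_def_of_ne_zero h0, Complex.cpow_def_of_ne_zero h2,
    log_shift hζ, ← Complex.exp_add]
  congr 1
  ring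

end FFL
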