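import Pool.Agent.FFL.B3a

/-!
# [FFL-B3] the formal shift and the true shift

For `ζ ∈ HP 2`, `s = ζ⁻¹` (`‖s‖ ≤ 1/2`): `(ζ+1)^(-g) = ζ^(-g) (1+s)^(-g)` and `log (ζ+1) = log ζ + log (1+s)` (all
arguments are in `(-π/2, π/2)`, and their sum too).  By `evA_shf`, `evA_emb` the first term is the value of `Y` at
`x'_i = x_i tp_i(s)`, `l' = l + lp(s)`, the second one the value at `x''_i = x_i (1+s)^(-γ_i)`, `l'' = l + log (1+s)`.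
`‖x'_i - x''_i‖ ≤ C ‖s‖^N`, `‖l' - l''‖ ≤ C ‖s‖^N`, `‖x'‖, ‖x''‖ ≤ C`, `‖l'‖, ‖l''‖ ≤ C (1 + ‖log ζ‖)`.  By induction over
the polynomial `Y` (monomials): the difference of the values is `≤ C ‖s‖^N (1 + ‖log ζ‖)^k`, and
`(1 + ‖log ζ‖)^k ≤ C ‖ζ‖` (`log_bound`).
-/

set_option autoImplicit false

open Polynomial

namespace FFL

variable {ι : Type} [Fintype ι]

/-- good pairs of functions -/
def b3b_G (N : ℕ) (F G : ℂ → ℂ) : Prop := ∃ C : ℝ, 0 ≤ C ∧ ∃ k : ℕ, ∀ ζ ∈ HP 2,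
  ‖F ζ‖ ≤ C * (1 + ‖Complex.log ζ‖) ^ k ∧ ‖G ζ‖ ≤ C * (1 + ‖Complex.log ζ‖) ^ k ∧
    ‖F ζ - G ζ‖ ≤ C * (1 + ‖Complex.log ζ‖) ^ k * ‖ζ⁻¹‖ ^ N

theorem b3b_mono {x : ℝ} (hx : 0 ≤ x) {C C' : ℝ} (hC : 0 ≤ C) (h : C ≤ C') {k k' : ℕ} (hk : k ≤ k') :
    C * (1 + x) ^ k ≤ C' * (1 + x) ^ k' :=
  mul_le_mul h (pow_le_pow_right₀ (by linarith) hk) (by positivity) (hC.trans h)

theorem b3b_const (N : ℕ) (c : ℂ) : b3b_G N (fun _ => c) (fun _ => c) := by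
  refine ⟨‖c‖, norm_nonneg c, 0, fun ζ _ => ⟨?_, ?_, ?_⟩⟩
  · rw [pow_zero, mul_one]
  · rw [pow_zero, mul_one]
  · rw [sub_self, norm_zero]
    positivity

theorem b3b_add {N : ℕ} {F G F' G' : ℂ → ℂ} (h : b3b_G N F G) (h' : b3b_G N F' G') :
    b3b_G N (fun ζ => F ζ + F' ζ) (fun ζ => G ζ + G' ζ) := by
  obtain ⟨C, hC, k, hk⟩ := h
  obtain ⟨C', hC', k', hk'⟩ := h'
  refine ⟨C + C', add_nonneg hC hC', max k k', fun ζ hζ => ?_⟩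
  obtain ⟨a1, a2, a3⟩ := hk ζ hζ
  obtain ⟨b1, b2, b3⟩ := hk' ζ hζ
  have hx := norm_nonneg (Complex.log ζ)
  have m1 : C * (1 + ‖Complex.log ζ‖) ^ k ≤ C * (1 + ‖Complex.log ζ‖) ^ max k k' :=
    b3b_mono hx hC le_rfl (le_max_left _ _)
  have m2 : C' * (1 + ‖Complex.log ζ‖) ^ k' ≤ C' * (1 + ‖Complex.log ζ‖) ^ max k k' :=
    b3b_mono hx hC' le_rfl (le_max_right _ _)
  have hs : 0 ≤ ‖ζ⁻¹‖ ^ N := by positivity
  refine ⟨?_, ?_, ?_⟩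
  · refine (norm_add_le _ _).trans ?_
    rw [add_mul]
    linarith
  · refine (norm_add_le _ _).trans ?_
    rw [add_mul]
    linarith
  · have e : F ζ + F' ζ - (G ζ + G' ζ) = (F ζ - G ζ) + (F' ζ - G' ζ) := by ring
    rw [e]
    refine (norm_add_le _ _).trans ?_
    rw [add_mul, add_mul]
    have n1 := mul_le_mul_of_nonneg_right m1 hs
    have n2 := mul_le_mul_of_nonneg_right m2 hs
    linarith

theorem b3b_mul {N : ℕ} {F G F' G' : ℂ → ℂ} (h : b3b_G N F G) (h' : b3b_G N F' G') :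
    b3b_G N (fun ζ => F ζ * F' ζ) (fun ζ => G ζ * G' ζ) := by
  obtain ⟨C, hC, k, hk⟩ := h
  obtain ⟨C', hC', k', hk'⟩ := h'
  refine ⟨2 * (C * C'), by positivity, k + k', fun ζ hζ => ?_⟩
  obtain ⟨a1, a2, a3⟩ := hk ζ hζ
  obtain ⟨b1, b2, b3⟩ := hk' ζ hζ
  obtain ⟨x, hx⟩ : ∃ x, x = 1 + ‖Complex.log ζ‖ := ⟨_, rfl⟩
  obtain ⟨t, ht⟩ : ∃ t, t = ‖ζ⁻¹‖ ^ N := ⟨_, rfl⟩
  have hx0 : 0 ≤ x := by rw [hx]; positivity
  have hs : 0 ≤ t := by rw [ht]; positivity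
  rw [← hx] at a1 a2 a3 b1 b2 b3 ⊢
  rw [← ht] at a3 b3 ⊢
  have hA : 0 ≤ C * x ^ k := by positivity
  have hA' : 0 ≤ C' * x ^ k' := by positivity
  have e0 : 2 * (C * C') * x ^ (k + k') = 2 * ((C * x ^ k) * (C' * x ^ k')) := by
    rw [pow_add]
    ring
  rw [e0]
  have hp : 0 ≤ (C * x ^ k) * (C' * x ^ k') := mul_nonneg hA hA'
  refine ⟨?_, ?_, ?_⟩
  · rw [norm_mul]
    have := mul_le_mul a1 b1 (norm_nonneg _) hA
    linarith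
  · rw [norm_mul]
    have := mul_le_mul a2 b2 (norm_nonneg _) hA
    linarith
  · have e : F ζ * F' ζ - G ζ * G' ζ = (F ζ - G ζ) * F' ζ + G ζ * (F' ζ - G' ζ) := by ring
    rw [e]
    refine (norm_add_le _ _).trans ?_
    rw [norm_mul, norm_mul]
    have n1 := mul_le_mul a3 b1 (norm_nonneg _) (mul_nonneg hA hs)
    have n2 := mul_le_mul a2 b3 (norm_nonneg _) hA
    linarith

theorem b3b_poly {N : ℕ} {F G : ℂ → ℂ} (h : b3b_G N F G) (p : ℂ[X]) :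
    b3b_G N (fun ζ => p.eval (F ζ)) (fun ζ => p.eval (G ζ)) := by
  induction p using Polynomial.induction_on' with
  | add p q hp hq =>
    simp only [Polynomial.eval_add]
    exact b3b_add hp hq
  | monomial m c =>
    simp only [Polynomial.eval_monomial]
    refine b3b_mul (b3b_const N c) ?_
    induction m with
    | zero =>
      simp only [pow_zero]
      exact b3b_const N 1
    | succ m ih =>
      simp only [pow_succ]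
      exact b3b_mul ih h

theorem b3b_eval {ι : Type} {N : ℕ} {x x' : ℂ → ι → ℂ} {l l' : ℂ → ℂ}
    (hx : ∀ i, b3b_G N (fun ζ => x ζ i) (fun ζ => x' ζ i)) (hl : b3b_G N l l') (Y : AA ι) :
    b3b_G N (fun ζ => evA (x ζ) (l ζ) Y) (fun ζ => evA (x' ζ) (l' ζ) Y) := by
  induction Y using MvPolynomial.induction_on with
  | C p =>
    simp only [evA, MvPolynomial.coe_eval₂Hom, MvPolynomial.eval₂_C, Polynomial.coe_evalRingHom]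
    exact b3b_poly hl p
  | add p q hp hq =>
    simp only [map_add]
    exact b3b_add hp hq
  | mul_X p i hp =>
    simp only [map_mul, evA_X]
    exact b3b_mul hp (hx i)

theorem b3b_HP0 {ζ : ℂ} (hζ : ζ ∈ HP 2) : ζ ∈ HP 0 := HP_mono (by norm_num) hζ

theorem b3b_two {ζ : ℂ} (hζ : ζ ∈ HP 2) : 2 ≤ ‖ζ‖ :=
  (le_of_lt hζ).trans ((le_abs_self _).trans (Complex.abs_re_le_norm ζ))

theorem b3b_half {ζ : ℂ} (hζ : ζ ∈ HP 2) : ‖ζ⁻¹‖ ≤ 1 / 2 := by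
  rw [norm_inv, one_div]
  exact inv_anti₀ two_pos (b3b_two hζ)

theorem b3b_cpow (g : ℂ) (hg : 0 < g.re) : ∃ C : ℝ, 0 ≤ C ∧ ∀ ζ ∈ HP 0, 1 ≤ ‖ζ‖ → ‖ζ ^ (-g)‖ ≤ C := by
  obtain ⟨C, hC, h⟩ := cpow_bound g
  refine ⟨C, hC.le, fun ζ hζ h1 => (h ζ hζ).trans ?_⟩
  have h2 : ‖ζ‖ ^ (-g.re) ≤ 1 := Real.rpow_le_one_of_one_le_of_nonpos h1 (by linarith)
  exact mul_le_of_le_one_right hC.le h2

theorem shift_eval (o : ι) (γ : ι → ℂ) (go : γ o = 1) (hγ : ∀ i, 0 < (γ i).re) (N : ℕ)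
    (tp : ι → ℂ[X]) (lp : ℂ[X])
    (hT : ∀ i, ∃ C : ℝ, 0 ≤ C ∧ ∀ s : ℂ, ‖s‖ ≤ 1 / 2 →
      ‖(1 + s) ^ (-γ i) - (tp i).eval s‖ ≤ C * ‖s‖ ^ N)
    (hL : ∃ C : ℝ, 0 ≤ C ∧ ∀ s : ℂ, ‖s‖ ≤ 1 / 2 → ‖Complex.log (1 + s) - lp.eval s‖ ≤ C * ‖s‖ ^ N)
    (Y : AA ι) : ∃ C : ℝ, 0 ≤ C ∧ ∀ ζ ∈ HP 2,
      ‖evA (xv γ ζ) (Complex.log ζ) (shf (fun i => emb o (tp i)) (emb o lp) Y) -
        evA (xv γ (ζ + 1)) (Complex.log (ζ + 1)) Y‖ ≤ C * ‖ζ‖ ^ (1 - (N : ℝ)) := by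
  have hxo : ∀ ζ : ℂ, xv γ ζ o = ζ⁻¹ := fun ζ => by
    unfold xv
    rw [go, Complex.cpow_neg_one]
  -- the pairs of variables
  have hx : ∀ i, b3b_G N (fun ζ => xv γ ζ i * evA (xv γ ζ) (Complex.log ζ) (emb o (tp i)))
      (fun ζ => xv γ (ζ + 1) i) := by
    intro i
    obtain ⟨C1, hC1, h1⟩ := hT i
    obtain ⟨C2, hC2, h2⟩ := b3b_cpow (γ i) (hγ i)
    refine ⟨C2 + C2 * C1, by positivity, 0, fun ζ hζ => ?_⟩
    rw [pow_zero, mul_one]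
    have hz0 := b3b_HP0 hζ
    have hz2 := b3b_two hζ
    have hs := b3b_half hζ
    have e1 : xv γ ζ i * evA (xv γ ζ) (Complex.log ζ) (emb o (tp i)) =
        ζ ^ (-γ i) * (tp i).eval ζ⁻¹ := by
      rw [evA_emb, hxo]
      rfl
    have e2 : xv γ (ζ + 1) i = ζ ^ (-γ i) * (1 + ζ⁻¹) ^ (-γ i) := by
      show (ζ + 1) ^ (-γ i) = _
      exact cpow_shift _ hz0
    have h3 : ‖xv γ (ζ + 1) i‖ ≤ C2 := by
      refine h2 (ζ + 1) (HP_add_one hz0) ?_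
      have h4 : 1 ≤ (ζ + 1).re := by
        have h5 : 2 < ζ.re := hζ
        rw [Complex.add_re, Complex.one_re]
        linarith
      exact h4.trans ((le_abs_self _).trans (Complex.abs_re_le_norm _))
    have h4 : ‖xv γ ζ i * evA (xv γ ζ) (Complex.log ζ) (emb o (tp i)) - xv γ (ζ + 1) i‖ ≤
        C2 * C1 * ‖ζ⁻¹‖ ^ N := by
      rw [e1, e2, ← mul_sub, norm_mul, norm_sub_rev]
      have h5 := mul_le_mul (h2 ζ hz0 (by linarith)) (h1 ζ⁻¹ hs) (norm_nonneg _) hC2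
      linarith
    have hN : ‖ζ⁻¹‖ ^ N ≤ 1 := pow_le_one₀ (norm_nonneg _) (by linarith)
    have hC12 : 0 ≤ C2 * C1 := by positivity
    have h5 : C2 * C1 * ‖ζ⁻¹‖ ^ N ≤ C2 * C1 := mul_le_of_le_one_right hC12 hN
    refine ⟨?_, by linarith, ?_⟩
    · have h6 := norm_add_le (xv γ ζ i * evA (xv γ ζ) (Complex.log ζ) (emb o (tp i)) -
        xv γ (ζ + 1) i) (xv γ (ζ + 1) i)
      rw [sub_add_cancel] at h6
      linarith
    · refine h4.trans (mul_le_mul_of_nonneg_right (by linarith) (by positivity))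
  have hl : b3b_G N (fun ζ => Complex.log ζ + evA (xv γ ζ) (Complex.log ζ) (emb o lp))
      (fun ζ => Complex.log (ζ + 1)) := by
    obtain ⟨C1, hC1, h1⟩ := hL
    refine ⟨1 + C1, by positivity, 1, fun ζ hζ => ?_⟩
    rw [pow_one]
    have hz0 := b3b_HP0 hζ
    have hs := b3b_half hζ
    have e1 : evA (xv γ ζ) (Complex.log ζ) (emb o lp) = lp.eval ζ⁻¹ := by
      rw [evA_emb, hxo]
    have e2 := log_shift hz0
    have h3 : ‖Complex.log (1 + ζ⁻¹)‖ ≤ 1 := by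
      have h4 := Complex.norm_log_one_add_half_le_self hs
      linarith
    have h4 := h1 ζ⁻¹ hs
    have hN : ‖ζ⁻¹‖ ^ N ≤ 1 := pow_le_one₀ (norm_nonneg _) (by linarith)
    have hN0 : 0 ≤ ‖ζ⁻¹‖ ^ N := by positivity
    have hlog := norm_nonneg (Complex.log ζ)
    have h6 : ‖Complex.log (ζ + 1)‖ ≤ 1 + ‖Complex.log ζ‖ := by
      rw [e2]
      refine (norm_add_le _ _).trans ?_
      linarith
    have h7 : ‖(Complex.log ζ + evA (xv γ ζ) (Complex.log ζ) (emb o lp)) - Complex.log (ζ + 1)‖ ≤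
        C1 * ‖ζ⁻¹‖ ^ N := by
      rw [e1, e2, add_sub_add_left_eq_sub, norm_sub_rev]
      exact h4
    have h8 : C1 * ‖ζ⁻¹‖ ^ N ≤ C1 := mul_le_of_le_one_right hC1 hN
    have h9 : (1 + C1) * (1 + ‖Complex.log ζ‖) = (1 + ‖Complex.log ζ‖) + C1 + C1 * ‖Complex.log ζ‖ := by
      ring
    have h10 : 0 ≤ C1 * ‖Complex.log ζ‖ := by positivity
    refine ⟨?_, by linarith, ?_⟩
    · have h11 := norm_add_le ((Complex.log ζ + evA (xv γ ζ) (Complex.log ζ) (emb o lp)) -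
        Complex.log (ζ + 1)) (Complex.log (ζ + 1))
      rw [sub_add_cancel] at h11
      linarith
    · refine h7.trans (mul_le_mul_of_nonneg_right (by linarith) hN0)
  obtain ⟨C, hC, k, h⟩ := b3b_eval hx hl Y
  obtain ⟨C', hC', h'⟩ := log_bound k 1 one_pos
  refine ⟨C * C', by positivity, fun ζ hζ => ?_⟩
  rw [evA_shf]
  refine (h ζ hζ).2.2.trans ?_
  have h1 := h' ζ (HP_mono (by norm_num) hζ)
  have hz : 0 < ‖ζ‖ := by linarith [b3b_two hζ]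
  have e : ‖ζ‖ ^ (1 - (N : ℝ)) = ‖ζ‖ ^ (1 : ℝ) * ‖ζ⁻¹‖ ^ N := by
    rw [Real.rpow_sub hz, Real.rpow_natCast, norm_inv, inv_pow, div_eq_mul_inv]
  rw [e]
  calc C * (1 + ‖Complex.log ζ‖) ^ k * ‖ζ⁻¹‖ ^ N ≤ C * (C' * ‖ζ‖ ^ (1 : ℝ)) * ‖ζ⁻¹‖ ^ N :=
        mul_le_mul_of_nonneg_right (mul_le_mul_of_nonneg_left h1 hC) (by positivity)
    _ = C * C' * (‖ζ‖ ^ (1 : ℝ) * ‖ζ⁻¹‖ ^ N) := by ring

end FFL
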