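import Pool.Agent.FFL.Defs

/-!
# [FFL-B4a] bounds for the tails of weighted power series

`‖ζ^(z₀ - pr q α)‖ ≤ ‖ζ‖^(-Re (pr q α - z₀)) e^{(π/2) |Im (z₀ - pr q α)|}` on `Re ζ > 0`, and
`|Im (z₀ - pr q α)| ≤ |Im z₀| + deg α · max |Im q_i|`; so `‖ζ^(z₀ - pr q α)‖ ≤ C₀ C₁^(deg α) ‖ζ‖^(-e_α)`,
`e_α = Re (pr q α - z₀) ≥ L` if `b α ≠ 0`.  With `ρ = min Re q_i > 0` (if `n = 0` the index set is a point: trivial):
`e_α ≥ ρ deg α - Re z₀`.  For `‖ζ‖ ≥ R ≥ 1` and `b α ≠ 0`: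
`‖ζ‖^(-e_α) = ‖ζ‖^(-L) ‖ζ‖^(-(e_α - L)) ≤ ‖ζ‖^(-L) R^(-(e_α - L)) ≤ ‖ζ‖^(-L) R^(L + Re z₀) (R^(-ρ))^(deg α)`.
So the term is `≤ ‖ζ‖^(-L) · C₀ R^(L + Re z₀) ‖b α‖ (deg α + 1) (M C₁ R^(-ρ))^(deg α)`; choose `R` with
`M C₁ R^(-ρ) ≤ r/2`, and `(k+1) 2^(-k) ≤ 1`, i.e. `(deg α + 1) (r/2)^(deg α) ≤ r^(deg α)`.
-/

set_option autoImplicit false

namespace FFL

variable {n : ℕ}

theorem b4a_norm (w : ℂ) {ζ : ℂ} (hζ : 0 < ζ.re) :
    ‖ζ ^ w‖ ≤ ‖ζ‖ ^ w.re * Real.exp (Real.pi / 2 * |w.im|) := by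
  have h0 : ζ ≠ 0 := by
    intro h
    rw [h, Complex.zero_re] at hζ
    exact lt_irrefl _ hζ
  rw [Complex.norm_cpow_of_ne_zero h0, div_eq_mul_inv, ← Real.exp_neg]
  apply mul_le_mul_of_nonneg_left _ (Real.rpow_nonneg (norm_nonneg _) _)
  apply Real.exp_le_exp.2
  have h1 := (Complex.abs_arg_lt_pi_div_two_iff.2 (Or.inl hζ)).le
  have h2 : |Complex.arg ζ * w.im| ≤ Real.pi / 2 * |w.im| := by
    rw [abs_mul]
    exact mul_le_mul_of_nonneg_right h1 (abs_nonneg _)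
  have h3 := (abs_le.1 h2).1
  linarith

theorem b4a_rho (q : Fin n → ℂ) (hq : ∀ i, 0 < (q i).re) : ∃ ρ : ℝ, 0 < ρ ∧ ∀ i, ρ ≤ (q i).re := by
  rcases isEmpty_or_nonempty (Fin n) with h | h
  · exact ⟨1, one_pos, fun i => (h.false i).elim⟩
  · obtain ⟨i, hi⟩ := Finite.exists_min (fun i => (q i).re)
    exact ⟨(q i).re, hq i, hi⟩

theorem b4a_prre (q : Fin n → ℂ) (ρ : ℝ) (hρ : ∀ i, ρ ≤ (q i).re) (α : Fin n →₀ ℕ) :
    ρ * deg α ≤ (pr q α).re := by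
  unfold pr deg
  rw [Complex.re_sum]
  push_cast
  rw [Finset.mul_sum]
  apply Finset.sum_le_sum
  intro i _
  have e : ((α i : ℂ) * q i).re = α i * (q i).re := by
    rw [Complex.mul_re, Complex.natCast_re, Complex.natCast_im, zero_mul, sub_zero]
  rw [e, mul_comm]
  exact mul_le_mul_of_nonneg_left (hρ i) (Nat.cast_nonneg _)

theorem b4a_primm (q : Fin n → ℂ) (α : Fin n →₀ ℕ) :
    |(pr q α).im| ≤ (∑ i, |(q i).im|) * deg α := by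
  unfold pr deg
  rw [Complex.im_sum]
  refine (Finset.abs_sum_le_sum_abs _ _).trans ?_
  push_cast
  rw [Finset.mul_sum]
  apply Finset.sum_le_sum
  intro i _
  have e : ((α i : ℂ) * q i).im = α i * (q i).im := by
    rw [Complex.mul_im, Complex.natCast_re, Complex.natCast_im, zero_mul, add_zero]
  rw [e, abs_mul, Nat.abs_cast, mul_comm]
  exact mul_le_mul_of_nonneg_right
    (Finset.single_le_sum (f := fun i => |(q i).im|) (fun i _ => abs_nonneg _) (Finset.mem_univ i))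
    (Nat.cast_nonneg _)

theorem b4a_R (ρ : ℝ) (hρ : 0 < ρ) (A : ℝ) (ε : ℝ) (hε : 0 < ε) :
    ∃ R : ℝ, 1 ≤ R ∧ A * R ^ (-ρ) ≤ ε := by
  have h1 : Filter.Tendsto (fun R : ℝ => A * R ^ (-ρ)) Filter.atTop (nhds (A * 0)) :=
    (tendsto_rpow_neg_atTop hρ).const_mul A
  rw [mul_zero] at h1
  have h2 := (h1.eventually (gt_mem_nhds hε)).and (Filter.eventually_ge_atTop (1 : ℝ))
  obtain ⟨R, h3, h4⟩ := h2.exists
  exact ⟨R, h4, h3.le⟩

theorem b4a_HP {R : ℝ} (hR : 1 ≤ R) {ζ : ℂ} (hζ : ζ ∈ HP R) : 0 < ζ.re ∧ R ≤ ‖ζ‖ := by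
  have h1 : R < ζ.re := hζ
  exact ⟨by linarith, h1.le.trans ((le_abs_self _).trans (Complex.abs_re_le_norm ζ))⟩

theorem tail_bound (q : Fin n → ℂ) (hq : ∀ i, 0 < (q i).re) (b : (Fin n →₀ ℕ) → ℂ) (r : ℝ)
    (hr : 0 < r) (hb : Summable fun α => ‖b α‖ * r ^ deg α) (M : ℝ) (hM : 0 ≤ M) (z₀ : ℂ) (L : ℝ)
    (hL : ∀ α, b α ≠ 0 → L ≤ (pr q α - z₀).re) :
    ∃ u : (Fin n →₀ ℕ) → ℝ, Summable u ∧ (∀ α, 0 ≤ u α) ∧ ∃ R : ℝ, 1 ≤ R ∧ ∀ ζ ∈ HP R, ∀ α,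
      ‖b α‖ * (((deg α : ℝ) + 1) * M ^ deg α) * ‖ζ ^ (z₀ - pr q α)‖ ≤ u α * ‖ζ‖ ^ (-L) := by
  obtain ⟨ρ, hρ, hρi⟩ := b4a_rho q hq
  obtain ⟨B, hB⟩ : ∃ B, B = ∑ i, |(q i).im| := ⟨_, rfl⟩
  obtain ⟨c, hc⟩ : ∃ c, c = Real.exp (Real.pi / 2 * B) := ⟨_, rfl⟩
  obtain ⟨C₀, hC₀⟩ : ∃ c, c = Real.exp (Real.pi / 2 * |z₀.im|) := ⟨_, rfl⟩
  have hc0 : 0 < c := by rw [hc]; exact Real.exp_pos _
  have hC0 : 0 < C₀ := by rw [hC₀]; exact Real.exp_pos _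
  obtain ⟨R, hR1, hR⟩ := b4a_R ρ hρ (M * c) (r / 2) (half_pos hr)
  have hR0 : 0 < R := by linarith
  refine ⟨fun α => C₀ * R ^ (L + z₀.re) * (‖b α‖ * r ^ deg α), hb.mul_left _, fun α => by positivity,
    R, hR1, fun ζ hζ α => ?_⟩
  obtain ⟨hz0, hzR⟩ := b4a_HP hR1 hζ
  have hz : 0 < ‖ζ‖ := by linarith
  by_cases hbα : b α = 0
  · rw [hbα, norm_zero, zero_mul, zero_mul]
    positivity
  have hL' := hL α hbα
  show ‖b α‖ * (((deg α : ℝ) + 1) * M ^ deg α) * ‖ζ ^ (z₀ - pr q α)‖ ≤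
    (C₀ * R ^ (L + z₀.re) * (‖b α‖ * r ^ deg α)) * ‖ζ‖ ^ (-L)
  obtain ⟨d, hd⟩ : ∃ d, d = deg α := ⟨_, rfl⟩
  rw [← hd]
  -- the norm of the power
  have h1 := b4a_norm (z₀ - pr q α) hz0
  have h2 : Real.exp (Real.pi / 2 * |(z₀ - pr q α).im|) ≤ C₀ * c ^ d := by
    rw [hC₀, hc, ← Real.exp_nat_mul, ← Real.exp_add]
    apply Real.exp_le_exp.2
    have h3 : |(z₀ - pr q α).im| ≤ |z₀.im| + B * d := by
      rw [Complex.sub_im]
      refine (abs_sub _ _).trans ?_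
      have h4 := b4a_primm q α
      rw [← hB, ← hd] at h4
      linarith
    have h5 := mul_le_mul_of_nonneg_left h3 (by positivity : 0 ≤ Real.pi / 2)
    linarith
  have h3 : ‖ζ‖ ^ (z₀ - pr q α).re ≤ ‖ζ‖ ^ (-L) * (R ^ (L + z₀.re) * (R ^ (-ρ)) ^ d) := by
    have e1 : (z₀ - pr q α).re = -L + (z₀ - pr q α + L).re := by
      rw [Complex.add_re, Complex.ofReal_re]
      ring
    have e2 : (z₀ - pr q α + L).re = L - (pr q α - z₀).re := by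
      rw [Complex.add_re, Complex.ofReal_re, Complex.sub_re, Complex.sub_re]
      ring
    rw [e1, Real.rpow_add hz, e2]
    apply mul_le_mul_of_nonneg_left _ (Real.rpow_nonneg hz.le _)
    have h4 : ‖ζ‖ ^ (L - (pr q α - z₀).re) ≤ R ^ (L - (pr q α - z₀).re) :=
      Real.rpow_le_rpow_of_nonpos hR0 hzR (by linarith)
    have h5 : R ^ (L - (pr q α - z₀).re) ≤ R ^ (L + z₀.re + -ρ * d) := by
      apply Real.rpow_le_rpow_of_exponent_le hR1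
      have h6 := b4a_prre q ρ hρi α
      rw [← hd] at h6
      rw [Complex.sub_re]
      linarith
    rw [Real.rpow_add hR0, Real.rpow_mul hR0.le, Real.rpow_natCast] at h5
    exact h4.trans h5
  have h4 : ((d : ℝ) + 1) * (M * c * R ^ (-ρ)) ^ d ≤ r ^ d := by
    have h5 : (M * c * R ^ (-ρ)) ^ d ≤ (r / 2) ^ d := pow_le_pow_left₀ (by positivity) hR d
    have h6 : (d : ℝ) + 1 ≤ 2 ^ d := by
      have h7 : d + 1 ≤ 2 ^ d := Nat.lt_two_pow_self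
      exact_mod_cast h7
    have h7 : ((d : ℝ) + 1) * (M * c * R ^ (-ρ)) ^ d ≤ 2 ^ d * (r / 2) ^ d :=
      mul_le_mul h6 h5 (by positivity) (by positivity)
    rw [← mul_pow] at h7
    have e : 2 * (r / 2) = r := by ring
    rwa [e] at h7
  have hbn := norm_nonneg (b α)
  calc ‖b α‖ * (((d : ℝ) + 1) * M ^ d) * ‖ζ ^ (z₀ - pr q α)‖
      ≤ ‖b α‖ * (((d : ℝ) + 1) * M ^ d) *
        ((‖ζ‖ ^ (-L) * (R ^ (L + z₀.re) * (R ^ (-ρ)) ^ d)) * (C₀ * c ^ d)) := by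
        apply mul_le_mul_of_nonneg_left _ (by positivity)
        exact h1.trans (mul_le_mul h3 h2 (Real.exp_pos _).le (by positivity))
    _ = ‖ζ‖ ^ (-L) * (C₀ * R ^ (L + z₀.re) * (‖b α‖ *
        (((d : ℝ) + 1) * (M * c * R ^ (-ρ)) ^ d))) := by
        rw [mul_pow, mul_pow]
        ring
    _ ≤ ‖ζ‖ ^ (-L) * (C₀ * R ^ (L + z₀.re) * (‖b α‖ * r ^ d)) := by
        apply mul_le_mul_of_nonneg_left _ (by positivity)
        apply mul_le_mul_of_nonneg_left _ (by positivity)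
        exact mul_le_mul_of_nonneg_left h4 hbn
    _ = C₀ * R ^ (L + z₀.re) * (‖b α‖ * r ^ d) * ‖ζ‖ ^ (-L) := by ring

theorem norm_mon_le (y : Fin n → ℂ) (M : ℝ) (hy : ‖y‖ ≤ M) (α : Fin n →₀ ℕ) :
    ‖mon y α‖ ≤ M ^ deg α := by
  unfold mon deg
  rw [norm_prod, ← Finset.prod_pow_eq_pow_sum]
  apply Finset.prod_le_prod
  · intro i _
    exact norm_nonneg _
  · intro i _
    rw [norm_pow]
    exact pow_le_pow_left₀ (norm_nonneg _) ((norm_le_pi_norm y i).trans hy) _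

theorem b4a_pow (a b : ℂ) (M : ℝ) (hM : 1 ≤ M) (ha : ‖a‖ ≤ M) (hb : ‖b‖ ≤ M) (k : ℕ) :
    ‖a ^ k - b ^ k‖ ≤ k * M ^ k * ‖a - b‖ := by
  induction k with
  | zero => simp
  | succ k ih =>
    have e : a ^ (k + 1) - b ^ (k + 1) = a * (a ^ k - b ^ k) + (a - b) * b ^ k := by ring
    rw [e]
    refine (norm_add_le _ _).trans ?_
    rw [norm_mul, norm_mul, norm_pow]
    have hd := norm_nonneg (a - b)
    have h1 : ‖a‖ * ‖a ^ k - b ^ k‖ ≤ M * (k * M ^ k * ‖a - b‖) :=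
      mul_le_mul ha ih (norm_nonneg _) (by linarith)
    have h2 : ‖a - b‖ * ‖b‖ ^ k ≤ ‖a - b‖ * M ^ (k + 1) := by
      apply mul_le_mul_of_nonneg_left _ hd
      exact (pow_le_pow_left₀ (norm_nonneg _) hb k).trans (pow_le_pow_right₀ hM (Nat.le_succ k))
    refine (add_le_add h1 h2).trans (le_of_eq ?_)
    push_cast
    ring

/-- `‖y^α - y'^α‖ ≤ deg α · M^(deg α) ‖y - y'‖` for `M ≥ 1` (telescope the product) -/
theorem norm_mon_sub_le (y y' : Fin n → ℂ) (M : ℝ) (hM : 1 ≤ M) (hy : ‖y‖ ≤ M) (hy' : ‖y'‖ ≤ M)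
    (α : Fin n →₀ ℕ) : ‖mon y α - mon y' α‖ ≤ deg α * M ^ deg α * ‖y - y'‖ := by
  have hM0 : 0 ≤ M := by linarith
  have key : ∀ s : Finset (Fin n), ‖∏ i ∈ s, y i ^ α i‖ ≤ M ^ (∑ i ∈ s, α i) ∧
      ‖∏ i ∈ s, y i ^ α i - ∏ i ∈ s, y' i ^ α i‖ ≤
        ((∑ i ∈ s, α i : ℕ) : ℝ) * M ^ (∑ i ∈ s, α i) * ‖y - y'‖ := by
    intro s
    classical
    induction s using Finset.induction_on with
    | empty => simp
    | insert i s hi ih =>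
      obtain ⟨ih1, ih2⟩ := ih
      rw [Finset.prod_insert hi, Finset.prod_insert hi, Finset.sum_insert hi]
      have ha : ‖y i‖ ≤ M := (norm_le_pi_norm y i).trans hy
      have hb : ‖y' i‖ ≤ M := (norm_le_pi_norm y' i).trans hy'
      have hd : ‖y i - y' i‖ ≤ ‖y - y'‖ := norm_le_pi_norm (y - y') i
      have h1 := b4a_pow (y i) (y' i) M hM ha hb (α i)
      have h1' : ‖y i ^ α i - y' i ^ α i‖ ≤ α i * M ^ α i * ‖y - y'‖ :=
        h1.trans (mul_le_mul_of_nonneg_left hd (by positivity))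
      have hyi : ‖y i ^ α i‖ ≤ M ^ α i := by
        rw [norm_pow]
        exact pow_le_pow_left₀ (norm_nonneg _) ha _
      have hyi' : ‖y' i ^ α i‖ ≤ M ^ α i := by
        rw [norm_pow]
        exact pow_le_pow_left₀ (norm_nonneg _) hb _
      refine ⟨?_, ?_⟩
      · rw [norm_mul, pow_add]
        exact mul_le_mul hyi ih1 (norm_nonneg _) (by positivity)
      · have e : y i ^ α i * ∏ j ∈ s, y j ^ α j - y' i ^ α i * ∏ j ∈ s, y' j ^ α j =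
            (y i ^ α i - y' i ^ α i) * ∏ j ∈ s, y j ^ α j +
              y' i ^ α i * (∏ j ∈ s, y j ^ α j - ∏ j ∈ s, y' j ^ α j) := by ring
        rw [e]
        refine (norm_add_le _ _).trans ?_
        rw [norm_mul, norm_mul]
        have h2 := mul_le_mul h1' ih1 (norm_nonneg _) (by positivity)
        have h3 := mul_le_mul hyi' ih2 (norm_nonneg _) (by positivity)
        refine (add_le_add h2 h3).trans (le_of_eq ?_)
        rw [pow_add]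
        push_cast
        ring
  exact (key Finset.univ).2

end FFL
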