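import Pool.Agent.FFL.B4a

/-!
# [FFL-B4b] the function `FF` is `ζ^q f(ζ^(-q) y)`

`summable_of_hasSeries`: `HasSum` at the point `z = (r/2, ..., r/2)` is absolutely convergent (`Summable.norm` in `ℂ`),
`mon z α = (r/2)^(deg α)`.
`FF_eq`: `mon (ζ^(-q) y) α = ζ^(-pr q α) mon y α` (`(ζ^(-q i))^(k) = ζ^(-k q i)`, `Complex.cpow_nat_mul`, products of powers with
the same base `ζ ≠ 0`: `Complex.cpow_add`), `ζ^(q_j) ζ^(-pr q α) = ζ^(q_j - pr q α)`, and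
`‖ζ^(-q i) y i‖ ≤ C ‖ζ‖^(-Re q i) M → 0`, so for `Re ζ > R` the point is in the polydisc of convergence (and of norm `< ε`).
-/

set_option autoImplicit false

namespace FFL

variable {n : ℕ}

theorem summable_of_hasSeries {f : (Fin n → ℂ) → (Fin n → ℂ)} {a : Fin n → (Fin n →₀ ℕ) → ℂ}
    (h : HasSeries f a) : ∃ r > 0, ∀ j, Summable fun α => ‖a j α‖ * r ^ deg α := by
  obtain ⟨r, hr, hs⟩ := h
  refine ⟨r / 2, half_pos hr, fun j => ?_⟩
  have hz : ‖(fun _ => ((r / 2 : ℝ) : ℂ) : Fin n → ℂ)‖ < r := by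
    refine lt_of_le_of_lt (pi_norm_const_le _) ?_
    rw [Complex.norm_real, Real.norm_of_nonneg (by linarith)]
    linarith
  have h1 := (hs _ hz j).summable.norm
  refine h1.congr fun α => ?_
  have e : mon (fun _ => ((r / 2 : ℝ) : ℂ) : Fin n → ℂ) α = ((r / 2 : ℝ) : ℂ) ^ deg α := by
    unfold mon deg
    rw [Finset.prod_pow_eq_pow_sum]
  rw [e, norm_mul, norm_pow, Complex.norm_real, Real.norm_of_nonneg (by linarith)]

theorem small_point (q : Fin n → ℂ) (hq : ∀ i, 0 < (q i).re) (M : ℝ) (ε : ℝ) (hε : 0 < ε) :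
    ∃ R : ℝ, 1 ≤ R ∧ ∀ ζ ∈ HP R, ∀ y : Fin n → ℂ, ‖y‖ ≤ M →
      ‖(fun i => ζ ^ (-q i) * y i : Fin n → ℂ)‖ < ε := by
  obtain ⟨ρ, hρ, hρi⟩ := b4a_rho q hq
  obtain ⟨B, hB⟩ : ∃ B, B = ∑ i, |(q i).im| := ⟨_, rfl⟩
  obtain ⟨c, hc⟩ : ∃ c, c = Real.exp (Real.pi / 2 * B) := ⟨_, rfl⟩
  have hc0 : 0 < c := by rw [hc]; exact Real.exp_pos _
  obtain ⟨R, hR1, hR⟩ := b4a_R ρ hρ (c * |M|) (ε / 2) (half_pos hε)
  have hR0 : 0 < R := by linarith
  refine ⟨R, hR1, fun ζ hζ y hy => ?_⟩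
  obtain ⟨hz0, hzR⟩ := b4a_HP hR1 hζ
  refine (pi_norm_lt_iff hε).2 fun i => ?_
  have h1 := b4a_norm (-q i) hz0
  have h2 : ‖ζ‖ ^ (-q i).re ≤ R ^ (-ρ) := by
    rw [Complex.neg_re]
    refine (Real.rpow_le_rpow_of_nonpos hR0 hzR (by linarith [hq i])).trans ?_
    exact Real.rpow_le_rpow_of_exponent_le hR1 (by linarith [hρi i])
  have h3 : Real.exp (Real.pi / 2 * |(-q i).im|) ≤ c := by
    rw [hc, Complex.neg_im, abs_neg]
    apply Real.exp_le_exp.2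
    apply mul_le_mul_of_nonneg_left _ (by positivity)
    rw [hB]
    exact Finset.single_le_sum (f := fun i => |(q i).im|) (fun i _ => abs_nonneg _) (Finset.mem_univ i)
  have h4 : ‖ζ ^ (-q i)‖ ≤ R ^ (-ρ) * c :=
    h1.trans (mul_le_mul h2 h3 (Real.exp_pos _).le (by positivity))
  have h5 : ‖y i‖ ≤ |M| := ((norm_le_pi_norm y i).trans hy).trans (le_abs_self M)
  rw [norm_mul]
  have h6 := mul_le_mul h4 h5 (norm_nonneg _) (by positivity)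
  linarith

theorem b4b_mon (q : Fin n → ℂ) {ζ : ℂ} (hζ : ζ ≠ 0) (y : Fin n → ℂ) (α : Fin n →₀ ℕ) :
    mon (fun i => ζ ^ (-q i) * y i) α = ζ ^ (-pr q α) * mon y α := by
  have h1 : ∀ s : Finset (Fin n), ∏ i ∈ s, (ζ ^ (-q i) * y i) ^ α i =
      ζ ^ (-∑ i ∈ s, (α i : ℂ) * q i) * ∏ i ∈ s, y i ^ α i := by
    intro s
    classical
    induction s using Finset.induction_on with
    | empty => simp
    | insert i s hi ih =>
      rw [Finset.prod_insert hi, Finset.prod_insert hi, Finset.sum_insert hi, ih, mul_pow, neg_add,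
        Complex.cpow_add _ _ hζ]
      have e : (ζ ^ (-q i)) ^ α i = ζ ^ (-((α i : ℂ) * q i)) := by
        rw [← Complex.cpow_nat_mul]
        congr 1
        ring
      rw [e]
      ring
  exact h1 Finset.univ

theorem FF_eq {f : (Fin n → ℂ) → (Fin n → ℂ)} {a : Fin n → (Fin n →₀ ℕ) → ℂ}
    (h : HasSeries f a) (q : Fin n → ℂ) (hq : ∀ i, 0 < (q i).re) (M : ℝ) :
    ∃ R : ℝ, 1 ≤ R ∧ ∀ ζ ∈ HP R, ∀ y : Fin n → ℂ, ‖y‖ ≤ M → ∀ j,
      FF q a ζ y j = ζ ^ (q j) * f (fun i => ζ ^ (-q i) * y i) j := by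
  obtain ⟨r, hr, hs⟩ := h
  obtain ⟨R, hR1, hR⟩ := small_point q hq M r hr
  refine ⟨R, hR1, fun ζ hζ y hy j => ?_⟩
  have hz0 := (b4a_HP hR1 hζ).1
  have hne : ζ ≠ 0 := by
    intro h
    rw [h, Complex.zero_re] at hz0
    exact lt_irrefl _ hz0
  have h1 := (hs _ (hR ζ hζ y hy) j).mul_left (ζ ^ (q j))
  unfold FF
  rw [← h1.tsum_eq]
  apply tsum_congr
  intro α
  rw [b4b_mon q hne, sub_eq_add_neg, Complex.cpow_add _ _ hne]
  ring

end FFL
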