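import Pool.Agent.FFL.B4a

/-!
# [FFL-B4c] `FF ζ y - y` is small and Lipschitz

`FF_j - y_j = ∑_α b α ζ^(q_j - pr q α) mon y α` with `b α = a j α` for `α ≠ single j 1` and `b (single j 1) = 0`
(`pr q (single j 1) = q j`, `ζ^0 = 1`, `mon y (single j 1) = y j`, `a j (single j 1) = 1`).  `b α ≠ 0` implies
`Re (pr q α - q_j) ≥ 1` (`WDeg`).  `tail_bound` with `L = 1`, `z₀ = q j`; `norm_mon_le`, `norm_mon_sub_le`;
`K = ∑ u` (maximum over the finitely many `j`).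
-/

set_option autoImplicit false

namespace FFL

variable {n : ℕ}

theorem b4c_pr (q : Fin n → ℂ) (j : Fin n) : pr q (Finsupp.single j 1) = q j := by
  unfold pr
  rw [Finset.sum_eq_single j]
  · rw [Finsupp.single_eq_same, Nat.cast_one, one_mul]
  · intro i _ hi
    rw [Finsupp.single_eq_of_ne hi, Nat.cast_zero, zero_mul]
  · intro h
    exact absurd (Finset.mem_univ j) h

theorem b4c_mon (y : Fin n → ℂ) (j : Fin n) : mon y (Finsupp.single j 1) = y j := by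
  unfold mon
  rw [Finset.prod_eq_single j]
  · rw [Finsupp.single_eq_same, pow_one]
  · intro i _ hi
    rw [Finsupp.single_eq_of_ne hi, pow_zero]
  · intro h
    exact absurd (Finset.mem_univ j) h

open Classical in
/-- the coefficients without the linear term -/
noncomputable def b4c_b (a : Fin n → (Fin n →₀ ℕ) → ℂ) (j : Fin n) (α : Fin n →₀ ℕ) : ℂ :=
  if α = Finsupp.single j 1 then 0 else a j α

theorem b4c_sum (a : Fin n → (Fin n →₀ ℕ) → ℂ) (r : ℝ) (hr : 0 < r)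
    (ha : ∀ j, Summable fun α => ‖a j α‖ * r ^ deg α) (j : Fin n) :
    Summable fun α => ‖b4c_b a j α‖ * r ^ deg α := by
  refine Summable.of_nonneg_of_le (fun α => by positivity) (fun α => ?_) (ha j)
  apply mul_le_mul_of_nonneg_right _ (by positivity)
  unfold b4c_b
  split_ifs
  · rw [norm_zero]
    exact norm_nonneg _
  · exact le_rfl

theorem b4c_L {q : Fin n → ℂ} {a : Fin n → (Fin n →₀ ℕ) → ℂ} (hw : WDeg q a) (j : Fin n)
    (α : Fin n →₀ ℕ) (h : b4c_b a j α ≠ 0) : 1 ≤ (pr q α - q j).re := by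
  unfold b4c_b at h
  split_ifs at h with h1
  · exact absurd rfl h
  · rw [Complex.sub_re]
    rcases hw j α h h1 with h2 | h2
    · rw [h2, Complex.add_re, Complex.one_re]
      linarith
    · linarith

/-- the series of `FF - y` -/
theorem b4c_FF (a : Fin n → (Fin n →₀ ℕ) → ℂ) (q : Fin n → ℂ)
    (h1 : ∀ j, a j (Finsupp.single j 1) = 1) (ζ : ℂ) (y : Fin n → ℂ) (j : Fin n)
    (hs : Summable fun α => b4c_b a j α * (ζ ^ (q j - pr q α) * mon y α)) :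
    FF q a ζ y j - y j = ∑' α, b4c_b a j α * (ζ ^ (q j - pr q α) * mon y α) := by
  classical
  have h2 : HasSum (fun α => if α = Finsupp.single j 1 then y j else 0) (y j) := hasSum_ite_eq _ _
  have h3 := hs.hasSum.add h2
  have h4 : FF q a ζ y j = (∑' α, b4c_b a j α * (ζ ^ (q j - pr q α) * mon y α)) + y j := by
    rw [← h3.tsum_eq]
    unfold FF
    apply tsum_congr
    intro α
    unfold b4c_b
    by_cases h5 : α = Finsupp.single j 1
    · rw [if_pos h5, if_pos h5, h5, h1, b4c_pr, b4c_mon, sub_self, Complex.cpow_zero]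
      ring
    · rw [if_neg h5, if_neg h5, add_zero]
  rw [h4]
  ring

theorem b4c_one (a : Fin n → (Fin n →₀ ℕ) → ℂ) (r : ℝ) (hr : 0 < r)
    (ha : ∀ j, Summable fun α => ‖a j α‖ * r ^ deg α) (q : Fin n → ℂ) (hq : ∀ i, 0 < (q i).re)
    (hw : WDeg q a) (h1 : ∀ j, a j (Finsupp.single j 1) = 1) (M : ℝ) (hM : 1 ≤ M) (j : Fin n) :
    ∃ K R : ℝ, 0 ≤ K ∧ 1 ≤ R ∧ ∀ ζ ∈ HP R, ∀ y y' : Fin n → ℂ, ‖y‖ ≤ M → ‖y'‖ ≤ M →
      ‖FF q a ζ y j - y j‖ ≤ K / ‖ζ‖ ∧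
      ‖(FF q a ζ y j - y j) - (FF q a ζ y' j - y' j)‖ ≤ K / ‖ζ‖ * ‖y - y'‖ := by
  obtain ⟨u, hu, hu0, R, hR1, hR⟩ := tail_bound q hq (b4c_b a j) r hr (b4c_sum a r hr ha j) M
    (by linarith) (q j) 1 (b4c_L hw j)
  refine ⟨∑' α, u α, R, tsum_nonneg hu0, hR1, fun ζ hζ y y' hy hy' => ?_⟩
  obtain ⟨hz0, hzR⟩ := b4a_HP hR1 hζ
  have hz : 0 < ‖ζ‖ := by linarith
  have hinv : ‖ζ‖ ^ (-(1 : ℝ)) = 1 / ‖ζ‖ := by
    rw [Real.rpow_neg_one, one_div]
  have hterm : ∀ (z : Fin n → ℂ), ‖z‖ ≤ M → ∀ α,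
      ‖b4c_b a j α * (ζ ^ (q j - pr q α) * mon z α)‖ ≤ u α * (1 / ‖ζ‖) := by
    intro z hz' α
    have h2 := hR ζ hζ α
    rw [hinv] at h2
    refine le_trans ?_ h2
    rw [norm_mul, norm_mul]
    have h3 := norm_mon_le z M hz' α
    have h4 : M ^ deg α ≤ ((deg α : ℝ) + 1) * M ^ deg α := by
      have h5 : (0 : ℝ) ≤ deg α := Nat.cast_nonneg _
      have h6 : 0 ≤ M ^ deg α := by positivity
      nlinarith
    have h5 := mul_le_mul_of_nonneg_left (h3.trans h4)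
      (mul_nonneg (norm_nonneg (b4c_b a j α)) (norm_nonneg (ζ ^ (q j - pr q α))))
    linarith
  have hsum : ∀ (z : Fin n → ℂ), ‖z‖ ≤ M →
      Summable fun α => b4c_b a j α * (ζ ^ (q j - pr q α) * mon z α) := fun z hz' =>
    Summable.of_norm_bounded (hu.mul_right _) (hterm z hz')
  rw [b4c_FF a q h1 ζ y j (hsum y hy)]
  constructor
  · have h2 := tsum_of_norm_bounded (hu.hasSum.mul_right (1 / ‖ζ‖)) (hterm y hy)
    rwa [mul_one_div] at h2
  · rw [b4c_FF a q h1 ζ y' j (hsum y' hy'), ← (hsum y hy).tsum_sub (hsum y' hy')]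
    have hterm2 : ∀ α, ‖b4c_b a j α * (ζ ^ (q j - pr q α) * mon y α) -
        b4c_b a j α * (ζ ^ (q j - pr q α) * mon y' α)‖ ≤ u α * (1 / ‖ζ‖ * ‖y - y'‖) := by
      intro α
      have h2 := hR ζ hζ α
      rw [hinv] at h2
      have e : b4c_b a j α * (ζ ^ (q j - pr q α) * mon y α) -
          b4c_b a j α * (ζ ^ (q j - pr q α) * mon y' α) =
          b4c_b a j α * ζ ^ (q j - pr q α) * (mon y α - mon y' α) := by ring
      rw [e, norm_mul, norm_mul]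
      have h3 := norm_mon_sub_le y y' M hM hy hy' α
      have h4 : (deg α : ℝ) * M ^ deg α ≤ ((deg α : ℝ) + 1) * M ^ deg α := by
        have h6 : 0 ≤ M ^ deg α := by positivity
        nlinarith
      have hd := norm_nonneg (y - y')
      have h5 := mul_le_mul_of_nonneg_left (h3.trans (mul_le_mul_of_nonneg_right h4 hd))
        (mul_nonneg (norm_nonneg (b4c_b a j α)) (norm_nonneg (ζ ^ (q j - pr q α))))
      have h6 := mul_le_mul_of_nonneg_right h2 hd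
      linarith
    have h2 := tsum_of_norm_bounded (hu.hasSum.mul_right (1 / ‖ζ‖ * ‖y - y'‖)) hterm2
    rwa [← mul_assoc, mul_one_div] at h2

theorem FF_lip (a : Fin n → (Fin n →₀ ℕ) → ℂ) (r : ℝ) (hr : 0 < r)
    (ha : ∀ j, Summable fun α => ‖a j α‖ * r ^ deg α) (q : Fin n → ℂ) (hq : ∀ i, 0 < (q i).re)
    (hw : WDeg q a) (h1 : ∀ j, a j (Finsupp.single j 1) = 1) (M : ℝ) (hM : 1 ≤ M) :
    ∃ K R : ℝ, 0 ≤ K ∧ 1 ≤ R ∧ ∀ ζ ∈ HP R, ∀ y y' : Fin n → ℂ, ‖y‖ ≤ M → ‖y'‖ ≤ M → ∀ j,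
      ‖FF q a ζ y j - y j‖ ≤ K / ‖ζ‖ ∧
      ‖(FF q a ζ y j - y j) - (FF q a ζ y' j - y' j)‖ ≤ K / ‖ζ‖ * ‖y - y'‖ := by
  choose K R hK hR h using b4c_one a r hr ha q hq hw h1 M hM
  have hRs : ∀ j, R j ≤ 1 + ∑ i, R i := fun j => by
    have := Finset.single_le_sum (f := R) (fun i _ => zero_le_one.trans (hR i)) (Finset.mem_univ j)
    linarith
  have hKs : ∀ j, K j ≤ ∑ i, K i := fun j =>
    Finset.single_le_sum (f := K) (fun i _ => hK i) (Finset.mem_univ j)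
  refine ⟨∑ i, K i, 1 + ∑ i, R i, Finset.sum_nonneg fun i _ => hK i, ?_, ?_⟩
  · have := Finset.sum_nonneg (s := Finset.univ) (f := R) fun i _ => zero_le_one.trans (hR i)
    linarith
  · intro ζ hζ y y' hy hy' j
    obtain ⟨e1, e2⟩ := h j ζ (HP_mono (hRs j) hζ) y y' hy hy'
    have h3 : K j / ‖ζ‖ ≤ (∑ i, K i) / ‖ζ‖ := div_le_div_of_nonneg_right (hKs j) (norm_nonneg _)
    exact ⟨e1.trans h3, e2.trans (mul_le_mul_of_nonneg_right h3 (norm_nonneg _))⟩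

end FFL
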