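import Pool.Agent.FFL.B4a

/-!
# [FFL-B4d] expansion of `FF`

Put `g(j,α) = pr q α - q_j - 1`.  Let `F` be the set of the pairs `(j, α)`, `α ≠ single j 1`, `a j α ≠ 0`,
`0 < Re g(j,α) ≤ κ + 1`; it is finite because `Re q_i > 0` (`Re (pr q α) ≥ ρ deg α`).  Let `s = F.card`, enumerate `F` by
`Fin s` (`Finset.equivFin`), `γ 0 = 1`, `γ (i+1) = g(p_i)`, `Q 0 j = 0`, `Q (i+1) j = monomial α (a j α)` if `p_i = (j, α)` has
first component `j`, and `0` otherwise.  `P j = ∑ monomial α (a j α)` over the finite set of `α` with `pr q α = q_j + 1` and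
`a j α ≠ 0`; `eval y (monomial α b) = b mon y α`; `eval y (P j) = lead q a j y` (`tsum_eq_sum`).
The difference in the statement is the sum over the `α` with `Re g(j,α) > κ + 1` of `a j α ζ^(q_j - pr q α) mon y α`
(`ζ^(q_j - pr q α) = ζ⁻¹ ζ^(-g)`); `tail_bound` with `b` = the restriction of `a j` to these `α`, `z₀ = q j`, `L = κ + 1`.
(All sums are absolutely convergent for large `Re ζ`: `tail_bound` with `L = 0` for all coefficients; `WDeg` and
`pr q (single j 1) = q j` give `Re (pr q α - q j) ≥ 0`.)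
If all `q i` are real then all `pr q α` and `γ i` are real.
-/

set_option autoImplicit false

namespace FFL

variable {n : ℕ}

theorem b4d_pr (q : Fin n → ℂ) (j : Fin n) : pr q (Finsupp.single j 1) = q j := by
  unfold pr
  rw [Finset.sum_eq_single j]
  · rw [Finsupp.single_eq_same, Nat.cast_one, one_mul]
  · intro i _ hi
    rw [Finsupp.single_eq_of_ne hi, Nat.cast_zero, zero_mul]
  · intro h
    exact absurd (Finset.mem_univ j) h

theorem b4d_mon (y : Fin n → ℂ) (j : Fin n) : mon y (Finsupp.single j 1) = y j := by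
  unfold mon
  rw [Finset.prod_eq_single j]
  · rw [Finsupp.single_eq_same, pow_one]
  · intro i _ hi
    rw [Finsupp.single_eq_of_ne hi, pow_zero]
  · intro h
    exact absurd (Finset.mem_univ j) h

theorem b4d_eval (y : Fin n → ℂ) (α : Fin n →₀ ℕ) (b : ℂ) :
    MvPolynomial.eval y (MvPolynomial.monomial α b) = b * mon y α := by
  rw [MvPolynomial.eval_monomial, Finsupp.prod_fintype]
  · rfl
  · intro i
    exact pow_zero _

theorem b4d_fin (D : ℕ) : {α : Fin n →₀ ℕ | deg α ≤ D}.Finite := by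
  refine (Set.finite_Iic (Finsupp.equivFunOnFinite.symm (fun _ : Fin n => D))).subset ?_
  intro α hα
  show α ≤ Finsupp.equivFunOnFinite.symm (fun _ : Fin n => D)
  intro i
  show α i ≤ D
  exact (Finset.single_le_sum (f := fun i => α i) (fun i _ => Nat.zero_le _)
    (Finset.mem_univ i)).trans hα

theorem b4d_fin2 (q : Fin n → ℂ) (hq : ∀ i, 0 < (q i).re) (z : ℝ) :
    {α : Fin n →₀ ℕ | (pr q α).re ≤ z}.Finite := by
  obtain ⟨ρ, hρ, hρi⟩ := b4a_rho q hq
  refine (b4d_fin (n := n) ⌈z / ρ⌉₊).subset ?_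
  intro α hα
  have h1 : (pr q α).re ≤ z := hα
  have h2 := b4a_prre q ρ hρi α
  have h3 : (deg α : ℝ) ≤ z / ρ := by
    rw [le_div_iff₀ hρ]
    linarith
  show deg α ≤ ⌈z / ρ⌉₊
  exact_mod_cast h3.trans (Nat.le_ceil _)

open Classical in
/-- the remaining coefficients -/
noncomputable def b4d_c (a : Fin n → (Fin n →₀ ℕ) → ℂ) (j : Fin n) (G F : Finset (Fin n →₀ ℕ))
    (α : Fin n →₀ ℕ) : ℂ :=
  if α = Finsupp.single j 1 ∨ α ∈ G ∨ α ∈ F then 0 else a j α

theorem b4d_main (a : Fin n → (Fin n →₀ ℕ) → ℂ) (r : ℝ) (hr : 0 < r)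
    (ha : ∀ j, Summable fun α => ‖a j α‖ * r ^ deg α) (q : Fin n → ℂ) (hq : ∀ i, 0 < (q i).re)
    (hw : WDeg q a) (h1 : ∀ j, a j (Finsupp.single j 1) = 1) (κ : ℕ) (j : Fin n)
    (G F : Finset (Fin n →₀ ℕ)) (hG : ∀ α, α ∈ G ↔ pr q α = q j + 1 ∧ a j α ≠ 0)
    (hF : ∀ α, α ∈ F ↔ a j α ≠ 0 ∧ α ≠ Finsupp.single j 1 ∧ 0 < (pr q α - q j - 1).re ∧
      (pr q α - q j - 1).re ≤ (κ : ℝ) + 1) (M : ℝ) (hM : 0 ≤ M) :
    ∃ C R : ℝ, 0 ≤ C ∧ 1 ≤ R ∧ ∀ ζ ∈ HP R, ∀ y : Fin n → ℂ, ‖y‖ ≤ M →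
      ‖FF q a ζ y j - (y j + ζ⁻¹ * ((∑ α ∈ G, a j α * mon y α) +
        ∑ α ∈ F, ζ ^ (-(pr q α - q j - 1)) * (a j α * mon y α)))‖ ≤ C * ‖ζ‖ ^ (-((κ : ℝ) + 1)) := by
  classical
  have hsG : Finsupp.single j 1 ∉ G := by
    intro h
    have h2 := ((hG _).1 h).1
    rw [b4d_pr] at h2
    have h3 := congrArg Complex.re h2
    rw [Complex.add_re, Complex.one_re] at h3
    linarith
  have hsF : Finsupp.single j 1 ∉ F := fun h => ((hF _).1 h).2.1 rfl
  have hGF : ∀ α ∈ G, α ∉ F := by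
    intro α hα hα'
    have h2 := ((hG _).1 hα).1
    have h3 := ((hF _).1 hα').2.2.1
    rw [h2] at h3
    have e : q j + 1 - q j - 1 = 0 := by ring
    rw [e, Complex.zero_re] at h3
    exact lt_irrefl _ h3
  have hcs : Summable fun α => ‖b4d_c a j G F α‖ * r ^ deg α := by
    refine Summable.of_nonneg_of_le (fun α => by positivity) (fun α => ?_) (ha j)
    apply mul_le_mul_of_nonneg_right _ (by positivity)
    unfold b4d_c
    split_ifs
    · rw [norm_zero]
      exact norm_nonneg _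
    · exact le_rfl
  have hL : ∀ α, b4d_c a j G F α ≠ 0 → (κ : ℝ) + 1 ≤ (pr q α - q j).re := by
    intro α hα
    unfold b4d_c at hα
    split_ifs at hα with h2
    · exact absurd rfl hα
    · rw [not_or, not_or] at h2
      obtain ⟨h3, h4, h5⟩ := h2
      rcases hw j α hα h3 with h6 | h6
      · exact absurd ((hG α).2 ⟨h6, hα⟩) h4
      · by_contra h7
        apply h5
        rw [hF]
        rw [not_le, Complex.sub_re] at h7
        refine ⟨hα, h3, ?_, ?_⟩
        · rw [Complex.sub_re, Complex.sub_re, Complex.one_re]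
          linarith
        · rw [Complex.sub_re, Complex.sub_re, Complex.one_re]
          linarith
  obtain ⟨u, hu, hu0, R, hR1, hR⟩ := tail_bound q hq (b4d_c a j G F) r hr hcs M hM (q j)
    ((κ : ℝ) + 1) hL
  refine ⟨∑' α, u α, R, tsum_nonneg hu0, hR1, fun ζ hζ y hy => ?_⟩
  have hz0 := (b4a_HP hR1 hζ).1
  have hne : ζ ≠ 0 := by
    intro h
    rw [h, Complex.zero_re] at hz0
    exact lt_irrefl _ hz0
  have hterm : ∀ α, ‖b4d_c a j G F α * (ζ ^ (q j - pr q α) * mon y α)‖ ≤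
      u α * ‖ζ‖ ^ (-((κ : ℝ) + 1)) := by
    intro α
    refine le_trans ?_ (hR ζ hζ α)
    rw [norm_mul, norm_mul]
    have h3 := norm_mon_le y M hy α
    have h4 : M ^ deg α ≤ ((deg α : ℝ) + 1) * M ^ deg α := by
      have h5 : (0 : ℝ) ≤ deg α := Nat.cast_nonneg _
      have h6 : 0 ≤ M ^ deg α := by positivity
      nlinarith
    have h5 := mul_le_mul_of_nonneg_left (h3.trans h4)
      (mul_nonneg (norm_nonneg (b4d_c a j G F α)) (norm_nonneg (ζ ^ (q j - pr q α))))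
    linarith
  have hsum : Summable fun α => b4d_c a j G F α * (ζ ^ (q j - pr q α) * mon y α) :=
    Summable.of_norm_bounded (hu.mul_right _) hterm
  have s1 : HasSum (fun α => if α = Finsupp.single j 1 then y j else 0) (y j) := hasSum_ite_eq _ _
  have s2 : HasSum (fun α => if α ∈ G then ζ⁻¹ * (a j α * mon y α) else 0)
      (∑ α ∈ G, ζ⁻¹ * (a j α * mon y α)) := by
    have h2 : HasSum (fun α => if α ∈ G then ζ⁻¹ * (a j α * mon y α) else 0)
        (∑ α ∈ G, if α ∈ G then ζ⁻¹ * (a j α * mon y α) else 0) :=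
      hasSum_sum_of_ne_finset_zero fun α hα => if_neg hα
    rwa [Finset.sum_congr rfl fun α hα => if_pos hα] at h2
  have s3 : HasSum (fun α => if α ∈ F then
        ζ⁻¹ * (ζ ^ (-(pr q α - q j - 1)) * (a j α * mon y α)) else 0)
      (∑ α ∈ F, ζ⁻¹ * (ζ ^ (-(pr q α - q j - 1)) * (a j α * mon y α))) := by
    have h2 : HasSum (fun α => if α ∈ F then
          ζ⁻¹ * (ζ ^ (-(pr q α - q j - 1)) * (a j α * mon y α)) else 0)
        (∑ α ∈ F, if α ∈ F then ζ⁻¹ * (ζ ^ (-(pr q α - q j - 1)) * (a j α * mon y α)) else 0) :=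
      hasSum_sum_of_ne_finset_zero fun α hα => if_neg hα
    rwa [Finset.sum_congr rfl fun α hα => if_pos hα] at h2
  have htot := ((hsum.hasSum.add s1).add s2).add s3
  have hFF : FF q a ζ y j = (∑' α, b4d_c a j G F α * (ζ ^ (q j - pr q α) * mon y α)) + y j +
      (∑ α ∈ G, ζ⁻¹ * (a j α * mon y α)) +
      ∑ α ∈ F, ζ⁻¹ * (ζ ^ (-(pr q α - q j - 1)) * (a j α * mon y α)) := by
    rw [← htot.tsum_eq]
    unfold FF
    apply tsum_congr
    intro α
    unfold b4d_c
    by_cases c1 : α = Finsupp.single j 1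
    · rw [if_pos (Or.inl c1), if_pos c1, if_neg (by rw [c1]; exact hsG), if_neg (by rw [c1]; exact hsF),
        c1, h1, b4d_pr, b4d_mon, sub_self, Complex.cpow_zero]
      ring
    · rw [if_neg c1]
      by_cases c2 : α ∈ G
      · rw [if_pos (Or.inr (Or.inl c2)), if_pos c2, if_neg (hGF α c2), ((hG α).1 c2).1]
        have e : q j - (q j + 1) = -1 := by ring
        rw [e, Complex.cpow_neg_one]
        ring
      · rw [if_neg c2]
        by_cases c3 : α ∈ F
        · rw [if_pos (Or.inr (Or.inr c3)), if_pos c3]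
          have e : q j - pr q α = -1 + -(pr q α - q j - 1) := by ring
          rw [e, Complex.cpow_add _ _ hne, Complex.cpow_neg_one]
          ring
        · rw [if_neg (by rw [not_or, not_or]; exact ⟨c1, c2, c3⟩), if_neg c3]
          ring
  have hdiff : FF q a ζ y j - (y j + ζ⁻¹ * ((∑ α ∈ G, a j α * mon y α) +
        ∑ α ∈ F, ζ ^ (-(pr q α - q j - 1)) * (a j α * mon y α))) =
      ∑' α, b4d_c a j G F α * (ζ ^ (q j - pr q α) * mon y α) := by
    rw [hFF, ← Finset.mul_sum, ← Finset.mul_sum]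
    ring
  rw [hdiff]
  exact tsum_of_norm_bounded (hu.hasSum.mul_right _) hterm

/-- the exponent of a pair -/
noncomputable def b4d_g (q : Fin n → ℂ) (p : Fin n × (Fin n →₀ ℕ)) : ℂ := pr q p.2 - q p.1 - 1

theorem b4d_im (q : Fin n → ℂ) (hq : ∀ i, (q i).im = 0) (p : Fin n × (Fin n →₀ ℕ)) :
    (b4d_g q p).im = 0 := by
  unfold b4d_g pr
  rw [Complex.sub_im, Complex.sub_im, Complex.one_im, hq, sub_zero, sub_zero, Complex.im_sum]
  apply Finset.sum_eq_zero
  intro i _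
  rw [Complex.mul_im, hq i, Complex.natCast_im, zero_mul, mul_zero, add_zero]

theorem b4d_inj (F' : Finset (Fin n × (Fin n →₀ ℕ))) (j : Fin n) :
    Set.InjOn (fun α : Fin n →₀ ℕ => (j, α)) ((fun α : Fin n →₀ ℕ => (j, α)) ⁻¹' (F' : Set _)) := by
  intro x _ y _ h
  exact (Prod.mk.inj h).2

theorem FF_expand (a : Fin n → (Fin n →₀ ℕ) → ℂ) (r : ℝ) (hr : 0 < r)
    (ha : ∀ j, Summable fun α => ‖a j α‖ * r ^ deg α) (q : Fin n → ℂ) (hq : ∀ i, 0 < (q i).re)
    (hw : WDeg q a) (h1 : ∀ j, a j (Finsupp.single j 1) = 1) (κ : ℕ) :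
    ∃ (s : ℕ) (γ : Fin (s + 1) → ℂ) (P : Fin n → MvPolynomial (Fin n) ℂ)
      (Q : Fin (s + 1) → Fin n → MvPolynomial (Fin n) ℂ), γ 0 = 1 ∧ (∀ i, 0 < (γ i).re) ∧
      ((∀ i, (q i).im = 0) → ∀ i, (γ i).im = 0) ∧
      (∀ y j, MvPolynomial.eval y (P j) = lead q a j y) ∧
      ∀ M : ℝ, 0 ≤ M → ∃ C R : ℝ, 0 ≤ C ∧ 1 ≤ R ∧ ∀ ζ ∈ HP R, ∀ y : Fin n → ℂ, ‖y‖ ≤ M → ∀ j,
        ‖FF q a ζ y j - (y j + ζ⁻¹ * (MvPolynomial.eval y (P j) +
          ∑ i, xv γ ζ i * MvPolynomial.eval y (Q i j)))‖ ≤ C * ‖ζ‖ ^ (-((κ : ℝ) + 1)) := by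
  classical
  -- the leading terms
  have hGf : ∀ j : Fin n, {α : Fin n →₀ ℕ | pr q α = q j + 1 ∧ a j α ≠ 0}.Finite := by
    intro j
    refine (b4d_fin2 q hq ((q j).re + 1)).subset ?_
    intro α hα
    show (pr q α).re ≤ (q j).re + 1
    rw [hα.1, Complex.add_re, Complex.one_re]
  -- the pairs
  have hFf : {p : Fin n × (Fin n →₀ ℕ) | a p.1 p.2 ≠ 0 ∧ p.2 ≠ Finsupp.single p.1 1 ∧
      0 < (b4d_g q p).re ∧ (b4d_g q p).re ≤ (κ : ℝ) + 1}.Finite := by
    have h2 : (⋃ j : Fin n, (fun α : Fin n →₀ ℕ => (j, α)) ''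
        {α | (pr q α).re ≤ (q j).re + ((κ : ℝ) + 2)}).Finite :=
      Set.finite_iUnion fun j => (b4d_fin2 q hq _).image _
    refine h2.subset ?_
    rintro ⟨j, α⟩ ⟨-, -, -, h3⟩
    refine Set.mem_iUnion.2 ⟨j, α, ?_, rfl⟩
    show (pr q α).re ≤ (q j).re + ((κ : ℝ) + 2)
    unfold b4d_g at h3
    rw [Complex.sub_re, Complex.sub_re, Complex.one_re] at h3
    simp only at h3
    linarith
  obtain ⟨F', hF'⟩ : ∃ F' : Finset (Fin n × (Fin n →₀ ℕ)), ∀ p, p ∈ F' ↔ a p.1 p.2 ≠ 0 ∧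
      p.2 ≠ Finsupp.single p.1 1 ∧ 0 < (b4d_g q p).re ∧ (b4d_g q p).re ≤ (κ : ℝ) + 1 :=
    ⟨hFf.toFinset, fun p => by rw [Set.Finite.mem_toFinset]; rfl⟩
  obtain ⟨G, hG⟩ : ∃ G : Fin n → Finset (Fin n →₀ ℕ), ∀ j α, α ∈ G j ↔ pr q α = q j + 1 ∧
      a j α ≠ 0 := ⟨fun j => (hGf j).toFinset, fun j α => by rw [Set.Finite.mem_toFinset]; rfl⟩
  obtain ⟨F, hF⟩ : ∃ F : Fin n → Finset (Fin n →₀ ℕ), ∀ j α, α ∈ F j ↔ (j, α) ∈ F' :=
    ⟨fun j => F'.preimage (fun α => (j, α)) (b4d_inj F' j), fun j α => Finset.mem_preimage⟩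
  have en : Fin F'.card ≃ F' := F'.equivFin.symm
  refine ⟨F'.card, Fin.cons 1 (fun i => b4d_g q (en i).1),
    fun j => ∑ α ∈ G j, MvPolynomial.monomial α (a j α),
    Fin.cons (fun _ => 0) (fun i j => if (en i).1.1 = j then
      MvPolynomial.monomial (en i).1.2 (a j (en i).1.2) else 0), rfl, ?_, ?_, ?_, ?_⟩
  · intro i
    refine Fin.cases ?_ (fun i => ?_) i
    · rw [Fin.cons_zero, Complex.one_re]
      exact one_pos
    · rw [Fin.cons_succ]
      exact ((hF' _).1 (en i).2).2.2.1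
  · intro hqi i
    refine Fin.cases ?_ (fun i => ?_) i
    · rw [Fin.cons_zero, Complex.one_im]
    · rw [Fin.cons_succ]
      exact b4d_im q hqi _
  · intro y j
    rw [map_sum]
    unfold lead
    rw [tsum_eq_sum (s := G j)]
    · apply Finset.sum_congr rfl
      intro α hα
      rw [b4d_eval, if_pos ((hG j α).1 hα).1]
    · intro α hα
      by_cases h2 : pr q α = q j + 1
      · have h3 : a j α = 0 := by
          by_contra h4
          exact hα ((hG j α).2 ⟨h2, h4⟩)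
        rw [if_pos h2, h3, zero_mul]
      · rw [if_neg h2]
  · intro M hM
    have key : ∀ j, ∃ C R : ℝ, 0 ≤ C ∧ 1 ≤ R ∧ ∀ ζ ∈ HP R, ∀ y : Fin n → ℂ, ‖y‖ ≤ M →
        ‖FF q a ζ y j - (y j + ζ⁻¹ * ((∑ α ∈ G j, a j α * mon y α) +
          ∑ α ∈ F j, ζ ^ (-(pr q α - q j - 1)) * (a j α * mon y α)))‖ ≤
            C * ‖ζ‖ ^ (-((κ : ℝ) + 1)) := fun j =>
      b4d_main a r hr ha q hq hw h1 κ j (G j) (F j) (hG j) (fun α => by rw [hF, hF']; rfl) M hM
    choose C R hC hR h using key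
    refine ⟨∑ i, C i, 1 + ∑ i, R i, Finset.sum_nonneg fun i _ => hC i, ?_, ?_⟩
    · have := Finset.sum_nonneg (s := Finset.univ) (f := R) fun i _ => zero_le_one.trans (hR i)
      linarith
    · intro ζ hζ y hy j
      have hRj := Finset.single_le_sum (f := R) (fun i _ => zero_le_one.trans (hR i))
        (Finset.mem_univ j)
      have hCj := Finset.single_le_sum (f := C) (fun i _ => hC i) (Finset.mem_univ j)
      have h2 := h j ζ (HP_mono (by linarith) hζ) y hy
      have e1 : MvPolynomial.eval y (∑ α ∈ G j, MvPolynomial.monomial α (a j α)) =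
          ∑ α ∈ G j, a j α * mon y α := by
        rw [map_sum]
        exact Finset.sum_congr rfl fun α _ => b4d_eval y α _
      have e2 : (∑ i, xv (Fin.cons 1 (fun i => b4d_g q (en i).1) : Fin (F'.card + 1) → ℂ) ζ i *
          MvPolynomial.eval y ((Fin.cons (fun _ => 0) (fun i j => if (en i).1.1 = j then
            MvPolynomial.monomial (en i).1.2 (a j (en i).1.2) else 0) :
              Fin (F'.card + 1) → Fin n → MvPolynomial (Fin n) ℂ) i j)) =
          ∑ α ∈ F j, ζ ^ (-(pr q α - q j - 1)) * (a j α * mon y α) := by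
        rw [Fin.sum_univ_succ]
        simp only [xv, Fin.cons_zero, Fin.cons_succ, map_zero, mul_zero, zero_add]
        have e3 : (∑ i : Fin F'.card, ζ ^ (-b4d_g q (en i).1) *
            MvPolynomial.eval y (if (en i).1.1 = j then
              MvPolynomial.monomial (en i).1.2 (a j (en i).1.2) else 0)) =
            ∑ p : F', ζ ^ (-b4d_g q p.1) * MvPolynomial.eval y (if p.1.1 = j then
              MvPolynomial.monomial p.1.2 (a j p.1.2) else 0) :=
          Equiv.sum_comp en (fun p : F' => ζ ^ (-b4d_g q p.1) *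
            MvPolynomial.eval y (if p.1.1 = j then
              MvPolynomial.monomial p.1.2 (a j p.1.2) else 0))
        rw [e3, Finset.sum_coe_sort F' (fun p : Fin n × (Fin n →₀ ℕ) => ζ ^ (-b4d_g q p) *
          MvPolynomial.eval y (if p.1 = j then MvPolynomial.monomial p.2 (a j p.2) else 0))]
        have e4 : F j = F'.preimage (fun α => (j, α)) (b4d_inj F' j) := by
          ext α
          exact (hF j α).trans Finset.mem_preimage.symm
        rw [e4, ← Finset.sum_preimage (fun α : Fin n →₀ ℕ => (j, α)) F' (b4d_inj F' j)]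
        · apply Finset.sum_congr rfl
          intro α _
          rw [if_pos rfl, b4d_eval]
          rfl
        · rintro ⟨j', α⟩ _ hp
          have hne : j' ≠ j := by
            rintro rfl
            exact hp ⟨α, rfl⟩
          rw [if_neg hne, map_zero, mul_zero]
      rw [e1, e2]
      exact h2.trans (mul_le_mul_of_nonneg_right hCj (by positivity))

end FFL
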