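import Pool.Agent.FFL.B4a

/-!
# [FFL-B4e] holomorphy of `ζ ↦ FF ζ (y ζ)`

`tail_bound` with `L = 0` for `b = a j` (`a j α ≠ 0` implies `Re (pr q α - q j) ≥ 0` by `WDeg`, and it is `0` for
`α = single j 1`): every term of the series is holomorphic on `HP R'` (`ζ ↦ ζ^w` is holomorphic on `Re ζ > 0`, `mon (y ζ) α` is a
finite product) and bounded by the summable `u α` (`norm_mon_le`; `deg α + 1 ≥ 1`).
`differentiableOn_tsum_of_summable_norm`.
-/

set_option autoImplicit false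

namespace FFL

variable {n : ℕ}

theorem b4e_pr (q : Fin n → ℂ) (j : Fin n) : pr q (Finsupp.single j 1) = q j := by
  unfold pr
  rw [Finset.sum_eq_single j]
  · rw [Finsupp.single_eq_same, Nat.cast_one, one_mul]
  · intro i _ hi
    rw [Finsupp.single_eq_of_ne hi, Nat.cast_zero, zero_mul]
  · intro h
    exact absurd (Finset.mem_univ j) h

theorem b4e_mon {y : ℂ → Fin n → ℂ} {U : Set ℂ} (hy : DifferentiableOn ℂ y U) (α : Fin n →₀ ℕ) :
    DifferentiableOn ℂ (fun ζ => mon (y ζ) α) U := by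
  have hyi : ∀ i, DifferentiableOn ℂ (fun ζ => y ζ i) U := fun i => differentiableOn_pi.1 hy i
  have key : ∀ s : Finset (Fin n), DifferentiableOn ℂ (fun ζ => ∏ i ∈ s, y ζ i ^ α i) U := by
    intro s
    classical
    induction s using Finset.induction_on with
    | empty =>
      simp only [Finset.prod_empty]
      exact differentiableOn_const _
    | insert i s hi ih =>
      simp only [Finset.prod_insert hi]
      exact ((hyi i).pow (α i)).mul ih
  exact key Finset.univ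

theorem b4e_one (a : Fin n → (Fin n →₀ ℕ) → ℂ) (r : ℝ) (hr : 0 < r)
    (ha : ∀ j, Summable fun α => ‖a j α‖ * r ^ deg α) (q : Fin n → ℂ) (hq : ∀ i, 0 < (q i).re)
    (hw : WDeg q a) (M : ℝ) (hM : 0 ≤ M) (j : Fin n) : ∃ R : ℝ, 1 ≤ R ∧ ∀ R' : ℝ, R ≤ R' →
      ∀ y : ℂ → Fin n → ℂ, DifferentiableOn ℂ y (HP R') → (∀ ζ ∈ HP R', ‖y ζ‖ ≤ M) →
        DifferentiableOn ℂ (fun ζ => FF q a ζ (y ζ) j) (HP R') := by
  have hL : ∀ α, a j α ≠ 0 → (0 : ℝ) ≤ (pr q α - q j).re := by
    intro α hα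
    rw [Complex.sub_re]
    by_cases h2 : α = Finsupp.single j 1
    · rw [h2, b4e_pr]
      linarith
    · rcases hw j α hα h2 with h3 | h3
      · rw [h3, Complex.add_re, Complex.one_re]
        linarith
      · linarith
  obtain ⟨u, hu, hu0, R, hR1, hR⟩ := tail_bound q hq (a j) r hr (ha j) M hM (q j) 0 hL
  refine ⟨R, hR1, fun R' hR' y hy hyM => ?_⟩
  unfold FF
  refine Complex.differentiableOn_tsum_of_summable_norm hu (fun α => ?_) (isOpen_HP R') (fun α ζ hζ => ?_)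
  · refine DifferentiableOn.const_mul (DifferentiableOn.mul ?_ (b4e_mon hy α)) _
    intro ζ hζ
    have hz0 := (b4a_HP (hR1.trans hR') hζ).1
    exact ((differentiableAt_id.cpow_const (Or.inl hz0))).differentiableWithinAt
  · have h2 := hR ζ (HP_mono hR' hζ) α
    rw [neg_zero, Real.rpow_zero, mul_one] at h2
    refine le_trans ?_ h2
    rw [norm_mul, norm_mul]
    have h3 := norm_mon_le (y ζ) M (hyM ζ hζ) α
    have h4 : M ^ deg α ≤ ((deg α : ℝ) + 1) * M ^ deg α := by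
      have h5 : (0 : ℝ) ≤ deg α := Nat.cast_nonneg _
      have h6 : 0 ≤ M ^ deg α := by positivity
      nlinarith
    have h5 := mul_le_mul_of_nonneg_left (h3.trans h4)
      (mul_nonneg (norm_nonneg (a j α)) (norm_nonneg (ζ ^ (q j - pr q α))))
    linarith

theorem FF_holo (a : Fin n → (Fin n →₀ ℕ) → ℂ) (r : ℝ) (hr : 0 < r)
    (ha : ∀ j, Summable fun α => ‖a j α‖ * r ^ deg α) (q : Fin n → ℂ) (hq : ∀ i, 0 < (q i).re)
    (hw : WDeg q a) (M : ℝ) (hM : 0 ≤ M) : ∃ R : ℝ, 1 ≤ R ∧ ∀ R' : ℝ, R ≤ R' →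
      ∀ y : ℂ → Fin n → ℂ, DifferentiableOn ℂ y (HP R') → (∀ ζ ∈ HP R', ‖y ζ‖ ≤ M) →
        ∀ j, DifferentiableOn ℂ (fun ζ => FF q a ζ (y ζ) j) (HP R') := by
  choose R hR h using b4e_one a r hr ha q hq hw M hM
  refine ⟨1 + ∑ i, R i, ?_, ?_⟩
  · have := Finset.sum_nonneg (s := Finset.univ) (f := R) fun i _ => zero_le_one.trans (hR i)
    linarith
  · intro R' hR' y hy hyM j
    have h2 := Finset.single_le_sum (f := R) (fun i _ => zero_le_one.trans (hR i)) (Finset.mem_univ j)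
    exact h j R' (by linarith) y hy hyM

end FFL
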