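import Pool.Agent.FFL.A6
import Pool.Agent.FFL.B3
import Pool.Agent.FFL.B4c
import Pool.Agent.FFL.B4d

/-!
# [FFL-B5] approximate solutions of every order

`FF_expand` (with `κ`) gives `s, γ, P, Q`; `ρ = min Re γ_i > 0`.  Choose `M` with `κ < M ρ` and `N = κ + 2`.
`taylor_pow (q j) N`, `taylor_pow (-γ i) N`, `taylor_log N` give polynomials `bp j`, `tp i`, `lp`;
`B j = emb 0 (bp j)`, `T i = emb 0 (tp i)`, `Λ = emb 0 lp` satisfy `Formal` by `emb_sub_mem`.  `formal_solution` gives `Y` with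
`err_j ∈ x_0 I^M` (`eval c (P j) = lead q a j c = - q_j c_j`).
Let `y = y0 γ Y ζ`, `s = ζ⁻¹ = xv γ ζ 0`.  By `evA_cmp`, `evA_emb`, `evA_X`:
`evA (err_j) = bp_j(s) (y_j + s (P_j(y) + ∑ x_i Q_ij(y))) - evA (shf Y_j)`, and `‖evA (err_j)‖ ≤ C ‖ζ‖^(-(κ+1))` by
`evA_bound_X`.  With `G = y_j + s (P_j(y) + ∑ x_i Q_ij(y))`:
`(1+s)^(q_j) FF_j - y0(ζ+1)_j = ((1+s)^(q_j) - bp_j(s)) FF_j + bp_j(s) (FF_j - G) + evA (err_j) + (evA (shf Y_j) - y0(ζ+1)_j)`.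
`y` is bounded (`y0_lim`), `FF_j` is bounded (`FF_lip`), `bp_j(s)` is bounded; the four terms are `O(‖ζ‖^(-N))`,
`O(‖ζ‖^(-(κ+1)))`, `O(‖ζ‖^(-(κ+1)))`, `O(‖ζ‖^(1-N))` (`shift_eval`).
-/

set_option autoImplicit false

namespace FFL

variable {n : ℕ}

theorem b5_min {m : ℕ} (γ : Fin (m + 1) → ℂ) (hγ : ∀ i, 0 < (γ i).re) :
    ∃ ρ : ℝ, 0 < ρ ∧ ∀ i, ρ ≤ (γ i).re := by
  obtain ⟨i, hi⟩ := Finite.exists_min (fun i => (γ i).re)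
  exact ⟨(γ i).re, hγ i, hi⟩

theorem b5_poly (p : Polynomial ℂ) : ∃ D : ℝ, 0 ≤ D ∧ ∀ s : ℂ, ‖s‖ ≤ 1 → ‖p.eval s‖ ≤ D := by
  obtain ⟨D, hD⟩ := (isCompact_closedBall (0 : ℂ) 1).exists_bound_of_continuousOn
    (f := fun s => p.eval s) p.continuous.continuousOn
  refine ⟨D, ?_, fun s hs => hD s (by rwa [mem_closedBall_zero_iff])⟩
  exact (norm_nonneg _).trans (hD 0 (by simp))

theorem b5_pow (κ : ℕ) {ζ : ℂ} (hζ : 1 ≤ ‖ζ‖) :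
    ‖ζ⁻¹‖ ^ (κ + 2) ≤ ‖ζ‖ ^ (-((κ : ℝ) + 1)) := by
  have e : (κ : ℝ) + 1 = ((κ + 1 : ℕ) : ℝ) := by push_cast; ring
  rw [Real.rpow_neg (norm_nonneg _), e, Real.rpow_natCast, norm_inv, inv_pow]
  exact inv_anti₀ (by positivity) (pow_le_pow_right₀ hζ (Nat.le_succ _))

theorem b5_cst1 (ι : Type) : cst ι 1 = 1 := by
  unfold cst
  rw [map_one, map_one]

theorem b5_cst0 (ι : Type) : cst ι 0 = 0 := by
  unfold cst
  rw [map_zero, map_zero]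

theorem b5_cstneg (ι : Type) (c : ℂ) : cst ι (-c) = -cst ι c := by
  unfold cst
  rw [map_neg, map_neg]

theorem approx (a : Fin n → (Fin n →₀ ℕ) → ℂ) (r : ℝ) (hr : 0 < r)
    (ha : ∀ j, Summable fun α => ‖a j α‖ * r ^ deg α) (q : Fin n → ℂ) (hq : ∀ i, 0 < (q i).re)
    (hw : WDeg q a) (h1 : ∀ j, a j (Finsupp.single j 1) = 1) (c : Fin n → ℂ)
    (hc : ∀ j, lead q a j c = -q j * c j) (κ : ℕ) :
    ∃ (s : ℕ) (γ : Fin (s + 1) → ℂ) (Y : Fin n → AA (Fin (s + 1))), γ 0 = 1 ∧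
      (∀ i, 0 < (γ i).re) ∧ ((∀ i, (q i).im = 0) → ∀ i, (γ i).im = 0) ∧
      (∀ j, Y j - cst _ (c j) ∈ II (Fin (s + 1))) ∧
      ∃ C R : ℝ, 0 ≤ C ∧ 1 ≤ R ∧ ∀ ζ ∈ HP R, ∀ j,
        ‖(1 + ζ⁻¹) ^ (q j) * FF q a ζ (y0 γ Y ζ) j - y0 γ Y (ζ + 1) j‖ ≤
          C * ‖ζ‖ ^ (-((κ : ℝ) + 1)) := by
  obtain ⟨m, γ, P, Q, hγ0, hγ, him, hP, hE⟩ := FF_expand a r hr ha q hq hw h1 κ
  obtain ⟨ρ, hρ, hργ⟩ := b5_min γ hγ
  obtain ⟨M, hM⟩ := exists_nat_gt ((κ : ℝ) / ρ)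
  have hMρ : (κ : ℝ) < M * ρ := by
    rwa [div_lt_iff₀ hρ] at hM
  choose bp hbp0 hbp1 Cb hCb hbp using fun j => taylor_pow (q j) (κ + 2)
  choose tp htp0 htp1 Ct hCt htp using fun i => taylor_pow (-γ i) (κ + 2)
  obtain ⟨lp, hlp0, hlp1, Cl, hCl, hlp⟩ := taylor_log (κ + 2)
  have hformal : Formal (0 : Fin (m + 1)) γ q (fun j => emb 0 (bp j)) (fun i => emb 0 (tp i))
      (emb 0 lp) := by
    refine ⟨hγ0, fun j => ?_, fun i => ?_, ?_⟩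
    · have h2 := emb_sub_mem (0 : Fin (m + 1)) (bp j)
      rwa [hbp0, hbp1, b5_cst1] at h2
    · have h2 := emb_sub_mem (0 : Fin (m + 1)) (tp i)
      rw [htp0, htp1, b5_cst1, b5_cstneg] at h2
      have e3 : emb (0 : Fin (m + 1)) (tp i) - 1 + cst _ (γ i) * MvPolynomial.X 0 =
          emb 0 (tp i) - 1 - (-cst (Fin (m + 1)) (γ i)) * MvPolynomial.X 0 := by ring
      show emb (0 : Fin (m + 1)) (tp i) - 1 + cst _ (γ i) * MvPolynomial.X 0 ∈ _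
      rw [e3]
      exact h2
    · have h2 := emb_sub_mem (0 : Fin (m + 1)) lp
      rwa [hlp0, hlp1, b5_cst0, b5_cst1, sub_zero, one_mul] at h2
  obtain ⟨Y, hY, hYe⟩ := formal_solution hformal P Q c (fun j => by rw [hP, hc]) M
  refine ⟨m, γ, Y, hγ0, hγ, him, hY, ?_⟩
  -- bounds
  obtain ⟨Cy, ρy, hCy, hρy, hy0⟩ := y0_lim γ hγ c Y hY
  obtain ⟨M₁, hM₁⟩ : ∃ M₁, M₁ = max 1 (Cy + ‖c‖) := ⟨_, rfl⟩
  have hM1 : 1 ≤ M₁ := by rw [hM₁]; exact le_max_left _ _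
  have hyb : ∀ ζ ∈ HP 1, ‖y0 γ Y ζ‖ ≤ M₁ := by
    intro ζ hζ
    have hz := (b4a_HP le_rfl hζ).2
    refine (pi_norm_le_iff_of_nonneg (by linarith)).2 fun j => ?_
    have h2 := hy0 ζ hζ j
    have h3 : ‖ζ‖ ^ (-ρy) ≤ 1 := Real.rpow_le_one_of_one_le_of_nonpos hz (by linarith)
    have h4 := mul_le_of_le_one_right hCy h3
    have h5 := norm_le_pi_norm c j
    have h6 := norm_add_le (y0 γ Y ζ j - c j) (c j)
    rw [sub_add_cancel] at h6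
    rw [hM₁]
    exact le_trans (by linarith) (le_max_right _ _)
  obtain ⟨K, RK, hK, hRK, hlip⟩ := FF_lip a r hr ha q hq hw h1 M₁ hM1
  obtain ⟨CE, RE, hCE, hRE, hE'⟩ := hE M₁ (by linarith)
  choose Cs hCs hshift using fun j => shift_eval (0 : Fin (m + 1)) γ hγ0 hγ (κ + 2) tp lp
    (fun i => ⟨Ct i, hCt i, htp i⟩) ⟨Cl, hCl, hlp⟩ (Y j)
  choose Ce hCe herr using fun j => evA_bound_X (0 : Fin (m + 1)) γ hγ0 ρ hρ hργ M _ (hYe j) κ hMρ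
  choose D hD hbD using fun j => b5_poly (bp j)
  refine ⟨∑ j, (Cb j * (K + M₁) + D j * CE + Ce j + Cs j), 2 + RK + RE, ?_, by linarith, ?_⟩
  · apply Finset.sum_nonneg
    intro j _
    have := hCb j
    have := hD j
    have := hCe j
    have := hCs j
    positivity
  intro ζ hζ j
  have hj : Cb j * (K + M₁) + D j * CE + Ce j + Cs j ≤
      ∑ j, (Cb j * (K + M₁) + D j * CE + Ce j + Cs j) := by
    refine Finset.single_le_sum (f := fun j => Cb j * (K + M₁) + D j * CE + Ce j + Cs j)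
      (fun i _ => ?_) (Finset.mem_univ j)
    have := hCb i
    have := hD i
    have := hCe i
    have := hCs i
    positivity
  have hζ1 : ζ ∈ HP 1 := HP_mono (by linarith) hζ
  have hζ2 : ζ ∈ HP 2 := HP_mono (by linarith) hζ
  have hζK : ζ ∈ HP RK := HP_mono (by linarith) hζ
  have hζE : ζ ∈ HP RE := HP_mono (by linarith) hζ
  have hz := (b4a_HP le_rfl hζ1).2
  have hz0 : 0 < ‖ζ‖ := by linarith
  have hs := b3b_half hζ2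
  obtain ⟨X, hX⟩ : ∃ X, X = ‖ζ‖ ^ (-((κ : ℝ) + 1)) := ⟨_, rfl⟩
  have hX0 : 0 ≤ X := by rw [hX]; positivity
  have hyM := hyb ζ hζ1
  -- the four terms
  have t1 : ‖((1 + ζ⁻¹) ^ (q j) - (bp j).eval ζ⁻¹) * FF q a ζ (y0 γ Y ζ) j‖ ≤
      Cb j * (K + M₁) * X := by
    rw [norm_mul]
    have e1 := hbp j ζ⁻¹ hs
    have e2 := b5_pow κ hz
    rw [← hX] at e2
    have e3 : ‖(1 + ζ⁻¹) ^ (q j) - (bp j).eval ζ⁻¹‖ ≤ Cb j * X :=
      e1.trans (mul_le_mul_of_nonneg_left e2 (hCb j))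
    have e4 : ‖FF q a ζ (y0 γ Y ζ) j‖ ≤ K + M₁ := by
      have e5 := (hlip ζ hζK (y0 γ Y ζ) (y0 γ Y ζ) hyM hyM j).1
      have e6 : K / ‖ζ‖ ≤ K := div_le_self hK hz
      have e7 := (norm_le_pi_norm (y0 γ Y ζ) j).trans hyM
      have e8 := norm_add_le (FF q a ζ (y0 γ Y ζ) j - y0 γ Y ζ j) (y0 γ Y ζ j)
      rw [sub_add_cancel] at e8
      linarith
    have e5 := mul_le_mul e3 e4 (norm_nonneg _) (mul_nonneg (hCb j) hX0)
    linarith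
  obtain ⟨G, hG⟩ : ∃ G, G = y0 γ Y ζ j + ζ⁻¹ * (MvPolynomial.eval (y0 γ Y ζ) (P j) +
    ∑ i, xv γ ζ i * MvPolynomial.eval (y0 γ Y ζ) (Q i j)) := ⟨_, rfl⟩
  have t2 : ‖(bp j).eval ζ⁻¹ * (FF q a ζ (y0 γ Y ζ) j - G)‖ ≤ D j * CE * X := by
    rw [norm_mul, hG]
    have e1 := hE' ζ hζE (y0 γ Y ζ) hyM j
    rw [← hX] at e1
    have e2 := hbD j ζ⁻¹ (by linarith)
    have e3 := mul_le_mul e2 e1 (norm_nonneg _) (hD j)
    linarith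
  have hxo : xv γ ζ 0 = ζ⁻¹ := by
    unfold xv
    rw [hγ0, Complex.cpow_neg_one]
  have herrv : evA (xv γ ζ) (Complex.log ζ) (err 0 (fun j => emb 0 (bp j)) (fun i => emb 0 (tp i))
      (emb 0 lp) P Q Y j) = (bp j).eval ζ⁻¹ * G -
      evA (xv γ ζ) (Complex.log ζ) (shf (fun i => emb 0 (tp i)) (emb 0 lp) (Y j)) := by
    unfold err rhs
    rw [map_sub, map_mul, map_add, map_mul, map_add, map_sum, evA_emb, evA_X, evA_cmp, hxo, hG]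
    congr 2
    have e1 : (∑ i, evA (xv γ ζ) (Complex.log ζ) (MvPolynomial.X i * cmp Y (Q i j))) =
        ∑ i, xv γ ζ i * MvPolynomial.eval (y0 γ Y ζ) (Q i j) := by
      apply Finset.sum_congr rfl
      intro i _
      rw [map_mul, evA_X, evA_cmp]
      rfl
    rw [e1]
    rfl
  have t3 := herr j ζ hζ1
  rw [← hX] at t3
  have t4 := hshift j ζ hζ2
  have e4 : (1 : ℝ) - ((κ + 2 : ℕ) : ℝ) = -((κ : ℝ) + 1) := by push_cast; ring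
  rw [e4, ← hX] at t4
  have hid : (1 + ζ⁻¹) ^ (q j) * FF q a ζ (y0 γ Y ζ) j - y0 γ Y (ζ + 1) j =
      (((1 + ζ⁻¹) ^ (q j) - (bp j).eval ζ⁻¹) * FF q a ζ (y0 γ Y ζ) j +
        (bp j).eval ζ⁻¹ * (FF q a ζ (y0 γ Y ζ) j - G)) +
      (evA (xv γ ζ) (Complex.log ζ) (err 0 (fun j => emb 0 (bp j)) (fun i => emb 0 (tp i))
        (emb 0 lp) P Q Y j) +
      (evA (xv γ ζ) (Complex.log ζ) (shf (fun i => emb 0 (tp i)) (emb 0 lp) (Y j)) -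
        evA (xv γ (ζ + 1)) (Complex.log (ζ + 1)) (Y j))) := by
    rw [herrv]
    show (1 + ζ⁻¹) ^ (q j) * FF q a ζ (y0 γ Y ζ) j -
      evA (xv γ (ζ + 1)) (Complex.log (ζ + 1)) (Y j) = _
    ring
  rw [hid, ← hX]
  have n1 := norm_add_le (((1 + ζ⁻¹) ^ (q j) - (bp j).eval ζ⁻¹) * FF q a ζ (y0 γ Y ζ) j)
    ((bp j).eval ζ⁻¹ * (FF q a ζ (y0 γ Y ζ) j - G))
  have n2 := norm_add_le (evA (xv γ ζ) (Complex.log ζ) (err 0 (fun j => emb 0 (bp j))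
      (fun i => emb 0 (tp i)) (emb 0 lp) P Q Y j))
    (evA (xv γ ζ) (Complex.log ζ) (shf (fun i => emb 0 (tp i)) (emb 0 lp) (Y j)) -
        evA (xv γ (ζ + 1)) (Complex.log (ζ + 1)) (Y j))
  refine (norm_add_le _ _).trans ?_
  have h9 := mul_le_mul_of_nonneg_right hj hX0
  refine le_trans ?_ h9
  have e9 : (Cb j * (K + M₁) + D j * CE + Ce j + Cs j) * X =
      Cb j * (K + M₁) * X + D j * CE * X + Ce j * X + Cs j * X := by ring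
  rw [e9]
  linarith

end FFL
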