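import Pool.Agent.FFL.C1a

/-!
# [FFL-C1] the difference equation `v(ζ+1) - v(ζ) = Θ(ζ, v(ζ))` by contraction

Apply `sum_orbit` with `ε = 1/(2(K+1))`, get `κ₀`, `R₁`.  Given the data, choose `R ≥ R₀, R₁` with `2 C ε R^(-κ) ≤ 1` (possible
if `κ ≥ 1`; let `κ₀ ≥ 1`) and `C' = 2 C ε`.  Define `v_0 = 0`, `v_{m+1}(ζ) = - ∑_k Θ(ζ+k, v_m(ζ+k))`.  By induction:
`v_m` is holomorphic on `HP R`, `‖v_m ζ‖ ≤ C' ‖ζ‖^(-κ) ≤ 1` and `‖v_{m+1} ζ - v_m ζ‖ ≤ 2^(-m) C' ‖ζ‖^(-κ)`: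
`‖Θ(ζ, v)‖ ≤ ‖Θ(ζ,0)‖ + K/‖ζ‖ ‖v‖ ≤ (C + K C') ‖ζ‖^(-(κ+1))` and `(C + K C') ε ≤ C ε + C'/2 = C'`;
the terms of the series are holomorphic (hypothesis for `v_m` composed with the translation) and bounded on `HP R` by
`(C + K C') (max 1 k)^(-(κ+1))`, summable (`κ ≥ 1`): `differentiableOn_tsum_of_summable_norm`.
The limit `v` exists pointwise, the convergence is uniform on `HP R` (`TendstoUniformlyOn.differentiableOn` /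
`TendstoLocallyUniformlyOn.differentiableOn`), `v` is holomorphic, satisfies the bounds, and
`v(ζ) = - ∑_k Θ(ζ+k, v(ζ+k))` (Lipschitz, sums compared by `K ∑ ‖ζ+k‖^(-1) ‖v_m - v‖ ≤ ...→ 0`).
`v(ζ) - v(ζ+1) = -Θ(ζ, v ζ)`: `Summable.sum_add_tsum_nat_add`/`tsum_eq_zero_add`.
Alternatively use `ContractingWith` on a complete metric space of functions.
-/

set_option autoImplicit false

namespace FFL

open Filter Topology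

theorem c1_pow {x : ℝ} (hx : 1 ≤ x) (κ : ℝ) : x⁻¹ * x ^ (-κ) = x ^ (-(κ + 1)) := by
  have h0 : 0 < x := lt_of_lt_of_le one_pos hx
  rw [← Real.rpow_neg_one, ← Real.rpow_add h0]
  congr 1
  ring

theorem c1_sum : Summable fun k : ℕ => (max 1 (k : ℝ)) ^ (-2 : ℝ) := by
  rw [← summable_nat_add_iff 1]
  have h1 : (fun k : ℕ => (max 1 ((k + 1 : ℕ) : ℝ)) ^ (-2 : ℝ)) =
      fun k : ℕ => 1 / (((k + 1 : ℕ) : ℝ)) ^ 2 := by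
    funext k
    have h2 : (1 : ℝ) ≤ ((k + 1 : ℕ) : ℝ) := by
      rw [Nat.cast_add, Nat.cast_one]
      have : (0 : ℝ) ≤ (k : ℝ) := Nat.cast_nonneg k
      linarith
    rw [max_eq_right h2, Real.rpow_neg (by linarith)]
    have h3 : ((k + 1 : ℕ) : ℝ) ^ (2 : ℝ) = ((k + 1 : ℕ) : ℝ) ^ 2 := by
      rw [← Real.rpow_natCast]
      norm_num
    rw [h3, one_div]
  rw [h1]
  exact (summable_nat_add_iff 1).mpr (Real.summable_one_div_nat_pow.mpr one_lt_two)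

/-- the data of the contraction -/
structure C1Data (n : ℕ) (K ε C R : ℝ) (κ : ℕ) (Θ : ℂ → (Fin n → ℂ) → (Fin n → ℂ)) : Prop where
  hK : 0 ≤ K
  hε : 0 < ε
  hKε : K * ε ≤ 1 / 2
  hκ : 1 ≤ κ
  hC : 0 ≤ C
  hR : 1 ≤ R
  hRC : 2 * C * ε ≤ R
  lip : ∀ ζ ∈ HP R, ∀ v v' : Fin n → ℂ, ‖v‖ ≤ 1 → ‖v'‖ ≤ 1 →
    ‖Θ ζ v - Θ ζ v'‖ ≤ K / ‖ζ‖ * ‖v - v'‖
  zero : ∀ ζ ∈ HP R, ‖Θ ζ 0‖ ≤ C * ‖ζ‖ ^ (-((κ : ℝ) + 1))
  holo : ∀ v : ℂ → Fin n → ℂ, DifferentiableOn ℂ v (HP R) →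
    (∀ ζ ∈ HP R, ‖v ζ‖ ≤ 1) → DifferentiableOn ℂ (fun ζ => Θ ζ (v ζ)) (HP R)
  sm : ∀ ζ ∈ HP R, Summable (fun k : ℕ => ‖ζ + k‖ ^ (-((κ : ℝ) + 1)))
  bd : ∀ ζ ∈ HP R, ∑' k : ℕ, ‖ζ + k‖ ^ (-((κ : ℝ) + 1)) ≤ ε * ‖ζ‖ ^ (-(κ : ℝ))

variable {n : ℕ} {K ε C R : ℝ} {κ : ℕ} {Θ : ℂ → (Fin n → ℂ) → (Fin n → ℂ)}

/-- good functions -/
def C1Good (n : ℕ) (ε C R : ℝ) (κ : ℕ) (v : ℂ → Fin n → ℂ) : Prop :=
  DifferentiableOn ℂ v (HP R) ∧ ∀ ζ ∈ HP R, ‖v ζ‖ ≤ 2 * C * ε * ‖ζ‖ ^ (-(κ : ℝ))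

theorem c1_norm (_hR : 1 ≤ R) {ζ : ℂ} (h : ζ ∈ HP R) : R ≤ ‖ζ‖ :=
  (le_of_lt h).trans ((le_abs_self _).trans (Complex.abs_re_le_norm ζ))

theorem c1_le_one (d : C1Data n K ε C R κ Θ) {v : ℂ → Fin n → ℂ} (hv : C1Good n ε C R κ v) :
    ∀ ζ ∈ HP R, ‖v ζ‖ ≤ 1 := by
  intro ζ hζ
  have h1 := c1_norm d.hR hζ
  have h2 : 1 ≤ ‖ζ‖ := d.hR.trans h1
  have h3 : 0 < ‖ζ‖ := by linarith
  have h4 : ‖ζ‖ ^ (-(κ : ℝ)) ≤ ‖ζ‖⁻¹ := by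
    rw [← Real.rpow_neg_one]
    refine Real.rpow_le_rpow_of_exponent_le h2 ?_
    have : (1 : ℝ) ≤ (κ : ℝ) := by exact_mod_cast d.hκ
    linarith
  have h5 : 0 ≤ 2 * C * ε := by
    have := d.hC
    have := d.hε
    positivity
  refine (hv.2 ζ hζ).trans ((mul_le_mul_of_nonneg_left h4 h5).trans ?_)
  rw [← div_eq_mul_inv, div_le_one h3]
  exact d.hRC.trans h1

theorem c1_theta (d : C1Data n K ε C R κ Θ) {v : ℂ → Fin n → ℂ} (hv : C1Good n ε C R κ v) :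
    ∀ ζ ∈ HP R, ‖Θ ζ (v ζ)‖ ≤ (C + K * (2 * C * ε)) * ‖ζ‖ ^ (-((κ : ℝ) + 1)) := by
  intro ζ hζ
  have h1 : 1 ≤ ‖ζ‖ := d.hR.trans (c1_norm d.hR hζ)
  have h2 := d.lip ζ hζ (v ζ) 0 (c1_le_one d hv ζ hζ) (by rw [norm_zero]; exact zero_le_one)
  rw [sub_zero] at h2
  have h3 : ‖Θ ζ (v ζ)‖ ≤ ‖Θ ζ (v ζ) - Θ ζ 0‖ + ‖Θ ζ 0‖ := by
    have := norm_add_le (Θ ζ (v ζ) - Θ ζ 0) (Θ ζ 0)
    rwa [sub_add_cancel] at this
  have h4 : K / ‖ζ‖ * ‖v ζ‖ ≤ K / ‖ζ‖ * (2 * C * ε * ‖ζ‖ ^ (-(κ : ℝ))) :=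
    mul_le_mul_of_nonneg_left (hv.2 ζ hζ) (div_nonneg d.hK (norm_nonneg _))
  have h5 : K / ‖ζ‖ * (2 * C * ε * ‖ζ‖ ^ (-(κ : ℝ))) =
      K * (2 * C * ε) * ‖ζ‖ ^ (-((κ : ℝ) + 1)) := by
    rw [← c1_pow h1]
    ring
  have h6 := d.zero ζ hζ
  rw [add_mul]
  linarith

/-- the integral operator -/
noncomputable def c1S (Θ : ℂ → (Fin n → ℂ) → (Fin n → ℂ)) (v : ℂ → Fin n → ℂ) (ζ : ℂ) :
    Fin n → ℂ := -∑' k : ℕ, Θ (ζ + k) (v (ζ + k))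

theorem c1_summable (d : C1Data n K ε C R κ Θ) {v : ℂ → Fin n → ℂ}
    (hv : C1Good n ε C R κ v) {ζ : ℂ} (hζ : ζ ∈ HP R) :
    Summable fun k : ℕ => Θ (ζ + k) (v (ζ + k)) := by
  refine Summable.of_norm_bounded ((d.sm ζ hζ).mul_left (C + K * (2 * C * ε))) fun k => ?_
  exact c1_theta d hv (ζ + k) (HP_add_nat hζ k)

theorem c1_cst (d : C1Data n K ε C R κ Θ) : (C + K * (2 * C * ε)) * ε ≤ 2 * C * ε := by
  have h1 : (C + K * (2 * C * ε)) * ε = C * ε + 2 * (C * ε) * (K * ε) := by ring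
  have h2 : 0 ≤ C * ε := mul_nonneg d.hC d.hε.le
  have h3 : 2 * (C * ε) * (K * ε) ≤ 2 * (C * ε) * (1 / 2) :=
    mul_le_mul_of_nonneg_left d.hKε (by linarith)
  rw [h1]
  linarith

theorem c1_good (d : C1Data n K ε C R κ Θ) {v : ℂ → Fin n → ℂ} (hv : C1Good n ε C R κ v) :
    C1Good n ε C R κ (c1S Θ v) := by
  have hnn : 0 ≤ C + K * (2 * C * ε) := by
    have h1 := d.hC
    have h2 := d.hK
    have h3 := d.hε
    positivity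
  constructor
  · refine DifferentiableOn.neg ?_
    refine Complex.differentiableOn_tsum_of_summable_norm (c1_sum.mul_left (C + K * (2 * C * ε))) ?_
      (isOpen_HP R) ?_
    · intro k
      have h1 : DifferentiableOn ℂ (fun ζ => Θ ζ (v ζ)) (HP R) :=
        d.holo v hv.1 (c1_le_one d hv)
      have h2 : DifferentiableOn ℂ (fun ζ : ℂ => ζ + (k : ℂ)) (HP R) :=
        (differentiable_id.add_const _).differentiableOn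
      exact h1.comp h2 fun ζ hζ => HP_add_nat hζ k
    · intro k ζ hζ
      refine (c1_theta d hv (ζ + k) (HP_add_nat hζ k)).trans ?_
      refine mul_le_mul_of_nonneg_left ?_ hnn
      obtain ⟨h1, h2, _⟩ := norm_add_nat d.hR hζ k
      have h3 : max 1 (k : ℝ) ≤ ‖ζ + k‖ := max_le h2 h1
      have h4 : (1 : ℝ) ≤ (κ : ℝ) := by exact_mod_cast d.hκ
      calc ‖ζ + k‖ ^ (-((κ : ℝ) + 1)) ≤ ‖ζ + k‖ ^ (-2 : ℝ) :=
            Real.rpow_le_rpow_of_exponent_le h2 (by linarith)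
        _ ≤ (max 1 (k : ℝ)) ^ (-2 : ℝ) :=
            Real.rpow_le_rpow_of_nonpos (lt_of_lt_of_le one_pos (le_max_left _ _)) h3
              (by norm_num)
  · intro ζ hζ
    change ‖-∑' k : ℕ, Θ (ζ + k) (v (ζ + k))‖ ≤ _
    rw [norm_neg]
    have h1 := tsum_of_norm_bounded ((d.sm ζ hζ).mul_left (C + K * (2 * C * ε))).hasSum
      (f := fun k : ℕ => Θ (ζ + k) (v (ζ + k))) (fun k => c1_theta d hv (ζ + k) (HP_add_nat hζ k))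
    rw [tsum_mul_left] at h1
    refine h1.trans ((mul_le_mul_of_nonneg_left (d.bd ζ hζ) hnn).trans ?_)
    rw [← mul_assoc]
    exact mul_le_mul_of_nonneg_right (c1_cst d) (Real.rpow_nonneg (norm_nonneg _) _)

theorem c1_contr (d : C1Data n K ε C R κ Θ) {v w : ℂ → Fin n → ℂ} (hv : C1Good n ε C R κ v)
    (hw : C1Good n ε C R κ w) (A : ℝ) (hA : 0 ≤ A)
    (h : ∀ ζ ∈ HP R, ‖v ζ - w ζ‖ ≤ A * ‖ζ‖ ^ (-(κ : ℝ))) :
    ∀ ζ ∈ HP R, ‖c1S Θ v ζ - c1S Θ w ζ‖ ≤ A * (1 / 2) * ‖ζ‖ ^ (-(κ : ℝ)) := by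
  intro ζ hζ
  have h0 : c1S Θ v ζ - c1S Θ w ζ =
      -∑' k : ℕ, (Θ (ζ + k) (v (ζ + k)) - Θ (ζ + k) (w (ζ + k))) := by
    rw [(c1_summable d hv hζ).tsum_sub (c1_summable d hw hζ)]
    unfold c1S
    abel
  have h1 : ∀ k : ℕ, ‖Θ (ζ + k) (v (ζ + k)) - Θ (ζ + k) (w (ζ + k))‖ ≤
      (K * A) * ‖ζ + k‖ ^ (-((κ : ℝ) + 1)) := by
    intro k
    have hk := HP_add_nat hζ k
    have h2 := d.lip (ζ + k) hk (v (ζ + k)) (w (ζ + k)) (c1_le_one d hv _ hk)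
      (c1_le_one d hw _ hk)
    have h3 : K / ‖ζ + k‖ * ‖v (ζ + k) - w (ζ + k)‖ ≤
        K / ‖ζ + k‖ * (A * ‖ζ + k‖ ^ (-(κ : ℝ))) :=
      mul_le_mul_of_nonneg_left (h _ hk) (div_nonneg d.hK (norm_nonneg _))
    have h4 : K / ‖ζ + k‖ * (A * ‖ζ + k‖ ^ (-(κ : ℝ))) =
        (K * A) * ‖ζ + k‖ ^ (-((κ : ℝ) + 1)) := by
      rw [← c1_pow (d.hR.trans (c1_norm d.hR hk))]
      ring
    linarith
  rw [h0, norm_neg]
  have h5 := tsum_of_norm_bounded ((d.sm ζ hζ).mul_left (K * A)).hasSum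
    (f := fun k : ℕ => Θ (ζ + k) (v (ζ + k)) - Θ (ζ + k) (w (ζ + k))) h1
  rw [tsum_mul_left] at h5
  refine h5.trans ((mul_le_mul_of_nonneg_left (d.bd ζ hζ) (mul_nonneg d.hK hA)).trans ?_)
  rw [← mul_assoc]
  refine mul_le_mul_of_nonneg_right ?_ (Real.rpow_nonneg (norm_nonneg _) _)
  have h6 : K * A * ε = A * (K * ε) := by ring
  rw [h6]
  exact mul_le_mul_of_nonneg_left d.hKε hA

/-- the iterates -/
noncomputable def c1V (Θ : ℂ → (Fin n → ℂ) → (Fin n → ℂ)) : ℕ → ℂ → Fin n → ℂ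
  | 0 => fun _ => 0
  | m + 1 => c1S Θ (c1V Θ m)

theorem c1V_good (d : C1Data n K ε C R κ Θ) (m : ℕ) : C1Good n ε C R κ (c1V Θ m) := by
  induction m with
  | zero =>
    refine ⟨differentiableOn_const _, fun ζ _ => ?_⟩
    change ‖(0 : Fin n → ℂ)‖ ≤ _
    rw [norm_zero]
    exact mul_nonneg (mul_nonneg (mul_nonneg zero_le_two d.hC) d.hε.le)
      (Real.rpow_nonneg (norm_nonneg _) _)
  | succ m ih => exact c1_good d ih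

theorem c1V_diff (d : C1Data n K ε C R κ Θ) (m : ℕ) : ∀ ζ ∈ HP R,
    ‖c1V Θ m ζ - c1V Θ (m + 1) ζ‖ ≤ 2 * C * ε * (1 / 2) ^ m * ‖ζ‖ ^ (-(κ : ℝ)) := by
  have h0 : 0 ≤ 2 * C * ε := mul_nonneg (mul_nonneg zero_le_two d.hC) d.hε.le
  induction m with
  | zero =>
    intro ζ hζ
    have h1 := (c1V_good d 1).2 ζ hζ
    change ‖(0 : Fin n → ℂ) - c1V Θ 1 ζ‖ ≤ _
    rw [zero_sub, norm_neg, pow_zero, mul_one]
    exact h1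
  | succ m ih =>
    intro ζ hζ
    have h1 := c1_contr d (c1V_good d m) (c1V_good d (m + 1)) _
      (mul_nonneg h0 (pow_nonneg (by norm_num) m)) ih ζ hζ
    rw [mul_assoc (2 * C * ε), ← pow_succ] at h1
    exact h1

theorem c1_fix (d : C1Data n K ε C R κ Θ) : ∃ v : ℂ → Fin n → ℂ, C1Good n ε C R κ v ∧
    ∀ ζ ∈ HP R, v ζ = c1S Θ v ζ := by
  have h0 : 0 ≤ 2 * C * ε := mul_nonneg (mul_nonneg zero_le_two d.hC) d.hε.le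
  have hdist : ∀ ζ ∈ HP R, ∀ m, dist (c1V Θ m ζ) (c1V Θ (m + 1) ζ) ≤
      (2 * C * ε * ‖ζ‖ ^ (-(κ : ℝ))) * (1 / 2) ^ m := by
    intro ζ hζ m
    rw [dist_eq_norm]
    refine (c1V_diff d m ζ hζ).trans (le_of_eq ?_)
    ring
  have hex : ∀ ζ : ℂ, ∃ y : Fin n → ℂ, ζ ∈ HP R → Tendsto (fun m => c1V Θ m ζ) atTop (𝓝 y) := by
    intro ζ
    by_cases hζ : ζ ∈ HP R
    · obtain ⟨y, hy⟩ := cauchySeq_tendsto_of_complete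
        (cauchySeq_of_le_geometric (1 / 2) _ (by norm_num) (hdist ζ hζ))
      exact ⟨y, fun _ => hy⟩
    · exact ⟨0, fun h => absurd h hζ⟩
  choose v hv using hex
  have hclose : ∀ ζ ∈ HP R, ∀ m, ‖c1V Θ m ζ - v ζ‖ ≤
      (2 * (2 * C * ε)) * (1 / 2) ^ m * ‖ζ‖ ^ (-(κ : ℝ)) := by
    intro ζ hζ m
    have h1 := dist_le_of_le_geometric_of_tendsto (1 / 2) _ (by norm_num) (hdist ζ hζ)
      (hv ζ hζ) m
    rw [dist_eq_norm] at h1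
    refine h1.trans (le_of_eq ?_)
    ring
  have hpow : Tendsto (fun m : ℕ => (2 * (2 * C * ε)) * (1 / 2 : ℝ) ^ m) atTop (𝓝 0) := by
    have h1 := (tendsto_pow_atTop_nhds_zero_of_lt_one (r := (1 / 2 : ℝ)) (by norm_num)
      (by norm_num)).const_mul (2 * (2 * C * ε))
    rwa [mul_zero] at h1
  have hunif : TendstoUniformlyOn (fun m => c1V Θ m) v atTop (HP R) := by
    rw [Metric.tendstoUniformlyOn_iff]
    intro η hη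
    filter_upwards [hpow.eventually_lt_const hη] with m hm ζ hζ
    rw [dist_comm, dist_eq_norm]
    refine lt_of_le_of_lt ((hclose ζ hζ m).trans ?_) hm
    have h1 : 1 ≤ ‖ζ‖ := d.hR.trans (c1_norm d.hR hζ)
    have h2 : ‖ζ‖ ^ (-(κ : ℝ)) ≤ 1 :=
      Real.rpow_le_one_of_one_le_of_nonpos h1 (neg_nonpos.mpr (Nat.cast_nonneg κ))
    have h3 : 0 ≤ (2 * (2 * C * ε)) * (1 / 2 : ℝ) ^ m :=
      mul_nonneg (by linarith) (pow_nonneg (by norm_num) m)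
    exact mul_le_of_le_one_right h3 h2
  have hgood : C1Good n ε C R κ v := by
    constructor
    · exact hunif.tendstoLocallyUniformlyOn.differentiableOn
        (Eventually.of_forall fun m => (c1V_good d m).1) (isOpen_HP R)
    · intro ζ hζ
      exact le_of_tendsto (hv ζ hζ).norm (Eventually.of_forall fun m => (c1V_good d m).2 ζ hζ)
  refine ⟨v, hgood, fun ζ hζ => ?_⟩
  have h1 : Tendsto (fun m => c1V Θ (m + 1) ζ) atTop (𝓝 (v ζ)) :=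
    (tendsto_add_atTop_iff_nat 1).mpr (hv ζ hζ)
  have h2 : Tendsto (fun m => c1V Θ (m + 1) ζ) atTop (𝓝 (c1S Θ v ζ)) := by
    rw [tendsto_iff_norm_sub_tendsto_zero]
    have h3 : ∀ m, ‖c1V Θ (m + 1) ζ - c1S Θ v ζ‖ ≤
        (2 * (2 * C * ε)) * (1 / 2) ^ m * ((1 / 2) * ‖ζ‖ ^ (-(κ : ℝ))) := by
      intro m
      have h4 := c1_contr d (c1V_good d m) hgood _
        (mul_nonneg (mul_nonneg zero_le_two h0) (pow_nonneg (by norm_num) m))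
        (fun ζ hζ => hclose ζ hζ m) ζ hζ
      refine h4.trans (le_of_eq ?_)
      ring
    refine squeeze_zero (fun m => norm_nonneg _) h3 ?_
    have h5 := hpow.mul_const ((1 / 2) * ‖ζ‖ ^ (-(κ : ℝ)))
    rwa [zero_mul] at h5
  exact tendsto_nhds_unique h1 h2

theorem contraction (n : ℕ) (K : ℝ) (hK : 0 ≤ K) : ∃ κ₀ : ℕ, ∀ κ : ℕ, κ₀ ≤ κ →
    ∀ (C R₀ : ℝ) (Θ : ℂ → (Fin n → ℂ) → (Fin n → ℂ)), 0 ≤ C → 1 ≤ R₀ →
      (∀ ζ ∈ HP R₀, ∀ v v' : Fin n → ℂ, ‖v‖ ≤ 1 → ‖v'‖ ≤ 1 →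
        ‖Θ ζ v - Θ ζ v'‖ ≤ K / ‖ζ‖ * ‖v - v'‖) →
      (∀ ζ ∈ HP R₀, ‖Θ ζ 0‖ ≤ C * ‖ζ‖ ^ (-((κ : ℝ) + 1))) →
      (∀ R, R₀ ≤ R → ∀ v : ℂ → Fin n → ℂ, DifferentiableOn ℂ v (HP R) →
        (∀ ζ ∈ HP R, ‖v ζ‖ ≤ 1) → DifferentiableOn ℂ (fun ζ => Θ ζ (v ζ)) (HP R)) →
      ∃ R C' : ℝ, R₀ ≤ R ∧ 0 ≤ C' ∧ ∃ v : ℂ → Fin n → ℂ, DifferentiableOn ℂ v (HP R) ∧
        (∀ ζ ∈ HP R, ‖v ζ‖ ≤ 1 ∧ ‖v ζ‖ ≤ C' * ‖ζ‖ ^ (-(κ : ℝ))) ∧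
        ∀ ζ ∈ HP R, v (ζ + 1) = v ζ + Θ ζ (v ζ) := by
  have hK1 : 0 < K + 1 := by linarith
  obtain ⟨κ₁, R₁, hR₁, hsum⟩ := sum_orbit (1 / (2 * (K + 1))) (by positivity)
  refine ⟨max κ₁ 1, fun κ hκ C R₀ Θ hC hR₀ hLip h0 hholo => ?_⟩
  have hκ1 : κ₁ ≤ κ := (le_max_left _ _).trans hκ
  have hκ2 : 1 ≤ κ := (le_max_right _ _).trans hκ
  let R : ℝ := max (max R₀ R₁) (2 * C * (1 / (2 * (K + 1))))
  have hRR₀ : R₀ ≤ R := (le_max_left _ _).trans (le_max_left _ _)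
  have hRR₁ : R₁ ≤ R := (le_max_right _ _).trans (le_max_left _ _)
  have d : C1Data n K (1 / (2 * (K + 1))) C R κ Θ :=
    { hK := hK
      hε := by positivity
      hKε := by
        rw [mul_one_div, div_le_iff₀ (by positivity)]
        linarith
      hκ := hκ2
      hC := hC
      hR := hR₀.trans hRR₀
      hRC := le_max_right _ _
      lip := fun ζ hζ => hLip ζ (HP_mono hRR₀ hζ)
      zero := fun ζ hζ => h0 ζ (HP_mono hRR₀ hζ)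
      holo := hholo R hRR₀
      sm := fun ζ hζ => (hsum κ hκ1 ζ (HP_mono hRR₁ hζ)).1
      bd := fun ζ hζ => (hsum κ hκ1 ζ (HP_mono hRR₁ hζ)).2 }
  obtain ⟨v, hv, hfix⟩ := c1_fix d
  refine ⟨R, 2 * C * (1 / (2 * (K + 1))), hRR₀, by positivity, v, hv.1,
    fun ζ hζ => ⟨c1_le_one d hv ζ hζ, hv.2 ζ hζ⟩, fun ζ hζ => ?_⟩
  have h1 := hfix ζ hζ
  have h2 := hfix (ζ + 1) (HP_add_one hζ)
  have h3 := (c1_summable d hv hζ).tsum_eq_zero_add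
  have h4 : ∑' k : ℕ, Θ (ζ + ((k + 1 : ℕ) : ℂ)) (v (ζ + ((k + 1 : ℕ) : ℂ))) =
      ∑' k : ℕ, Θ (ζ + 1 + k) (v (ζ + 1 + k)) := by
    refine tsum_congr fun k => ?_
    have h5 : ζ + ((k + 1 : ℕ) : ℂ) = ζ + 1 + k := by
      rw [Nat.cast_add, Nat.cast_one]
      ring
    rw [h5]
  rw [h4, Nat.cast_zero, add_zero] at h3
  unfold c1S at h1 h2
  rw [h3] at h1
  rw [h2]
  have h6 : v ζ + Θ ζ (v ζ) = -∑' k : ℕ, Θ (ζ + 1 + k) (v (ζ + 1 + k)) := by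
    nth_rewrite 1 [h1]
    abel
  exact h6.symm

end FFL
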