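import Pool.Agent.FFL.Defs

/-!
# [FFL-C1a] sums over the forward orbit of the translation

For `ζ ∈ HP R`, `R ≥ 1`, `k ∈ ℕ`: `‖ζ + k‖² ≥ ‖ζ‖² + k²`.  With `p = (κ+1)/2 ≥ 1` and Bernoulli
(`one_add_mul_self_le_rpow_one_add`): `‖ζ+k‖^(κ+1) ≥ ‖ζ‖^(κ+1) (1 + k²/‖ζ‖²)^p ≥ ‖ζ‖^(κ+1) (1 + p k²/‖ζ‖²)`, so
`∑_k ‖ζ+k‖^(-(κ+1)) ≤ ‖ζ‖^(-(κ+1)) (1 + ∑_{k ≥ 1} 1/(1 + p k²/‖ζ‖²))` and, with `t = √p/‖ζ‖`,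
`∑_{k≥1} 1/(1 + t² k²) ≤ 2/t` (telescoping).
So the sum is `≤ ‖ζ‖^(-κ) (1/‖ζ‖ + 2/√p)`; choose `κ₀` with `2/√p ≤ ε/2` and `R ≥ 2/ε`.
-/

set_option autoImplicit false

namespace FFL

theorem HP_add_nat {R : ℝ} {ζ : ℂ} (h : ζ ∈ HP R) (k : ℕ) : ζ + k ∈ HP R := by
  rw [mem_HP] at h ⊢
  rw [Complex.add_re, Complex.natCast_re]
  have : (0 : ℝ) ≤ k := k.cast_nonneg
  linarith

private theorem norm_sq_ge {R : ℝ} (hR : 1 ≤ R) {ζ : ℂ} (h : ζ ∈ HP R) (k : ℕ) :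
    ‖ζ‖ ^ 2 + (k : ℝ) ^ 2 ≤ ‖ζ + k‖ ^ 2 := by
  rw [mem_HP] at h
  rw [← Complex.normSq_eq_norm_sq, ← Complex.normSq_eq_norm_sq, Complex.normSq_apply,
    Complex.normSq_apply, Complex.add_re, Complex.add_im, Complex.natCast_re, Complex.natCast_im]
  have h1 : (0 : ℝ) ≤ k := k.cast_nonneg
  have h2 : 0 ≤ ζ.re := by linarith
  have h3 := mul_nonneg h1 h2
  nlinarith

/-- locally uniform bound: on `HP R`, `R ≥ 1`, `‖ζ + k‖ ≥ max 1 k` -/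
theorem norm_add_nat {R : ℝ} (hR : 1 ≤ R) {ζ : ℂ} (h : ζ ∈ HP R) (k : ℕ) :
    (k : ℝ) ≤ ‖ζ + k‖ ∧ 1 ≤ ‖ζ + k‖ ∧ ‖ζ‖ ≤ ‖ζ + k‖ := by
  have h1 : (0 : ℝ) ≤ k := k.cast_nonneg
  have h2 := Complex.re_le_norm (ζ + k)
  rw [Complex.add_re, Complex.natCast_re] at h2
  have h3 := norm_sq_ge hR h k
  rw [mem_HP] at h
  refine ⟨by linarith, by linarith, ?_⟩
  refine le_of_sq_le_sq ?_ (norm_nonneg _)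
  have := sq_nonneg (k : ℝ)
  linarith

private theorem tele {t : ℝ} (ht : 0 < t) (n : ℕ) :
    ∑ k ∈ Finset.range (n + 1), (1 + t ^ 2 * (k : ℝ) ^ 2)⁻¹ ≤ 1 + 2 / t * (1 - (1 + t * n)⁻¹) := by
  induction n with
  | zero =>
    simp
  | succ n ih =>
    rw [Finset.sum_range_succ]
    have hn : (0 : ℝ) ≤ n := n.cast_nonneg
    have h1 : 0 < 1 + t * n := by positivity
    have h2 : 0 < 1 + t * ((n : ℝ) + 1) := by positivity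
    have h3 : 0 < 1 + t ^ 2 * ((n : ℝ) + 1) ^ 2 := by positivity
    have h4 : (1 + t * n) * (1 + t * ((n : ℝ) + 1)) ≤ 2 * (1 + t ^ 2 * ((n : ℝ) + 1) ^ 2) := by
      have h5 : (1 + t * n) * (1 + t * ((n : ℝ) + 1)) ≤
          (1 + t * ((n : ℝ) + 1)) * (1 + t * ((n : ℝ) + 1)) := by
        apply mul_le_mul_of_nonneg_right _ h2.le
        nlinarith
      nlinarith [sq_nonneg (1 - t * ((n : ℝ) + 1))]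
    have h6 : (1 + t ^ 2 * ((n : ℝ) + 1) ^ 2)⁻¹ ≤
        2 / t * ((1 + t * n)⁻¹ - (1 + t * ((n : ℝ) + 1))⁻¹) := by
      have h7 : 2 / t * ((1 + t * n)⁻¹ - (1 + t * ((n : ℝ) + 1))⁻¹) =
          2 / ((1 + t * n) * (1 + t * ((n : ℝ) + 1))) := by
        field_simp
        ring
      rw [h7, inv_eq_one_div, div_le_div_iff₀ h3 (mul_pos h1 h2)]
      linarith
    push_cast
    have h8 : 2 / t * (1 - (1 + t * ((n : ℝ) + 1))⁻¹) = 2 / t * (1 - (1 + t * n)⁻¹) +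
        2 / t * ((1 + t * n)⁻¹ - (1 + t * ((n : ℝ) + 1))⁻¹) := by ring
    rw [h8]
    linarith

private theorem tele' {t : ℝ} (ht : 0 < t) (n : ℕ) :
    ∑ k ∈ Finset.range n, (1 + t ^ 2 * (k : ℝ) ^ 2)⁻¹ ≤ 1 + 2 / t := by
  have h1 : ∑ k ∈ Finset.range n, (1 + t ^ 2 * (k : ℝ) ^ 2)⁻¹ ≤
      ∑ k ∈ Finset.range (n + 1), (1 + t ^ 2 * (k : ℝ) ^ 2)⁻¹ := by
    rw [Finset.sum_range_succ]
    have : 0 ≤ (1 + t ^ 2 * (n : ℝ) ^ 2)⁻¹ := by positivity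
    linarith
  have h2 := tele ht n
  have h3 : 0 ≤ 2 / t * (1 + t * n)⁻¹ := by positivity
  nlinarith

private theorem term_le {R : ℝ} (hR : 1 ≤ R) {ζ : ℂ} (h : ζ ∈ HP R) {κ : ℕ} (hκ : 1 ≤ κ) (k : ℕ) :
    ‖ζ + k‖ ^ (-((κ : ℝ) + 1)) ≤ ‖ζ‖ ^ (-((κ : ℝ) + 1)) *
      (1 + (Real.sqrt (((κ : ℝ) + 1) / 2) / ‖ζ‖) ^ 2 * (k : ℝ) ^ 2)⁻¹ := by
  have hκ' : (1 : ℝ) ≤ κ := by exact_mod_cast hκ
  obtain ⟨-, h1, -⟩ := norm_add_nat hR h k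
  obtain ⟨-, h2, -⟩ := norm_add_nat hR h 0
  rw [Nat.cast_zero, add_zero] at h2
  have ha : 0 < ‖ζ‖ := by linarith
  have hb : 0 < ‖ζ + k‖ := by linarith
  have h3 := norm_sq_ge hR h k
  set p : ℝ := ((κ : ℝ) + 1) / 2 with hp
  have hp1 : 1 ≤ p := by rw [hp]; linarith
  have hp2 : (κ : ℝ) + 1 = 2 * p := by rw [hp]; ring
  have key : ‖ζ‖ ^ ((κ : ℝ) + 1) * (1 + (Real.sqrt p / ‖ζ‖) ^ 2 * (k : ℝ) ^ 2) ≤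
      ‖ζ + k‖ ^ ((κ : ℝ) + 1) := by
    have e1 : ‖ζ + k‖ ^ ((κ : ℝ) + 1) = (‖ζ + k‖ ^ 2) ^ p := by
      rw [hp2, Real.rpow_mul hb.le, Real.rpow_two]
    have e2 : ‖ζ‖ ^ ((κ : ℝ) + 1) = (‖ζ‖ ^ 2) ^ p := by
      rw [hp2, Real.rpow_mul ha.le, Real.rpow_two]
    have e3 : (Real.sqrt p / ‖ζ‖) ^ 2 * (k : ℝ) ^ 2 = p * ((k : ℝ) ^ 2 / ‖ζ‖ ^ 2) := by
      rw [div_pow, Real.sq_sqrt (by linarith)]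
      ring
    have e4 : ‖ζ‖ ^ 2 + (k : ℝ) ^ 2 = ‖ζ‖ ^ 2 * (1 + (k : ℝ) ^ 2 / ‖ζ‖ ^ 2) := by
      field_simp
    have e5 : 0 ≤ (k : ℝ) ^ 2 / ‖ζ‖ ^ 2 := by positivity
    have b := one_add_mul_self_le_rpow_one_add (s := (k : ℝ) ^ 2 / ‖ζ‖ ^ 2) (by linarith) hp1
    rw [e1, e2, e3]
    calc (‖ζ‖ ^ 2) ^ p * (1 + p * ((k : ℝ) ^ 2 / ‖ζ‖ ^ 2))
        ≤ (‖ζ‖ ^ 2) ^ p * (1 + (k : ℝ) ^ 2 / ‖ζ‖ ^ 2) ^ p :=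
          mul_le_mul_of_nonneg_left b (by positivity)
      _ = (‖ζ‖ ^ 2 + (k : ℝ) ^ 2) ^ p := by
          rw [e4, Real.mul_rpow (by positivity) (by positivity)]
      _ ≤ (‖ζ + k‖ ^ 2) ^ p := Real.rpow_le_rpow (by positivity) h3 (by linarith)
  rw [Real.rpow_neg hb.le, Real.rpow_neg ha.le, ← mul_inv]
  exact inv_anti₀ (by positivity) key

theorem sum_orbit (ε : ℝ) (hε : 0 < ε) : ∃ (κ₀ : ℕ) (R : ℝ), 1 ≤ R ∧ ∀ κ : ℕ, κ₀ ≤ κ →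
    ∀ ζ ∈ HP R, Summable (fun k : ℕ => ‖ζ + k‖ ^ (-((κ : ℝ) + 1))) ∧
      ∑' k : ℕ, ‖ζ + k‖ ^ (-((κ : ℝ) + 1)) ≤ ε * ‖ζ‖ ^ (-(κ : ℝ)) := by
  refine ⟨⌈32 / ε ^ 2⌉₊ + 1, max 1 (2 / ε), le_max_left _ _, ?_⟩
  intro κ hκ ζ hζ
  have hR : (1 : ℝ) ≤ max 1 (2 / ε) := le_max_left _ _
  have hκ1 : 1 ≤ κ := by omega
  have h0 : ‖ζ‖ ≥ max 1 (2 / ε) := by
    rw [mem_HP] at hζ
    exact hζ.le.trans (Complex.re_le_norm ζ)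
  have ha1 : 1 ≤ ‖ζ‖ := hR.trans h0
  have ha : 0 < ‖ζ‖ := by linarith
  have ha2 : 2 / ε ≤ ‖ζ‖ := (le_max_right _ _).trans h0
  set p : ℝ := ((κ : ℝ) + 1) / 2 with hp
  have hp1 : 16 / ε ^ 2 ≤ p := by
    have h1 : 32 / ε ^ 2 ≤ (⌈32 / ε ^ 2⌉₊ : ℝ) := Nat.le_ceil _
    have h2 : (⌈32 / ε ^ 2⌉₊ : ℝ) + 1 ≤ κ := by exact_mod_cast hκ
    have h3 : 32 / ε ^ 2 = 2 * (16 / ε ^ 2) := by ring
    rw [hp]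
    linarith
  have hs : 4 / ε ≤ Real.sqrt p := by
    apply Real.le_sqrt_of_sq_le
    rw [div_pow]
    norm_num
    exact hp1
  have hs0 : 0 < Real.sqrt p := lt_of_lt_of_le (by positivity) hs
  have ht : 0 < Real.sqrt p / ‖ζ‖ := div_pos hs0 ha
  have hpart : ∀ n, ∑ k ∈ Finset.range n, ‖ζ + k‖ ^ (-((κ : ℝ) + 1)) ≤
      ε * ‖ζ‖ ^ (-(κ : ℝ)) := by
    intro n
    have h1 : ∑ k ∈ Finset.range n, ‖ζ + k‖ ^ (-((κ : ℝ) + 1)) ≤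
        ‖ζ‖ ^ (-((κ : ℝ) + 1)) *
          ∑ k ∈ Finset.range n, (1 + (Real.sqrt p / ‖ζ‖) ^ 2 * (k : ℝ) ^ 2)⁻¹ := by
      rw [Finset.mul_sum]
      exact Finset.sum_le_sum fun k _ => term_le hR hζ hκ1 k
    have h2 : ‖ζ‖ ^ (-((κ : ℝ) + 1)) = ‖ζ‖ ^ (-(κ : ℝ)) * ‖ζ‖⁻¹ := by
      rw [neg_add, Real.rpow_add ha, Real.rpow_neg_one]
    have h3 := tele' ht n
    have h4 : ‖ζ‖⁻¹ * (1 + 2 / (Real.sqrt p / ‖ζ‖)) ≤ ε := by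
      have e1 : ‖ζ‖⁻¹ * (1 + 2 / (Real.sqrt p / ‖ζ‖)) = 1 / ‖ζ‖ + 2 / Real.sqrt p := by
        field_simp
      have e2 : 1 / ‖ζ‖ ≤ ε / 2 := by
        rw [div_le_iff₀ ha]
        rw [div_le_iff₀ hε] at ha2
        linarith
      have e3 : 2 / Real.sqrt p ≤ ε / 2 := by
        rw [div_le_iff₀ hs0]
        rw [div_le_iff₀ hε] at hs
        linarith
      rw [e1]
      linarith
    have h5 : 0 ≤ ‖ζ‖ ^ (-(κ : ℝ)) := by positivity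
    calc ∑ k ∈ Finset.range n, ‖ζ + k‖ ^ (-((κ : ℝ) + 1))
        ≤ ‖ζ‖ ^ (-((κ : ℝ) + 1)) *
          ∑ k ∈ Finset.range n, (1 + (Real.sqrt p / ‖ζ‖) ^ 2 * (k : ℝ) ^ 2)⁻¹ := h1
      _ ≤ ‖ζ‖ ^ (-((κ : ℝ) + 1)) * (1 + 2 / (Real.sqrt p / ‖ζ‖)) :=
          mul_le_mul_of_nonneg_left h3 (by positivity)
      _ = ‖ζ‖ ^ (-(κ : ℝ)) * (‖ζ‖⁻¹ * (1 + 2 / (Real.sqrt p / ‖ζ‖))) := by rw [h2]; ring
      _ ≤ ‖ζ‖ ^ (-(κ : ℝ)) * ε := mul_le_mul_of_nonneg_left h4 h5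
      _ = ε * ‖ζ‖ ^ (-(κ : ℝ)) := mul_comm _ _
  have hnn : ∀ k : ℕ, 0 ≤ ‖ζ + k‖ ^ (-((κ : ℝ) + 1)) := fun k =>
    Real.rpow_nonneg (norm_nonneg _) _
  exact ⟨summable_of_sum_range_le hnn hpart, Real.tsum_le_of_sum_range_le hnn hpart⟩

end FFL
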