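import Pool.Agent.FFL.C2b

/-!
# [FFL-C2] hub
-/
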