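import Pool.Agent.FFL.B1

/-!
# [FFL-C2] the true solution

`M = ‖c‖ + 2`; `FF_lip` gives `K, R`.  There is a constant `K'` with `‖(1+ζ⁻¹)^(q j) - 1‖ ≤ K'/‖ζ‖` and
`‖(1+ζ⁻¹)^(q j)‖ ≤ 1 + K'` for `ζ ∈ HP 2` (`taylor_pow (q j) 1`, `p.eval s - 1` is divisible by `s`; or directly).
Put `K₂ = (1 + K') K + K'`; `contraction n K₂` gives `κ₁`; take `κ = max κ₀ κ₁`, then `approx` for this `κ`.
`y0` satisfies `‖y0 γ Y ζ‖ ≤ ‖c‖ + 1` for large `Re ζ` (`y0_lim`).  Apply the contraction theorem to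
`Θ ζ v j = (1+ζ⁻¹)^(q j) FF q a ζ (y0 ζ + v) j - y0 (ζ+1) j - v j`
`= (1+ζ⁻¹)^(q j) (FF(ζ, y0+v) - (y0+v)_j) + ((1+ζ⁻¹)^(q j) - 1) v_j + [(1+ζ⁻¹)^(q j) y0_j - y0(ζ+1)_j]`,
the last bracket does not depend on `v`; Lipschitz constant `K₂/‖ζ‖`; `‖Θ ζ 0‖` is the estimate of `approx`;
holomorphy: `FF_holo`, `y0_holo` (also for `ζ + 1`), and `ζ ↦ (1+ζ⁻¹)^(q j)` is holomorphic on `Re ζ > 0`.
-/

set_option autoImplicit false

namespace FFL

variable {n : ℕ}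

theorem one_add_inv_cpow (g : ℂ) : ∃ K : ℝ, 0 ≤ K ∧ ∀ ζ ∈ HP 2,
    ‖(1 + ζ⁻¹) ^ g - 1‖ ≤ K / ‖ζ‖ ∧ ‖(1 + ζ⁻¹) ^ g‖ ≤ 1 + K := by
  obtain ⟨p, hp0, _, C, hC, hb⟩ := taylor_pow g 1
  obtain ⟨C2, hC2⟩ := (isCompact_closedBall (0 : ℂ) (1 / 2)).exists_bound_of_continuousOn
    (f := fun s => p.divX.eval s) (p.divX.continuous).continuousOn
  have hkey : ∀ s : ℂ, ‖s‖ ≤ 1 / 2 → ‖(1 + s) ^ g - 1‖ ≤ (C + |C2|) * ‖s‖ := by
    intro s hs
    have h1 := hb s hs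
    rw [pow_one] at h1
    have h2 := hC2 s (by rw [mem_closedBall_zero_iff]; exact hs)
    have h3 : p.eval s - 1 = p.divX.eval s * s := by
      have h4 := congrArg (Polynomial.eval s) (Polynomial.divX_mul_X_add p)
      rw [Polynomial.eval_add, Polynomial.eval_mul, Polynomial.eval_X, Polynomial.eval_C,
        hp0] at h4
      rw [← h4]
      ring
    have h5 : ‖p.eval s - 1‖ ≤ |C2| * ‖s‖ := by
      rw [h3, norm_mul]
      exact mul_le_mul_of_nonneg_right (h2.trans (le_abs_self C2)) (norm_nonneg _)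
    have h6 : (1 + s) ^ g - 1 = ((1 + s) ^ g - p.eval s) + (p.eval s - 1) := by ring
    rw [h6, add_mul]
    exact (norm_add_le _ _).trans (add_le_add h1 h5)
  have hK : 0 ≤ C + |C2| := add_nonneg hC (abs_nonneg _)
  refine ⟨C + |C2|, hK, fun ζ hζ => ?_⟩
  have h1 : 2 ≤ ‖ζ‖ := (le_of_lt hζ).trans ((le_abs_self _).trans (Complex.abs_re_le_norm ζ))
  have h2 : ‖ζ⁻¹‖ ≤ 1 / 2 := by
    rw [norm_inv, one_div]
    exact inv_anti₀ two_pos h1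
  have h3 := hkey ζ⁻¹ h2
  constructor
  · rw [div_eq_mul_inv, ← norm_inv]
    exact h3
  · have h4 : (1 + ζ⁻¹) ^ g = ((1 + ζ⁻¹) ^ g - 1) + 1 := by ring
    rw [h4]
    refine (norm_add_le _ _).trans ?_
    rw [norm_one]
    have h5 : (C + |C2|) * ‖ζ⁻¹‖ ≤ (C + |C2|) * 1 :=
      mul_le_mul_of_nonneg_left (by linarith) hK
    linarith

theorem one_add_inv_holo (g : ℂ) : DifferentiableOn ℂ (fun ζ : ℂ => (1 + ζ⁻¹) ^ g) (HP 0) := by
  intro ζ hζ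
  have h0 : 0 < ζ.re := hζ
  have hne : ζ ≠ 0 := by
    rintro rfl
    exact lt_irrefl _ h0
  have h1 : 1 + ζ⁻¹ ∈ Complex.slitPlane := by
    left
    rw [Complex.add_re, Complex.one_re, Complex.inv_re]
    have h2 : 0 ≤ ζ.re / Complex.normSq ζ := div_nonneg h0.le (Complex.normSq_nonneg _)
    linarith
  exact (((differentiableAt_const (1 : ℂ)).add (differentiableAt_inv hne)).cpow
    (differentiableAt_const g) h1).differentiableWithinAt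

end FFL
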