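import Pool.Agent.FFL.B5
import Pool.Agent.FFL.B4e
import Pool.Agent.FFL.C1
import Pool.Agent.FFL.C2a

/-!
# [FFL-C2] the true solution

`M = ‖c‖ + 2`; `FF_lip` gives `K, R`.  There is a constant `K'` with `‖(1+ζ⁻¹)^(q j) - 1‖ ≤ K'/‖ζ‖` and
`‖(1+ζ⁻¹)^(q j)‖ ≤ 1 + K'` for `ζ ∈ HP 2` (`taylor_pow (q j) 1`, `p.eval s - 1` is divisible by `s`; or directly).
Put `K₂ = (1 + K') K + K'`; `contraction n K₂` gives `κ₁`; take `κ = max κ₀ κ₁`, then `approx` for this `κ`.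
`y0` satisfies `‖y0 γ Y ζ‖ ≤ ‖c‖ + 1` for large `Re ζ` (`y0_lim`).  Apply the contraction theorem to
`Θ ζ v j = (1+ζ⁻¹)^(q j) FF q a ζ (y0 ζ + v) j - y0 (ζ+1) j - v j`
`= (1+ζ⁻¹)^(q j) (FF(ζ, y0+v) - (y0+v)_j) + ((1+ζ⁻¹)^(q j) - 1) v_j + [(1+ζ⁻¹)^(q j) y0_j - y0(ζ+1)_j]`,
the last bracket does not depend on `v`; Lipschitz constant `K₂/‖ζ‖`; `‖Θ ζ 0‖` is the estimate of `approx`;
holomorphy: `FF_holo`, `y0_holo` (also for `ζ + 1`), and `ζ ↦ (1+ζ⁻¹)^(q j)` is holomorphic on `Re ζ > 0`.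
-/

set_option autoImplicit false

namespace FFL

variable {n : ℕ}

theorem c2b_norm {R : ℝ} {ζ : ℂ} (h : ζ ∈ HP R) : R ≤ ‖ζ‖ :=
  (le_of_lt h).trans ((le_abs_self _).trans (Complex.abs_re_le_norm ζ))

theorem c2b_lim {s : ℕ} (γ : Fin (s + 1) → ℂ) (hγ : ∀ i, 0 < (γ i).re) (c : Fin n → ℂ)
    (Y : Fin n → AA (Fin (s + 1))) (hY : ∀ j, Y j - cst _ (c j) ∈ II (Fin (s + 1))) :
    ∃ R : ℝ, ∀ ζ ∈ HP R, ‖y0 γ Y ζ‖ ≤ ‖c‖ + 1 := by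
  obtain ⟨C, ρ, _, hρ, hb⟩ := y0_lim γ hγ c Y hY
  have h1 : Filter.Tendsto (fun x : ℝ => C * x ^ (-ρ)) Filter.atTop (nhds 0) := by
    have h2 := (tendsto_rpow_neg_atTop hρ).const_mul C
    rwa [mul_zero] at h2
  obtain ⟨R, hR⟩ := Filter.eventually_atTop.mp (h1.eventually_le_const one_pos)
  refine ⟨max R 1, fun ζ hζ => ?_⟩
  have h3 : ζ ∈ HP 1 := HP_mono (le_max_right _ _) hζ
  have h4 : R ≤ ‖ζ‖ := (le_max_left _ _).trans (c2b_norm hζ)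
  rw [pi_norm_le_iff_of_nonneg (by positivity)]
  intro j
  have h5 := (hb ζ h3 j).trans (hR _ h4)
  have h6 : y0 γ Y ζ j = c j + (y0 γ Y ζ j - c j) := by ring
  rw [h6]
  exact (norm_add_le _ _).trans (add_le_add (norm_le_pi_norm c j) h5)

/-- the right hand side of the difference equation -/
noncomputable def c2bT (a : Fin n → (Fin n →₀ ℕ) → ℂ) (q : Fin n → ℂ) {s : ℕ}
    (γ : Fin (s + 1) → ℂ) (Y : Fin n → AA (Fin (s + 1))) (ζ : ℂ) (v : Fin n → ℂ) : Fin n → ℂ :=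
  fun j => (1 + ζ⁻¹) ^ (q j) * FF q a ζ (fun i => y0 γ Y ζ i + v i) j - y0 γ Y (ζ + 1) j - v j

theorem c2b_lip (a : Fin n → (Fin n →₀ ℕ) → ℂ) (q : Fin n → ℂ) {s : ℕ}
    (γ : Fin (s + 1) → ℂ) (Y : Fin n → AA (Fin (s + 1))) (M K K' : ℝ) (hK : 0 ≤ K) (hK' : 0 ≤ K')
    (ζ : ℂ) (hy : ‖y0 γ Y ζ‖ + 1 ≤ M)
    (hA : ∀ j, ‖(1 + ζ⁻¹) ^ (q j) - 1‖ ≤ K' / ‖ζ‖ ∧ ‖(1 + ζ⁻¹) ^ (q j)‖ ≤ 1 + K')
    (hF : ∀ y y' : Fin n → ℂ, ‖y‖ ≤ M → ‖y'‖ ≤ M → ∀ j,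
      ‖(FF q a ζ y j - y j) - (FF q a ζ y' j - y' j)‖ ≤ K / ‖ζ‖ * ‖y - y'‖)
    (v v' : Fin n → ℂ) (hv : ‖v‖ ≤ 1) (hv' : ‖v'‖ ≤ 1) :
    ‖c2bT a q γ Y ζ v - c2bT a q γ Y ζ v'‖ ≤ ((1 + K') * K + K') / ‖ζ‖ * ‖v - v'‖ := by
  have h0 : 0 ≤ ((1 + K') * K + K') / ‖ζ‖ * ‖v - v'‖ := by positivity
  rw [pi_norm_le_iff_of_nonneg h0]
  intro j
  have hM : ∀ w : Fin n → ℂ, ‖w‖ ≤ 1 → ‖(fun i => y0 γ Y ζ i + w i : Fin n → ℂ)‖ ≤ M := by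
    intro w hw
    have h1 : (fun i => y0 γ Y ζ i + w i : Fin n → ℂ) = y0 γ Y ζ + w := rfl
    rw [h1]
    refine (norm_add_le _ _).trans ?_
    linarith
  have h1 := hF _ _ (hM v hv) (hM v' hv') j
  have h2 : (fun i => y0 γ Y ζ i + v i : Fin n → ℂ) - (fun i => y0 γ Y ζ i + v' i) = v - v' := by
    funext i
    change (y0 γ Y ζ i + v i) - (y0 γ Y ζ i + v' i) = v i - v' i
    ring
  rw [h2] at h1
  have h3 : (c2bT a q γ Y ζ v - c2bT a q γ Y ζ v') j =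
      (1 + ζ⁻¹) ^ (q j) * ((FF q a ζ (fun i => y0 γ Y ζ i + v i) j - (y0 γ Y ζ j + v j)) -
        (FF q a ζ (fun i => y0 γ Y ζ i + v' i) j - (y0 γ Y ζ j + v' j))) +
      ((1 + ζ⁻¹) ^ (q j) - 1) * (v j - v' j) := by
    change ((1 + ζ⁻¹) ^ (q j) * FF q a ζ (fun i => y0 γ Y ζ i + v i) j - y0 γ Y (ζ + 1) j - v j) -
      ((1 + ζ⁻¹) ^ (q j) * FF q a ζ (fun i => y0 γ Y ζ i + v' i) j - y0 γ Y (ζ + 1) j - v' j) = _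
    ring
  rw [h3]
  refine (norm_add_le _ _).trans ?_
  rw [norm_mul, norm_mul]
  obtain ⟨hA1, hA2⟩ := hA j
  have h4 : ‖v j - v' j‖ ≤ ‖v - v'‖ := norm_le_pi_norm (v - v') j
  have h5 := mul_le_mul hA2 h1 (norm_nonneg _) (by linarith)
  have h6 := mul_le_mul hA1 h4 (norm_nonneg _) (div_nonneg hK' (norm_nonneg _))
  have h7 : ((1 + K') * K + K') / ‖ζ‖ * ‖v - v'‖ =
      (1 + K') * (K / ‖ζ‖ * ‖v - v'‖) + K' / ‖ζ‖ * ‖v - v'‖ := by ring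
  rw [h7]
  exact add_le_add h5 h6

theorem solution (a : Fin n → (Fin n →₀ ℕ) → ℂ) (r : ℝ) (hr : 0 < r)
    (ha : ∀ j, Summable fun α => ‖a j α‖ * r ^ deg α) (q : Fin n → ℂ) (hq : ∀ i, 0 < (q i).re)
    (hw : WDeg q a) (h1 : ∀ j, a j (Finsupp.single j 1) = 1) (c : Fin n → ℂ)
    (hc : ∀ j, lead q a j c = -q j * c j) (κ₀ : ℕ) :
    ∃ (s : ℕ) (γ : Fin (s + 1) → ℂ) (Y : Fin n → AA (Fin (s + 1))), γ 0 = 1 ∧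
      (∀ i, 0 < (γ i).re) ∧ ((∀ i, (q i).im = 0) → ∀ i, (γ i).im = 0) ∧
      (∀ j, Y j - cst _ (c j) ∈ II (Fin (s + 1))) ∧ ∃ κ : ℕ, κ₀ ≤ κ ∧
      ∃ (R C : ℝ) (v : ℂ → Fin n → ℂ), 1 ≤ R ∧ 0 ≤ C ∧ DifferentiableOn ℂ v (HP R) ∧
        (∀ ζ ∈ HP R, ‖v ζ‖ ≤ 1 ∧ ‖v ζ‖ ≤ C * ‖ζ‖ ^ (-(κ : ℝ))) ∧
        ∀ ζ ∈ HP R, ∀ j, y0 γ Y (ζ + 1) j + v (ζ + 1) j =
          (1 + ζ⁻¹) ^ (q j) * FF q a ζ (fun i => y0 γ Y ζ i + v ζ i) j := by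
  obtain ⟨K, R₁, hK, hR₁, hlip⟩ := FF_lip a r hr ha q hq hw h1 (‖c‖ + 2)
    (by linarith [norm_nonneg c])
  have hex : ∀ j, ∃ K' : ℝ, 0 ≤ K' ∧ ∀ ζ ∈ HP 2,
    ‖(1 + ζ⁻¹) ^ (q j) - 1‖ ≤ K' / ‖ζ‖ ∧ ‖(1 + ζ⁻¹) ^ (q j)‖ ≤ 1 + K' :=
    fun j => one_add_inv_cpow (q j)
  choose Kf hKf hKf2 using hex
  let K' : ℝ := ∑ j, Kf j
  have hK' : 0 ≤ K' := Finset.sum_nonneg fun j _ => hKf j
  have hKK : ∀ j, Kf j ≤ K' := fun j =>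
    Finset.single_le_sum (fun i _ => hKf i) (Finset.mem_univ j)
  obtain ⟨κ₁, hcontr⟩ := contraction n ((1 + K') * K + K') (by positivity)
  obtain ⟨s, γ, Y, hγ0, hγ, hγre, hY, C, R₂, hC, hR₂, happ⟩ :=
    approx a r hr ha q hq hw h1 c hc (max κ₀ κ₁)
  obtain ⟨R₃, hR₃⟩ := c2b_lim γ hγ c Y hY
  obtain ⟨R₄, hR₄, hholo⟩ := FF_holo a r hr ha q hq hw (‖c‖ + 2) (by positivity)
  let R₀ : ℝ := max (max R₁ R₂) (max (max R₃ R₄) 2)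
  have e1 : R₁ ≤ R₀ := (le_max_left _ _).trans (le_max_left _ _)
  have e2 : R₂ ≤ R₀ := (le_max_right _ _).trans (le_max_left _ _)
  have e3 : R₃ ≤ R₀ := (le_max_left _ _).trans ((le_max_left _ _).trans (le_max_right _ _))
  have e4 : R₄ ≤ R₀ := (le_max_right _ _).trans ((le_max_left _ _).trans (le_max_right _ _))
  have e5 : 2 ≤ R₀ := (le_max_right _ _).trans (le_max_right _ _)
  have A1 : ∀ ζ ∈ HP R₀, ∀ v v' : Fin n → ℂ, ‖v‖ ≤ 1 → ‖v'‖ ≤ 1 →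
      ‖c2bT a q γ Y ζ v - c2bT a q γ Y ζ v'‖ ≤ ((1 + K') * K + K') / ‖ζ‖ * ‖v - v'‖ := by
    intro ζ hζ w w' hw1 hw2
    have hy := hR₃ ζ (HP_mono e3 hζ)
    refine c2b_lip a q γ Y (‖c‖ + 2) K K' hK hK' ζ (by linarith) (fun j => ?_)
      (fun y y' hy1 hy2 j => (hlip ζ (HP_mono e1 hζ) y y' hy1 hy2 j).2) w w' hw1 hw2
    obtain ⟨h3, h4⟩ := hKf2 j ζ (HP_mono e5 hζ)
    exact ⟨h3.trans (div_le_div_of_nonneg_right (hKK j) (norm_nonneg _)),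
      h4.trans (by linarith [hKK j])⟩
  have A2 : ∀ ζ ∈ HP R₀, ‖c2bT a q γ Y ζ 0‖ ≤
      C * ‖ζ‖ ^ (-(((max κ₀ κ₁ : ℕ) : ℝ) + 1)) := by
    intro ζ hζ
    have h0 : 0 ≤ C * ‖ζ‖ ^ (-(((max κ₀ κ₁ : ℕ) : ℝ) + 1)) :=
      mul_nonneg hC (Real.rpow_nonneg (norm_nonneg _) _)
    rw [pi_norm_le_iff_of_nonneg h0]
    intro j
    have h2 := happ ζ (HP_mono e2 hζ) j
    have h3 : c2bT a q γ Y ζ 0 j =
        (1 + ζ⁻¹) ^ (q j) * FF q a ζ (y0 γ Y ζ) j - y0 γ Y (ζ + 1) j := by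
      have h4 : (fun i => y0 γ Y ζ i + (0 : Fin n → ℂ) i : Fin n → ℂ) = y0 γ Y ζ := by
        funext i
        exact add_zero _
      unfold c2bT
      rw [h4]
      exact sub_zero _
    rw [h3]
    exact h2
  have A3 : ∀ R, R₀ ≤ R → ∀ v : ℂ → Fin n → ℂ, DifferentiableOn ℂ v (HP R) →
      (∀ ζ ∈ HP R, ‖v ζ‖ ≤ 1) →
      DifferentiableOn ℂ (fun ζ => c2bT a q γ Y ζ (v ζ)) (HP R) := by
    intro R' hR' w hw1 hw2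
    rw [differentiableOn_pi]
    intro j
    have hsub : HP R' ⊆ HP 0 := HP_mono (by linarith)
    have h2 : DifferentiableOn ℂ (y0 γ Y) (HP R') := (y0_holo γ Y).mono hsub
    have h3 : DifferentiableOn ℂ (fun ζ => FF q a ζ ((fun ζ => y0 γ Y ζ + w ζ) ζ) j) (HP R') := by
      refine hholo R' (e4.trans hR') (fun ζ => y0 γ Y ζ + w ζ) (h2.add hw1) (fun ζ hζ => ?_) j
      refine (norm_add_le _ _).trans ?_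
      have h4 := hR₃ ζ (HP_mono (e3.trans hR') hζ)
      have h5 := hw2 ζ hζ
      linarith
    have h4 : DifferentiableOn ℂ (fun ζ : ℂ => (1 + ζ⁻¹) ^ (q j)) (HP R') :=
      (one_add_inv_holo (q j)).mono hsub
    have h5 : DifferentiableOn ℂ (fun ζ : ℂ => y0 γ Y (ζ + 1)) (HP R') :=
      h2.comp (differentiable_id.add_const _).differentiableOn fun ζ hζ => HP_add_one hζ
    have h6 : DifferentiableOn ℂ (fun ζ : ℂ => y0 γ Y (ζ + 1) j) (HP R') :=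
      (differentiableOn_pi.mp h5) j
    have h7 : DifferentiableOn ℂ (fun ζ : ℂ => w ζ j) (HP R') := (differentiableOn_pi.mp hw1) j
    exact ((h4.mul h3).sub h6).sub h7
  obtain ⟨R, C', hR, hC', v, hv, hvb, hstep⟩ := hcontr (max κ₀ κ₁) (le_max_right _ _) C R₀
    (c2bT a q γ Y) hC (by linarith) A1 A2 A3
  refine ⟨s, γ, Y, hγ0, hγ, hγre, hY, max κ₀ κ₁, le_max_left _ _, R, C', v, by linarith, hC', hv,
    hvb, fun ζ hζ j => ?_⟩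
  have h2 := congrFun (hstep ζ hζ) j
  rw [h2]
  change y0 γ Y (ζ + 1) j + (v ζ j + ((1 + ζ⁻¹) ^ (q j) *
    FF q a ζ (fun i => y0 γ Y ζ i + v ζ i) j - y0 γ Y (ζ + 1) j - v ζ j)) = _
  ring

end FFL
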