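import Pool.Agent.FFL.B3
import Pool.Agent.FFL.B4b

/-!
# [FFL-C3] the curve `φ_j(ζ) = ζ^(-q_j) y_j(ζ)` satisfies `f(φ(ζ)) = φ(ζ+1)`

`FF_eq`: for large `Re ζ`, `FF q a ζ y j = ζ^(q j) f_j(ζ^(-q) y)`.  So
`(ζ+1)^(-q j) y_j(ζ+1) = (ζ+1)^(-q j) (1+ζ⁻¹)^(q j) ζ^(q j) f_j(φ ζ) = f_j(φ ζ)` (`cpow_shift`,
`(ζ+1)^(-q j) (ζ+1)^(q j) = 1`).
-/

set_option autoImplicit false

namespace FFL

variable {n : ℕ}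

theorem orbit {f : (Fin n → ℂ) → (Fin n → ℂ)} {a : Fin n → (Fin n →₀ ℕ) → ℂ}
    (h : HasSeries f a) (q : Fin n → ℂ) (hq : ∀ i, 0 < (q i).re) (R M : ℝ)
    (y : ℂ → Fin n → ℂ) (hM : ∀ ζ ∈ HP R, ‖y ζ‖ ≤ M)
    (hy : ∀ ζ ∈ HP R, ∀ j, y (ζ + 1) j = (1 + ζ⁻¹) ^ (q j) * FF q a ζ (y ζ) j) :
    ∃ R' : ℝ, 1 ≤ R' ∧ R ≤ R' ∧ ∀ ζ ∈ HP R', f (fun j => ζ ^ (-q j) * y ζ j) =
      fun j => (ζ + 1) ^ (-q j) * y (ζ + 1) j := by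
  obtain ⟨R₁, hR₁, hFF⟩ := FF_eq h q hq M
  refine ⟨max R₁ R, hR₁.trans (le_max_left _ _), le_max_right _ _, fun ζ hζ => ?_⟩
  have hζR₁ : ζ ∈ HP R₁ := HP_mono (le_max_left _ _) hζ
  have hζR : ζ ∈ HP R := HP_mono (le_max_right _ _) hζ
  have hζ0 : ζ ∈ HP 0 := HP_mono (by linarith) hζR₁
  have hre : 0 < ζ.re := hζ0
  have hne : ζ + 1 ≠ 0 := by
    intro h0
    have h1 := congrArg Complex.re h0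
    rw [Complex.add_re, Complex.one_re, Complex.zero_re] at h1
    linarith
  funext j
  rw [hy ζ hζR j, hFF ζ hζR₁ (y ζ) (hM ζ hζR) j, ← mul_assoc ((1 + ζ⁻¹) ^ q j),
    mul_comm ((1 + ζ⁻¹) ^ q j), ← cpow_shift (q j) hζ0, ← mul_assoc, ← Complex.cpow_add _ _ hne,
    neg_add_cancel, Complex.cpow_zero, one_mul]

end FFL
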