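import Pool.Agent.FFL.B3

/-!
# [FFL-D3] injectivity and nonvanishing

`ne`: if `φ ζ = 0` then `φ (ζ + k) = 0` for all `k` (`f 0 = 0`), so `y (ζ+k) = 0`, contradicting `y → c ≠ 0`.
`inj`: let `φ ζ₁ = φ ζ₂`; by induction `φ (ζ₁+k) = φ (ζ₂+k)` for all `k ∈ ℕ`, so
`(ζ₁+k)^(-g) y(ζ₁+k) = (ζ₂+k)^(-g) y(ζ₂+k)`.  Cauchy's estimate: for `x` on the segment `[ζ₁+k, ζ₂+k]` and `k` large the disc of
radius `k/2` about `x` is in `HP R` and consists of points of norm `≥ k/3`, where `|y - c| ≤ ε_k → 0`; so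
`|y'| ≤ 2ε_k/k` and `k |y(ζ₁+k) - y(ζ₂+k)| ≤ 2 ε_k |ζ₁ - ζ₂| → 0`.  Hence `k (y(ζ₁+k)/y(ζ₂+k) - 1) → 0`.
On the other hand `k (((ζ₁+k)/(ζ₂+k))^g - 1) → g (ζ₁ - ζ₂)`: write `(ζ₂+k)^g = ...`,
`(ζ₁+k)^g/(ζ₂+k)^g = exp(g (log(ζ₁+k) - log(ζ₂+k)))` and `k (log (ζ₁+k) - log (ζ₂+k)) → ζ₁ - ζ₂`
(derivative of `log` is `1/x`, `k/x → 1` on the segment; or `log (ζ+k) = log k + log (1 + ζ/k)`).
So `g (ζ₁ - ζ₂) = 0` and `ζ₁ = ζ₂`.
-/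

set_option autoImplicit false

open Filter Topology

namespace FFL

variable {n : ℕ}

theorem D3x_iter (f : (Fin n → ℂ) → (Fin n → ℂ)) (R : ℝ)
    (φ : ℂ → Fin n → ℂ) (heq : ∀ ζ ∈ HP R, f (φ ζ) = φ (ζ + 1)) (ζ₁ ζ₂ : ℂ) (h1 : ζ₁ ∈ HP R)
    (h2 : ζ₂ ∈ HP R) (h : φ ζ₁ = φ ζ₂) (k : ℕ) :
    ζ₁ + k ∈ HP R ∧ ζ₂ + k ∈ HP R ∧ φ (ζ₁ + k) = φ (ζ₂ + k) := by
  induction k with
  | zero => simpa using ⟨h1, h2, h⟩
  | succ k ih =>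
    obtain ⟨i1, i2, i3⟩ := ih
    push_cast
    rw [← add_assoc, ← add_assoc]
    refine ⟨HP_add_one i1, HP_add_one i2, ?_⟩
    rw [← heq _ i1, ← heq _ i2, i3]

theorem D3x_zero (f : (Fin n → ℂ) → (Fin n → ℂ)) (hf0 : f 0 = 0) (R : ℝ)
    (φ : ℂ → Fin n → ℂ) (heq : ∀ ζ ∈ HP R, f (φ ζ) = φ (ζ + 1)) (ζ : ℂ) (h1 : ζ ∈ HP R)
    (h : φ ζ = 0) (k : ℕ) : ζ + k ∈ HP R ∧ φ (ζ + k) = 0 := by
  induction k with
  | zero => simpa using ⟨h1, h⟩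
  | succ k ih =>
    obtain ⟨i1, i3⟩ := ih
    push_cast
    rw [← add_assoc]
    refine ⟨HP_add_one i1, ?_⟩
    rw [← heq _ i1, i3, hf0]

theorem D3x_norm_ge {R : ℝ} (hR : 0 ≤ R) {ζ : ℂ} (h : ζ ∈ HP R) (k : ℕ) : (k : ℝ) ≤ ‖ζ + k‖ := by
  have h1 : R < ζ.re := h
  have h2 := Complex.re_le_norm (ζ + k)
  rw [Complex.add_re, Complex.natCast_re] at h2
  linarith

theorem D3x_ne_zero {R : ℝ} (hR : 0 ≤ R) {ζ : ℂ} (h : ζ ∈ HP R) : ζ ≠ 0 := by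
  rintro rfl
  have h1 : R < (0 : ℂ).re := h
  rw [Complex.zero_re] at h1
  linarith

/-- Cauchy's estimate -/
theorem D3x_cauchy (R : ℝ) (hR : 0 ≤ R) (c : ℂ) (y : ℂ → ℂ) (hy : DifferentiableOn ℂ y (HP R))
    (hlim : ∀ ε > 0, ∃ R' : ℝ, ∀ ζ ∈ HP R, R' ≤ ‖ζ‖ → ‖y ζ - c‖ ≤ ε) (ε : ℝ) (hε : 0 < ε) :
    ∃ ρ₀ : ℝ, 0 < ρ₀ ∧ ∀ ρ ≥ ρ₀, ∀ a ∈ HP ρ, ∀ b ∈ HP ρ, ρ * ‖y a - y b‖ ≤ 2 * ε * ‖a - b‖ := by
  obtain ⟨R', hR'⟩ := hlim ε hε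
  refine ⟨2 * R + 2 * |R'| + 1, by positivity, ?_⟩
  intro ρ hρ a ha b hb
  have hρ0 : 0 < ρ := by
    have := abs_nonneg R'
    linarith
  have hball : ∀ x ∈ HP ρ, ∀ z ∈ Metric.closedBall x (ρ / 2), z ∈ HP R ∧ R' ≤ ‖z‖ := by
    intro x hx z hz
    have h1 : ρ < x.re := hx
    have h2 : ‖z - x‖ ≤ ρ / 2 := mem_closedBall_iff_norm.1 hz
    have h3 := (Complex.abs_re_le_norm (z - x)).trans h2
    rw [Complex.sub_re, abs_le] at h3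
    have h4 := abs_nonneg R'
    have h5 := le_abs_self R'
    have h6 := Complex.re_le_norm z
    refine ⟨?_, ?_⟩
    · show R < z.re
      linarith [h3.1]
    · linarith [h3.1]
  have hdiff : ∀ x ∈ HP ρ, DifferentiableAt ℂ (fun z => y z - c) x := by
    intro x hx
    have h1 := (hball x hx x (Metric.mem_closedBall_self (by linarith))).1
    exact ((hy x h1).differentiableAt ((isOpen_HP R).mem_nhds h1)).sub_const c
  have hbound : ∀ x ∈ HP ρ, ‖deriv (fun z => y z - c) x‖ ≤ ε / (ρ / 2) := by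
    intro x hx
    apply Complex.norm_deriv_le_of_forall_mem_sphere_norm_le (by linarith)
    · apply DifferentiableOn.diffContOnCl_ball (U := HP R) (hy.sub_const c)
      intro z hz
      exact (hball x hx z hz).1
    · intro z hz
      obtain ⟨h1, h2⟩ := hball x hx z (Metric.sphere_subset_closedBall hz)
      exact hR' z h1 h2
  have h1 := (convex_halfSpace_re_gt ρ).norm_image_sub_le_of_norm_deriv_le hdiff hbound hb ha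
  rw [sub_sub_sub_cancel_right] at h1
  have h2 := mul_le_mul_of_nonneg_left h1 hρ0.le
  refine h2.trans (le_of_eq ?_)
  field_simp

theorem ne_of_asymp (f : (Fin n → ℂ) → (Fin n → ℂ)) (hf0 : f 0 = 0) (R : ℝ) (hR : 0 ≤ R)
    (φ : ℂ → Fin n → ℂ) (heq : ∀ ζ ∈ HP R, f (φ ζ) = φ (ζ + 1)) (j : Fin n) (g c : ℂ)
    (hc : c ≠ 0) (y : ℂ → ℂ) (hlim : ∀ ε > 0, ∃ R' : ℝ, ∀ ζ ∈ HP R, R' ≤ ‖ζ‖ → ‖y ζ - c‖ ≤ ε)
    (hφ : ∀ ζ ∈ HP R, φ ζ j = ζ ^ (-g) * y ζ) : ∀ ζ ∈ HP R, φ ζ ≠ 0 := by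
  intro ζ hζ h0
  have hc0 : 0 < ‖c‖ := norm_pos_iff.2 hc
  obtain ⟨R', hR'⟩ := hlim (‖c‖ / 2) (by positivity)
  obtain ⟨k, hk⟩ := exists_nat_ge R'
  obtain ⟨h1, h2⟩ := D3x_zero f hf0 R φ heq ζ hζ h0 k
  have h3 := hR' _ h1 (hk.trans (D3x_norm_ge hR hζ k))
  have h4 := hφ _ h1
  rw [h2] at h4
  have h5 : (ζ + k) ^ (-g) ≠ 0 := by
    rw [Complex.cpow_def_of_ne_zero (D3x_ne_zero hR h1)]
    exact Complex.exp_ne_zero _
  have h6 : y (ζ + k) = 0 := by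
    rcases mul_eq_zero.1 h4.symm with h | h
    · exact absurd h h5
    · exact h
  rw [h6, zero_sub, norm_neg] at h3
  linarith

theorem inj_of_asymp (f : (Fin n → ℂ) → (Fin n → ℂ)) (R : ℝ) (hR : 0 ≤ R)
    (φ : ℂ → Fin n → ℂ) (heq : ∀ ζ ∈ HP R, f (φ ζ) = φ (ζ + 1)) (j : Fin n) (g c : ℂ)
    (hg : g ≠ 0) (hc : c ≠ 0) (y : ℂ → ℂ) (hy : DifferentiableOn ℂ y (HP R))
    (hlim : ∀ ε > 0, ∃ R' : ℝ, ∀ ζ ∈ HP R, R' ≤ ‖ζ‖ → ‖y ζ - c‖ ≤ ε)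
    (hφ : ∀ ζ ∈ HP R, φ ζ j = ζ ^ (-g) * y ζ) : Set.InjOn φ (HP R) := by
  intro ζ₁ h1 ζ₂ h2 h12
  have hit := D3x_iter f R φ heq ζ₁ ζ₂ h1 h2 h12
  -- the limit of the differences
  have hT1 : Tendsto (fun k : ℕ => (k : ℂ) * (y (ζ₁ + k) - y (ζ₂ + k))) atTop (𝓝 0) := by
    rw [Metric.tendsto_atTop]
    intro ε hε
    obtain ⟨ρ₀, hρ₀, h⟩ := D3x_cauchy R hR c y hy hlim (ε / (2 * (‖ζ₁ - ζ₂‖ + 1)))
      (by positivity)
    obtain ⟨N, hN⟩ := exists_nat_ge ρ₀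
    refine ⟨N, fun k hk => ?_⟩
    have hk' : ρ₀ ≤ (k : ℝ) := hN.trans (by exact_mod_cast hk)
    have hm : ∀ ζ ∈ HP R, ζ + k ∈ HP (k : ℝ) := by
      intro ζ hζ
      have : R < ζ.re := hζ
      show (k : ℝ) < (ζ + k).re
      rw [Complex.add_re, Complex.natCast_re]
      linarith
    have h3 := h k hk' _ (hm ζ₁ h1) _ (hm ζ₂ h2)
    rw [dist_zero_right, norm_mul, Complex.norm_natCast]
    refine lt_of_le_of_lt h3 ?_
    rw [add_sub_add_right_eq_sub]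
    have h4 : 2 * (ε / (2 * (‖ζ₁ - ζ₂‖ + 1))) * ‖ζ₁ - ζ₂‖ =
        ε * (‖ζ₁ - ζ₂‖ / (‖ζ₁ - ζ₂‖ + 1)) := by
      field_simp
    rw [h4]
    have h5 : ‖ζ₁ - ζ₂‖ / (‖ζ₁ - ζ₂‖ + 1) < 1 := by
      rw [div_lt_one (by positivity)]
      linarith
    nlinarith
  -- the values
  have hT2 : Tendsto (fun k : ℕ => y (ζ₂ + k)) atTop (𝓝 c) := by
    rw [Metric.tendsto_atTop]
    intro ε hε
    obtain ⟨R', hR'⟩ := hlim (ε / 2) (by positivity)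
    obtain ⟨N, hN⟩ := exists_nat_ge R'
    refine ⟨N, fun k hk => ?_⟩
    have hk' : R' ≤ (k : ℝ) := hN.trans (by exact_mod_cast hk)
    have h3 := hR' _ (hit k).2.1 (hk'.trans (D3x_norm_ge hR h2 k))
    rw [dist_eq_norm]
    linarith
  -- the ratio
  obtain ⟨L, hL⟩ : ∃ L : ℂ → ℂ, ∀ t, L t =
      Complex.exp (g * (Complex.log (1 + ζ₁ * t) - Complex.log (1 + ζ₂ * t))) := ⟨_, fun _ => rfl⟩
  have hderlog : ∀ ζ : ℂ, HasDerivAt (fun t : ℂ => Complex.log (1 + ζ * t)) ζ 0 := by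
    intro ζ
    have h3 : HasDerivAt (fun t : ℂ => 1 + ζ * t) ζ 0 := by
      have := ((hasDerivAt_id (0 : ℂ)).const_mul ζ).const_add 1
      simpa using this
    have h4 := h3.clog (by simp [Complex.slitPlane])
    simpa using h4
  have hder : HasDerivAt L (g * (ζ₁ - ζ₂)) 0 := by
    have h3 := ((hderlog ζ₁).sub (hderlog ζ₂)).const_mul g
    have h4 := h3.cexp
    have h5 : L = fun t => Complex.exp
        (g * (Complex.log (1 + ζ₁ * t) - Complex.log (1 + ζ₂ * t))) := funext hL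
    rw [h5]
    simpa using h4
  have hL0 : L 0 = 1 := by
    rw [hL]
    simp
  have hslope := hder.tendsto_slope_zero
  have htk : Tendsto (fun k : ℕ => (k : ℂ)⁻¹) atTop (𝓝[≠] 0) := by
    rw [tendsto_nhdsWithin_iff]
    refine ⟨tendsto_inv_atTop_nhds_zero_nat, ?_⟩
    filter_upwards [eventually_gt_atTop 0] with k hk
    have : (k : ℂ) ≠ 0 := by exact_mod_cast hk.ne'
    exact inv_ne_zero this
  have hT3 := hslope.comp htk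
  have hT4 := hT3.mul hT2
  have hev : (fun k : ℕ => (k : ℂ) * (y (ζ₁ + k) - y (ζ₂ + k))) =ᶠ[atTop]
      fun k : ℕ => ((fun t : ℂ => t⁻¹ • (L (0 + t) - L 0)) ∘ fun k : ℕ => (k : ℂ)⁻¹) k *
        y (ζ₂ + k) := by
    filter_upwards [eventually_gt_atTop 0] with k hk
    obtain ⟨m1, m2, m3⟩ := hit k
    have hk0 : (k : ℂ) ≠ 0 := by exact_mod_cast hk.ne'
    have hkr : (0 : ℝ) < k := by exact_mod_cast hk
    show (k : ℂ) * (y (ζ₁ + k) - y (ζ₂ + k)) =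
      ((k : ℂ)⁻¹)⁻¹ • (L (0 + (k : ℂ)⁻¹) - L 0) * y (ζ₂ + k)
    rw [inv_inv, zero_add, hL0, smul_eq_mul]
    have hlog : ∀ ζ : ℂ, ζ + k ≠ 0 →
        Complex.log (ζ + k) = (Real.log k : ℂ) + Complex.log (1 + ζ * (k : ℂ)⁻¹) := by
      intro ζ hζ
      have e1 : ζ + k = ((k : ℝ) : ℂ) * (1 + ζ * (k : ℂ)⁻¹) := by
        rw [Complex.ofReal_natCast]
        field_simp
        ring
      have e2 : 1 + ζ * (k : ℂ)⁻¹ ≠ 0 := by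
        intro h0
        rw [h0, mul_zero] at e1
        exact hζ e1
      rw [e1, Complex.log_ofReal_mul hkr e2]
    have n1 := D3x_ne_zero hR m1
    have n2 := D3x_ne_zero hR m2
    have h5 := hφ _ m1
    have h6 := hφ _ m2
    rw [m3, h6, Complex.cpow_def_of_ne_zero n1, Complex.cpow_def_of_ne_zero n2, hlog _ n1,
      hlog _ n2] at h5
    have h7 : y (ζ₁ + k) = L (k : ℂ)⁻¹ * y (ζ₂ + k) := by
      have e3 : Complex.exp (((Real.log k : ℂ) + Complex.log (1 + ζ₁ * (k : ℂ)⁻¹)) * -g) ≠ 0 :=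
        Complex.exp_ne_zero _
      apply mul_left_cancel₀ e3
      rw [← h5, hL, ← mul_assoc, ← Complex.exp_add]
      congr 2
      ring
    rw [h7]
    ring
  have huniq := tendsto_nhds_unique (hT1.congr' hev) hT4
  have h8 : g * (ζ₁ - ζ₂) = 0 := by
    rcases mul_eq_zero.1 huniq.symm with h | h
    · exact h
    · exact absurd h hc
  rcases mul_eq_zero.1 h8 with h | h
  · exact absurd h hg
  · exact sub_eq_zero.1 h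

end FFL
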