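import Pool.Agent.FFL.C2
import Pool.Agent.FFL.C3
import Pool.Agent.FFL.D3

/-!
# [FFL-C4] the curve on a half plane
-/

set_option autoImplicit false

open Filter Topology

namespace FFL

variable {n : ℕ}

theorem coeff_zero_of_wdeg {q : Fin n → ℂ} (hq : ∀ i, 0 < (q i).re)
    {a : Fin n → (Fin n →₀ ℕ) → ℂ} (hw : WDeg q a) (j : Fin n) : a j 0 = 0 := by
  by_contra h
  have hne : (0 : Fin n →₀ ℕ) ≠ Finsupp.single j 1 := by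
    intro h'
    have h2 := congrArg (fun m : Fin n →₀ ℕ => m j) h'
    simp at h2
  have hp : pr q (0 : Fin n →₀ ℕ) = 0 := by simp [pr]
  rcases hw j 0 h hne with h1 | h1
  · rw [hp] at h1
    have h2 := congrArg Complex.re h1
    rw [Complex.add_re, Complex.one_re, Complex.zero_re] at h2
    linarith [hq j]
  · rw [hp, Complex.zero_re] at h1
    linarith [hq j]

theorem zero_of_wdeg {f : (Fin n → ℂ) → (Fin n → ℂ)} {a : Fin n → (Fin n →₀ ℕ) → ℂ}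
    (h : HasSeries f a) (h0 : ∀ j, a j 0 = 0) : f 0 = 0 := by
  obtain ⟨r, hr, hs⟩ := h
  funext j
  have h1 := hs 0 (by rw [norm_zero]; exact hr) j
  have h2 : (fun α => a j α * mon (0 : Fin n → ℂ) α) = fun _ => 0 := by
    funext α
    by_cases hα : α = 0
    · rw [hα, h0 j, zero_mul]
    · obtain ⟨i, hi⟩ : ∃ i, α i ≠ 0 := by
        by_contra hcon
        push Not at hcon
        exact hα (Finsupp.ext hcon)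
      have h3 : mon (0 : Fin n → ℂ) α = 0 := by
        unfold mon
        refine Finset.prod_eq_zero (Finset.mem_univ i) ?_
        rw [Pi.zero_apply, zero_pow hi]
      rw [h3, mul_zero]
  rw [h2] at h1
  exact h1.unique hasSum_zero

theorem rpow_small (ρ C : ℝ) (hρ : 0 < ρ) (hC : 0 ≤ C) (ε : ℝ) (hε : 0 < ε) :
    ∃ R' : ℝ, ∀ x : ℝ, R' ≤ x → C * x ^ (-ρ) ≤ ε := by
  have h1 : Tendsto (fun x : ℝ => C * x ^ (-ρ)) atTop (𝓝 (C * 0)) :=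
    (tendsto_rpow_neg_atTop hρ).const_mul C
  rw [mul_zero] at h1
  have h2 : ∀ᶠ x : ℝ in atTop, C * x ^ (-ρ) < ε := h1.eventually_lt_const hε
  obtain ⟨R', hR'⟩ := h2.exists_forall_of_atTop
  exact ⟨R', fun x hx => (hR' x hx).le⟩

theorem norm_ge_of_HP {R : ℝ} {ζ : ℂ} (h : ζ ∈ HP R) : R < ‖ζ‖ :=
  lt_of_lt_of_le h ((le_abs_self _).trans (Complex.abs_re_le_norm ζ))

theorem core {f : (Fin n → ℂ) → (Fin n → ℂ)} {a : Fin n → (Fin n →₀ ℕ) → ℂ}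
    (h : HasSeries f a) (q : Fin n → ℂ) (hq : ∀ i, 0 < (q i).re)
    (hw : WDeg q a) (h1 : ∀ j, a j (Finsupp.single j 1) = 1) (c : Fin n → ℂ) (hc0 : c ≠ 0)
    (hc : ∀ j, lead q a j c = -q j * c j) (κ₀ : ℕ) :
    ∃ (s : ℕ) (γ : Fin (s + 1) → ℂ) (Y : Fin n → AA (Fin (s + 1))),
      (∀ i, 0 < (γ i).re) ∧ ((∀ i, (q i).im = 0) → ∀ i, (γ i).im = 0) ∧
      (∀ j, Y j - cst _ (c j) ∈ II (Fin (s + 1))) ∧ ∃ κ : ℕ, κ₀ ≤ κ ∧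
      ∃ (R C : ℝ) (v : ℂ → Fin n → ℂ), 1 ≤ R ∧ 0 ≤ C ∧
        (∀ ζ ∈ HP R, ‖v ζ‖ ≤ C * ‖ζ‖ ^ (-(κ : ℝ))) ∧
        DifferentiableOn ℂ (fun ζ j => ζ ^ (-q j) * (y0 γ Y ζ j + v ζ j)) (HP R) ∧
        Set.InjOn (fun ζ j => ζ ^ (-q j) * (y0 γ Y ζ j + v ζ j)) (HP R) ∧
        (∀ ζ ∈ HP R, (fun j => ζ ^ (-q j) * (y0 γ Y ζ j + v ζ j) : Fin n → ℂ) ≠ 0) ∧
        (∀ ζ ∈ HP R, f (fun j => ζ ^ (-q j) * (y0 γ Y ζ j + v ζ j)) =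
          fun j => (ζ + 1) ^ (-q j) * (y0 γ Y (ζ + 1) j + v (ζ + 1) j)) ∧
        ∃ C' ρ : ℝ, 0 ≤ C' ∧ 0 < ρ ∧ ∀ ζ ∈ HP R,
          ‖(fun j => ζ ^ (-q j) * (y0 γ Y ζ j + v ζ j) : Fin n → ℂ)‖ ≤ C' * ‖ζ‖ ^ (-ρ) := by
  classical
  obtain ⟨r, hr, ha⟩ := summable_of_hasSeries h
  obtain ⟨s, γ, Y, _, hγ, hγr, hY, κ, hκ, R, C, v, hR, hC, hvd, hv, hsol⟩ :=
    solution a r hr ha q hq hw h1 c hc (κ₀ + 1)
  obtain ⟨C₁, ρ₁, hC₁, hρ₁, hlim⟩ := y0_lim γ hγ c Y hY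
  obtain ⟨y, hy⟩ : ∃ y : ℂ → Fin n → ℂ, y = fun ζ i => y0 γ Y ζ i + v ζ i := ⟨_, rfl⟩
  have hz1 : ∀ {ζ : ℂ}, ζ ∈ HP R → 1 ≤ ‖ζ‖ := fun hζ => (hR.trans (norm_ge_of_HP hζ).le)
  have hyc : ∀ ζ ∈ HP R, ∀ j, ‖y ζ j - c j‖ ≤ C₁ * ‖ζ‖ ^ (-ρ₁) + C * ‖ζ‖ ^ (-(κ : ℝ)) := by
    intro ζ hζ j
    have e1 : y ζ j - c j = (y0 γ Y ζ j - c j) + v ζ j := by rw [hy]; ring
    rw [e1]
    refine (norm_add_le _ _).trans (add_le_add (hlim ζ (HP_mono hR hζ) j) ?_)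
    exact (norm_le_pi_norm (v ζ) j).trans (hv ζ hζ).2
  have hle1 : ∀ {ζ : ℂ}, ζ ∈ HP R → ∀ e : ℝ, 0 ≤ e → ‖ζ‖ ^ (-e) ≤ 1 := by
    intro ζ hζ e he
    exact Real.rpow_le_one_of_one_le_of_nonpos (hz1 hζ) (by linarith)
  obtain ⟨M, hM⟩ : ∃ M : ℝ, M = ‖c‖ + C₁ + C := ⟨_, rfl⟩
  have hM0 : 0 ≤ M := by rw [hM]; positivity
  have hyM : ∀ ζ ∈ HP R, ‖y ζ‖ ≤ M := by
    intro ζ hζ
    rw [pi_norm_le_iff_of_nonneg hM0]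
    intro j
    have e1 : y ζ j = c j + (y ζ j - c j) := by ring
    rw [e1, hM]
    refine (norm_add_le _ _).trans ?_
    have e2 := hyc ζ hζ j
    have e3 := mul_le_mul_of_nonneg_left (hle1 hζ ρ₁ hρ₁.le) hC₁
    have e4 := mul_le_mul_of_nonneg_left (hle1 hζ κ (Nat.cast_nonneg κ)) hC
    have e5 := norm_le_pi_norm c j
    linarith
  obtain ⟨R', hR', hRR', horb⟩ := orbit h q hq R M y hyM (by
    intro ζ hζ j
    have e1 := hsol ζ hζ j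
    rw [hy]
    exact e1)
  have hsub : HP R' ⊆ HP R := HP_mono hRR'
  obtain ⟨j₀, hj₀⟩ : ∃ j, c j ≠ 0 := by
    by_contra hcon
    push Not at hcon
    exact hc0 (funext hcon)
  have hκ1 : (0 : ℝ) < κ := by
    have : 1 ≤ κ := le_trans (Nat.le_add_left 1 κ₀) hκ
    exact_mod_cast this
  have hlimj : ∀ j, ∀ ε > 0, ∃ R₁ : ℝ, ∀ ζ ∈ HP R', R₁ ≤ ‖ζ‖ → ‖y ζ j - c j‖ ≤ ε := by
    intro j ε hε
    obtain ⟨R₁, h₁⟩ := rpow_small ρ₁ C₁ hρ₁ hC₁ (ε / 2) (half_pos hε)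
    obtain ⟨R₂, h₂⟩ := rpow_small κ C hκ1 hC (ε / 2) (half_pos hε)
    refine ⟨max R₁ R₂, fun ζ hζ hle => (hyc ζ (hsub hζ) j).trans ?_⟩
    have e1 := h₁ ‖ζ‖ ((le_max_left _ _).trans hle)
    have e2 := h₂ ‖ζ‖ ((le_max_right _ _).trans hle)
    linarith
  have hR'0 : (0 : ℝ) ≤ R' := by linarith
  have hy_d : ∀ j, DifferentiableOn ℂ (fun ζ => y ζ j) (HP R') := by
    intro j
    rw [hy]
    have e1 := (differentiableOn_pi.1 ((y0_holo γ Y).mono (HP_mono hR'0))) j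
    have e2 := (differentiableOn_pi.1 (hvd.mono hsub)) j
    exact e1.add e2
  have heq : ∀ ζ ∈ HP R', f (fun j => ζ ^ (-q j) * y ζ j) =
      fun j => (ζ + 1) ^ (-q j) * y (ζ + 1) j := horb
  have hf0 := zero_of_wdeg h (coeff_zero_of_wdeg hq hw)
  refine ⟨s, γ, Y, hγ, hγr, hY, κ, (Nat.le_add_right κ₀ 1).trans hκ, R', C, v, hR', hC,
    fun ζ hζ => (hv ζ (hsub hζ)).2, ?_, ?_, ?_, ?_, ?_⟩
  · rw [differentiableOn_pi]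
    intro j ζ hζ
    have hz0 : ζ ∈ Complex.slitPlane := Or.inl (lt_of_le_of_lt hR'0 hζ)
    have e1 : DifferentiableWithinAt ℂ (fun ζ : ℂ => ζ ^ (-q j)) (HP R') ζ :=
      (differentiableAt_id.cpow (differentiableAt_const _) hz0).differentiableWithinAt
    have e2 := hy_d j ζ hζ
    rw [hy] at e2
    exact e1.mul e2
  · have e1 := inj_of_asymp f R' hR'0 (fun ζ j => ζ ^ (-q j) * y ζ j) heq j₀ (q j₀) (c j₀)
      (by intro h0; have := hq j₀; rw [h0, Complex.zero_re] at this; exact lt_irrefl _ this)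
      hj₀ (fun ζ => y ζ j₀) (hy_d j₀) (hlimj j₀) (fun ζ _ => rfl)
    rw [hy] at e1
    exact e1
  · have e1 := ne_of_asymp f hf0 R' hR'0 (fun ζ j => ζ ^ (-q j) * y ζ j) heq j₀ (q j₀) (c j₀)
      hj₀ (fun ζ => y ζ j₀) (hlimj j₀) (fun ζ _ => rfl)
    rw [hy] at e1
    exact e1
  · rw [hy] at heq
    exact heq
  · have hbd : ∀ j, ∃ C : ℝ, 0 < C ∧ ∀ ζ ∈ HP 0, ‖ζ ^ (-q j)‖ ≤ C * ‖ζ‖ ^ (-(q j).re) :=
      fun j => cpow_bound (q j)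
    choose C₂ hC₂ hb₂ using hbd
    haveI : Nonempty (Fin n) := ⟨j₀⟩
    obtain ⟨j₁, hj₁⟩ := Finite.exists_min fun j => (q j).re
    have hS : ∀ j, C₂ j ≤ ∑ i, C₂ i := fun j =>
      Finset.single_le_sum (fun i _ => (hC₂ i).le) (Finset.mem_univ j)
    have hS0 : 0 ≤ ∑ i, C₂ i := Finset.sum_nonneg fun i _ => (hC₂ i).le
    refine ⟨(∑ i, C₂ i) * M, (q j₁).re, mul_nonneg hS0 hM0, hq j₁, fun ζ hζ => ?_⟩
    have hz1' : 1 ≤ ‖ζ‖ := hz1 (hsub hζ)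
    have hpos : 0 ≤ ‖ζ‖ ^ (-(q j₁).re) := Real.rpow_nonneg (norm_nonneg _) _
    rw [pi_norm_le_iff_of_nonneg (mul_nonneg (mul_nonneg hS0 hM0) hpos)]
    intro j
    have e1 : ‖ζ ^ (-q j)‖ ≤ (∑ i, C₂ i) * ‖ζ‖ ^ (-(q j₁).re) := by
      refine (hb₂ j ζ (HP_mono hR'0 hζ)).trans ?_
      refine mul_le_mul (hS j) ?_ (Real.rpow_nonneg (norm_nonneg _) _) hS0
      exact Real.rpow_le_rpow_of_exponent_le hz1' (neg_le_neg (hj₁ j))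
    have e2 : ‖y ζ j‖ ≤ M := (norm_le_pi_norm (y ζ) j).trans (hyM ζ (hsub hζ))
    have e3 : y0 γ Y ζ j + v ζ j = y ζ j := by rw [hy]
    rw [e3, norm_mul]
    calc ‖ζ ^ (-q j)‖ * ‖y ζ j‖ ≤ ((∑ i, C₂ i) * ‖ζ‖ ^ (-(q j₁).re)) * M :=
          mul_le_mul e1 e2 (norm_nonneg _) (mul_nonneg hS0 hpos)
      _ = (∑ i, C₂ i) * M * ‖ζ‖ ^ (-(q j₁).re) := by ring

end FFL
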