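import Pool.Agent.FFL.Defs

/-!
# [FFL-D1a] the connected components of `D_{δ,ν}`, the parametrisation

Let `N = ν - 1 ≥ 1`, `D = DD δ ν = {ξ | ‖ξ^N - δ‖ < δ}`, `Δ = connectedComponentIn D ξ₀`.
* `D` is open (so `Δ` is open: `IsOpen.connectedComponentIn`).
* `0 ∉ D`; for `ξ ∈ D`, `Re ξ^N > 0`, in particular `ξ^N ∈ slitPlane`.
* `θ(ξ) = ξ / (ξ^N)^(1/N)` (principal root, continuous on `D`) satisfies `θ^N = 1` (`Complex.cpow_nat_inv_pow`); it is continuous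
  on `D` with values in the finite set of `N`-th roots of unity, hence constant `= θ₀` on the preconnected `Δ`
  (`IsPreconnected.constant_of_mapsTo` or: the image of a preconnected set in a finite (discrete) set is a subsingleton).  So
  `ξ = θ₀ (ξ^N)^(1/N)` on `Δ`, and `ξ^N ∈ ball δ δ`: `⊆`.
* `η ↦ θ₀ η^(1/N)` is continuous on `ball δ δ` (which is in the right half plane) and maps it into `D` (`(θ₀ η^(1/N))^N = η`); the
  image is connected and contains `ξ₀` (`η = ξ₀^N`), so it is contained in `Δ`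
  (`IsPreconnected.subset_connectedComponentIn`): `⊇`.
-/

set_option autoImplicit false

open Filter Topology

namespace FFL

theorem d1a_open (ν : ℕ) (δ : ℝ) : IsOpen (DD δ ν) := by
  have h1 : Continuous fun ξ : ℂ => ‖ξ ^ (ν - 1) - (δ : ℂ)‖ :=
    ((continuous_pow (ν - 1)).sub continuous_const).norm
  exact isOpen_lt h1 continuous_const

theorem d1a_re {δ : ℝ} {η : ℂ} (h : η ∈ Metric.ball (δ : ℂ) δ) : 0 < η.re := by
  rw [mem_ball_iff_norm] at h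
  have h1 : |(η - (δ : ℂ)).re| ≤ ‖η - (δ : ℂ)‖ := Complex.abs_re_le_norm _
  rw [Complex.sub_re, Complex.ofReal_re] at h1
  have h2 := (abs_lt.mp (lt_of_le_of_lt h1 h)).1
  linarith

theorem d1a_slit {δ : ℝ} {η : ℂ} (h : η ∈ Metric.ball (δ : ℂ) δ) : η ∈ Complex.slitPlane :=
  Or.inl (d1a_re h)

theorem d1a_root {N : ℕ} (hN : N ≠ 0) (η : ℂ) : (η ^ (1 / (N : ℂ))) ^ N = η := by
  rw [one_div]
  exact Complex.cpow_nat_inv_pow η hN

theorem d1a_cont (N : ℕ) (δ : ℝ) :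
    ContinuousOn (fun η : ℂ => η ^ (1 / (N : ℂ))) (Metric.ball (δ : ℂ) δ) := fun _ hη =>
  (continuousAt_id.cpow continuousAt_const (d1a_slit hη)).continuousWithinAt

theorem comp_open (ν : ℕ) (δ : ℝ) (ξ₀ : ℂ) : IsOpen (connectedComponentIn (DD δ ν) ξ₀) := by
  exact (d1a_open ν δ).connectedComponentIn

theorem comp_ne_zero (ν : ℕ) (hν : 2 ≤ ν) (δ : ℝ) (ξ₀ : ℂ) :
    ∀ ξ ∈ connectedComponentIn (DD δ ν) ξ₀, ξ ≠ 0 := by
  rintro ξ hξ rfl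
  have h1 := connectedComponentIn_subset _ _ hξ
  change ‖(0 : ℂ) ^ (ν - 1) - (δ : ℂ)‖ < δ at h1
  have h2 : ν - 1 ≠ 0 := by omega
  rw [zero_pow h2, zero_sub, norm_neg, Complex.norm_real, Real.norm_eq_abs] at h1
  exact absurd (le_abs_self δ) (not_le.mpr h1)

theorem comp_eq (ν : ℕ) (hν : 2 ≤ ν) (δ : ℝ) (hδ : 0 < δ) (ξ₀ : ℂ) (h0 : ξ₀ ∈ DD δ ν) :
    ∃ θ₀ : ℂ, θ₀ ^ (ν - 1) = 1 ∧ connectedComponentIn (DD δ ν) ξ₀ =
      (fun η : ℂ => θ₀ * η ^ (1 / ((ν - 1 : ℕ) : ℂ))) '' Metric.ball (δ : ℂ) δ := by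
  have hN : ν - 1 ≠ 0 := by omega
  have hDb : ∀ ξ ∈ DD δ ν, ξ ^ (ν - 1) ∈ Metric.ball (δ : ℂ) δ := by
    intro ξ hξ
    rw [mem_ball_iff_norm]
    exact hξ
  have hne : ∀ ξ ∈ DD δ ν, (ξ ^ (ν - 1)) ^ (1 / ((ν - 1 : ℕ) : ℂ)) ≠ 0 := by
    intro ξ hξ h1
    have h2 := d1a_root hN (ξ ^ (ν - 1))
    rw [h1, zero_pow hN] at h2
    have h3 := d1a_re (hDb ξ hξ)
    rw [← h2, Complex.zero_re] at h3
    exact lt_irrefl _ h3
  let θ : ℂ → ℂ := fun ξ => ξ / (ξ ^ (ν - 1)) ^ (1 / ((ν - 1 : ℕ) : ℂ))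
  have hθ : ∀ ξ ∈ DD δ ν, θ ξ ^ (ν - 1) = 1 := by
    intro ξ hξ
    change (ξ / (ξ ^ (ν - 1)) ^ (1 / ((ν - 1 : ℕ) : ℂ))) ^ (ν - 1) = 1
    rw [div_pow, d1a_root hN, div_self]
    intro h1
    have h3 := d1a_re (hDb ξ hξ)
    rw [h1, Complex.zero_re] at h3
    exact lt_irrefl _ h3
  have hθc : ContinuousOn θ (DD δ ν) := by
    refine continuousOn_id.div ?_ hne
    exact (d1a_cont (ν - 1) δ).comp (continuous_pow (ν - 1)).continuousOn hDb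
  have hsub : connectedComponentIn (DD δ ν) ξ₀ ⊆ DD δ ν := connectedComponentIn_subset _ _
  have hmem : ξ₀ ∈ connectedComponentIn (DD δ ν) ξ₀ := mem_connectedComponentIn h0
  have hconst : ∀ ξ ∈ connectedComponentIn (DD δ ν) ξ₀, θ ξ = θ ξ₀ := by
    intro ξ hξ
    refine isPreconnected_connectedComponentIn.constant_of_mapsTo
      (T := (Polynomial.nthRootsFinset (ν - 1) (1 : ℂ) : Set ℂ)) (Finset.finite_toSet _).isDiscrete
      (hθc.mono hsub) ?_ hξ hmem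
    intro η hη
    exact (Polynomial.mem_nthRootsFinset (Nat.pos_of_ne_zero hN) _).mpr (hθ η (hsub hη))
  refine ⟨θ ξ₀, hθ ξ₀ h0, ?_⟩
  apply Set.Subset.antisymm
  · intro ξ hξ
    refine ⟨ξ ^ (ν - 1), hDb ξ (hsub hξ), ?_⟩
    change θ ξ₀ * (ξ ^ (ν - 1)) ^ (1 / ((ν - 1 : ℕ) : ℂ)) = ξ
    rw [← hconst ξ hξ]
    exact div_mul_cancel₀ _ (hne ξ (hsub hξ))
  · have hpre : IsPreconnected ((fun η : ℂ => θ ξ₀ * η ^ (1 / ((ν - 1 : ℕ) : ℂ))) ''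
        Metric.ball (δ : ℂ) δ) :=
      (convex_ball (δ : ℂ) δ).isPreconnected.image _ (continuousOn_const.mul (d1a_cont (ν - 1) δ))
    refine hpre.subset_connectedComponentIn ?_ ?_
    · refine ⟨ξ₀ ^ (ν - 1), hDb ξ₀ h0, ?_⟩
      exact div_mul_cancel₀ _ (hne ξ₀ h0)
    · rintro _ ⟨η, hη, rfl⟩
      change ‖(θ ξ₀ * η ^ (1 / ((ν - 1 : ℕ) : ℂ))) ^ (ν - 1) - (δ : ℂ)‖ < δ
      rw [mul_pow, hθ ξ₀ h0, one_mul, d1a_root hN]
      rwa [mem_ball_iff_norm] at hη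

end FFL
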