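import Pool.Agent.FFL.D1a

/-!
# [FFL-D1b] the connected components of `D_{δ,ν}`

Let `N = ν - 1 ≥ 1`, `Δ = connectedComponentIn D ξ₀`; `comp_eq`: `Δ` is the image of `ball δ δ` under `g(η) = θ₀ η^(1/N)`,
`θ₀^N = 1`, and `g(η)^N = η`.
* `comp_simply`: `Δ` (as a subtype) is homeomorphic to `ball δ δ` (the inverse is `ξ ↦ ξ^N`, both continuous; the ball is in the right
  half plane, where `η^(1/N)` is continuous), which is convex and nonempty, so contractible, so simply connected.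
* `comp_frontier`: `g(t) = θ₀ t^(1/N) ∈ Δ` for `0 < t < 2δ` tends to `0` as `t → 0`, `0 ∉ Δ` (`comp_ne_zero`), `Δ` open.
* `comp_bij`: `η ↦ η⁻¹` maps `ball δ δ` bijectively onto the half plane `Re > 1/(2δ)`:
  `‖η - δ‖ < δ ↔ ‖η‖² < 2δ Re η ↔ Re η⁻¹ > 1/(2δ)`; and `g(η)^N = η`.
-/

set_option autoImplicit false

open Filter Topology

namespace FFL

theorem d1b_iff {δ : ℝ} (hδ : 0 < δ) (η : ℂ) :
    η ∈ Metric.ball (δ : ℂ) δ ↔ η ≠ 0 ∧ η⁻¹ ∈ HP (1 / (2 * δ)) := by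
  have h1 : ‖η - (δ : ℂ)‖ ^ 2 = η.re ^ 2 + η.im ^ 2 - 2 * δ * η.re + δ ^ 2 := by
    rw [Complex.sq_norm, Complex.normSq_apply, Complex.sub_re, Complex.sub_im, Complex.ofReal_re,
      Complex.ofReal_im]
    ring
  have h2 : η ∈ Metric.ball (δ : ℂ) δ ↔ η.re ^ 2 + η.im ^ 2 < 2 * δ * η.re := by
    rw [mem_ball_iff_norm, ← sq_lt_sq₀ (norm_nonneg _) hδ.le, h1]
    constructor <;> intro h <;> linarith
  rw [h2, mem_HP, Complex.inv_re, Complex.normSq_apply]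
  constructor
  · intro h
    have h3 : 0 < η.re := by
      by_contra h4
      have h5 : 2 * δ * η.re ≤ 0 := mul_nonpos_of_nonneg_of_nonpos (by linarith) (not_lt.mp h4)
      nlinarith [sq_nonneg η.re, sq_nonneg η.im]
    refine ⟨?_, ?_⟩
    · rintro rfl
      exact lt_irrefl _ h3
    · have h4 : 0 < η.re * η.re + η.im * η.im := by nlinarith [mul_pos h3 h3, sq_nonneg η.im]
      rw [div_lt_div_iff₀ (by linarith) h4]
      linarith
  · rintro ⟨h3, h4⟩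
    have h5 : 0 < η.re * η.re + η.im * η.im := by
      rw [← Complex.normSq_apply]
      exact Complex.normSq_pos.mpr h3
    rw [div_lt_div_iff₀ (by linarith) h5] at h4
    linarith

theorem d1b_inv {ν : ℕ} (hν : 2 ≤ ν) {θ₀ : ℂ} (hθ : θ₀ ^ (ν - 1) = 1) (η : ℂ) :
    (θ₀ * η ^ (1 / ((ν - 1 : ℕ) : ℂ))) ^ (ν - 1) = η := by
  have hN : ν - 1 ≠ 0 := by omega
  rw [mul_pow, hθ, one_mul, d1a_root hN]

theorem comp_simply (ν : ℕ) (hν : 2 ≤ ν) (δ : ℝ) (hδ : 0 < δ) (ξ₀ : ℂ) (h0 : ξ₀ ∈ DD δ ν) :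
    SimplyConnectedSpace (connectedComponentIn (DD δ ν) ξ₀) := by
  obtain ⟨θ₀, hθ, heq⟩ := comp_eq ν hν δ hδ ξ₀ h0
  let e : connectedComponentIn (DD δ ν) ξ₀ ≃ₜ Metric.ball (δ : ℂ) δ :=
    { toFun := fun ξ => ⟨(ξ : ℂ) ^ (ν - 1), by
        rw [mem_ball_iff_norm]
        exact connectedComponentIn_subset (DD δ ν) ξ₀ ξ.2⟩
      invFun := fun η => ⟨θ₀ * (η : ℂ) ^ (1 / ((ν - 1 : ℕ) : ℂ)), by
        rw [heq]
        exact ⟨η, η.2, rfl⟩⟩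
      left_inv := by
        rintro ⟨ξ, hξ⟩
        apply Subtype.ext
        change θ₀ * (ξ ^ (ν - 1)) ^ (1 / ((ν - 1 : ℕ) : ℂ)) = ξ
        rw [heq] at hξ
        obtain ⟨η, _, rfl⟩ := hξ
        change θ₀ * ((θ₀ * η ^ (1 / ((ν - 1 : ℕ) : ℂ))) ^ (ν - 1)) ^ (1 / ((ν - 1 : ℕ) : ℂ)) =
          θ₀ * η ^ (1 / ((ν - 1 : ℕ) : ℂ))
        rw [d1b_inv hν hθ]
      right_inv := by
        rintro ⟨η, hη⟩
        apply Subtype.ext
        exact d1b_inv hν hθ η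
      continuous_toFun := by
        exact ((continuous_pow (ν - 1)).comp continuous_subtype_val).subtype_mk _
      continuous_invFun := by
        refine Continuous.subtype_mk ?_ _
        exact continuous_const.mul (continuousOn_iff_continuous_domRestrict.mp (d1a_cont (ν - 1) δ)) }
  have hc : ContractibleSpace (Metric.ball (δ : ℂ) δ) :=
    (convex_ball (δ : ℂ) δ).contractibleSpace ⟨_, Metric.mem_ball_self hδ⟩
  have hc2 : ContractibleSpace (connectedComponentIn (DD δ ν) ξ₀) := e.contractibleSpace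
  infer_instance

theorem comp_frontier (ν : ℕ) (hν : 2 ≤ ν) (δ : ℝ) (hδ : 0 < δ) (ξ₀ : ℂ) (h0 : ξ₀ ∈ DD δ ν) :
    (0 : ℂ) ∈ frontier (connectedComponentIn (DD δ ν) ξ₀) := by
  obtain ⟨θ₀, hθ, heq⟩ := comp_eq ν hν δ hδ ξ₀ h0
  have hN : ν - 1 ≠ 0 := by omega
  refine ⟨?_, fun h => comp_ne_zero ν hν δ ξ₀ 0 (interior_subset h) rfl⟩
  rw [Metric.mem_closure_iff]
  intro ε hε
  have h1 : 0 < ε ^ (ν - 1) := pow_pos hε _
  let t : ℝ := min δ (ε ^ (ν - 1) / 2)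
  have ht0 : 0 < t := lt_min hδ (by linarith)
  have ht1 : t ≤ δ := min_le_left _ _
  have ht2 : t < ε ^ (ν - 1) := lt_of_le_of_lt (min_le_right _ _) (by linarith)
  have htb : (t : ℂ) ∈ Metric.ball (δ : ℂ) δ := by
    rw [mem_ball_iff_norm, ← Complex.ofReal_sub, Complex.norm_real, Real.norm_eq_abs, abs_lt]
    constructor <;> linarith
  refine ⟨θ₀ * (t : ℂ) ^ (1 / ((ν - 1 : ℕ) : ℂ)), ?_, ?_⟩
  · rw [heq]
    exact ⟨_, htb, rfl⟩
  · rw [dist_zero_left]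
    refine lt_of_pow_lt_pow_left₀ (ν - 1) hε.le ?_
    rw [← norm_pow, d1b_inv hν hθ, Complex.norm_real, Real.norm_eq_abs, abs_of_pos ht0]
    exact ht2

theorem comp_bij (ν : ℕ) (hν : 2 ≤ ν) (δ : ℝ) (hδ : 0 < δ) (ξ₀ : ℂ) (h0 : ξ₀ ∈ DD δ ν) :
    Set.BijOn (fun ξ : ℂ => (ξ ^ (ν - 1))⁻¹) (connectedComponentIn (DD δ ν) ξ₀)
      (HP (1 / (2 * δ))) := by
  obtain ⟨θ₀, hθ, heq⟩ := comp_eq ν hν δ hδ ξ₀ h0
  refine ⟨?_, ?_, ?_⟩
  · intro ξ hξ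
    have h1 : ξ ^ (ν - 1) ∈ Metric.ball (δ : ℂ) δ := by
      rw [mem_ball_iff_norm]
      exact connectedComponentIn_subset (DD δ ν) ξ₀ hξ
    exact ((d1b_iff hδ _).mp h1).2
  · intro ξ hξ ξ' hξ' h
    have h1 : ξ ^ (ν - 1) = ξ' ^ (ν - 1) := inv_injective h
    rw [heq] at hξ hξ'
    obtain ⟨η, _, rfl⟩ := hξ
    obtain ⟨η', _, rfl⟩ := hξ'
    have h2 : η = η' := by
      have h3 := d1b_inv hν hθ η
      have h4 := d1b_inv hν hθ η'
      rw [← h3, ← h4]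
      exact h1
    rw [h2]
  · intro w hw
    have hwne : w ≠ 0 := by
      rintro rfl
      rw [mem_HP, Complex.zero_re] at hw
      have : 0 < 1 / (2 * δ) := by positivity
      linarith
    have h1 : w⁻¹ ∈ Metric.ball (δ : ℂ) δ := by
      rw [d1b_iff hδ, inv_inv]
      exact ⟨inv_ne_zero hwne, hw⟩
    refine ⟨θ₀ * (w⁻¹) ^ (1 / ((ν - 1 : ℕ) : ℂ)), ?_, ?_⟩
    · rw [heq]
      exact ⟨_, h1, rfl⟩
    · change ((θ₀ * (w⁻¹) ^ (1 / ((ν - 1 : ℕ) : ℂ))) ^ (ν - 1))⁻¹ = w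
      rw [d1b_inv hν hθ, inv_inv]

end FFL
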