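import Pool.Agent.FFL.D7

/-!
# [FFL-D2] from a curve on a half plane to a Fatou flower

Given `U`, choose `ε` with `ball 0 ε ⊆ U`, `R' ≥ R, 1` with `C R'^(-ρ) < ε`, and `δ = e^(-R')/2`, so that `Re WW > R'` on
`D_{δ,ν}`; take `ξ ↦ φ (WW ν ξ)`, injective on `D_{δ,ν}`; the values of `WW` on every component are invariant under `+ 1`.
-/

set_option autoImplicit false

open Filter Topology

namespace FFL

variable {n : ℕ}

theorem d2_norm {R : ℝ} {ζ : ℂ} (h : ζ ∈ HP R) : R ≤ ‖ζ‖ :=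
  (le_of_lt h).trans ((le_abs_self _).trans (Complex.abs_re_le_norm ζ))

theorem d2_add {R : ℝ} {ζ : ℂ} (h : ζ ∈ HP R) (k : ℕ) : ζ + k ∈ HP R := by
  rw [mem_HP] at h ⊢
  rw [Complex.add_re, Complex.natCast_re]
  have : (0 : ℝ) ≤ (k : ℝ) := Nat.cast_nonneg k
  linarith

theorem d2_iter (f : (Fin n → ℂ) → (Fin n → ℂ)) (R : ℝ) (φ : ℂ → Fin n → ℂ)
    (heq : ∀ ζ ∈ HP R, f (φ ζ) = φ (ζ + 1)) (ζ : ℂ) (hζ : ζ ∈ HP R) (k : ℕ) :
    f^[k] (φ ζ) = φ (ζ + k) := by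
  induction k with
  | zero =>
    rw [Nat.cast_zero, add_zero]
    rfl
  | succ k ih =>
    rw [Function.iterate_succ_apply', ih, heq _ (d2_add hζ k), Nat.cast_add, Nat.cast_one,
      add_assoc]

theorem d2_inv (x : ℂ) (ρ : ℝ) : ‖x⁻¹‖ ^ (-ρ) = ‖x‖ ^ ρ := by
  rw [norm_inv, Real.inv_rpow (norm_nonneg _), Real.rpow_neg (norm_nonneg _), inv_inv]

theorem d2_small (C ρ : ℝ) (hρ : 0 < ρ) (ε : ℝ) (hε : 0 < ε) :
    ∃ R : ℝ, ∀ x : ℝ, R ≤ x → C * x ^ (-ρ) < ε := by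
  have h1 : Tendsto (fun x : ℝ => C * x ^ (-ρ)) atTop (𝓝 0) := by
    have h2 := (tendsto_rpow_neg_atTop hρ).const_mul C
    rwa [mul_zero] at h2
  exact eventually_atTop.mp (h1.eventually_lt_const hε)

theorem flower_of_curve (f : (Fin n → ℂ) → (Fin n → ℂ)) (ν : ℕ) (hν : 2 ≤ ν) (v : Fin n → ℂ)
    (R C ρ : ℝ) (hρ : 0 < ρ) (hC : 0 ≤ C) (φ : ℂ → Fin n → ℂ) (hd : DifferentiableOn ℂ φ (HP R))
    (hinj : Set.InjOn φ (HP R)) (hne : ∀ ζ ∈ HP R, φ ζ ≠ 0)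
    (heq : ∀ ζ ∈ HP R, f (φ ζ) = φ (ζ + 1)) (hb : ∀ ζ ∈ HP R, ‖φ ζ‖ ≤ C * ‖ζ‖ ^ (-ρ))
    (htan : ∀ i j, ∀ ε > 0, ∃ R' : ℝ, ∀ ζ ∈ HP R, R' ≤ ‖ζ‖ →
      ‖(φ ζ i * v j - φ ζ j * v i) / (‖φ ζ‖ : ℂ)‖ ≤ ε) :
    HasFlower f ν v := by
  intro U hU
  obtain ⟨ε, hε, hεU⟩ := Metric.mem_nhds_iff.mp hU
  obtain ⟨R₁, hR₁⟩ := d2_small C ρ hρ ε hε
  let R' : ℝ := max (max R 1) R₁
  have e1 : R ≤ R' := (le_max_left _ _).trans (le_max_left _ _)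
  have e2 : 1 ≤ R' := (le_max_right _ _).trans (le_max_left _ _)
  have e3 : R₁ ≤ R' := le_max_right _ _
  have hR'0 : 0 < R' := by linarith
  obtain ⟨δ, hδe⟩ : ∃ δ : ℝ, δ = Real.exp (-R') / 2 := ⟨_, rfl⟩
  have hδ : 0 < δ := by rw [hδe]; positivity
  have hlog : -Real.log (2 * δ) = R' := by
    have h1 : 2 * δ = Real.exp (-R') := by rw [hδe]; ring
    rw [h1, Real.log_exp, neg_neg]
  have hW : ∀ ξ ∈ DD δ ν, WW ν ξ ∈ HP R' := by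
    intro ξ hξ
    have h1 := WW_large hδ hξ
    rw [hlog] at h1
    exact h1
  have hWR : ∀ ξ ∈ DD δ ν, WW ν ξ ∈ HP R := fun ξ hξ => HP_mono e1 (hW ξ hξ)
  refine ⟨δ, hδ, fun ξ => φ (WW ν ξ), ?_, ?_, ?_⟩
  · exact hinj.comp (WW_inj hν) hWR
  · intro ξ hξ
    apply hεU
    rw [mem_ball_zero_iff]
    exact lt_of_le_of_lt (hb _ (hWR ξ hξ)) (hR₁ _ (e3.trans (d2_norm (hW ξ hξ))))
  intro ξ₀ h0
  obtain ⟨Δ, hΔ⟩ : ∃ Δ : Set ℂ, Δ = connectedComponentIn (DD δ ν) ξ₀ := ⟨_, rfl⟩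
  have hsub : Δ ⊆ DD δ ν := by rw [hΔ]; exact connectedComponentIn_subset _ _
  have hmapR : ∀ ξ ∈ Δ, WW ν ξ ∈ HP R := fun ξ hξ => hWR ξ (hsub hξ)
  have hT : Tendsto (fun ξ : ℂ => ‖WW ν ξ‖) (𝓝[Δ] 0) atTop := by
    have h1 := WW_tendsto (ν := ν) hν (δ := δ) ξ₀
    rw [← hΔ] at h1
    exact tendsto_atTop_mono (fun ξ => Complex.re_le_norm _) h1
  rw [← hΔ]
  refine ⟨?_, ?_⟩
  · refine
      { isOpen := by rw [hΔ]; exact comp_open ν _ ξ₀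
        simply := by rw [hΔ]; exact comp_simply ν hν _ hδ ξ₀ h0
        zero_mem := by rw [hΔ]; exact comp_frontier ν hν _ hδ ξ₀ h0
        holo := ?_
        inj := ?_
        ne := fun ξ hξ => hne _ (hmapR ξ hξ)
        cont := ?_
        inv := ?_
        conv := ?_ }
    · have h1 := WW_holo hν hδ h0
      rw [← hΔ] at h1
      exact hd.comp h1 hmapR
    · exact hinj.comp ((WW_inj hν).mono hsub) hmapR
    · have h1 : Tendsto (fun ξ : ℂ => C * ‖WW ν ξ‖ ^ (-ρ)) (𝓝[Δ] 0) (𝓝 0) := by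
        have h2 := ((tendsto_rpow_neg_atTop hρ).comp hT).const_mul C
        rw [mul_zero] at h2
        exact h2
      refine squeeze_zero_norm' ?_ h1
      filter_upwards [self_mem_nhdsWithin] with ξ hξ
      exact hb _ (hmapR ξ hξ)
    · intro ξ hξ
      have h2 := WW_step hν hδ h0 ξ (by rw [← hΔ]; exact hξ)
      rw [← hΔ] at h2
      obtain ⟨ξ', hξ', h1⟩ := h2
      refine ⟨ξ', hξ', ?_⟩
      change φ (WW ν ξ') = f (φ (WW ν ξ))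
      rw [heq _ (hmapR ξ hξ), h1]
    · intro K _ hK
      rw [Metric.tendstoUniformlyOn_iff]
      intro η hη
      obtain ⟨R₂, hR₂⟩ := d2_small C ρ hρ η hη
      obtain ⟨k₀, hk₀⟩ := exists_nat_ge (max R₂ 1)
      filter_upwards [eventually_ge_atTop k₀] with k hk z hz
      obtain ⟨ξ, hξ, rfl⟩ := hK hz
      change dist 0 (f^[k] (φ (WW ν ξ))) < η
      rw [d2_iter f R φ heq _ (hmapR ξ hξ) k, dist_zero_left]
      have hkk : (k₀ : ℝ) ≤ (k : ℝ) := by exact_mod_cast hk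
      have h1 : (k : ℝ) ≤ ‖WW ν ξ + k‖ := by
        have h2 := hW ξ (hsub hξ)
        rw [mem_HP] at h2
        have h3 : (WW ν ξ + (k : ℂ)).re ≤ ‖WW ν ξ + k‖ := Complex.re_le_norm _
        rw [Complex.add_re, Complex.natCast_re] at h3
        linarith
      refine lt_of_le_of_lt (hb _ (d2_add (hmapR ξ hξ) k)) (hR₂ _ ?_)
      exact (le_max_left _ _).trans (hk₀.trans (hkk.trans h1))
  · intro i j
    rw [Metric.tendsto_nhds]
    intro η hη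
    obtain ⟨R₂, hR₂⟩ := htan i j (η / 2) (by linarith)
    filter_upwards [self_mem_nhdsWithin, hT.eventually_ge_atTop R₂] with ξ hξ h1
    rw [dist_zero_right]
    exact lt_of_le_of_lt (hR₂ _ (hmapR ξ hξ) h1) (by linarith)

end FFL
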