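import Pool.Agent.FFL.Defs

/-!
# [FFL-D4] tangency from a scalar normalisation

`htan_of_scalar`: if `φ_i(ζ)/λ(ζ) → v_i` for all `i` (as `‖ζ‖ → ∞` in `HP R`), `λ ≠ 0`, `v ≠ 0`, then
`(φ_i v_j - φ_j v_i)/‖φ‖ = ((φ_i/λ) v_j - (φ_j/λ) v_i)/(‖φ‖/λ)`, of modulus `‖numerator‖/‖φ/λ‖`; the numerator tends to `0`, `‖φ/λ‖ → ‖v‖ > 0`.
-/

set_option autoImplicit false

open Filter Topology

namespace FFL

variable {n : ℕ}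

theorem htan_of_scalar (R : ℝ) (φ : ℂ → Fin n → ℂ) (lam : ℂ → ℂ) (v : Fin n → ℂ) (hv : v ≠ 0)
    (hlam : ∃ R₁ : ℝ, ∀ ζ ∈ HP R, R₁ ≤ ‖ζ‖ → lam ζ ≠ 0)
    (hlim : ∀ i, ∀ ε > 0, ∃ R' : ℝ, ∀ ζ ∈ HP R, R' ≤ ‖ζ‖ → ‖φ ζ i / lam ζ - v i‖ ≤ ε) :
    ∀ i j, ∀ ε > 0, ∃ R' : ℝ, ∀ ζ ∈ HP R, R' ≤ ‖ζ‖ →
      ‖(φ ζ i * v j - φ ζ j * v i) / (‖φ ζ‖ : ℂ)‖ ≤ ε := by
  intro i j ε hε
  have hc : 0 < ‖v‖ := norm_pos_iff.mpr hv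
  obtain ⟨R₁, hR₁⟩ := hlam
  set δ : ℝ := min (‖v‖ / 2) (ε / 4) with hδdef
  have hδ : 0 < δ := lt_min (by positivity) (by positivity)
  have hδ1 : δ ≤ ‖v‖ / 2 := min_le_left _ _
  have hδ2 : δ ≤ ε / 4 := min_le_right _ _
  choose Rf hRf using fun i => hlim i δ hδ
  obtain ⟨M, hM⟩ := (Set.finite_range Rf).bddAbove
  refine ⟨max R₁ M, ?_⟩
  intro ζ hζ hζn
  have hl : lam ζ ≠ 0 := hR₁ ζ hζ (le_trans (le_max_left _ _) hζn)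
  set a : Fin n → ℂ := fun k => φ ζ k / lam ζ with ha_def
  have ha : ‖a - v‖ ≤ δ := by
    refine (pi_norm_le_iff_of_nonneg hδ.le).mpr fun k => ?_
    exact hRf k ζ hζ (le_trans (le_trans (hM ⟨k, rfl⟩) (le_max_right _ _)) hζn)
  have hak : ∀ k, φ ζ k = lam ζ * a k := by
    intro k
    rw [ha_def]
    field_simp
  have hφ : φ ζ = lam ζ • a := by
    funext k
    rw [Pi.smul_apply, smul_eq_mul, hak k]
  have hn : ‖φ ζ‖ = ‖lam ζ‖ * ‖a‖ := by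
    rw [hφ, norm_smul]
  have hapos : ‖v‖ / 2 ≤ ‖a‖ := by
    have h1 : ‖v‖ ≤ ‖a‖ + ‖a - v‖ := by
      have h2 : v = a - (a - v) := by abel
      calc ‖v‖ = ‖a - (a - v)‖ := by rw [← h2]
        _ ≤ ‖a‖ + ‖a - v‖ := norm_sub_le _ _
    linarith
  have hvi : ∀ k, ‖v k‖ ≤ ‖v‖ := fun k => norm_le_pi_norm v k
  have hdi : ∀ k, ‖a k - v k‖ ≤ δ := fun k => le_trans (norm_le_pi_norm (a - v) k) ha
  have hnum : φ ζ i * v j - φ ζ j * v i = lam ζ * ((a i - v i) * v j - (a j - v j) * v i) := by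
    rw [hak i, hak j]
    ring
  have hw : ‖(a i - v i) * v j - (a j - v j) * v i‖ ≤ 2 * δ * ‖v‖ := by
    refine le_trans (norm_sub_le _ _) ?_
    rw [norm_mul, norm_mul]
    have h3 : ‖a i - v i‖ * ‖v j‖ ≤ δ * ‖v‖ :=
      mul_le_mul (hdi i) (hvi j) (norm_nonneg _) hδ.le
    have h4 : ‖a j - v j‖ * ‖v i‖ ≤ δ * ‖v‖ :=
      mul_le_mul (hdi j) (hvi i) (norm_nonneg _) hδ.le
    linarith
  have hlp : 0 < ‖lam ζ‖ := norm_pos_iff.mpr hl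
  have hap : 0 < ‖a‖ := by linarith
  rw [norm_div, Complex.norm_real, norm_norm, hnum, norm_mul, hn, div_le_iff₀ (by positivity)]
  have h5 : 2 * δ * ‖v‖ ≤ ε * ‖a‖ := by
    have h6 : 2 * δ * ‖v‖ ≤ 2 * (ε / 4) * ‖v‖ := by
      have := mul_le_mul_of_nonneg_right hδ2 hc.le
      linarith
    have h7 : ε * (‖v‖ / 2) ≤ ε * ‖a‖ := mul_le_mul_of_nonneg_left hapos hε.le
    linarith
  calc ‖lam ζ‖ * ‖(a i - v i) * v j - (a j - v j) * v i‖ ≤ ‖lam ζ‖ * (ε * ‖a‖) :=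
        mul_le_mul_of_nonneg_left (le_trans hw h5) hlp.le
    _ = ε * (‖lam ζ‖ * ‖a‖) := by ring

end FFL
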