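import Pool.Agent.FFL.B2

/-!
# [FFL-D5] the dominant term of a finite sum of `ζ^(-e) (log ζ)^b`, real exponents

Let `p* = (e*, b*)` be the pair in `S` with `A p* ≠ 0` for which `e` is minimal and, among those, `b` is maximal (the set of
such pairs is finite and nonempty).  By `hA`, `e* ≤ p.1 < E`.  Divide by `ζ^(-e*) (log ζ)^(b*)`: the terms with `A p = 0` vanish;
for the other `p ≠ p*` either `e > e*` and `‖ζ^(e*-e) (log ζ)^(b-b*)‖ ≤ C ‖ζ‖^(e*-e) (1+‖log ζ‖)^b → 0` (for `‖ζ‖ ≥ 3`, `‖log ζ‖ ≥ 1`), or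
`e = e*`, `b < b*` and `‖(log ζ)^(b-b*)‖ ≤ ‖log ζ‖^(-1) → 0`; the error is `≤ C ‖ζ‖^(-E) ‖ζ‖^(e*) · (constant)
→ 0` since `e* < E` (`‖ζ^(e*)‖ = ‖ζ‖^(e*)` for real `e*`).  Here `ζ ∈ HP R`, `R ≥ 1`, `‖log ζ‖ ≥ log ‖ζ‖ → ∞`.
-/

set_option autoImplicit false

open Filter Topology

namespace FFL

variable {n : ℕ}

theorem d5_norm (e : ℝ) (ζ : ℂ) : ‖ζ ^ (-(e : ℂ))‖ = ‖ζ‖ ^ (-e) := by
  rw [← Complex.ofReal_neg, Complex.norm_cpow_real]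

theorem d5_norm_gt {R : ℝ} (hR : 1 ≤ R) {ζ : ℂ} (hζ : ζ ∈ HP R) : 1 < ‖ζ‖ := by
  have h1 : R < ζ.re := hζ
  have h2 : ζ.re ≤ ‖ζ‖ := (le_abs_self _).trans (Complex.abs_re_le_norm ζ)
  linarith

theorem d5_log (ζ : ℂ) : Real.log ‖ζ‖ ≤ ‖Complex.log ζ‖ := by
  have h1 := Complex.abs_re_le_norm (Complex.log ζ)
  rw [Complex.log_re] at h1
  exact (le_abs_self _).trans h1

/-- `‖ζ‖ → ∞` in the half plane -/
noncomputable def d5F (R : ℝ) : Filter ℂ := Filter.comap (fun ζ : ℂ => ‖ζ‖) atTop ⊓ 𝓟 (HP R)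

theorem d5_tendsto_norm (R : ℝ) : Tendsto (fun ζ : ℂ => ‖ζ‖) (d5F R) atTop :=
  tendsto_comap.mono_left inf_le_left

theorem d5_mem (R : ℝ) : ∀ᶠ ζ in d5F R, ζ ∈ HP R :=
  Filter.mem_inf_of_right (mem_principal_self _)

theorem d5_rpow (R : ℝ) {c : ℝ} (hc : c < 0) :
    Tendsto (fun ζ : ℂ => ‖ζ‖ ^ c) (d5F R) (𝓝 0) := by
  have h1 := (tendsto_rpow_neg_atTop (by linarith : 0 < -c)).comp (d5_tendsto_norm R)
  rw [neg_neg] at h1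
  exact h1

theorem d5_logTop (R : ℝ) : Tendsto (fun ζ : ℂ => Real.log ‖ζ‖) (d5F R) atTop :=
  Real.tendsto_log_atTop.comp (d5_tendsto_norm R)

/-- the quotient of two terms -/
theorem d5_ratio_lt {R : ℝ} (hR : 1 ≤ R) (e e' : ℝ) (b b' : ℕ) (h : e' < e) :
    Tendsto (fun ζ : ℂ => ζ ^ (-(e : ℂ)) * Complex.log ζ ^ b /
      (ζ ^ (-(e' : ℂ)) * Complex.log ζ ^ b')) (d5F R) (𝓝 0) := by
  obtain ⟨C, hC, hlog⟩ := log_bound b ((e - e') / 2) (by linarith)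
  have h0 : Tendsto (fun ζ : ℂ => C * ‖ζ‖ ^ ((e' - e) / 2)) (d5F R) (𝓝 0) := by
    have h1 := (d5_rpow R (by linarith : (e' - e) / 2 < 0)).const_mul C
    rwa [mul_zero] at h1
  refine squeeze_zero_norm' ?_ h0
  filter_upwards [d5_mem R, (d5_logTop R).eventually_ge_atTop 1] with ζ hζ hl
  have hn : 1 < ‖ζ‖ := d5_norm_gt hR hζ
  have hn0 : 0 < ‖ζ‖ := by linarith
  have hlg : 1 ≤ ‖Complex.log ζ‖ := hl.trans (d5_log ζ)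
  have hb' : 1 ≤ ‖Complex.log ζ‖ ^ b' := one_le_pow₀ hlg
  have hb := hlog ζ (HP_mono hR hζ)
  have hb2 : ‖Complex.log ζ‖ ^ b ≤ C * ‖ζ‖ ^ ((e - e') / 2) := by
    refine le_trans ?_ hb
    apply pow_le_pow_left₀ (norm_nonneg _)
    linarith
  have hX : 0 < ‖ζ‖ ^ (-e') := Real.rpow_pos_of_pos hn0 _
  rw [norm_div, norm_mul, norm_mul, norm_pow, norm_pow, d5_norm, d5_norm,
    div_le_iff₀ (mul_pos hX (by linarith))]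
  have hY : 0 < ‖ζ‖ ^ (-e) := Real.rpow_pos_of_pos hn0 _
  have hZ : 0 < ‖ζ‖ ^ ((e' - e) / 2) := Real.rpow_pos_of_pos hn0 _
  calc ‖ζ‖ ^ (-e) * ‖Complex.log ζ‖ ^ b ≤ ‖ζ‖ ^ (-e) * (C * ‖ζ‖ ^ ((e - e') / 2)) :=
        mul_le_mul_of_nonneg_left hb2 hY.le
    _ = C * (‖ζ‖ ^ (-e) * ‖ζ‖ ^ ((e - e') / 2)) := by ring
    _ = C * (‖ζ‖ ^ ((e' - e) / 2) * ‖ζ‖ ^ (-e')) := by
        rw [← Real.rpow_add hn0, ← Real.rpow_add hn0]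
        congr 2
        ring
    _ = C * ‖ζ‖ ^ ((e' - e) / 2) * (‖ζ‖ ^ (-e') * 1) := by ring
    _ ≤ C * ‖ζ‖ ^ ((e' - e) / 2) * (‖ζ‖ ^ (-e') * ‖Complex.log ζ‖ ^ b') := by
        apply mul_le_mul_of_nonneg_left _ (mul_pos hC hZ).le
        exact mul_le_mul_of_nonneg_left hb' hX.le

theorem d5_ratio_eq {R : ℝ} (hR : 1 ≤ R) (e : ℝ) (b b' : ℕ) (h : b < b') :
    Tendsto (fun ζ : ℂ => ζ ^ (-(e : ℂ)) * Complex.log ζ ^ b /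
      (ζ ^ (-(e : ℂ)) * Complex.log ζ ^ b')) (d5F R) (𝓝 0) := by
  have h0 : Tendsto (fun ζ : ℂ => (Real.log ‖ζ‖)⁻¹) (d5F R) (𝓝 0) :=
    tendsto_inv_atTop_zero.comp (d5_logTop R)
  refine squeeze_zero_norm' ?_ h0
  filter_upwards [d5_mem R, (d5_logTop R).eventually_ge_atTop 1] with ζ hζ hl
  have hn : 1 < ‖ζ‖ := d5_norm_gt hR hζ
  have hn0 : 0 < ‖ζ‖ := by linarith
  have hX : 0 < ‖ζ‖ ^ (-e) := Real.rpow_pos_of_pos hn0 _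
  have hlg := d5_log ζ
  have hlg1 : 1 ≤ ‖Complex.log ζ‖ := hl.trans hlg
  have hl0 : 0 < ‖Complex.log ζ‖ := by linarith
  obtain ⟨k, rfl⟩ : ∃ k, b' = b + (k + 1) := ⟨b' - b - 1, by omega⟩
  rw [norm_div, norm_mul, norm_mul, norm_pow, norm_pow, d5_norm,
    mul_div_mul_left _ _ hX.ne', pow_add, div_mul_cancel_left₀ (pow_pos hl0 _).ne']
  apply inv_anti₀ (by linarith)
  rw [pow_succ]
  have h2 : 1 ≤ ‖Complex.log ζ‖ ^ k := one_le_pow₀ hlg1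
  nlinarith

theorem dominant (R : ℝ) (hR : 1 ≤ R) (S : Finset (ℝ × ℕ)) (A : ℝ × ℕ → Fin n → ℂ) (E C : ℝ)
    (φ : ℂ → Fin n → ℂ) (hA : ∃ p ∈ S, A p ≠ 0 ∧ p.1 < E)
    (hφ : ∀ ζ ∈ HP R, ∀ j, ‖φ ζ j - ∑ p ∈ S, ζ ^ (-(p.1 : ℂ)) * Complex.log ζ ^ p.2 * A p j‖ ≤
      C * ‖ζ‖ ^ (-E)) :
    ∃ (p : ℝ × ℕ), A p ≠ 0 ∧
      (∃ R₁ : ℝ, ∀ ζ ∈ HP R, R₁ ≤ ‖ζ‖ → ζ ^ (-(p.1 : ℂ)) * Complex.log ζ ^ p.2 ≠ 0) ∧
      ∀ j, ∀ ε > 0, ∃ R' : ℝ, ∀ ζ ∈ HP R, R' ≤ ‖ζ‖ →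
        ‖φ ζ j / (ζ ^ (-(p.1 : ℂ)) * Complex.log ζ ^ p.2) - A p j‖ ≤ ε := by
  classical
  obtain ⟨p₀, hp₀, hA₀, hE₀⟩ := hA
  have hS' : (S.filter fun p => A p ≠ 0).Nonempty := ⟨p₀, Finset.mem_filter.2 ⟨hp₀, hA₀⟩⟩
  obtain ⟨p₁, hp₁, hmin⟩ := Finset.exists_min_image _ (fun p : ℝ × ℕ => p.1) hS'
  have hS'' : ((S.filter fun p => A p ≠ 0).filter fun p => p.1 = p₁.1).Nonempty :=
    ⟨p₁, Finset.mem_filter.2 ⟨hp₁, rfl⟩⟩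
  obtain ⟨p, hp, hmax⟩ := Finset.exists_max_image _ (fun p : ℝ × ℕ => p.2) hS''
  obtain ⟨hp', hpe⟩ := Finset.mem_filter.1 hp
  obtain ⟨hpS, hpA⟩ := Finset.mem_filter.1 hp'
  have hpE : p.1 < E := by
    rw [hpe]
    exact lt_of_le_of_lt (hmin p₀ (Finset.mem_filter.2 ⟨hp₀, hA₀⟩)) hE₀
  have hcmp : ∀ r ∈ S, A r ≠ 0 → r ≠ p → p.1 < r.1 ∨ (r.1 = p.1 ∧ r.2 < p.2) := by
    intro r hr hAr hrp
    have hr' : r ∈ S.filter fun p => A p ≠ 0 := Finset.mem_filter.2 ⟨hr, hAr⟩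
    have h1 : p₁.1 ≤ r.1 := hmin r hr'
    rcases lt_or_eq_of_le h1 with h2 | h2
    · exact Or.inl (hpe ▸ h2)
    · have h3 : r.2 ≤ p.2 := hmax r (Finset.mem_filter.2 ⟨hr', h2.symm⟩)
      refine Or.inr ⟨by rw [hpe, h2], lt_of_le_of_ne h3 fun h4 => hrp ?_⟩
      exact Prod.ext (by rw [hpe, h2]) h4
  have hD : ∀ ζ ∈ HP R, ζ ^ (-(p.1 : ℂ)) * Complex.log ζ ^ p.2 ≠ 0 := by
    intro ζ hζ
    have hn : 1 < ‖ζ‖ := d5_norm_gt hR hζ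
    have hn0 : 0 < ‖ζ‖ := by linarith
    have h1 : 0 < ‖ζ ^ (-(p.1 : ℂ))‖ := by
      rw [d5_norm]
      exact Real.rpow_pos_of_pos hn0 _
    have h2 : 0 < ‖Complex.log ζ‖ := lt_of_lt_of_le (Real.log_pos hn) (d5_log ζ)
    exact mul_ne_zero (norm_pos_iff.1 h1) (pow_ne_zero _ (norm_pos_iff.1 h2))
  refine ⟨p, hpA, ⟨0, fun ζ hζ _ => hD ζ hζ⟩, fun j ε hε => ?_⟩
  have hterm : ∀ r ∈ S, Tendsto (fun ζ : ℂ => ζ ^ (-(r.1 : ℂ)) * Complex.log ζ ^ r.2 * A r j /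
      (ζ ^ (-(p.1 : ℂ)) * Complex.log ζ ^ p.2)) (d5F R) (𝓝 (if r = p then A p j else 0)) := by
    intro r hr
    by_cases hrp : r = p
    · rw [if_pos hrp, hrp]
      have h1 : Tendsto (fun _ : ℂ => A p j) (d5F R) (𝓝 (A p j)) := tendsto_const_nhds
      refine h1.congr' ?_
      filter_upwards [d5_mem R] with ζ hζ
      rw [mul_div_cancel_left₀ _ (hD ζ hζ)]
    · rw [if_neg hrp]
      by_cases hAr : A r = 0
      · have h1 : (fun ζ : ℂ => ζ ^ (-(r.1 : ℂ)) * Complex.log ζ ^ r.2 * A r j /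
            (ζ ^ (-(p.1 : ℂ)) * Complex.log ζ ^ p.2)) = fun _ => 0 := by
          funext ζ
          rw [hAr, Pi.zero_apply, mul_zero, zero_div]
        rw [h1]
        exact tendsto_const_nhds
      · have h2 : (fun ζ : ℂ => ζ ^ (-(r.1 : ℂ)) * Complex.log ζ ^ r.2 * A r j /
            (ζ ^ (-(p.1 : ℂ)) * Complex.log ζ ^ p.2)) =
            fun ζ => ζ ^ (-(r.1 : ℂ)) * Complex.log ζ ^ r.2 /
            (ζ ^ (-(p.1 : ℂ)) * Complex.log ζ ^ p.2) * A r j := by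
          funext ζ
          ring
        rw [h2]
        have h3 : Tendsto (fun ζ : ℂ => ζ ^ (-(r.1 : ℂ)) * Complex.log ζ ^ r.2 /
            (ζ ^ (-(p.1 : ℂ)) * Complex.log ζ ^ p.2)) (d5F R) (𝓝 0) := by
          rcases hcmp r hr hAr hrp with h4 | ⟨h4, h5⟩
          · exact d5_ratio_lt hR _ _ _ _ h4
          · rw [h4]
            exact d5_ratio_eq hR _ _ _ h5
        have h4 := h3.mul_const (A r j)
        rwa [zero_mul] at h4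
  have hsum : Tendsto (fun ζ : ℂ => ∑ r ∈ S, ζ ^ (-(r.1 : ℂ)) * Complex.log ζ ^ r.2 * A r j /
      (ζ ^ (-(p.1 : ℂ)) * Complex.log ζ ^ p.2)) (d5F R) (𝓝 (A p j)) := by
    have h1 := tendsto_finsetSum S hterm
    rwa [Finset.sum_ite_eq' S p (fun _ => A p j), if_pos hpS] at h1
  have herr : Tendsto (fun ζ : ℂ => (φ ζ j - ∑ r ∈ S, ζ ^ (-(r.1 : ℂ)) * Complex.log ζ ^ r.2 *
      A r j) / (ζ ^ (-(p.1 : ℂ)) * Complex.log ζ ^ p.2)) (d5F R) (𝓝 0) := by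
    have h0 : Tendsto (fun ζ : ℂ => |C| * ‖ζ‖ ^ (p.1 - E)) (d5F R) (𝓝 0) := by
      have h1 := (d5_rpow R (by linarith : p.1 - E < 0)).const_mul |C|
      rwa [mul_zero] at h1
    refine squeeze_zero_norm' ?_ h0
    filter_upwards [d5_mem R, (d5_logTop R).eventually_ge_atTop 1] with ζ hζ hl
    have hn : 1 < ‖ζ‖ := d5_norm_gt hR hζ
    have hn0 : 0 < ‖ζ‖ := by linarith
    have hX : 0 < ‖ζ‖ ^ (-p.1) := Real.rpow_pos_of_pos hn0 _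
    have hlg : 1 ≤ ‖Complex.log ζ‖ := hl.trans (d5_log ζ)
    have hb' : 1 ≤ ‖Complex.log ζ‖ ^ p.2 := one_le_pow₀ hlg
    rw [norm_div, norm_mul, norm_pow, d5_norm, div_le_iff₀ (mul_pos hX (by linarith))]
    refine (hφ ζ hζ j).trans ?_
    have hY : 0 < ‖ζ‖ ^ (-E) := Real.rpow_pos_of_pos hn0 _
    calc C * ‖ζ‖ ^ (-E) ≤ |C| * ‖ζ‖ ^ (-E) := mul_le_mul_of_nonneg_right (le_abs_self C) hY.le
      _ = |C| * (‖ζ‖ ^ (p.1 - E) * ‖ζ‖ ^ (-p.1)) := by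
          rw [← Real.rpow_add hn0]
          congr 2
          ring
      _ = |C| * ‖ζ‖ ^ (p.1 - E) * (‖ζ‖ ^ (-p.1) * 1) := by ring
      _ ≤ |C| * ‖ζ‖ ^ (p.1 - E) * (‖ζ‖ ^ (-p.1) * ‖Complex.log ζ‖ ^ p.2) := by
          apply mul_le_mul_of_nonneg_left (mul_le_mul_of_nonneg_left hb' hX.le)
          exact mul_nonneg (abs_nonneg _) (Real.rpow_nonneg hn0.le _)
  have htot : Tendsto (fun ζ : ℂ => φ ζ j / (ζ ^ (-(p.1 : ℂ)) * Complex.log ζ ^ p.2)) (d5F R)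
      (𝓝 (A p j)) := by
    have h1 := herr.add hsum
    rw [zero_add] at h1
    refine h1.congr fun ζ => ?_
    rw [← Finset.sum_div, ← add_div, sub_add_cancel]
  have hev := (Metric.tendsto_nhds.1 htot) ε hε
  have hev2 : ∀ᶠ ζ in Filter.comap (fun ζ : ℂ => ‖ζ‖) atTop, ζ ∈ HP R →
      dist (φ ζ j / (ζ ^ (-(p.1 : ℂ)) * Complex.log ζ ^ p.2)) (A p j) < ε :=
    Filter.eventually_inf_principal.1 hev
  rw [Filter.eventually_comap] at hev2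
  obtain ⟨R', hR'⟩ := Filter.eventually_atTop.1 hev2
  refine ⟨R', fun ζ hζ hz => ?_⟩
  have h1 := hR' ‖ζ‖ hz ζ rfl hζ
  rw [dist_eq_norm] at h1
  exact h1.le

end FFL
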