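import Pool.Agent.FFL.B2

/-!
# [FFL-D6] the asymptotic expansion of `φ_j = ζ^(-q_j) (y0_j + v_j)` for real weights

`y0 γ Y ζ j = ∑_{β ∈ support} ∏_i (ζ^(-γ i))^(β i) · (coeff β (Y j)).eval (log ζ)` (`MvPolynomial.eval₂_eq`), and
`ζ^(-q_j) ∏_i (ζ^(-γ_i))^(β_i) = ζ^(-(q_j + ∑ β_i γ_i))` (`Complex.cpow_nat_mul`, `Complex.cpow_add`), the exponent is real.
So `ζ^(-q_j) y0_j = ∑_{β, b} ζ^(-e(j,β)) (log ζ)^b · (coeff β (Y j)).coeff b` with `e(j,β) = Re q_j + ∑ β_i Re γ_i`.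
Let `S` be the finite set of all `(e(j,β), b)` (all `j`, `β` in the support of `Y j`, `b ≤` degree), together with
`(Re q_j, 0)` for all `j`, and `A p j = ∑` over the `β` in the support of `Y j` with `e(j,β) = p.1` of
`(coeff β (Y j)).coeff p.2`.  For `p = (Re q_j, 0)`: `e(j,β) = Re q_j` only for `β = 0` (`Re γ_i > 0`), and
`coeff 0 (Y j) = C (c j)` by `hY` (`mem_II_pow`), so `A p j = c j`.
The error is `ζ^(-q_j) v_j`, `≤ ‖ζ‖^(-Re q_j) C ‖ζ‖^(-κ) ≤ C ‖ζ‖^(-κ)`.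
-/

set_option autoImplicit false

open Filter Topology

namespace FFL

variable {n : ℕ}

theorem d6_prod {ι : Type} (S : Finset ι) {ζ : ℂ} (hζ : ζ ≠ 0) (w : ι → ℂ) :
    ∏ i ∈ S, ζ ^ (w i) = ζ ^ (∑ i ∈ S, w i) := by
  classical
  induction S using Finset.induction_on with
  | empty => rw [Finset.prod_empty, Finset.sum_empty, Complex.cpow_zero]
  | insert a S ha ih => rw [Finset.prod_insert ha, Finset.sum_insert ha, ih, Complex.cpow_add _ _ hζ]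

theorem d6_real {z : ℂ} (h : z.im = 0) : ((z.re : ℝ) : ℂ) = z :=
  Complex.ext (Complex.ofReal_re _) (by rw [Complex.ofReal_im, h])

/-- the exponent -/
noncomputable def d6_e {s : ℕ} (γ : Fin (s + 1) → ℂ) (q : Fin n → ℂ) (j : Fin n)
    (β : Fin (s + 1) →₀ ℕ) : ℝ := (q j).re + ∑ i, (β i : ℝ) * (γ i).re

theorem d6_mon {s : ℕ} (γ : Fin (s + 1) → ℂ) (hγr : ∀ i, (γ i).im = 0) (q : Fin n → ℂ)
    (hqr : ∀ i, (q i).im = 0) (j : Fin n) (β : Fin (s + 1) →₀ ℕ) {ζ : ℂ} (hζ : ζ ≠ 0) :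
    ζ ^ (-q j) * ∏ i, (xv γ ζ i) ^ (β i) = ζ ^ (-((d6_e γ q j β : ℝ) : ℂ)) := by
  have h1 : ∀ i ∈ (Finset.univ : Finset (Fin (s + 1))),
      (xv γ ζ i) ^ (β i) = ζ ^ ((β i : ℂ) * (-γ i)) := by
    intro i _
    unfold xv
    rw [Complex.cpow_nat_mul]
  rw [Finset.prod_congr rfl h1, d6_prod _ hζ, ← Complex.cpow_add _ _ hζ]
  congr 1
  unfold d6_e
  push_cast
  rw [d6_real (hqr j), neg_add, ← Finset.sum_neg_distrib]
  congr 1
  refine Finset.sum_congr rfl fun i _ => ?_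
  rw [d6_real (hγr i)]
  ring

theorem d6_e_zero {s : ℕ} (γ : Fin (s + 1) → ℂ) (hγ : ∀ i, 0 < (γ i).re) (q : Fin n → ℂ)
    (j : Fin n) (β : Fin (s + 1) →₀ ℕ) : d6_e γ q j β = (q j).re ↔ β = 0 := by
  unfold d6_e
  constructor
  · intro h
    have h1 : ∑ i, (β i : ℝ) * (γ i).re = 0 := by linarith
    rw [Finset.sum_eq_zero_iff_of_nonneg (fun i _ => mul_nonneg (Nat.cast_nonneg _) (hγ i).le)] at h1
    ext i
    have h2 := h1 i (Finset.mem_univ i)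
    rcases mul_eq_zero.1 h2 with h3 | h3
    · exact_mod_cast h3
    · exact absurd h3 (hγ i).ne'
  · rintro rfl
    simp

theorem d6_norm {z w : ℂ} (hz : 1 ≤ ‖z‖) (hw : 0 < w.re) (hw' : w.im = 0) : ‖z ^ (-w)‖ ≤ 1 := by
  have hz0 : z ≠ 0 := by
    intro h
    rw [h, norm_zero] at hz
    linarith
  rw [Complex.norm_cpow_of_ne_zero hz0, Complex.neg_im, hw', neg_zero, mul_zero, Real.exp_zero,
    div_one, Complex.neg_re]
  exact Real.rpow_le_one_of_one_le_of_nonpos hz (by linarith)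

theorem d6_coeff {s : ℕ} (c : Fin n → ℂ) (Y : Fin n → AA (Fin (s + 1)))
    (hY : ∀ j, Y j - cst _ (c j) ∈ II (Fin (s + 1))) (j : Fin n) :
    (MvPolynomial.coeff 0 (Y j)).coeff 0 = c j := by
  have h1 := hY j
  rw [← pow_one (II (Fin (s + 1))), mem_II_pow] at h1
  have h2 := h1 0 (by simp)
  rw [MvPolynomial.coeff_sub, sub_eq_zero] at h2
  rw [h2]
  unfold cst
  rw [MvPolynomial.coeff_zero_C, Polynomial.coeff_C_zero]

theorem expansion {s : ℕ} (γ : Fin (s + 1) → ℂ) (hγ : ∀ i, 0 < (γ i).re)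
    (hγr : ∀ i, (γ i).im = 0) (q : Fin n → ℂ) (hq : ∀ i, 0 < (q i).re) (hqr : ∀ i, (q i).im = 0)
    (c : Fin n → ℂ) (Y : Fin n → AA (Fin (s + 1))) (hY : ∀ j, Y j - cst _ (c j) ∈ II (Fin (s + 1)))
    (κ : ℕ) (R C : ℝ) (hR : 1 ≤ R) (hC : 0 ≤ C) (v : ℂ → Fin n → ℂ)
    (hv : ∀ ζ ∈ HP R, ‖v ζ‖ ≤ C * ‖ζ‖ ^ (-(κ : ℝ))) :
    ∃ (S : Finset (ℝ × ℕ)) (A : ℝ × ℕ → Fin n → ℂ),
      (∀ j, ((q j).re, 0) ∈ S ∧ A ((q j).re, 0) j = c j) ∧
      ∀ ζ ∈ HP R, ∀ j, ‖ζ ^ (-q j) * (y0 γ Y ζ j + v ζ j) -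
        ∑ p ∈ S, ζ ^ (-(p.1 : ℂ)) * Complex.log ζ ^ p.2 * A p j‖ ≤ C * ‖ζ‖ ^ (-(κ : ℝ)) := by
  classical
  set E : Finset ℝ := (Finset.univ : Finset (Fin n)).biUnion (fun j =>
    insert (q j).re ((Y j).support.image (fun β => d6_e γ q j β))) with hE
  set B : ℕ := (Finset.univ : Finset (Fin n)).sup (fun j =>
    (Y j).support.sup (fun β => (MvPolynomial.coeff β (Y j)).natDegree)) with hB
  have hBle : ∀ j, ∀ β ∈ (Y j).support, (MvPolynomial.coeff β (Y j)).natDegree < B + 1 := by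
    intro j β hβ
    have h1 : (MvPolynomial.coeff β (Y j)).natDegree ≤
        (Y j).support.sup (fun β => (MvPolynomial.coeff β (Y j)).natDegree) :=
      Finset.le_sup (f := fun β => (MvPolynomial.coeff β (Y j)).natDegree) hβ
    have h2 : (Y j).support.sup (fun β => (MvPolynomial.coeff β (Y j)).natDegree) ≤ B :=
      Finset.le_sup (f := fun j => (Y j).support.sup
        (fun β => (MvPolynomial.coeff β (Y j)).natDegree)) (Finset.mem_univ j)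
    omega
  have hEmem : ∀ j, ∀ β ∈ (Y j).support, d6_e γ q j β ∈ E := by
    intro j β hβ
    exact Finset.mem_biUnion.2 ⟨j, Finset.mem_univ j,
      Finset.mem_insert_of_mem (Finset.mem_image_of_mem _ hβ)⟩
  refine ⟨E ×ˢ Finset.range (B + 1), fun p j => ∑ β ∈ (Y j).support with d6_e γ q j β = p.1,
    (MvPolynomial.coeff β (Y j)).coeff p.2, fun j => ⟨?_, ?_⟩, ?_⟩
  · exact Finset.mem_product.2 ⟨Finset.mem_biUnion.2 ⟨j, Finset.mem_univ j,
      Finset.mem_insert_self _ _⟩, Finset.mem_range.2 (Nat.succ_pos B)⟩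
  · have h1 : ∀ β, d6_e γ q j β = (q j).re ↔ β = 0 := fun β => d6_e_zero γ hγ q j β
    simp only [h1]
    rw [Finset.sum_filter, Finset.sum_ite_eq']
    split_ifs with h2
    · exact d6_coeff c Y hY j
    · rw [← d6_coeff c Y hY j, MvPolynomial.notMem_support_iff.1 h2, Polynomial.coeff_zero]
  · intro ζ hζ j
    have hre : R < ζ.re := hζ
    have hn1 : 1 ≤ ‖ζ‖ := by
      have := Complex.re_le_norm ζ
      linarith
    have hζ0 : ζ ≠ 0 := by
      intro h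
      rw [h, norm_zero] at hn1
      linarith
    have hy : ζ ^ (-q j) * y0 γ Y ζ j = ∑ β ∈ (Y j).support,
        ζ ^ (-((d6_e γ q j β : ℝ) : ℂ)) *
          (MvPolynomial.coeff β (Y j)).eval (Complex.log ζ) := by
      have h1 : y0 γ Y ζ j = ∑ β ∈ (Y j).support,
          (MvPolynomial.coeff β (Y j)).eval (Complex.log ζ) * ∏ i, (xv γ ζ i) ^ (β i) := by
        have h2 : y0 γ Y ζ j = MvPolynomial.eval₂ (Polynomial.evalRingHom (Complex.log ζ))
          (xv γ ζ) (Y j) := rfl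
        rw [h2, MvPolynomial.eval₂_eq']
        rfl
      rw [h1, Finset.mul_sum]
      refine Finset.sum_congr rfl fun β _ => ?_
      rw [← d6_mon γ hγr q hqr j β hζ0]
      ring
    have hsum : ∑ p ∈ E ×ˢ Finset.range (B + 1), ζ ^ (-(p.1 : ℂ)) * Complex.log ζ ^ p.2 *
        (∑ β ∈ (Y j).support with d6_e γ q j β = p.1, (MvPolynomial.coeff β (Y j)).coeff p.2) =
        ζ ^ (-q j) * y0 γ Y ζ j := by
      rw [hy, Finset.sum_product, ← Finset.sum_fiberwise_of_maps_to (hEmem j)]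
      refine Finset.sum_congr rfl fun r _ => ?_
      have h1 : ∀ b ∈ Finset.range (B + 1), ζ ^ (-(r : ℂ)) * Complex.log ζ ^ b *
          (∑ β ∈ (Y j).support with d6_e γ q j β = r, (MvPolynomial.coeff β (Y j)).coeff b) =
          ∑ β ∈ (Y j).support with d6_e γ q j β = r,
            ζ ^ (-(r : ℂ)) * Complex.log ζ ^ b * (MvPolynomial.coeff β (Y j)).coeff b :=
        fun b _ => Finset.mul_sum _ _ _
      rw [Finset.sum_congr rfl h1, Finset.sum_comm]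
      refine Finset.sum_congr rfl fun β hβ => ?_
      obtain ⟨hβ1, hβ2⟩ := Finset.mem_filter.1 hβ
      rw [hβ2, Polynomial.eval_eq_sum_range' (hBle j β hβ1), Finset.mul_sum]
      refine Finset.sum_congr rfl fun b _ => ?_
      ring
    rw [hsum, mul_add, add_sub_cancel_left, norm_mul]
    have h1 := d6_norm hn1 (hq j) (hqr j)
    have h2 : ‖v ζ j‖ ≤ C * ‖ζ‖ ^ (-(κ : ℝ)) := (norm_le_pi_norm (v ζ) j).trans (hv ζ hζ)
    calc ‖ζ ^ (-q j)‖ * ‖v ζ j‖ ≤ 1 * ‖v ζ j‖ := mul_le_mul_of_nonneg_right h1 (norm_nonneg _)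
      _ = ‖v ζ j‖ := one_mul _
      _ ≤ _ := h2

end FFL
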