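import Pool.Agent.FFL.D1

/-!
# [FFL-D7] an injective map of the whole set `D_{δ,ν}` onto disjoint strips
-/

set_option autoImplicit false

open Filter Topology

namespace FFL

/-- the locally constant root of unity `ξ / (ξ^(ν-1))^(1/(ν-1))` -/
noncomputable def rootOf (ν : ℕ) (ξ : ℂ) : ℂ := ξ / (ξ ^ (ν - 1)) ^ (1 / ((ν - 1 : ℕ) : ℂ))

/-- The logarithm of `1/ξ^(ν-1)`, on the different components of `D_{δ,ν}` with values in different strips. -/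
noncomputable def WW (ν : ℕ) (ξ : ℂ) : ℂ :=
  -Complex.log (ξ ^ (ν - 1)) - Complex.I * (((ν - 1 : ℕ) : ℂ) * ((rootOf ν ξ).arg : ℂ))

theorem DD_ball {ν : ℕ} {δ : ℝ} {ξ : ℂ} (h : ξ ∈ DD δ ν) :
    ξ ^ (ν - 1) ∈ Metric.ball (δ : ℂ) δ := by
  rw [mem_ball_iff_norm]
  exact h

theorem rootOf_pow {ν : ℕ} (hν : 2 ≤ ν) {δ : ℝ} {ξ : ℂ} (h : ξ ∈ DD δ ν) :
    rootOf ν ξ ^ (ν - 1) = 1 := by
  have hN : ν - 1 ≠ 0 := by omega
  unfold rootOf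
  rw [div_pow, d1a_root hN, div_self]
  intro h1
  have h3 := d1a_re (DD_ball h)
  rw [h1, Complex.zero_re] at h3
  exact lt_irrefl _ h3

theorem rootOf_mul {ν : ℕ} (hν : 2 ≤ ν) {δ : ℝ} {ξ : ℂ} (h : ξ ∈ DD δ ν) :
    rootOf ν ξ * (ξ ^ (ν - 1)) ^ (1 / ((ν - 1 : ℕ) : ℂ)) = ξ := by
  have hN : ν - 1 ≠ 0 := by omega
  unfold rootOf
  refine div_mul_cancel₀ _ ?_
  intro h1
  have h2 := d1a_root hN (ξ ^ (ν - 1))
  rw [h1, zero_pow hN] at h2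
  have h3 := d1a_re (DD_ball h)
  rw [← h2, Complex.zero_re] at h3
  exact lt_irrefl _ h3

theorem rootOf_comp {ν : ℕ} (hν : 2 ≤ ν) {δ : ℝ} (hδ : 0 < δ) {ξ₀ : ℂ} (h0 : ξ₀ ∈ DD δ ν) :
    ∃ θ₀ : ℂ, θ₀ ^ (ν - 1) = 1 ∧
      (∀ ξ ∈ connectedComponentIn (DD δ ν) ξ₀, rootOf ν ξ = θ₀) ∧
      ∀ η ∈ Metric.ball (δ : ℂ) δ, θ₀ * η ^ (1 / ((ν - 1 : ℕ) : ℂ)) ∈
        connectedComponentIn (DD δ ν) ξ₀ := by
  have hN : ν - 1 ≠ 0 := by omega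
  obtain ⟨θ₀, hθ₀, hΔ⟩ := comp_eq ν hν δ hδ ξ₀ h0
  refine ⟨θ₀, hθ₀, ?_, ?_⟩
  · intro ξ hξ
    rw [hΔ] at hξ
    obtain ⟨η, hη, rfl⟩ := hξ
    have h1 : (θ₀ * η ^ (1 / ((ν - 1 : ℕ) : ℂ))) ^ (ν - 1) = η := by
      rw [mul_pow, hθ₀, one_mul, d1a_root hN]
    have h2 : η ^ (1 / ((ν - 1 : ℕ) : ℂ)) ≠ 0 := by
      intro h3
      have h4 := d1a_root hN η
      rw [h3, zero_pow hN] at h4
      have h5 := d1a_re hη
      rw [← h4, Complex.zero_re] at h5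
      exact lt_irrefl _ h5
    show θ₀ * η ^ (1 / ((ν - 1 : ℕ) : ℂ)) / ((θ₀ * η ^ (1 / ((ν - 1 : ℕ) : ℂ))) ^ (ν - 1)) ^
      (1 / ((ν - 1 : ℕ) : ℂ)) = θ₀
    rw [h1, mul_div_assoc, div_self h2, mul_one]
  · intro η hη
    rw [hΔ]
    exact ⟨η, hη, rfl⟩

theorem WW_re (ν : ℕ) (ξ : ℂ) : (WW ν ξ).re = -Real.log ‖ξ ^ (ν - 1)‖ := by
  unfold WW
  rw [Complex.sub_re, Complex.neg_re, Complex.log_re]
  have h1 : (Complex.I * (((ν - 1 : ℕ) : ℂ) * ((rootOf ν ξ).arg : ℂ))).re = 0 := by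
    rw [Complex.I_mul_re, Complex.mul_im, Complex.natCast_im, Complex.ofReal_im, mul_zero, zero_mul,
      add_zero, neg_zero]
  rw [h1, sub_zero]

theorem WW_im (ν : ℕ) (ξ : ℂ) : (WW ν ξ).im = -(ξ ^ (ν - 1)).arg -
    ((ν - 1 : ℕ) : ℝ) * (rootOf ν ξ).arg := by
  unfold WW
  rw [Complex.sub_im, Complex.neg_im, Complex.log_im]
  have h1 : (Complex.I * (((ν - 1 : ℕ) : ℂ) * ((rootOf ν ξ).arg : ℂ))).im =
      ((ν - 1 : ℕ) : ℝ) * (rootOf ν ξ).arg := by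
    rw [Complex.I_mul_im, Complex.mul_re, Complex.natCast_re, Complex.ofReal_re, Complex.natCast_im,
      zero_mul, sub_zero]
  rw [h1]

theorem norm_of_pow_one {N : ℕ} (hN : N ≠ 0) {θ : ℂ} (h : θ ^ N = 1) : ‖θ‖ = 1 := by
  have h1 : ‖θ‖ ^ N = 1 := by rw [← norm_pow, h, norm_one]
  exact (pow_eq_one_iff_of_nonneg (norm_nonneg _) hN).1 h1

theorem exp_arg {N : ℕ} (hN : N ≠ 0) {θ : ℂ} (h : θ ^ N = 1) :
    Complex.exp (Complex.I * ((N : ℂ) * (θ.arg : ℂ))) = 1 := by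
  have h1 : Complex.exp ((θ.arg : ℂ) * Complex.I) = θ := by
    have h2 := Complex.norm_mul_exp_arg_mul_I θ
    rw [norm_of_pow_one hN h, Complex.ofReal_one, one_mul] at h2
    exact h2
  have h3 : Complex.I * ((N : ℂ) * (θ.arg : ℂ)) = (N : ℂ) * ((θ.arg : ℂ) * Complex.I) := by ring
  rw [h3, Complex.exp_nat_mul, h1, h]

theorem WW_inj {ν : ℕ} (hν : 2 ≤ ν) {δ : ℝ} : Set.InjOn (WW ν) (DD δ ν) := by
  have hN : ν - 1 ≠ 0 := by omega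
  intro ξ hξ ξ' hξ' heq
  have hne : ∀ {x : ℂ}, x ∈ DD δ ν → x ^ (ν - 1) ≠ 0 := by
    intro x hx h1
    have h2 := d1a_re (DD_ball hx)
    rw [h1, Complex.zero_re] at h2
    exact lt_irrefl _ h2
  have hexp : ∀ {x : ℂ}, x ∈ DD δ ν → Complex.exp (WW ν x) = (x ^ (ν - 1))⁻¹ := by
    intro x hx
    unfold WW
    rw [Complex.exp_sub, Complex.exp_neg, Complex.exp_log (hne hx), exp_arg hN (rootOf_pow hν hx),
      div_one]
  have h1 : ξ ^ (ν - 1) = ξ' ^ (ν - 1) := by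
    have h2 := hexp hξ
    rw [heq, hexp hξ'] at h2
    exact (inv_injective h2).symm
  have h3 : (rootOf ν ξ).arg = (rootOf ν ξ').arg := by
    have h4 := congrArg Complex.im heq
    rw [WW_im, WW_im, h1] at h4
    have h5 : (0 : ℝ) < ((ν - 1 : ℕ) : ℝ) := by exact_mod_cast Nat.pos_of_ne_zero hN
    have h6 : ((ν - 1 : ℕ) : ℝ) * (rootOf ν ξ).arg = ((ν - 1 : ℕ) : ℝ) * (rootOf ν ξ').arg := by
      linarith
    exact mul_left_cancel₀ h5.ne' h6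
  have h7 : rootOf ν ξ = rootOf ν ξ' := by
    have h8 := Complex.norm_mul_exp_arg_mul_I (rootOf ν ξ)
    have h9 := Complex.norm_mul_exp_arg_mul_I (rootOf ν ξ')
    rw [norm_of_pow_one hN (rootOf_pow hν hξ), h3] at h8
    rw [norm_of_pow_one hN (rootOf_pow hν hξ')] at h9
    exact h8.symm.trans h9
  rw [← rootOf_mul hν hξ, ← rootOf_mul hν hξ', h7, h1]

theorem WW_holo {ν : ℕ} (hν : 2 ≤ ν) {δ : ℝ} (hδ : 0 < δ) {ξ₀ : ℂ} (h0 : ξ₀ ∈ DD δ ν) :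
    DifferentiableOn ℂ (WW ν) (connectedComponentIn (DD δ ν) ξ₀) := by
  obtain ⟨θ₀, _, hθ, _⟩ := rootOf_comp hν hδ h0
  have h1 : DifferentiableOn ℂ (fun ξ : ℂ => -Complex.log (ξ ^ (ν - 1)) -
      Complex.I * (((ν - 1 : ℕ) : ℂ) * (θ₀.arg : ℂ))) (connectedComponentIn (DD δ ν) ξ₀) := by
    refine DifferentiableOn.sub_const (DifferentiableOn.neg ?_) _
    intro ξ hξ
    have h2 := d1a_slit (DD_ball (connectedComponentIn_subset _ _ hξ))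
    exact ((differentiableAt_pow (ν - 1)).clog h2).differentiableWithinAt
  refine h1.congr fun ξ hξ => ?_
  unfold WW
  rw [hθ ξ hξ]

theorem exp_ball {δ : ℝ} (hδ : 0 < δ) {η : ℂ} (h : η ∈ Metric.ball (δ : ℂ) δ) :
    η * (Real.exp (-1) : ℂ) ∈ Metric.ball (δ : ℂ) δ := by
  have h1 : Real.exp (-1) < 1 := by
    rw [Real.exp_lt_one_iff]
    norm_num
  have h2 : 0 < Real.exp (-1) := Real.exp_pos _
  have hconv := convex_ball (δ : ℂ) δ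
  rw [mem_ball_iff_norm] at h ⊢
  have h3 : η * (Real.exp (-1) : ℂ) - (δ : ℂ) =
      (Real.exp (-1) : ℂ) * (η - δ) - ((1 - Real.exp (-1) : ℝ) : ℂ) * δ := by
    push_cast
    ring
  rw [h3]
  refine lt_of_le_of_lt (norm_sub_le _ _) ?_
  rw [norm_mul, norm_mul, Complex.norm_real, Complex.norm_real, Complex.norm_real,
    Real.norm_eq_abs, Real.norm_eq_abs, Real.norm_eq_abs, abs_of_pos h2, abs_of_pos hδ,
    abs_of_pos (by linarith : 0 < 1 - Real.exp (-1))]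
  nlinarith

theorem WW_step {ν : ℕ} (hν : 2 ≤ ν) {δ : ℝ} (hδ : 0 < δ) {ξ₀ : ℂ} (h0 : ξ₀ ∈ DD δ ν) :
    ∀ ξ ∈ connectedComponentIn (DD δ ν) ξ₀, ∃ ξ' ∈ connectedComponentIn (DD δ ν) ξ₀,
      WW ν ξ' = WW ν ξ + 1 := by
  have hN : ν - 1 ≠ 0 := by omega
  obtain ⟨θ₀, hθ₀, hθ, hmem⟩ := rootOf_comp hν hδ h0
  intro ξ hξ
  have hb := DD_ball (connectedComponentIn_subset _ _ hξ)
  have hb' := exp_ball hδ hb
  refine ⟨θ₀ * (ξ ^ (ν - 1) * (Real.exp (-1) : ℂ)) ^ (1 / ((ν - 1 : ℕ) : ℂ)), hmem _ hb', ?_⟩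
  have h1 : (θ₀ * (ξ ^ (ν - 1) * (Real.exp (-1) : ℂ)) ^ (1 / ((ν - 1 : ℕ) : ℂ))) ^ (ν - 1) =
      ξ ^ (ν - 1) * (Real.exp (-1) : ℂ) := by
    rw [mul_pow, hθ₀, one_mul, d1a_root hN]
  unfold WW
  rw [hθ _ (hmem _ hb'), hθ ξ hξ, h1, mul_comm (ξ ^ (ν - 1)), Complex.log_ofReal_mul
    (Real.exp_pos _) (Complex.slitPlane_ne_zero (d1a_slit hb)), Real.log_exp]
  push_cast
  ring

theorem WW_large {ν : ℕ} {δ : ℝ} (hδ : 0 < δ) {ξ : ℂ} (h : ξ ∈ DD δ ν) :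
    -Real.log (2 * δ) < (WW ν ξ).re := by
  rw [WW_re]
  have hb := DD_ball h
  have h1 := d1a_re hb
  rw [mem_ball_iff_norm] at hb
  have h2 : ‖ξ ^ (ν - 1)‖ < 2 * δ := by
    have h3 : ξ ^ (ν - 1) = (ξ ^ (ν - 1) - δ) + δ := by ring
    rw [h3]
    refine lt_of_le_of_lt (norm_add_le _ _) ?_
    rw [Complex.norm_real, Real.norm_eq_abs, abs_of_pos hδ]
    linarith
  have h4 : 0 < ‖ξ ^ (ν - 1)‖ := by
    rw [norm_pos_iff]
    intro h5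
    rw [h5, Complex.zero_re] at h1
    exact lt_irrefl _ h1
  exact neg_lt_neg (Real.log_lt_log h4 h2)

theorem WW_tendsto {ν : ℕ} (hν : 2 ≤ ν) {δ : ℝ} (ξ₀ : ℂ) :
    Tendsto (fun ξ => (WW ν ξ).re) (𝓝[connectedComponentIn (DD δ ν) ξ₀] 0) atTop := by
  have hN : ν - 1 ≠ 0 := by omega
  have hpow : Tendsto (fun ξ : ℂ => ‖ξ ^ (ν - 1)‖)
      (𝓝[connectedComponentIn (DD δ ν) ξ₀] 0) (𝓝[>] 0) := by
    refine tendsto_nhdsWithin_iff.2 ⟨?_, ?_⟩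
    · have h1 : Tendsto (fun ξ : ℂ => ‖ξ ^ (ν - 1)‖) (𝓝 0) (𝓝 0) := by
        refine (continuous_pow (ν - 1)).norm.tendsto' 0 0 ?_
        rw [zero_pow hN, norm_zero]
      exact h1.mono_left nhdsWithin_le_nhds
    · filter_upwards [self_mem_nhdsWithin] with ξ hξ
      exact norm_pos_iff.2 (pow_ne_zero _ (comp_ne_zero ν hν δ ξ₀ ξ hξ))
  have h2 := Real.tendsto_log_nhdsGT_zero.comp hpow
  have h3 := tendsto_neg_atBot_atTop.comp h2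
  refine h3.congr fun ξ => ?_
  rw [WW_re]
  rfl

end FFL
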