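import Mathlib

/-!
# [FFL] Fatou flowers for quasi-homogeneous germs: definitions
-/

set_option autoImplicit false

open Filter Topology

namespace FFL

variable {n : ℕ}

/-- the total degree of a multi-index -/
def deg (α : Fin n →₀ ℕ) : ℕ := ∑ i, α i

/-- the monomial `z^α` -/
noncomputable def mon (z : Fin n → ℂ) (α : Fin n →₀ ℕ) : ℂ := ∏ i, z i ^ α i

/-- Near the origin `f` is the sum of the power series with the coefficients `a j α`. -/
def HasSeries (f : (Fin n → ℂ) → (Fin n → ℂ)) (a : Fin n → (Fin n →₀ ℕ) → ℂ) : Prop :=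
  ∃ r > 0, ∀ z : Fin n → ℂ, ‖z‖ < r → ∀ j, HasSum (fun α => a j α * mon z α) (f z j)

/-- The germ with the coefficients `a` is tangent to the identity, of multiplicity `ν`: the homogeneous
expansion is `z + P_ν(z) + ...` with `P_ν ≠ 0`. -/
def TangentToId (a : Fin n → (Fin n →₀ ℕ) → ℂ) (ν : ℕ) : Prop :=
  2 ≤ ν ∧ (∀ j α, deg α < ν → a j α = if α = Finsupp.single j 1 then 1 else 0) ∧
    ∃ j α, deg α = ν ∧ a j α ≠ 0

/-- The set `D_{δ,ν}`. -/
def DD (δ : ℝ) (ν : ℕ) : Set ℂ := {ξ | ‖ξ ^ (ν - 1) - (δ : ℂ)‖ < δ}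

/-- `φ : Δ → ℂ^n ∖ {0}` is a parabolic curve for `f`. -/
structure IsParabolicCurve (f : (Fin n → ℂ) → (Fin n → ℂ)) (Δ : Set ℂ) (φ : ℂ → Fin n → ℂ) :
    Prop where
  isOpen : IsOpen Δ
  simply : SimplyConnectedSpace Δ
  zero_mem : (0 : ℂ) ∈ frontier Δ
  holo : DifferentiableOn ℂ φ Δ
  inj : Set.InjOn φ Δ
  ne : ∀ ξ ∈ Δ, φ ξ ≠ 0
  cont : Tendsto φ (𝓝[Δ] 0) (𝓝 0)
  inv : ∀ ξ ∈ Δ, f (φ ξ) ∈ φ '' Δ
  conv : ∀ K : Set (Fin n → ℂ), IsCompact K → K ⊆ φ '' Δ →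
    TendstoUniformlyOn (fun (k : ℕ) z => f^[k] z) (fun _ => 0) atTop K

/-- `φ` is tangent to `[v]`: `[φ ξ] → [v]` in the projective space as `ξ → 0` in `Δ`, that is, all
two by two minors of the matrix with the rows `φ ξ / ‖φ ξ‖` and `v` tend to `0`. -/
def TangentTo (Δ : Set ℂ) (φ : ℂ → Fin n → ℂ) (v : Fin n → ℂ) : Prop :=
  ∀ i j, Tendsto (fun ξ => (φ ξ i * v j - φ ξ j * v i) / (‖φ ξ‖ : ℂ)) (𝓝[Δ] 0) (𝓝 0)

/-- `f` has a Fatou flower (for the multiplicity `ν`) tangent to `[v]`, in every neighbourhood `U` of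
the origin: there are a `δ > 0` and a map `φ`, injective on the whole set `D_{δ,ν}` and with values in
`U`, whose restriction to every connected component `Δ` of `D_{δ,ν}` is a parabolic curve for `f`,
tangent to `[v]`.  (So the `ν - 1` curves have pairwise disjoint images.) -/
def HasFlower (f : (Fin n → ℂ) → (Fin n → ℂ)) (ν : ℕ) (v : Fin n → ℂ) : Prop :=
  ∀ U ∈ 𝓝 (0 : Fin n → ℂ), ∃ δ : ℝ, 0 < δ ∧ ∃ φ : ℂ → Fin n → ℂ, Set.InjOn φ (DD δ ν) ∧
    (∀ ξ ∈ DD δ ν, φ ξ ∈ U) ∧ ∀ ξ₀ ∈ DD δ ν,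
      IsParabolicCurve f (connectedComponentIn (DD δ ν) ξ₀) φ ∧
      TangentTo (connectedComponentIn (DD δ ν) ξ₀) φ v

/-- `⟨q, α⟩ = ∑ α_i q_i` -/
noncomputable def pr (q : Fin n → ℂ) (α : Fin n →₀ ℕ) : ℂ := ∑ i, (α i : ℂ) * q i

/-- The germ with the coefficients `a` is `z` plus terms of weighted degree `≥ 1` for the (complex)
weights `q`: every coefficient `a j α ≠ 0` other than that of `z_j` in the `j`-th component
has `⟨q, α⟩ = q_j + 1` or `Re ⟨q, α⟩ > Re q_j + 1`. -/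
def WDeg (q : Fin n → ℂ) (a : Fin n → (Fin n →₀ ℕ) → ℂ) : Prop :=
  ∀ j α, a j α ≠ 0 → α ≠ Finsupp.single j 1 → pr q α = q j + 1 ∨ (q j).re + 1 < (pr q α).re

open Classical in
/-- The leading part: the (finite) sum of the terms with `⟨q, α⟩ = q_j + 1`. -/
noncomputable def lead (q : Fin n → ℂ) (a : Fin n → (Fin n →₀ ℕ) → ℂ) (j : Fin n)
    (y : Fin n → ℂ) : ℂ := ∑' α, if pr q α = q j + 1 then a j α * mon y α else 0

/-- the open half plane `Re ζ > R` -/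
def HP (R : ℝ) : Set ℂ := {ζ | R < ζ.re}

theorem mem_HP {R : ℝ} {ζ : ℂ} : ζ ∈ HP R ↔ R < ζ.re := Iff.rfl

theorem isOpen_HP (R : ℝ) : IsOpen (HP R) := isOpen_lt continuous_const Complex.continuous_re

theorem HP_add_one {R : ℝ} {ζ : ℂ} (h : ζ ∈ HP R) : ζ + 1 ∈ HP R := by
  rw [mem_HP] at h ⊢
  rw [Complex.add_re, Complex.one_re]
  linarith

theorem HP_mono {R R' : ℝ} (h : R ≤ R') : HP R' ⊆ HP R := fun _ hζ => lt_of_le_of_lt h hζ

/-! ### the formal ring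

`𝔸 ι = ℂ[l][x_i, i ∈ ι]`, where `x_i` stands for `ζ^(-γ i)`, `x_o` for `1/ζ` and `l` for `log ζ`. -/

/-- The ring `ℂ[l][x_i]`. -/
abbrev AA (ι : Type) := MvPolynomial ι (Polynomial ℂ)

variable {ι : Type}

/-- the constant `c ∈ ℂ` -/
noncomputable def cst (ι : Type) (c : ℂ) : AA ι := MvPolynomial.C (Polynomial.C c)

/-- The ideal generated by the variables `x_i`. -/
noncomputable def II (ι : Type) : Ideal (AA ι) := Ideal.span (Set.range MvPolynomial.X)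

/-- The value at `x`, `l`. -/
noncomputable def evA (x : ι → ℂ) (l : ℂ) : AA ι →+* ℂ :=
  MvPolynomial.eval₂Hom (Polynomial.evalRingHom l) x

/-- The value of the variables at `ζ`: `x_i = ζ^(-γ i)`. -/
noncomputable def xv (γ : ι → ℂ) (ζ : ℂ) : ι → ℂ := fun i => ζ ^ (-γ i)

/-- Composition of a polynomial in `y_1, ..., y_n` with elements of the formal ring. -/
noncomputable def cmp (Y : Fin n → AA ι) (p : MvPolynomial (Fin n) ℂ) : AA ι :=
  MvPolynomial.eval₂ ((MvPolynomial.C).comp Polynomial.C) Y p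

/-- The formal shift `ζ ↦ ζ + 1`: `x_i ↦ x_i T_i`, `l ↦ l + Λ`. -/
noncomputable def shf (T : ι → AA ι) (Λ : AA ι) : AA ι →+* AA ι :=
  MvPolynomial.eval₂Hom
    (Polynomial.eval₂RingHom ((MvPolynomial.C).comp Polynomial.C)
      (MvPolynomial.C Polynomial.X + Λ)) (fun i => MvPolynomial.X i * T i)

variable [Fintype ι]

/-- The formal right hand side of the functional equation. -/
noncomputable def rhs (o : ι) (P : Fin n → MvPolynomial (Fin n) ℂ)
    (Q : ι → Fin n → MvPolynomial (Fin n) ℂ) (Y : Fin n → AA ι) (j : Fin n) : AA ι :=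
  Y j + MvPolynomial.X o * (cmp Y (P j) + ∑ i, MvPolynomial.X i * cmp Y (Q i j))

/-- The data of the formal problem: exponents `γ`, weights `q`, the truncated series `B_j` of
`(1 + x_o)^(q_j)`, `T_i` of `(1 + x_o)^(-γ_i)` and `Λ` of `log (1 + x_o)`. -/
structure Formal (o : ι) (γ : ι → ℂ) (q : Fin n → ℂ) (B : Fin n → AA ι) (T : ι → AA ι)
    (Λ : AA ι) : Prop where
  go : γ o = 1
  hB : ∀ j, B j - 1 - cst ι (q j) * MvPolynomial.X o ∈ Ideal.span {(MvPolynomial.X o : AA ι) ^ 2}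
  hT : ∀ i, T i - 1 + cst ι (γ i) * MvPolynomial.X o ∈ Ideal.span {(MvPolynomial.X o : AA ι) ^ 2}
  hL : Λ - MvPolynomial.X o ∈ Ideal.span {(MvPolynomial.X o : AA ι) ^ 2}

/-- The formal error of `Y`. -/
noncomputable def err (o : ι) (B : Fin n → AA ι) (T : ι → AA ι) (Λ : AA ι)
    (P : Fin n → MvPolynomial (Fin n) ℂ) (Q : ι → Fin n → MvPolynomial (Fin n) ℂ)
    (Y : Fin n → AA ι) (j : Fin n) : AA ι :=
  B j * rhs o P Q Y j - shf T Λ (Y j)

/-- A polynomial in `x_o`. -/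
noncomputable def emb (o : ι) (p : Polynomial ℂ) : AA ι :=
  p.eval₂ ((MvPolynomial.C).comp Polynomial.C) (MvPolynomial.X o)

/-- The function `ζ ↦ Y(ζ^(-γ), log ζ)`. -/
noncomputable def y0 (γ : ι → ℂ) (Y : Fin n → AA ι) (ζ : ℂ) : Fin n → ℂ :=
  fun j => evA (xv γ ζ) (Complex.log ζ) (Y j)

/-- The function `ζ^(q_j) f_j(ζ^(-q) y)`, as a sum over all coefficients. -/
noncomputable def FF (q : Fin n → ℂ) (a : Fin n → (Fin n →₀ ℕ) → ℂ) (ζ : ℂ) (y : Fin n → ℂ)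
    (j : Fin n) : ℂ := ∑' α, a j α * (ζ ^ (q j - pr q α) * mon y α)

end FFL
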