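import Pool.Agent.FFL.E2a

/-!
# [FFL-E2] finiteness over the subalgebra generated by `Φ_j = L_j + k_j P_j`

`span_all`: it suffices that every monomial `x^α` (coefficient `1`) is in `S` (`MvPolynomial.as_sum`, `S` is a `ℂ`-subspace).
Strong induction on the weighted degree `m = Finsupp.weight w α`.  If all `α_i < N`: hypothesis.  Otherwise `α_i ≥ N` for
some `i`; put `α' = α - N e_i`; then `x^α = x^α' X_i^N = ∑_j (x^α' A_j) P_j = ∑_j Φ_j (k_j⁻¹ x^α' A_j) - ∑_j L_j (k_j⁻¹ x^α' A_j)`.
All monomials of `x^α' A_j` have weighted degree `m - N w_i + (N w_i - (w_j + d)) = m - (w_j + d) < m` (note `m ≥ N w_i ≥ w_j + d`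
if `A_j ≠ 0`, and `w_j + d > 0`), so `x^α' A_j ∈ S` by induction and `Φ_j * _ ∈ S`; all monomials of `L_j x^α' A_j` have weighted degree
`< m`, so `L_j x^α' A_j ∈ S`.  (Use: a polynomial all of whose monomials have weighted degree `< m` is in `S`; the monomials of a
product are sums, `MvPolynomial.support_mul` / `coeff_mul`; `Finsupp.weight w` is additive.)

`finite_adjoin`: let `A₀ = Algebra.adjoin ℂ (range Φ)` and `S₀ = Submodule.span A₀ T`, `T` the finite set of the monomials with
all `α_i < N`.  `S₀.restrictScalars ℂ` is closed under multiplication by `Φ_j ∈ A₀`, so it is `⊤` by `span_all`; so `⊤` is finitely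
generated.
-/

set_option autoImplicit false

open MvPolynomial

namespace FFL

variable {n : ℕ}

theorem finite_adjoin (w : Fin n → ℕ) (hw : ∀ i, 0 < w i) (d : ℕ)
    (P : Fin n → MvPolynomial (Fin n) ℂ)
    (N : ℕ) (hN : ∀ i, ∃ A : Fin n → MvPolynomial (Fin n) ℂ, (X i) ^ N = ∑ j, A j * P j ∧
      ∀ j β, coeff β (A j) ≠ 0 → Finsupp.weight w β + (w j + d) = N * w i)
    (L : Fin n → MvPolynomial (Fin n) ℂ) (hL : ∀ j β, coeff β (L j) ≠ 0 →
      Finsupp.weight w β < w j + d) (k : Fin n → ℂ) (hk : ∀ j, k j ≠ 0) :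
    Module.Finite (Algebra.adjoin ℂ (Set.range fun j => L j + C (k j) * P j))
      (MvPolynomial (Fin n) ℂ) := by
  obtain ⟨A₀, hA₀⟩ : ∃ A₀ : Subalgebra ℂ (MvPolynomial (Fin n) ℂ),
    A₀ = Algebra.adjoin ℂ (Set.range fun j => L j + C (k j) * P j) := ⟨_, rfl⟩
  rw [← hA₀]
  have hΦ : ∀ j, L j + C (k j) * P j ∈ A₀ := by
    intro j
    rw [hA₀]
    exact Algebra.subset_adjoin ⟨j, rfl⟩
  let T : Set (MvPolynomial (Fin n) ℂ) := Set.range fun f : Fin n → Fin N =>
    monomial (Finsupp.equivFunOnFinite.symm fun i => (f i : ℕ)) (1 : ℂ)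
  have hT : T.Finite := Set.finite_range _
  let S₀ : Submodule A₀ (MvPolynomial (Fin n) ℂ) := Submodule.span A₀ T
  have h1 : S₀.restrictScalars ℂ = ⊤ := by
    refine span_all w hw d P N hN L hL k hk _ ?_ ?_
    · intro j p hp
      rw [Submodule.restrictScalars_mem] at hp ⊢
      have h2 : (L j + C (k j) * P j) * p = (⟨_, hΦ j⟩ : A₀) • p := by
        rw [Subalgebra.smul_def, smul_eq_mul]
      rw [h2]
      exact S₀.smul_mem _ hp
    · intro α hα
      rw [Submodule.restrictScalars_mem]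
      refine Submodule.subset_span ⟨fun i => ⟨α i, hα i⟩, ?_⟩
      have h3 : (Finsupp.equivFunOnFinite.symm fun i => α i) = α := by
        ext i
        rfl
      change monomial (Finsupp.equivFunOnFinite.symm fun i => α i) (1 : ℂ) = _
      rw [h3]
  have h4 : S₀ = ⊤ := by
    rw [eq_top_iff]
    intro p _
    have h5 : p ∈ S₀.restrictScalars ℂ := by
      rw [h1]
      trivial
    exact h5
  rw [Module.finite_def, ← h4]
  exact Submodule.fg_span hT

end FFL
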