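import Mathlib

/-!
# [FFL-E3] algebraic independence from finiteness

`Module.Finite` gives `Algebra.IsIntegral`, so `Algebra.IsAlgebraic` over the domain `Algebra.adjoin ℂ (range Φ)`;
`Algebra.IsAlgebraic.isTranscendenceBasis_of_le_trdeg_of_finite` (with `#(Fin n) ≤ trdeg ℂ (MvPolynomial (Fin n) ℂ)` from
`MvPolynomial.trdeg_of_isDomain`) shows that `Φ` is a transcendence basis; `.1` (or `IsTranscendenceBasis.1`) is the claim.
-/

set_option autoImplicit false

open MvPolynomial

namespace FFL

variable {n : ℕ}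

theorem alg_indep (Φ : Fin n → MvPolynomial (Fin n) ℂ)
    (h : Module.Finite (Algebra.adjoin ℂ (Set.range Φ)) (MvPolynomial (Fin n) ℂ)) :
    AlgebraicIndependent ℂ Φ := by
  have := h
  have : Algebra.IsIntegral (Algebra.adjoin ℂ (Set.range Φ)) (MvPolynomial (Fin n) ℂ) :=
    inferInstance
  have : Algebra.IsAlgebraic (Algebra.adjoin ℂ (Set.range Φ)) (MvPolynomial (Fin n) ℂ) :=
    inferInstance
  refine (Algebra.IsAlgebraic.isTranscendenceBasis_of_le_trdeg_of_finite ℂ Φ ?_).1
  rw [MvPolynomial.trdeg_of_isDomain, Cardinal.lift_id]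

end FFL
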