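import Pool.Agent.FFL.Defs

/-!
# [FFL-E4] if `0` is the only zero of `x + k P(x)`, the components generate the maximal ideal

Let `J = span (range Ψ)`, `Ψ_j = X_j + k_j P_j`, `M = span (range X)`.  `P_j ∈ M²` (all monomials have degree `≥ 2`; `MvPolynomial.mem_pow_idealOfVars_iff'`,
or: a monomial of degree `≥ 2` is `X_i X_l` times a monomial), so `J ≤ M` and `M ≤ J ⊔ M²` (`X_j = Ψ_j - k_j P_j`).
The zero locus of `J` is contained in `{0}`, so `X_i ∈ J.radical` for all `i` (Nullstellensatz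
`MvPolynomial.vanishingIdeal_zeroLocus_eq_radical`, `MvPolynomial.zeroLocus_span`), so `M ≤ J.radical` and, `M` being finitely generated,
`M^N ≤ J` for some `N` (`Ideal.exists_pow_le_of_le_radical_of_fg`).
By induction `M ≤ J ⊔ M^(k+1)` for all `k`: `M ≤ J ⊔ M·M ≤ J ⊔ M (J ⊔ M^(k+1)) ≤ J ⊔ M^(k+2)`.  With `k + 1 = N` (if `N = 0`, `J = ⊤`,
impossible or trivial: `M ≤ ⊤ = J`): `M ≤ J`.
-/

set_option autoImplicit false

open MvPolynomial

namespace FFL

variable {n : ℕ}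

theorem E4.mem_sq (p : MvPolynomial (Fin n) ℂ) (h2 : ∀ β, coeff β p ≠ 0 → 2 ≤ deg β) :
    p ∈ (idealOfVars (Fin n) ℂ) ^ 2 := by
  rw [mem_pow_idealOfVars_iff]
  intro x hx
  rw [mem_support_iff] at hx
  have h := h2 x hx
  rw [Finsupp.degree_eq_sum]
  exact h

theorem span_eq (P : Fin n → MvPolynomial (Fin n) ℂ) (k : Fin n → ℂ)
    (h2 : ∀ j β, coeff β (P j) ≠ 0 → 2 ≤ deg β)
    (h0 : ∀ c : Fin n → ℂ, (∀ j, eval c (X j + C (k j) * P j) = 0) → c = 0) :
    Ideal.span (Set.range fun j => X j + C (k j) * P j) =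
      Ideal.span (Set.range (X : Fin n → MvPolynomial (Fin n) ℂ)) := by
  obtain ⟨M, hM⟩ : ∃ M : Ideal (MvPolynomial (Fin n) ℂ), M = idealOfVars (Fin n) ℂ := ⟨_, rfl⟩
  obtain ⟨J, hJ⟩ : ∃ J : Ideal (MvPolynomial (Fin n) ℂ),
    J = Ideal.span (Set.range fun j => X j + C (k j) * P j) := ⟨_, rfl⟩
  have hM' : Ideal.span (Set.range (X : Fin n → MvPolynomial (Fin n) ℂ)) = M := hM.symm
  rw [hM', ← hJ]
  have hXM : ∀ j, (X j : MvPolynomial (Fin n) ℂ) ∈ M := by
    intro j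
    rw [hM]
    exact Ideal.subset_span ⟨j, rfl⟩
  have hP2 : ∀ j, P j ∈ M ^ 2 := by
    intro j
    rw [hM]
    exact E4.mem_sq (P j) (h2 j)
  have hCP2 : ∀ j, C (k j) * P j ∈ M ^ 2 := fun j => Ideal.mul_mem_left _ _ (hP2 j)
  have hPsi : ∀ j, X j + C (k j) * P j ∈ J := by
    intro j
    rw [hJ]
    exact Ideal.subset_span ⟨j, rfl⟩
  have hJM : J ≤ M := by
    rw [hJ, Ideal.span_le]
    rintro _ ⟨j, rfl⟩
    exact Ideal.add_mem _ (hXM j) (Ideal.pow_le_self two_ne_zero (hCP2 j))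
  have hMJ : M ≤ J ⊔ M * M := by
    rw [← hM', Ideal.span_le, hM']
    rintro _ ⟨j, rfl⟩
    have h1 : (X j : MvPolynomial (Fin n) ℂ) = (X j + C (k j) * P j) + -(C (k j) * P j) := by ring
    rw [h1]
    refine Submodule.add_mem_sup (hPsi j) (Ideal.neg_mem_iff _ |>.2 ?_)
    rw [← pow_two]
    exact hCP2 j
  have hrad : M ≤ J.radical := by
    rw [← vanishingIdeal_zeroLocus_eq_radical (K := ℂ) J, ← hM', Ideal.span_le]
    rintro _ ⟨i, rfl⟩
    change (X i : MvPolynomial (Fin n) ℂ) ∈ vanishingIdeal ℂ (zeroLocus ℂ J)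
    rw [mem_vanishingIdeal_iff]
    intro c hc
    rw [mem_zeroLocus_iff] at hc
    have h3 : c = 0 := by
      apply h0
      intro j
      have := hc _ (hPsi j)
      rw [← coe_aeval_eq_eval]
      exact this
    rw [h3, aeval_X]
    rfl
  obtain ⟨N, hN⟩ := Ideal.exists_pow_le_of_le_radical_of_fg hrad
    (by rw [hM]; exact idealOfVars_fg _ _)
  have hind : ∀ m : ℕ, M ≤ J ⊔ M ^ (m + 1) := by
    intro m
    induction m with
    | zero => rw [zero_add, pow_one]; exact le_sup_right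
    | succ m ih =>
      refine hMJ.trans (sup_le le_sup_left ?_)
      refine (Ideal.mul_mono_right ih).trans ?_
      rw [Ideal.mul_sup]
      refine sup_le_sup Ideal.mul_le_right ?_
      rw [pow_succ' M (m + 1)]
  refine le_antisymm hJM ((hind N).trans (sup_le le_rfl ?_))
  exact (Ideal.pow_le_pow_right (Nat.le_succ N)).trans hN

end FFL
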