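import Mathlib

/-!
# [FFL-E5] Nakayama and normality

Notation: `B = MvPolynomial (Fin n) ℂ`, `A = Algebra.adjoin ℂ (range Φ)`, `m` the ideal of `A` generated by the `Φ_j`.

(1) `nakayama`.  Every `b ∈ B` is `C (b 0) + ` an element of `span (range X) = span (range Φ)`, that is `b = a + ∑ Φ_j b_j` with `a ∈ ℂ ⊆ A`.
So in the `A`-module `N = B ⧸ A` (quotient by the `A`-submodule `LinearMap.range (Algebra.linearMap A B)`, or `(1 : Submodule A B)`)
`⊤ ≤ m • ⊤`; `N` is finitely generated.  `Submodule.exists_sub_one_mem_and_smul_eq_zero_of_fg_of_le_smul` gives `r ∈ A`,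
`r - 1 ∈ m` and `r • N = 0`, that is `r b ∈ A` for all `b ∈ B`.  If `r = 0` then `1 ∈ m`, so `1 ∈ span (range Φ) = span (range X)` in `B`, which is
false (evaluate at `0`).

(2) `adjoin_top`.  `A ≃ₐ MvPolynomial (Fin n) ℂ` (`AlgebraicIndependent.aevalEquiv`), which is a unique factorisation domain, so
integrally closed (`IsIntegrallyClosed.of_equiv`).  Let `b ∈ B` and `a = r b ∈ A`.  In `K = FractionRing A` the element
`x = a / r` is integral over `A`: `b` is integral over `A` (`Module.Finite`), so `p(b) = 0` for a monic `p ∈ A[X]`; multiply by `r^deg p`, get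
a relation in `A` (`A → B` is injective), divide in `K` by `r^deg p`: `p(x) = 0`.  (Or: the images of `x` and of `b` in `FractionRing B`
coincide, `isIntegral_algHom_iff` for the injective `K → FractionRing B`.)  So `x = algebraMap a'` with `a' ∈ A`
(`IsIntegrallyClosed.isIntegral_iff`), `a = r a'` in `A`, `r b = r a'` in the domain `B`, `b = a' ∈ A`.
-/

set_option autoImplicit false

open MvPolynomial

namespace FFL

variable {n : ℕ}

/-- An element `r` of an integrally closed domain `A ⊆ B` with `r b ∈ A` and `b` integral: `b ∈ A`. -/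
theorem E5b.mem_of_mul {A B : Type*} [CommRing A] [IsDomain A] [CommRing B] [IsDomain B]
    [Algebra A B] (hinj : Function.Injective (algebraMap A B)) (hA : IsIntegrallyClosed A)
    (r a : A) (b : B) (hr : r ≠ 0) (hab : algebraMap A B r * b = algebraMap A B a)
    (hb : IsIntegral A b) : ∃ c : A, algebraMap A B c = b := by
  obtain ⟨p, hpm, hp⟩ := hb
  have h1 : Polynomial.eval₂ (algebraMap A B) (algebraMap A B r * b) (p.scaleRoots r) = 0 := by
    rw [Polynomial.scaleRoots_eval₂_mul, hp, mul_zero]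
  rw [hab, Polynomial.eval₂_at_apply] at h1
  have h2 : Polynomial.eval a (p.scaleRoots r) = 0 := by
    apply hinj
    rw [h1, map_zero]
  have hrK : algebraMap A (FractionRing A) r ≠ 0 := by
    intro h
    exact hr ((IsFractionRing.injective A (FractionRing A)) (by rw [h, map_zero]))
  obtain ⟨x, hx⟩ : ∃ x : FractionRing A, algebraMap A (FractionRing A) r * x =
      algebraMap A (FractionRing A) a :=
    ⟨algebraMap A (FractionRing A) a / algebraMap A (FractionRing A) r,
      mul_div_cancel₀ _ hrK⟩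
  have h3 : Polynomial.eval₂ (algebraMap A (FractionRing A)) x p = 0 := by
    have h4 := Polynomial.scaleRoots_eval₂_mul (p := p) (algebraMap A (FractionRing A)) x r
    rw [hx, Polynomial.eval₂_at_apply, h2, map_zero] at h4
    exact (mul_eq_zero.1 h4.symm).resolve_left (pow_ne_zero _ hrK)
  have h5 : IsIntegral A x := ⟨p, hpm, h3⟩
  obtain ⟨c, hc⟩ := IsIntegrallyClosed.isIntegral_iff.1 h5
  refine ⟨c, ?_⟩
  have h6 : r * c = a := by
    apply IsFractionRing.injective A (FractionRing A)
    rw [map_mul, hc, hx]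
  have h7 : algebraMap A B r * algebraMap A B c = algebraMap A B r * b := by
    rw [← map_mul, h6, hab]
  have hrB : algebraMap A B r ≠ 0 := by
    intro h
    exact hr (hinj (by rw [h, map_zero]))
  exact mul_left_cancel₀ hrB h7

theorem adjoin_top (Φ : Fin n → MvPolynomial (Fin n) ℂ)
    (hfin : Module.Finite (Algebra.adjoin ℂ (Set.range Φ)) (MvPolynomial (Fin n) ℂ))
    (hind : AlgebraicIndependent ℂ Φ)
    (hr : ∃ r ∈ Algebra.adjoin ℂ (Set.range Φ), r ≠ 0 ∧
      ∀ b : MvPolynomial (Fin n) ℂ, r * b ∈ Algebra.adjoin ℂ (Set.range Φ)) :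
    Algebra.adjoin ℂ (Set.range Φ) = ⊤ := by
  have hic : IsIntegrallyClosed (Algebra.adjoin ℂ (Set.range Φ)) :=
    IsIntegrallyClosed.of_equiv hind.aevalEquiv.toRingEquiv
  obtain ⟨r, hrA, hr0, hrb⟩ := hr
  rw [eq_top_iff]
  intro b _
  have hint : IsIntegral (Algebra.adjoin ℂ (Set.range Φ)) b := Algebra.IsIntegral.isIntegral b
  obtain ⟨c, hc⟩ := E5b.mem_of_mul (A := Algebra.adjoin ℂ (Set.range Φ))
    (B := MvPolynomial (Fin n) ℂ) Subtype.coe_injective hic ⟨r, hrA⟩ ⟨r * b, hrb b⟩ b
    (fun h => hr0 (congrArg Subtype.val h)) rfl hint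
  rw [← hc]
  exact c.2

end FFL
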