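import Pool.Agent.FFL.E5a
import Pool.Agent.FFL.E5b

/-!
# [FFL-E5] hub
-/
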