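import Pool.Agent.FFL.E6a

/-!
# [FFL-E6] the top weighted part

`lt_mul`: write `p₁ p₂ - h₁ h₂ = (p₁ - h₁) p₂ + h₁ (p₂ - h₂)`; all monomials of `p₂ = h₂ + (p₂ - h₂)` have weighted degree `≤ b`; the monomials of a
product are sums of monomials of the factors (`MvPolynomial.coeff_mul`, `Finset.exists_ne_zero_of_sum_ne_zero`),
`Finsupp.weight w` is additive.

`not_top`: let `i` be an index with minimal `w_i` (`n > 0`).  Suppose the subalgebra is `⊤`; then `X_i = aeval Ψ Θ` for a
`Θ : MvPolynomial (Fin n) ℂ` (`Algebra.adjoin_range_eq_range_aeval`).  For `β` put `e(β) = ∑_j β_j (w_j + d)`.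
By `lt_mul` (induction, products of powers): `Ψ^β - H^β` has only monomials of weighted degree `< e(β)` or is `0`, where `H_j = k_j P_j`, and
`H^β` is weighted homogeneous of degree `e(β)`.  Let `D = max {e(β) : β ∈ supp Θ}` (`Θ ≠ 0` because `X_i ≠ 0`).
The component of weighted degree `D` of `aeval Ψ Θ` is `aeval H Θ_D`, `Θ_D = ∑_{e(β) = D} Θ_β x^β ≠ 0`, which is nonzero by the
algebraic independence of `H`.  So `X_i` has a nonzero component of weighted degree `D`, `D = w_i`.  As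
`e(β) ≤ D = w_i < w_j + d` for all `j`, every `β` in the support of `Θ` is `0`: `Θ` is constant, `X_i` is constant, a contradiction.
-/

set_option autoImplicit false

open MvPolynomial

namespace FFL

variable {n : ℕ}

/-- The comparison of the monomials in `Ψ` and in `H`. -/
theorem E6b.mono (w e : Fin n → ℕ) (Ψ H : Fin n → MvPolynomial (Fin n) ℂ)
    (hH : ∀ j, IsWeightedHomogeneous w (H j) (e j))
    (hΨ : ∀ j β, coeff β (Ψ j - H j) ≠ 0 → Finsupp.weight w β < e j) (β : Fin n →₀ ℕ) :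
    IsWeightedHomogeneous w (aeval H (monomial β (1 : ℂ))) (Finsupp.weight e β) ∧
      ∀ γ, coeff γ (aeval Ψ (monomial β (1 : ℂ)) - aeval H (monomial β (1 : ℂ))) ≠ 0 →
        Finsupp.weight w γ < Finsupp.weight e β := by
  induction β using Finsupp.induction_linear with
  | zero =>
    have h1 : (monomial 0 (1 : ℂ) : MvPolynomial (Fin n) ℂ) = 1 := rfl
    rw [h1, map_one, map_one, sub_self, map_zero]
    refine ⟨isWeightedHomogeneous_one ℂ w, ?_⟩
    intro γ hγ
    exact absurd (coeff_zero γ) hγ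
  | add f g hf hg =>
    have h1 : (monomial (f + g) (1 : ℂ) : MvPolynomial (Fin n) ℂ) =
        monomial f 1 * monomial g 1 := by rw [monomial_mul, mul_one]
    rw [h1, map_mul, map_mul, map_add]
    exact ⟨hf.1.mul hg.1, lt_mul w _ _ _ _ _ _ hf.1 hg.1 hf.2 hg.2⟩
  | single j b =>
    induction b with
    | zero =>
      have h1 : (monomial (Finsupp.single j 0) (1 : ℂ) : MvPolynomial (Fin n) ℂ) = 1 := by
        rw [Finsupp.single_zero]; rfl
      rw [h1, map_one, map_one, sub_self, Finsupp.single_zero, map_zero]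
      refine ⟨isWeightedHomogeneous_one ℂ w, ?_⟩
      intro γ hγ
      exact absurd (coeff_zero γ) hγ
    | succ b ih =>
      have h1 : (monomial (Finsupp.single j (b + 1)) (1 : ℂ) : MvPolynomial (Fin n) ℂ) =
          monomial (Finsupp.single j b) 1 * X j := by
        rw [X, monomial_mul, mul_one, Finsupp.single_add]
      have h2 : Finsupp.weight e (Finsupp.single j (b + 1)) =
          Finsupp.weight e (Finsupp.single j b) + e j := by
        rw [Finsupp.single_add, map_add, Finsupp.weight_single e j 1, one_smul]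
      rw [h1, map_mul, map_mul, h2, aeval_X, aeval_X]
      exact ⟨ih.1.mul (hH j), lt_mul w _ _ _ _ _ _ ih.1 (hH j) ih.2 (hΨ j)⟩

theorem not_top (hn : 0 < n) (w : Fin n → ℕ) (hw : ∀ i, 0 < w i) (d : ℕ) (hd : 0 < d)
    (P : Fin n → MvPolynomial (Fin n) ℂ) (hP : ∀ j, IsWeightedHomogeneous w (P j) (w j + d))
    (k : Fin n → ℂ) (hind : AlgebraicIndependent ℂ (fun j => C (k j) * P j)) :
    Algebra.adjoin ℂ (Set.range fun j => X j + C (k j) * P j) ≠ ⊤ := by
  classical
  intro htop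
  obtain ⟨i, -, hi⟩ := Finset.exists_min_image (Finset.univ : Finset (Fin n)) w ⟨⟨0, hn⟩,
    Finset.mem_univ _⟩
  obtain ⟨Ψ, hΨ⟩ : ∃ Ψ : Fin n → MvPolynomial (Fin n) ℂ, Ψ = fun j => X j + C (k j) * P j :=
    ⟨_, rfl⟩
  obtain ⟨H, hH⟩ : ∃ H : Fin n → MvPolynomial (Fin n) ℂ, H = fun j => C (k j) * P j := ⟨_, rfl⟩
  obtain ⟨e, he⟩ : ∃ e : Fin n → ℕ, e = fun j => w j + d := ⟨_, rfl⟩
  rw [← hH] at hind
  rw [← hΨ, Algebra.adjoin_range_eq_range_aeval] at htop
  obtain ⟨Θ, hΘ⟩ : (X i : MvPolynomial (Fin n) ℂ) ∈ (aeval (R := ℂ) Ψ).range := by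
    rw [htop]
    trivial
  have hHh : ∀ j, IsWeightedHomogeneous w (H j) (e j) := by
    intro j
    have h1 := (isWeightedHomogeneous_C (R := ℂ) w (k j)).mul (hP j)
    rw [zero_add] at h1
    rw [hH, he]
    exact h1
  have hΨh : ∀ j β, coeff β (Ψ j - H j) ≠ 0 → Finsupp.weight w β < e j := by
    intro j β hβ
    have h1 : Ψ j - H j = X j := by
      rw [hΨ, hH]
      ring
    rw [h1] at hβ
    have h2 := isWeightedHomogeneous_X ℂ w j hβ
    rw [h2, he]
    exact Nat.lt_add_of_pos_right hd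
  have hΘ0 : Θ ≠ 0 := by
    intro h
    rw [h, map_zero] at hΘ
    exact X_ne_zero i hΘ.symm
  obtain ⟨β₀, hβ₀, hmax⟩ := Finset.exists_max_image Θ.support (fun β => Finsupp.weight e β)
    (support_nonempty.2 hΘ0)
  obtain ⟨D, hD⟩ : ∃ D, D = Finsupp.weight e β₀ := ⟨_, rfl⟩
  obtain ⟨ΘD, hΘD⟩ : ∃ ΘD, ΘD = ∑ v ∈ Θ.support.filter (fun β => Finsupp.weight e β = D),
    coeff v Θ • monomial v (1 : ℂ) := ⟨_, rfl⟩
  have hΘD0 : ΘD ≠ 0 := by
    intro h
    have h1 : coeff β₀ ΘD = coeff β₀ Θ := by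
      rw [hΘD, coeff_sum, Finset.sum_eq_single β₀]
      · rw [coeff_smul, coeff_monomial, if_pos rfl, smul_eq_mul, mul_one]
      · intro b _ hb
        rw [coeff_smul, coeff_monomial, if_neg hb, smul_zero]
      · intro hb
        exact absurd (Finset.mem_filter.2 ⟨hβ₀, hD.symm⟩) hb
    rw [h, coeff_zero] at h1
    exact (mem_support_iff.1 hβ₀) h1.symm
  have hAD : aeval H ΘD ≠ 0 := by
    intro h
    exact hΘD0 ((map_eq_zero_iff _ hind).1 h)
  obtain ⟨γ, hγ⟩ := exists_coeff_ne_zero hAD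
  have hwγ : Finsupp.weight w γ = D := by
    rw [hΘD, map_sum, coeff_sum] at hγ
    obtain ⟨v, hv, hv2⟩ := Finset.exists_ne_zero_of_sum_ne_zero hγ
    rw [map_smul, coeff_smul] at hv2
    have h1 := (E6b.mono w e Ψ H hHh hΨh v).1 (right_ne_zero_of_smul hv2)
    rw [h1]
    exact (Finset.mem_filter.1 hv).2
  have hdiff : coeff γ (aeval Ψ Θ - aeval H ΘD) = 0 := by
    by_contra hne
    have h1 : Θ = ∑ v ∈ Θ.support, coeff v Θ • monomial v (1 : ℂ) := by
      conv_lhs => rw [Θ.as_sum]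
      refine Finset.sum_congr rfl fun v _ => ?_
      rw [smul_monomial, smul_eq_mul, mul_one]
    have h2 : aeval Ψ Θ - aeval H ΘD = ∑ v ∈ Θ.support, (coeff v Θ •
        (aeval Ψ (monomial v (1 : ℂ)) - aeval H (monomial v (1 : ℂ))) +
        if Finsupp.weight e v = D then 0 else coeff v Θ • aeval H (monomial v (1 : ℂ))) := by
      have h3 : aeval H ΘD = ∑ v ∈ Θ.support, if Finsupp.weight e v = D then
          coeff v Θ • aeval H (monomial v (1 : ℂ)) else 0 := by
        rw [hΘD, map_sum, Finset.sum_filter]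
        refine Finset.sum_congr rfl fun v _ => ?_
        split_ifs
        · rw [map_smul]
        · rfl
      have h3' : aeval Ψ Θ = ∑ v ∈ Θ.support, aeval Ψ (coeff v Θ • monomial v (1 : ℂ)) := by
        rw [← map_sum, ← h1]
      rw [h3, h3', ← Finset.sum_sub_distrib]
      refine Finset.sum_congr rfl fun v _ => ?_
      rw [map_smul, smul_sub]
      split_ifs
      · abel
      · abel
    rw [h2, coeff_sum] at hne
    obtain ⟨v, hv, hv2⟩ := Finset.exists_ne_zero_of_sum_ne_zero hne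
    have hvD : Finsupp.weight e v ≤ D := by
      rw [hD]
      exact hmax v hv
    have h4 := E6b.mono w e Ψ H hHh hΨh v
    rw [coeff_add] at hv2
    by_cases h5 : coeff γ (coeff v Θ •
        (aeval Ψ (monomial v (1 : ℂ)) - aeval H (monomial v (1 : ℂ)))) = 0
    · rw [h5, zero_add] at hv2
      by_cases h6 : Finsupp.weight e v = D
      · rw [if_pos h6, coeff_zero] at hv2
        exact hv2 rfl
      · rw [if_neg h6, coeff_smul] at hv2
        have h7 := h4.1 (right_ne_zero_of_smul hv2)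
        rw [hwγ] at h7
        exact h6 h7.symm
    · rw [coeff_smul] at h5
      have h7 := h4.2 γ (right_ne_zero_of_smul h5)
      rw [hwγ] at h7
      exact absurd h7 (not_lt.2 hvD)
  rw [coeff_sub, sub_eq_zero] at hdiff
  have hΘ' : aeval Ψ Θ = X i := hΘ
  rw [hΘ'] at hdiff
  rw [← hdiff] at hγ
  have hDw : D = w i := by
    rw [← hwγ]
    exact isWeightedHomogeneous_X ℂ w i hγ
  have hβ0 : β₀ ≠ 0 := by
    intro h
    rw [h, map_zero, hDw] at hD
    exact (hw i).ne' hD
  obtain ⟨j, hj⟩ := Finsupp.ne_iff.1 hβ0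
  have hle : Finsupp.single j 1 ≤ β₀ := by
    rw [Finsupp.single_le_iff]
    exact Nat.one_le_iff_ne_zero.2 hj
  obtain ⟨β₁, hβ₁⟩ : ∃ β₁, β₁ + Finsupp.single j 1 = β₀ :=
    ⟨β₀ - Finsupp.single j 1, tsub_add_cancel_of_le hle⟩
  have h8 : e j ≤ D := by
    rw [hD, ← hβ₁, map_add, Finsupp.weight_single, one_smul]
    exact Nat.le_add_left _ _
  have h9 := hi j (Finset.mem_univ j)
  rw [he] at h8
  have h10 : w j + d ≤ D := h8
  omega

end FFL
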