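import Pool.Agent.FFL.E1
import Pool.Agent.FFL.E2
import Pool.Agent.FFL.E3
import Pool.Agent.FFL.E4
import Pool.Agent.FFL.E5
import Pool.Agent.FFL.E6

/-!
# [FFL-E] a quasi-homogeneous map with an isolated zero has a non-degenerate characteristic vector
-/

set_option autoImplicit false

open MvPolynomial

namespace FFL

variable {n : ℕ}

theorem exists_char (hn : 0 < n) (w : Fin n → ℕ) (hw : ∀ i, 0 < w i) (d : ℕ) (hd : 0 < d)
    (P : Fin n → MvPolynomial (Fin n) ℂ) (hP : ∀ j, IsWeightedHomogeneous w (P j) (w j + d))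
    (h2 : ∀ j β, coeff β (P j) ≠ 0 → 2 ≤ deg β)
    (h0 : ∀ c : Fin n → ℂ, (∀ j, eval c (P j) = 0) → c = 0) :
    ∃ c : Fin n → ℂ, c ≠ 0 ∧ ∀ j, eval c (P j) = -((w j : ℂ) / d) * c j := by
  classical
  obtain ⟨k, hk⟩ : ∃ k : Fin n → ℂ, k = fun j => (d : ℂ) / w j := ⟨_, rfl⟩
  have hwj : ∀ j, (w j : ℂ) ≠ 0 := fun j => by exact_mod_cast (hw j).ne'
  have hdc : (d : ℂ) ≠ 0 := by exact_mod_cast hd.ne'
  have hk0 : ∀ j, k j ≠ 0 := fun j => by rw [hk]; exact div_ne_zero hdc (hwj j)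
  by_contra hcon
  push Not at hcon
  have hz : ∀ c : Fin n → ℂ, (∀ j, eval c (X j + C (k j) * P j) = 0) → c = 0 := by
    intro c hc
    by_contra hc0
    obtain ⟨j, hj⟩ := hcon c hc0
    apply hj
    have h1 := hc j
    rw [map_add, map_mul, eval_X, eval_C, hk] at h1
    have h3 : (d : ℂ) * eval c (P j) = -(w j : ℂ) * c j := by
      have h4 : (w j : ℂ) * (c j + (d : ℂ) / w j * eval c (P j)) = 0 := by rw [h1, mul_zero]
      have h5 : (w j : ℂ) * (c j + (d : ℂ) / w j * eval c (P j)) =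
          (w j : ℂ) * c j + (d : ℂ) * eval c (P j) := by
        have := hwj j
        field_simp
      rw [h5] at h4
      linear_combination h4
    have h6 : eval c (P j) = (d : ℂ)⁻¹ * ((d : ℂ) * eval c (P j)) := by
      rw [← mul_assoc, inv_mul_cancel₀ hdc, one_mul]
    rw [h6, h3]
    ring
  obtain ⟨N, _, hN⟩ := nullst w d P hP h0
  have hL1 : ∀ j β, coeff β ((X j : MvPolynomial (Fin n) ℂ)) ≠ 0 →
      Finsupp.weight w β < w j + d := by
    intro j β hβ
    have h1 := isWeightedHomogeneous_X ℂ w j hβ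
    omega
  have hL0 : ∀ (j : Fin n) (β : Fin n →₀ ℕ), coeff β ((0 : MvPolynomial (Fin n) ℂ)) ≠ 0 →
      Finsupp.weight w β < w j + d := by
    intro j β hβ
    exact absurd (coeff_zero β) hβ
  have hf1 := finite_adjoin w hw d P N hN (fun j => X j) hL1 k hk0
  have hf0 := finite_adjoin w hw d P N hN (fun _ => 0) hL0 k hk0
  have hi1 := alg_indep _ hf1
  have hi0 := alg_indep _ hf0
  have hs := span_eq P k h2 hz
  have ht := adjoin_top _ hf1 hi1 (nakayama _ hf1 hs)
  refine not_top hn w hw d hd P hP k ?_ ht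
  have h7 : (fun j => (0 : MvPolynomial (Fin n) ℂ) + C (k j) * P j) = fun j => C (k j) * P j := by
    funext j; rw [zero_add]
  rw [h7] at hi0
  exact hi0

end FFL
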