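import Pool.Agent.FFL.E1a

/-!
# [FFL-E1] Nullstellensatz with weights

`comp_mul`: expand `A = ∑ monomials` (`MvPolynomial.as_sum` / linearity in `A`): `A' = weightedHomogeneousComponent w (m - e) A` if
`e ≤ m` and `A' = 0` otherwise (compare coefficients of `A * P`: `coeff_mul`, a product `x^β x^γ` with `P_γ ≠ 0` has degree
`m` iff `β` has degree `m - e`); or use `MvPolynomial.weightedGradedAlgebra` and
`DirectSum.coe_decompose_mul_of_right_mem_of_le`, `DirectSum.coe_decompose_mul_of_right_mem_of_not_le`.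

`nullst`: let `I = span (range P)`.  Its zero locus is contained in `{0}` (`MvPolynomial.zeroLocus_span`), so `X_i` vanishes on it and
`X_i ∈ I.radical` (`MvPolynomial.vanishingIdeal_zeroLocus_eq_radical`, `MvPolynomial.mem_vanishingIdeal_iff`).
Take `N = 1 + ∑` of the exponents; `X_i^N ∈ I`, `X_i^N = ∑ A_j P_j` (`Ideal.mem_span_range_iff_exists_fun` or
`Submodule.mem_span_range_iff_exists_fun`).  Take the weighted homogeneous component of degree `N w_i` of both sides
(`X_i^N` is weighted homogeneous of degree `N w_i`: `weightedHomogeneousComponent_same`, linearity `map_sum`) and use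
`comp_mul` for every `j`.
-/

set_option autoImplicit false

open MvPolynomial

namespace FFL

variable {n : ℕ}

theorem nullst (w : Fin n → ℕ) (d : ℕ) (P : Fin n → MvPolynomial (Fin n) ℂ)
    (hP : ∀ j, IsWeightedHomogeneous w (P j) (w j + d))
    (h0 : ∀ c : Fin n → ℂ, (∀ j, eval c (P j) = 0) → c = 0) :
    ∃ N : ℕ, 0 < N ∧ ∀ i, ∃ A : Fin n → MvPolynomial (Fin n) ℂ,
      (X i) ^ N = ∑ j, A j * P j ∧
      ∀ j β, coeff β (A j) ≠ 0 → Finsupp.weight w β + (w j + d) = N * w i := by
  classical
  set I : Ideal (MvPolynomial (Fin n) ℂ) := Ideal.span (Set.range P) with hI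
  have hrad : ∀ i, (X i : MvPolynomial (Fin n) ℂ) ∈ I.radical := by
    intro i
    rw [← vanishingIdeal_zeroLocus_eq_radical (K := ℂ) I, mem_vanishingIdeal_iff]
    intro x hx
    rw [hI, zeroLocus_span] at hx
    have hx0 : x = 0 := by
      refine h0 x fun j => ?_
      have := hx (P j) ⟨j, rfl⟩
      rwa [MvPolynomial.aeval_def, Algebra.algebraMap_self, MvPolynomial.eval₂_id] at this
    rw [aeval_X, hx0]
    rfl
  choose k hk using hrad
  set N : ℕ := 1 + ∑ i, k i with hN
  refine ⟨N, by omega, fun i => ?_⟩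
  have hkN : k i ≤ N := by
    have : k i ≤ ∑ i, k i := Finset.single_le_sum (fun _ _ => Nat.zero_le _) (Finset.mem_univ i)
    omega
  have hmem : (X i : MvPolynomial (Fin n) ℂ) ^ N ∈ I := Ideal.pow_mem_of_pow_mem I (hk i) hkN
  rw [hI, Ideal.mem_span_range_iff_exists_fun] at hmem
  obtain ⟨c, hc⟩ := hmem
  have h1 : ∀ j, ∃ A' : MvPolynomial (Fin n) ℂ,
      weightedHomogeneousComponent w (N * w i) (c j * P j) = A' * P j ∧
      ∀ β, coeff β A' ≠ 0 → Finsupp.weight w β + (w j + d) = N * w i := fun j =>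
    comp_mul w (c j) (P j) (w j + d) (hP j) (N * w i)
  choose A hA1 hA2 using h1
  refine ⟨A, ?_, hA2⟩
  have h2 : IsWeightedHomogeneous w ((X i : MvPolynomial (Fin n) ℂ) ^ N) (N * w i) := by
    have := (isWeightedHomogeneous_X ℂ w i).pow N
    rwa [smul_eq_mul] at this
  calc (X i : MvPolynomial (Fin n) ℂ) ^ N
      = weightedHomogeneousComponent w (N * w i) ((X i : MvPolynomial (Fin n) ℂ) ^ N) :=
        (h2.weightedHomogeneousComponent_same).symm
    _ = weightedHomogeneousComponent w (N * w i) (∑ j, c j * P j) := by rw [hc]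
    _ = ∑ j, weightedHomogeneousComponent w (N * w i) (c j * P j) := map_sum _ _ _
    _ = ∑ j, A j * P j := Finset.sum_congr rfl fun j _ => hA1 j

end FFL
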