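import Mathlib

/-!
# [FFL-E1] Nullstellensatz with weights

`comp_mul`: expand `A = ∑ monomials` (`MvPolynomial.as_sum` / linearity in `A`): `A' = weightedHomogeneousComponent w (m - e) A` if
`e ≤ m` and `A' = 0` otherwise (compare coefficients of `A * P`: `coeff_mul`, a product `x^β x^γ` with `P_γ ≠ 0` has degree
`m` iff `β` has degree `m - e`); or use `MvPolynomial.weightedGradedAlgebra` and
`DirectSum.coe_decompose_mul_of_right_mem_of_le`, `DirectSum.coe_decompose_mul_of_right_mem_of_not_le`.

`nullst`: let `I = span (range P)`.  Its zero locus is contained in `{0}` (`MvPolynomial.zeroLocus_span`), so `X_i` vanishes on it and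
`X_i ∈ I.radical` (`MvPolynomial.vanishingIdeal_zeroLocus_eq_radical`, `MvPolynomial.mem_vanishingIdeal_iff`).
Take `N = 1 + ∑` of the exponents; `X_i^N ∈ I`, `X_i^N = ∑ A_j P_j` (`Ideal.mem_span_range_iff_exists_fun` or
`Submodule.mem_span_range_iff_exists_fun`).  Take the weighted homogeneous component of degree `N w_i` of both sides
(`X_i^N` is weighted homogeneous of degree `N w_i`: `weightedHomogeneousComponent_same`, linearity `map_sum`) and use
`comp_mul` for every `j`.
-/

set_option autoImplicit false

open MvPolynomial

namespace FFL

variable {n : ℕ}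

theorem comp_mul (w : Fin n → ℕ) (A P : MvPolynomial (Fin n) ℂ) (e : ℕ)
    (hP : IsWeightedHomogeneous w P e) (m : ℕ) :
    ∃ A' : MvPolynomial (Fin n) ℂ, weightedHomogeneousComponent w m (A * P) = A' * P ∧
      ∀ β, coeff β A' ≠ 0 → Finsupp.weight w β + e = m := by
  classical
  by_cases hem : e ≤ m
  · refine ⟨weightedHomogeneousComponent w (m - e) A, ?_, ?_⟩
    · ext β
      rw [coeff_weightedHomogeneousComponent, coeff_mul, coeff_mul]
      split_ifs with hβ
      · refine Finset.sum_congr rfl fun x hx => ?_
        rw [coeff_weightedHomogeneousComponent]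
        by_cases hy : coeff x.2 P = 0
        · rw [hy, mul_zero, mul_zero]
        · have h2 : Finsupp.weight w x.2 = e := hP hy
          have h3 : x.1 + x.2 = β := (Finset.HasAntidiagonal.mem_antidiagonal (A := Fin n →₀ ℕ)).1 hx
          have h4 : Finsupp.weight w x.1 + Finsupp.weight w x.2 = m := by
            rw [← map_add, h3, hβ]
          rw [if_pos (by omega)]
      · symm
        refine Finset.sum_eq_zero fun x hx => ?_
        rw [coeff_weightedHomogeneousComponent]
        by_cases hy : coeff x.2 P = 0
        · rw [hy, mul_zero]
        · have h2 : Finsupp.weight w x.2 = e := hP hy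
          have h3 : x.1 + x.2 = β := (Finset.HasAntidiagonal.mem_antidiagonal (A := Fin n →₀ ℕ)).1 hx
          have h4 : Finsupp.weight w x.1 + Finsupp.weight w x.2 = Finsupp.weight w β := by
            rw [← map_add, h3]
          rw [if_neg (by omega), zero_mul]
    · intro β hβ
      rw [coeff_weightedHomogeneousComponent] at hβ
      by_cases h : Finsupp.weight w β = m - e
      · omega
      · rw [if_neg h] at hβ
        exact absurd rfl hβ
  · refine ⟨0, ?_, ?_⟩
    · ext β
      rw [coeff_weightedHomogeneousComponent, zero_mul, coeff_zero]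
      split_ifs with hβ
      · rw [coeff_mul]
        refine Finset.sum_eq_zero fun x hx => ?_
        by_cases hy : coeff x.2 P = 0
        · rw [hy, mul_zero]
        · have h2 : Finsupp.weight w x.2 = e := hP hy
          have h3 : x.1 + x.2 = β := (Finset.HasAntidiagonal.mem_antidiagonal (A := Fin n →₀ ℕ)).1 hx
          have h4 : Finsupp.weight w x.1 + Finsupp.weight w x.2 = Finsupp.weight w β := by
            rw [← map_add, h3]
          omega
      · rfl
    · intro β hβ
      rw [coeff_zero] at hβ
      exact absurd rfl hβ

end FFL
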