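import Mathlib

/-!
# [FFL-E2] finiteness over the subalgebra generated by `Φ_j = L_j + k_j P_j`

`span_all`: it suffices that every monomial `x^α` (coefficient `1`) is in `S` (`MvPolynomial.as_sum`, `S` is a `ℂ`-subspace).
Strong induction on the weighted degree `m = Finsupp.weight w α`.  If all `α_i < N`: hypothesis.  Otherwise `α_i ≥ N` for
some `i`; put `α' = α - N e_i`; then `x^α = x^α' X_i^N = ∑_j (x^α' A_j) P_j = ∑_j Φ_j (k_j⁻¹ x^α' A_j) - ∑_j L_j (k_j⁻¹ x^α' A_j)`.
All monomials of `x^α' A_j` have weighted degree `m - N w_i + (N w_i - (w_j + d)) = m - (w_j + d) < m` (note `m ≥ N w_i ≥ w_j + d`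
if `A_j ≠ 0`, and `w_j + d > 0`), so `x^α' A_j ∈ S` by induction and `Φ_j * _ ∈ S`; all monomials of `L_j x^α' A_j` have weighted degree
`< m`, so `L_j x^α' A_j ∈ S`.  (Use: a polynomial all of whose monomials have weighted degree `< m` is in `S`; the monomials of a
product are sums, `MvPolynomial.support_mul` / `coeff_mul`; `Finsupp.weight w` is additive.)

`finite_adjoin`: let `A₀ = Algebra.adjoin ℂ (range Φ)` and `S₀ = Submodule.span A₀ T`, `T` the finite set of the monomials with
all `α_i < N`.  `S₀.restrictScalars ℂ` is closed under multiplication by `Φ_j ∈ A₀`, so it is `⊤` by `span_all`; so `⊤` is finitely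
generated.
-/

set_option autoImplicit false

open MvPolynomial

namespace FFL

variable {n : ℕ}

theorem E2a.exists_of_coeff_mul {p q : MvPolynomial (Fin n) ℂ} {β : Fin n →₀ ℕ}
    (h : coeff β (p * q) ≠ 0) : ∃ a b, a + b = β ∧ coeff a p ≠ 0 ∧ coeff b q ≠ 0 := by
  classical
  rw [coeff_mul] at h
  obtain ⟨x, hx, hx2⟩ := Finset.exists_ne_zero_of_sum_ne_zero h
  exact ⟨x.1, x.2, Finset.HasAntidiagonal.mem_antidiagonal.1 hx, left_ne_zero_of_mul hx2, right_ne_zero_of_mul hx2⟩

theorem E2a.mem_of_lt (w : Fin n → ℕ) (S : Submodule ℂ (MvPolynomial (Fin n) ℂ)) (m : ℕ)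
    (h : ∀ α, Finsupp.weight w α < m → monomial α (1 : ℂ) ∈ S) (p : MvPolynomial (Fin n) ℂ)
    (hp : ∀ β, coeff β p ≠ 0 → Finsupp.weight w β < m) : p ∈ S := by
  rw [p.as_sum]
  refine Submodule.sum_mem _ fun v hv => ?_
  have h1 : monomial v (coeff v p) = coeff v p • monomial v (1 : ℂ) := by
    rw [smul_monomial, smul_eq_mul, mul_one]
  rw [h1]
  exact S.smul_mem _ (h v (hp v (mem_support_iff.1 hv)))

theorem span_all (w : Fin n → ℕ) (hw : ∀ i, 0 < w i) (d : ℕ) (P : Fin n → MvPolynomial (Fin n) ℂ)
    (N : ℕ) (hN : ∀ i, ∃ A : Fin n → MvPolynomial (Fin n) ℂ, (X i) ^ N = ∑ j, A j * P j ∧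
      ∀ j β, coeff β (A j) ≠ 0 → Finsupp.weight w β + (w j + d) = N * w i)
    (L : Fin n → MvPolynomial (Fin n) ℂ) (hL : ∀ j β, coeff β (L j) ≠ 0 →
      Finsupp.weight w β < w j + d) (k : Fin n → ℂ) (hk : ∀ j, k j ≠ 0)
    (S : Submodule ℂ (MvPolynomial (Fin n) ℂ))
    (hS : ∀ j, ∀ p ∈ S, (L j + C (k j) * P j) * p ∈ S)
    (hm : ∀ α : Fin n →₀ ℕ, (∀ i, α i < N) → monomial α (1 : ℂ) ∈ S) : S = ⊤ := by
  have key : ∀ m : ℕ, ∀ α, Finsupp.weight w α < m → monomial α (1 : ℂ) ∈ S := by
    intro m
    induction m with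
    | zero => intro α hα; exact absurd hα (Nat.not_lt_zero _)
    | succ m ih =>
      intro α hα
      by_cases hN' : ∀ i, α i < N
      · exact hm α hN'
      · push Not at hN'
        obtain ⟨i, hi⟩ := hN'
        obtain ⟨A, hA, hA2⟩ := hN i
        obtain ⟨α', hα'⟩ : ∃ α', α' = α - Finsupp.single i N := ⟨_, rfl⟩
        have hle : Finsupp.single i N ≤ α := Finsupp.single_le_iff.2 hi
        have hsum : α' + Finsupp.single i N = α := by
          rw [hα']
          exact tsub_add_cancel_of_le hle
        have hwt : Finsupp.weight w α' + N * w i = Finsupp.weight w α := by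
          rw [← hsum, map_add, Finsupp.weight_single, smul_eq_mul]
        have hmono : monomial α (1 : ℂ) = ∑ j,
            ((L j + C (k j) * P j) * (C (k j)⁻¹ * (monomial α' 1 * A j)) -
              L j * (C (k j)⁻¹ * (monomial α' 1 * A j))) := by
          have h1 : monomial α (1 : ℂ) = monomial α' 1 * X i ^ N := by
            rw [X_pow_eq_monomial, monomial_mul, hsum, mul_one]
          rw [h1, hA, Finset.mul_sum]
          refine Finset.sum_congr rfl fun j _ => ?_
          have h2 : (C (k j) : MvPolynomial (Fin n) ℂ) * C (k j)⁻¹ = 1 := by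
            rw [← C_mul, mul_inv_cancel₀ (hk j), C_1]
          linear_combination (-(monomial α' 1 * A j * P j)) * h2
        rw [hmono]
        have hq : ∀ j β, coeff β (C (k j)⁻¹ * (monomial α' 1 * A j)) ≠ 0 →
            Finsupp.weight w β + (w j + d) = Finsupp.weight w α := by
          intro j β hβ
          rw [coeff_C_mul] at hβ
          obtain ⟨a, b, hab, ha, hb⟩ := E2a.exists_of_coeff_mul (right_ne_zero_of_mul hβ)
          have ha' : a = α' := by
            rw [coeff_monomial] at ha
            by_contra hne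
            exact ha (if_neg fun h => hne h.symm)
          have h3 := hA2 j b hb
          rw [← hab, map_add, ha']
          omega
        refine Submodule.sum_mem _ fun j _ => S.sub_mem ?_ ?_
        · refine hS j _ (E2a.mem_of_lt w S m ih _ ?_)
          intro β hβ
          have h4 := hq j β hβ
          have h5 := hw j
          omega
        · refine E2a.mem_of_lt w S m ih _ ?_
          intro β hβ
          obtain ⟨a, b, hab, ha, hb⟩ := E2a.exists_of_coeff_mul hβ
          have h4 := hq j b hb
          have h5 := hL j a ha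
          rw [← hab, map_add]
          omega
  rw [eq_top_iff]
  intro p _
  rw [p.as_sum]
  refine Submodule.sum_mem _ fun v _ => ?_
  have h1 : monomial v (coeff v p) = coeff v p • monomial v (1 : ℂ) := by
    rw [smul_monomial, smul_eq_mul, mul_one]
  rw [h1]
  exact S.smul_mem _ (key _ v (Nat.lt_succ_self _))

end FFL
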