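import Mathlib

/-!
# [FFL-E5] Nakayama and normality

Notation: `B = MvPolynomial (Fin n) ℂ`, `A = Algebra.adjoin ℂ (range Φ)`, `m` the ideal of `A` generated by the `Φ_j`.

(1) `nakayama`.  Every `b ∈ B` is `C (b 0) + ` an element of `span (range X) = span (range Φ)`, that is `b = a + ∑ Φ_j b_j` with `a ∈ ℂ ⊆ A`.
So in the `A`-module `N = B ⧸ A` (quotient by the `A`-submodule `LinearMap.range (Algebra.linearMap A B)`, or `(1 : Submodule A B)`)
`⊤ ≤ m • ⊤`; `N` is finitely generated.  `Submodule.exists_sub_one_mem_and_smul_eq_zero_of_fg_of_le_smul` gives `r ∈ A`,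
`r - 1 ∈ m` and `r • N = 0`, that is `r b ∈ A` for all `b ∈ B`.  If `r = 0` then `1 ∈ m`, so `1 ∈ span (range Φ) = span (range X)` in `B`, which is
false (evaluate at `0`).

(2) `adjoin_top`.  `A ≃ₐ MvPolynomial (Fin n) ℂ` (`AlgebraicIndependent.aevalEquiv`), which is a unique factorisation domain, so
integrally closed (`IsIntegrallyClosed.of_equiv`).  Let `b ∈ B` and `a = r b ∈ A`.  In `K = FractionRing A` the element
`x = a / r` is integral over `A`: `b` is integral over `A` (`Module.Finite`), so `p(b) = 0` for a monic `p ∈ A[X]`; multiply by `r^deg p`, get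
a relation in `A` (`A → B` is injective), divide in `K` by `r^deg p`: `p(x) = 0`.  (Or: the images of `x` and of `b` in `FractionRing B`
coincide, `isIntegral_algHom_iff` for the injective `K → FractionRing B`.)  So `x = algebraMap a'` with `a' ∈ A`
(`IsIntegrallyClosed.isIntegral_iff`), `a = r a'` in `A`, `r b = r a'` in the domain `B`, `b = a' ∈ A`.
-/

set_option autoImplicit false

open MvPolynomial

namespace FFL

variable {n : ℕ}

theorem E5a.sub_const_mem (b : MvPolynomial (Fin n) ℂ) :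
    b - C (constantCoeff b) ∈ Ideal.span (Set.range (X : Fin n → MvPolynomial (Fin n) ℂ)) := by
  have h : b - C (constantCoeff b) ∈ idealOfVars (Fin n) ℂ ^ 1 := by
    rw [mem_pow_idealOfVars_iff']
    intro x hx
    have hx0 : x = 0 := by
      rw [← Finsupp.degree_eq_zero_iff]
      omega
    rw [hx0, coeff_sub, coeff_zero_C, constantCoeff_eq, sub_self]
  rw [pow_one] at h
  exact h

theorem E5a.one_notMem : (1 : MvPolynomial (Fin n) ℂ) ∉
    Ideal.span (Set.range (X : Fin n → MvPolynomial (Fin n) ℂ)) := by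
  intro h
  have h1 : (C 1 : MvPolynomial (Fin n) ℂ) ∈ idealOfVars (Fin n) ℂ ^ 1 := by
    rw [pow_one, C_1]
    exact h
  rw [C_mem_pow_idealOfVars_iff] at h1
  rcases h1 with h1 | h1
  · exact one_ne_zero h1
  · exact one_ne_zero h1

theorem nakayama (Φ : Fin n → MvPolynomial (Fin n) ℂ)
    (hfin : Module.Finite (Algebra.adjoin ℂ (Set.range Φ)) (MvPolynomial (Fin n) ℂ))
    (hspan : Ideal.span (Set.range Φ) =
      Ideal.span (Set.range (X : Fin n → MvPolynomial (Fin n) ℂ))) :
    ∃ r ∈ Algebra.adjoin ℂ (Set.range Φ), r ≠ 0 ∧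
      ∀ b : MvPolynomial (Fin n) ℂ, r * b ∈ Algebra.adjoin ℂ (Set.range Φ) := by
  obtain ⟨A, hA⟩ : ∃ A : Subalgebra ℂ (MvPolynomial (Fin n) ℂ),
    A = Algebra.adjoin ℂ (Set.range Φ) := ⟨_, rfl⟩
  rw [← hA] at hfin ⊢
  have hΦA : ∀ j, Φ j ∈ A := by
    intro j
    rw [hA]
    exact Algebra.subset_adjoin ⟨j, rfl⟩
  let φ : Fin n → A := fun j => ⟨Φ j, hΦA j⟩
  let S : Submodule A (MvPolynomial (Fin n) ℂ) := LinearMap.range (Algebra.linearMap A _)
  let m : Ideal A := Ideal.span (Set.range φ)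
  have htop : (⊤ : Submodule A (MvPolynomial (Fin n) ℂ ⧸ S)) ≤ m • ⊤ := by
    intro x _
    obtain ⟨b, rfl⟩ := Submodule.mkQ_surjective S x
    have h1 := E5a.sub_const_mem b
    rw [← hspan, Ideal.mem_span_range_iff_exists_fun] at h1
    obtain ⟨c, hc⟩ := h1
    have hb : b = ∑ j, c j * Φ j + C (constantCoeff b) := by rw [hc]; ring
    have hmem : C (constantCoeff b) ∈ S := by
      refine ⟨⟨C (constantCoeff b), ?_⟩, rfl⟩
      exact A.algebraMap_mem (constantCoeff b)
    rw [hb, map_add, map_sum]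
    have h0 : S.mkQ (C (constantCoeff b)) = 0 := by
      rw [Submodule.mkQ_apply, Submodule.Quotient.mk_eq_zero]
      exact hmem
    rw [h0, add_zero]
    refine Submodule.sum_mem _ fun j _ => ?_
    have h2 : c j * Φ j = φ j • c j := by
      rw [Subalgebra.smul_def, smul_eq_mul, mul_comm]
    rw [h2, map_smul]
    exact Submodule.smul_mem_smul (Ideal.subset_span ⟨j, rfl⟩) trivial
  have hfin2 : Module.Finite A (MvPolynomial (Fin n) ℂ ⧸ S) := inferInstance
  obtain ⟨r, hr1, hr2⟩ := Submodule.exists_sub_one_mem_and_smul_eq_zero_of_fg_of_le_smul m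
    (⊤ : Submodule A (MvPolynomial (Fin n) ℂ ⧸ S)) hfin2.fg_top htop
  refine ⟨r, r.2, ?_, ?_⟩
  · intro hr0
    have hr0' : r = 0 := by
      apply Subtype.ext
      exact hr0
    rw [hr0', zero_sub, neg_mem_iff] at hr1
    apply E5a.one_notMem (n := n)
    rw [← hspan]
    have hmap : m.map (algebraMap A (MvPolynomial (Fin n) ℂ)) ≤ Ideal.span (Set.range Φ) := by
      rw [Ideal.map_span, Ideal.span_le]
      rintro _ ⟨_, ⟨j, rfl⟩, rfl⟩
      exact Ideal.subset_span ⟨j, rfl⟩
    have h3 := hmap (Ideal.mem_map_of_mem (algebraMap A (MvPolynomial (Fin n) ℂ)) hr1)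
    rw [map_one] at h3
    exact h3
  · intro b
    have h4 := hr2 (S.mkQ b) trivial
    rw [← map_smul, Submodule.mkQ_apply, Submodule.Quotient.mk_eq_zero] at h4
    obtain ⟨a, ha⟩ := h4
    have h5 : (r : MvPolynomial (Fin n) ℂ) * b = (a : MvPolynomial (Fin n) ℂ) := by
      rw [← smul_eq_mul, ← Subalgebra.smul_def]
      exact ha.symm
    rw [h5]
    exact a.2

end FFL
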