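import Mathlib

/-!
# [FFL-E6] the top weighted part

`lt_mul`: write `p₁ p₂ - h₁ h₂ = (p₁ - h₁) p₂ + h₁ (p₂ - h₂)`; all monomials of `p₂ = h₂ + (p₂ - h₂)` have weighted degree `≤ b`; the monomials of a
product are sums of monomials of the factors (`MvPolynomial.coeff_mul`, `Finset.exists_ne_zero_of_sum_ne_zero`),
`Finsupp.weight w` is additive.

`not_top`: let `i` be an index with minimal `w_i` (`n > 0`).  Suppose the subalgebra is `⊤`; then `X_i = aeval Ψ Θ` for a
`Θ : MvPolynomial (Fin n) ℂ` (`Algebra.adjoin_range_eq_range_aeval`).  For `β` put `e(β) = ∑_j β_j (w_j + d)`.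
By `lt_mul` (induction, products of powers): `Ψ^β - H^β` has only monomials of weighted degree `< e(β)` or is `0`, where `H_j = k_j P_j`, and
`H^β` is weighted homogeneous of degree `e(β)`.  Let `D = max {e(β) : β ∈ supp Θ}` (`Θ ≠ 0` because `X_i ≠ 0`).
The component of weighted degree `D` of `aeval Ψ Θ` is `aeval H Θ_D`, `Θ_D = ∑_{e(β) = D} Θ_β x^β ≠ 0`, which is nonzero by the
algebraic independence of `H`.  So `X_i` has a nonzero component of weighted degree `D`, `D = w_i`.  As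
`e(β) ≤ D = w_i < w_j + d` for all `j`, every `β` in the support of `Θ` is `0`: `Θ` is constant, `X_i` is constant, a contradiction.
-/

set_option autoImplicit false

open MvPolynomial

namespace FFL

variable {n : ℕ}

theorem E6a.exists_of_coeff_mul {p q : MvPolynomial (Fin n) ℂ} {β : Fin n →₀ ℕ}
    (h : coeff β (p * q) ≠ 0) : ∃ a b, a + b = β ∧ coeff a p ≠ 0 ∧ coeff b q ≠ 0 := by
  classical
  rw [coeff_mul] at h
  obtain ⟨x, hx, hx2⟩ := Finset.exists_ne_zero_of_sum_ne_zero h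
  exact ⟨x.1, x.2, Finset.HasAntidiagonal.mem_antidiagonal.1 hx, left_ne_zero_of_mul hx2, right_ne_zero_of_mul hx2⟩

theorem lt_mul (w : Fin n → ℕ) (a b : ℕ) (p₁ h₁ p₂ h₂ : MvPolynomial (Fin n) ℂ)
    (hh₁ : IsWeightedHomogeneous w h₁ a) (hh₂ : IsWeightedHomogeneous w h₂ b)
    (hp₁ : ∀ β, coeff β (p₁ - h₁) ≠ 0 → Finsupp.weight w β < a)
    (hp₂ : ∀ β, coeff β (p₂ - h₂) ≠ 0 → Finsupp.weight w β < b) :
    ∀ β, coeff β (p₁ * p₂ - h₁ * h₂) ≠ 0 → Finsupp.weight w β < a + b := by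
  intro β hβ
  have h1 : p₁ * p₂ - h₁ * h₂ = (p₁ - h₁) * p₂ + h₁ * (p₂ - h₂) := by ring
  rw [h1, coeff_add] at hβ
  by_cases h2 : coeff β ((p₁ - h₁) * p₂) = 0
  · rw [h2, zero_add] at hβ
    obtain ⟨x, y, hxy, hx, hy⟩ := E6a.exists_of_coeff_mul hβ
    have h3 := hh₁ hx
    have h4 := hp₂ y hy
    rw [← hxy, map_add]
    omega
  · obtain ⟨x, y, hxy, hx, hy⟩ := E6a.exists_of_coeff_mul h2
    have h3 := hp₁ x hx
    have h4 : Finsupp.weight w y ≤ b := by
      by_cases h5 : coeff y (p₂ - h₂) = 0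
      · rw [coeff_sub, sub_eq_zero] at h5
        rw [h5] at hy
        exact (hh₂ hy).le
      · exact (hp₂ y h5).le
    rw [← hxy, map_add]
    omega

end FFL
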