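import Pool.Agent.FFL.Defs

/-!
# [FFL-N] Newton polyhedra: definitions
-/

set_option autoImplicit false

open Filter Topology

namespace FFL

variable {n : ℕ}

/-- `⟨q, α⟩ = ∑ α_i q_i` for real weights -/
noncomputable def wt (q : Fin n → ℝ) (α : Fin n →₀ ℕ) : ℝ := ∑ i, (α i : ℝ) * q i

/-- the multi-index `m` involves only the variables `z_k`, `k ∈ J` -/
def In (J : Finset (Fin n)) (m : Fin n →₀ ℕ) : Prop := ∀ k, k ∉ J → m k = 0

theorem In.mono {J J' : Finset (Fin n)} (h : J ⊆ J') {m : Fin n →₀ ℕ} (hm : In J m) : In J' m :=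
  fun k hk => hm k fun hk' => hk (h hk')

/-- the vector `m - e_i` -/
noncomputable def shiftv (m : Fin n → (Fin n →₀ ℕ)) (i : Fin n) : Fin n → ℂ :=
  fun k => (m i k : ℂ) - if k = i then 1 else 0

/-- The finite sets `A_i` of multi-indices are of isolated type: for every nonempty set `J` of coordinates at
least `|J|` of the sets `A_i` contain a multi-index which only involves the coordinates in `J`. -/
def IsolatedType (A : Fin n → Finset (Fin n →₀ ℕ)) : Prop :=
  ∀ J : Finset (Fin n), J.Nonempty → ∃ I : Finset (Fin n), J.card ≤ I.card ∧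
    ∀ i ∈ I, ∃ m ∈ A i, In J m

/-- The germ with the coefficients `a` is of Newton type `A`: every exponent of `f_j - z_j` which does not belong to
`A_j` lies strictly above the Newton polyhedron's compact faces, that is, for every positive weight vector `u` some
`m ∈ A_j` has smaller weight. -/
def NewtonType (A : Fin n → Finset (Fin n →₀ ℕ)) (a : Fin n → (Fin n →₀ ℕ) → ℂ) : Prop :=
  ∀ j α, a j α ≠ 0 → α ≠ Finsupp.single j 1 → α ∉ A j →
    ∀ u : Fin n → ℝ, (∀ i, 0 < u i) → ∃ m ∈ A j, wt u m < wt u α

end FFL
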