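import Pool.Agent.FFL.C4
import Pool.Agent.FFL.NDefs
import Pool.Agent.FFL.D4
import Pool.Agent.FFL.D5
import Pool.Agent.FFL.D6

/-!
# [FFL-G1] real weights: the curve on a half plane
-/

set_option autoImplicit false

open Filter Topology

namespace FFL

variable {n : ℕ}

/-- A curve on a half plane with everything that is needed for a Fatou flower tangent to `[v]`. -/
structure Curve (f : (Fin n → ℂ) → (Fin n → ℂ)) (v : Fin n → ℂ) (R C ρ : ℝ)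
    (φ : ℂ → Fin n → ℂ) : Prop where
  hR : 1 ≤ R
  hρ : 0 < ρ
  hC : 0 ≤ C
  hd : DifferentiableOn ℂ φ (HP R)
  hinj : Set.InjOn φ (HP R)
  hne : ∀ ζ ∈ HP R, φ ζ ≠ 0
  heq : ∀ ζ ∈ HP R, f (φ ζ) = φ (ζ + 1)
  hb : ∀ ζ ∈ HP R, ‖φ ζ‖ ≤ C * ‖ζ‖ ^ (-ρ)
  htan : ∀ i j, ∀ ε > 0, ∃ R' : ℝ, ∀ ζ ∈ HP R, R' ≤ ‖ζ‖ →
    ‖(φ ζ i * v j - φ ζ j * v i) / (‖φ ζ‖ : ℂ)‖ ≤ ε

theorem curve_real {f : (Fin n → ℂ) → (Fin n → ℂ)} {a : Fin n → (Fin n →₀ ℕ) → ℂ}
    (hf : HasSeries f a) (h1 : ∀ j, a j (Finsupp.single j 1) = 1) (q : Fin n → ℂ)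
    (hq : ∀ i, 0 < (q i).re) (hqr : ∀ i, (q i).im = 0) (hw : WDeg q a) (c : Fin n → ℂ)
    (hc0 : c ≠ 0) (hc : ∀ j, lead q a j c = -q j * c j) :
    ∃ (v : Fin n → ℂ) (R C ρ : ℝ) (φ : ℂ → Fin n → ℂ), v ≠ 0 ∧ Curve f v R C ρ φ := by
  classical
  obtain ⟨j₀, hj₀⟩ : ∃ j, c j ≠ 0 := by
    by_contra hcon
    push Not at hcon
    exact hc0 (funext hcon)
  obtain ⟨κ₀, hκ₀⟩ := exists_nat_gt (q j₀).re
  obtain ⟨s, γ, Y, hγ, hγr, hY, κ, hκ, R, C, v, hR, hC, hv, hd, hinj, hne, heq, C', ρ, hC', hρ,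
    hb⟩ := core hf q hq hw h1 c hc0 hc κ₀
  obtain ⟨S, A, hSA, hexp⟩ := expansion γ hγ (hγr hqr) q hq hqr c Y hY κ R C hR hC v hv
  have hκ' : (q j₀).re < κ := lt_of_lt_of_le hκ₀ (by exact_mod_cast hκ)
  obtain ⟨p, hp, hlam, hlim⟩ := dominant R hR S A κ C
    (fun ζ j => ζ ^ (-q j) * (y0 γ Y ζ j + v ζ j))
    ⟨((q j₀).re, 0), (hSA j₀).1, by
      intro h0
      have h1 := (hSA j₀).2
      rw [h0, Pi.zero_apply] at h1
      exact hj₀ h1.symm, hκ'⟩ hexp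
  exact ⟨A p, R, C', ρ, fun ζ j => ζ ^ (-q j) * (y0 γ Y ζ j + v ζ j), hp, hR, hρ, hC', hd, hinj,
    hne, heq, hb,
    htan_of_scalar R _ (fun ζ => ζ ^ (-(p.1 : ℂ)) * Complex.log ζ ^ p.2) (A p) hp hlam hlim⟩

open Classical in
/-- The weighted leading part: the (finite) sum of the terms of `f_j` with `⟨q, α⟩ = q_j + δ`. -/
noncomputable def leadR (q : Fin n → ℝ) (δ : ℝ) (a : Fin n → (Fin n →₀ ℕ) → ℂ) (j : Fin n)
    (y : Fin n → ℂ) : ℂ := ∑' α, if wt q α = q j + δ then a j α * mon y α else 0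

theorem pr_scaled (q : Fin n → ℝ) (δ : ℝ) (α : Fin n →₀ ℕ) :
    pr (fun i => ((q i / δ : ℝ) : ℂ)) α = ((wt q α / δ : ℝ) : ℂ) := by
  unfold pr wt
  rw [Finset.sum_div]
  push_cast
  refine Finset.sum_congr rfl fun i _ => ?_
  ring

theorem mon_scaled (μ : ℂ) (hμ : μ ≠ 0) (q : Fin n → ℂ) (c : Fin n → ℂ) (α : Fin n →₀ ℕ) :
    mon (fun i => μ ^ q i * c i) α = μ ^ pr q α * mon c α := by
  unfold mon pr
  have h1 : μ ^ (∑ i, (α i : ℂ) * q i) = ∏ i, (μ ^ q i) ^ α i := by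
    have h2 : ∀ s : Finset (Fin n), μ ^ (∑ i ∈ s, (α i : ℂ) * q i) = ∏ i ∈ s, (μ ^ q i) ^ α i := by
      classical
      intro s
      induction s using Finset.induction_on with
      | empty => simp
      | insert i s hi ih =>
        rw [Finset.sum_insert hi, Finset.prod_insert hi, Complex.cpow_add _ _ hμ, ih,
          Complex.cpow_nat_mul]
    exact h2 Finset.univ
  rw [h1, ← Finset.prod_mul_distrib]
  exact Finset.prod_congr rfl fun i _ => mul_pow _ _ _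

theorem curve_scaled {f : (Fin n → ℂ) → (Fin n → ℂ)} {a : Fin n → (Fin n →₀ ℕ) → ℂ}
    (hf : HasSeries f a) (h1 : ∀ j, a j (Finsupp.single j 1) = 1) (q : Fin n → ℝ)
    (hq : ∀ i, 0 < q i) (δ : ℝ) (hδ : 0 < δ)
    (hdeg : ∀ j α, a j α ≠ 0 → α ≠ Finsupp.single j 1 → q j + δ ≤ wt q α)
    (c : Fin n → ℂ) (hc0 : c ≠ 0) (lam : ℂ) (hlam : lam ≠ 0)
    (hc : ∀ j, leadR q δ a j c = lam * (q j * c j)) :
    ∃ (v : Fin n → ℂ) (R C ρ : ℝ) (φ : ℂ → Fin n → ℂ), v ≠ 0 ∧ Curve f v R C ρ φ := by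
  classical
  have hδc : (δ : ℂ) ≠ 0 := by exact_mod_cast hδ.ne'
  obtain ⟨q', hq'⟩ : ∃ q' : Fin n → ℂ, q' = fun i => ((q i / δ : ℝ) : ℂ) := ⟨_, rfl⟩
  obtain ⟨μ, hμ⟩ : ∃ μ : ℂ, μ = -(δ * lam)⁻¹ := ⟨_, rfl⟩
  have hμ0 : μ ≠ 0 := by
    rw [hμ]
    exact neg_ne_zero.2 (inv_ne_zero (mul_ne_zero hδc hlam))
  have hprq : ∀ α, pr q' α = ((wt q α / δ : ℝ) : ℂ) := fun α => by rw [hq']; exact pr_scaled q δ α
  have hiff : ∀ j α, pr q' α = q' j + 1 ↔ wt q α = q j + δ := by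
    intro j α
    have hqj : q' j = ((q j / δ : ℝ) : ℂ) := by rw [hq']
    rw [hprq, hqj]
    constructor
    · intro h
      have h2 : (wt q α / δ : ℝ) = q j / δ + 1 := by exact_mod_cast h
      field_simp at h2
      exact h2
    · intro h
      rw [h]
      have h2 : ((q j + δ) / δ : ℝ) = q j / δ + 1 := by field_simp
      rw [h2]
      push_cast
      ring
  refine curve_real hf h1 q' ?_ ?_ ?_ (fun i => μ ^ q' i * c i) ?_ ?_
  · intro i
    rw [hq', Complex.ofReal_re]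
    exact div_pos (hq i) hδ
  · intro i
    rw [hq', Complex.ofReal_im]
  · intro j α hα hne
    have h1 := hdeg j α hα hne
    rcases h1.eq_or_lt with h2 | h2
    · exact Or.inl ((hiff j α).2 h2.symm)
    · right
      rw [hprq, hq', Complex.ofReal_re, Complex.ofReal_re]
      have h3 : q j / δ + 1 = (q j + δ) / δ := by field_simp
      rw [h3]
      exact div_lt_div_of_pos_right h2 hδ
  · intro h0
    apply hc0
    funext i
    have h1 := congrFun h0 i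
    simp only [Pi.zero_apply, mul_eq_zero] at h1
    rcases h1 with h1 | h1
    · exact absurd h1 (by rw [Complex.cpow_eq_zero_iff]; exact fun h => hμ0 h.1)
    · exact h1
  · intro j
    have h1 : lead q' a j (fun i => μ ^ q' i * c i) = μ ^ (q' j + 1) * leadR q δ a j c := by
      unfold lead leadR
      rw [← tsum_mul_left]
      refine tsum_congr fun α => ?_
      by_cases h : wt q α = q j + δ
      · rw [if_pos h, if_pos ((hiff j α).2 h), mon_scaled μ hμ0, (hiff j α).2 h]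
        ring
      · rw [if_neg h, if_neg (fun h' => h ((hiff j α).1 h')), mul_zero]
    rw [h1, hc j, Complex.cpow_add _ _ hμ0, Complex.cpow_one]
    have h2 : μ * lam = -(δ : ℂ)⁻¹ := by
      rw [hμ]
      field_simp
    have h3 : (q' j : ℂ) = (q j : ℂ) * (δ : ℂ)⁻¹ := by
      rw [hq']
      push_cast
      rw [div_eq_mul_inv]
    have h4 : μ ^ q' j * μ * (lam * (q j * c j)) = μ ^ q' j * (μ * lam) * (q j * c j) := by ring
    rw [h4, h2, h3]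
    ring

end FFL
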