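import Pool.Agent.FFL.G1
import Pool.Agent.FFL.D2

/-!
# [FFL-G2] real weights: a Fatou flower from a non-degenerate weighted characteristic vector
-/

set_option autoImplicit false

open Filter Topology

namespace FFL

variable {n : ℕ}

theorem coeff_single {a : Fin n → (Fin n →₀ ℕ) → ℂ} {ν : ℕ} (hν : TangentToId a ν) (j : Fin n) :
    a j (Finsupp.single j 1) = 1 := by
  have h1 := hν.2.1 j (Finsupp.single j 1) (by
    have h2 : deg (Finsupp.single j 1 : Fin n →₀ ℕ) = 1 := by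
      unfold deg
      rw [Finset.sum_eq_single j]
      · simp
      · intro b _ hb
        exact Finsupp.single_eq_of_ne hb
      · intro hj
        exact absurd (Finset.mem_univ j) hj
    rw [h2]
    exact lt_of_lt_of_le one_lt_two hν.1)
  rw [h1, if_pos rfl]

theorem Curve.flower {f : (Fin n → ℂ) → (Fin n → ℂ)} {v : Fin n → ℂ} {R C ρ : ℝ}
    {φ : ℂ → Fin n → ℂ} (h : Curve f v R C ρ φ) (ν : ℕ) (hν : 2 ≤ ν) : HasFlower f ν v :=
  flower_of_curve f ν hν v R C ρ h.hρ h.hC φ h.hd h.hinj h.hne h.heq h.hb h.htan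

theorem flower_real {f : (Fin n → ℂ) → (Fin n → ℂ)} {a : Fin n → (Fin n →₀ ℕ) → ℂ} {ν : ℕ}
    (hf : HasSeries f a) (hν : TangentToId a ν) (q : Fin n → ℝ) (hq : ∀ i, 0 < q i) (δ : ℝ)
    (hδ : 0 < δ)
    (hdeg : ∀ j α, a j α ≠ 0 → α ≠ Finsupp.single j 1 → q j + δ ≤ wt q α)
    (c : Fin n → ℂ) (hc0 : c ≠ 0) (lam : ℂ) (hlam : lam ≠ 0)
    (hc : ∀ j, leadR q δ a j c = lam * (q j * c j)) :
    ∃ v : Fin n → ℂ, v ≠ 0 ∧ HasFlower f ν v := by
  obtain ⟨v, R, C, ρ, φ, hv, hφ⟩ := curve_scaled hf (coeff_single hν) q hq δ hδ hdeg c hc0 lam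
    hlam hc
  exact ⟨v, hv, hφ.flower ν hν.1⟩

end FFL
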