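import Pool.Agent.FFL.E
import Pool.Agent.FFL.G2

/-!
# [FFL-G3] semi-quasi-homogeneous germs with an isolated leading part
-/

set_option autoImplicit false

open Filter Topology

namespace FFL

variable {n : ℕ}

theorem wt_nat (w : Fin n → ℕ) (α : Fin n →₀ ℕ) :
    wt (fun i => (w i : ℝ)) α = (Finsupp.weight w α : ℕ) := by
  rw [Finsupp.weight_apply, Finsupp.sum_fintype]
  · unfold wt
    push_cast
    exact Finset.sum_congr rfl fun i _ => by simp
  · intro i
    simp

theorem exists_leadPoly (w : Fin n → ℕ) (hw : ∀ i, 0 < w i) (m : ℕ) (b : (Fin n →₀ ℕ) → ℂ) :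
    ∃ P : MvPolynomial (Fin n) ℂ,
      (∀ β, MvPolynomial.coeff β P ≠ 0 → Finsupp.weight w β = m ∧ b β ≠ 0) ∧
      ∀ c : Fin n → ℂ, MvPolynomial.eval c P =
        ∑' α, if Finsupp.weight w α = m then b α * mon c α else 0 := by
  classical
  obtain ⟨S, hS⟩ : ∃ S : Finset (Fin n →₀ ℕ), S = (Finset.Iic
    (Finsupp.equivFunOnFinite.symm (fun _ : Fin n => m))).filter
      fun α => Finsupp.weight w α = m := ⟨_, rfl⟩
  have hmem : ∀ α : Fin n →₀ ℕ, Finsupp.weight w α = m → α ∈ S := by
    intro α hα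
    rw [hS, Finset.mem_filter]
    refine ⟨?_, hα⟩
    rw [Finset.mem_Iic]
    intro i
    have h1 : α i * w i ≤ Finsupp.weight w α := by
      rw [Finsupp.weight_apply, Finsupp.sum_fintype _ _ (fun i => by simp)]
      have h2 : ∀ j ∈ (Finset.univ : Finset (Fin n)), 0 ≤ α j • w j := fun _ _ => Nat.zero_le _
      have h3 := Finset.single_le_sum h2 (Finset.mem_univ i)
      simpa using h3
    rw [hα] at h1
    have h4 : α i ≤ m := le_trans (Nat.le_mul_of_pos_right _ (hw i)) h1
    simpa using h4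
  have hmem' : ∀ α ∈ S, Finsupp.weight w α = m := by
    intro α hα
    rw [hS, Finset.mem_filter] at hα
    exact hα.2
  refine ⟨∑ α ∈ S, MvPolynomial.monomial α (b α), ?_, ?_⟩
  · intro β hβ
    have h1 : MvPolynomial.coeff β (∑ α ∈ S, MvPolynomial.monomial α (b α)) =
        if β ∈ S then b β else 0 := by
      rw [MvPolynomial.coeff_sum]
      simp only [MvPolynomial.coeff_monomial]
      rw [Finset.sum_ite_eq']
    rw [h1] at hβ
    by_cases h2 : β ∈ S
    · rw [if_pos h2] at hβ
      exact ⟨hmem' β h2, hβ⟩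
    · rw [if_neg h2] at hβ
      exact absurd rfl hβ
  · intro c
    rw [tsum_eq_sum (s := S)]
    · rw [map_sum]
      refine Finset.sum_congr rfl fun α hα => ?_
      rw [if_pos (hmem' α hα), MvPolynomial.eval_monomial]
      unfold mon
      rw [Finsupp.prod_fintype]
      intro i
      rw [pow_zero]
    · intro α hα
      rw [if_neg]
      exact fun h => hα (hmem α h)

theorem flower_iso (hn : 0 < n) {f : (Fin n → ℂ) → (Fin n → ℂ)} {a : Fin n → (Fin n →₀ ℕ) → ℂ}
    {ν : ℕ} (hf : HasSeries f a) (hν : TangentToId a ν) (w : Fin n → ℕ) (hw : ∀ i, 0 < w i)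
    (d : ℕ) (hd : 0 < d)
    (hdeg : ∀ j α, a j α ≠ 0 → α ≠ Finsupp.single j 1 → (w j : ℝ) + d ≤ wt (fun i => (w i : ℝ)) α)
    (hiso : ∀ c : Fin n → ℂ, (∀ j, leadR (fun i => (w i : ℝ)) d a j c = 0) → c = 0) :
    ∃ v : Fin n → ℂ, v ≠ 0 ∧ HasFlower f ν v := by
  classical
  choose P hP hPe using fun j => exists_leadPoly w hw (w j + d) (a j)
  have hlead : ∀ j c, leadR (fun i => (w i : ℝ)) d a j c = MvPolynomial.eval c (P j) := by
    intro j c
    rw [hPe]
    unfold leadR
    refine tsum_congr fun α => ?_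
    have h1 : wt (fun i => (w i : ℝ)) α = (w j : ℝ) + d ↔ Finsupp.weight w α = w j + d := by
      rw [wt_nat]
      constructor
      · intro h; exact_mod_cast h
      · intro h; rw [h]; push_cast; ring
    by_cases h : Finsupp.weight w α = w j + d
    · rw [if_pos h, if_pos (h1.2 h)]
    · rw [if_neg h, if_neg (fun h' => h (h1.1 h'))]
  have hwt_single : ∀ j : Fin n, Finsupp.weight w (Finsupp.single j 1) = w j := by
    intro j
    rw [Finsupp.weight_apply, Finsupp.sum_single_index] <;> simp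
  obtain ⟨c, hc0, hc⟩ := exists_char hn w hw d hd P
    (fun j β hβ => (hP j β hβ).1)
    (by
      intro j β hβ
      obtain ⟨h1, h2⟩ := hP j β hβ
      by_contra hlt
      have h3 := hν.2.1 j β (lt_of_lt_of_le (not_le.1 hlt) hν.1)
      by_cases h4 : β = Finsupp.single j 1
      · rw [h4, hwt_single] at h1
        omega
      · rw [if_neg h4] at h3
        exact h2 h3)
    (fun c h => hiso c fun j => by rw [hlead]; exact h j)
  have hdc : (d : ℂ) ≠ 0 := by exact_mod_cast hd.ne'
  refine flower_real hf hν (fun i => (w i : ℝ)) (fun i => by exact_mod_cast hw i) d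
    (by exact_mod_cast hd) hdeg c hc0 (-(d : ℂ)⁻¹) (neg_ne_zero.2 (inv_ne_zero hdc)) ?_
  intro j
  rw [hlead, hc]
  push_cast
  rw [div_eq_mul_inv]
  ring

end FFL
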