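import Pool.Agent.FFL.C4
import Pool.Agent.FFL.D2
import Pool.Agent.FFL.D4
import Pool.Agent.FFL.G2

/-!
# [FFL-G4] complex weights
-/

set_option autoImplicit false

open Filter Topology

namespace FFL

variable {n : ℕ}

theorem ylim {s : ℕ} (γ : Fin (s + 1) → ℂ) (hγ : ∀ i, 0 < (γ i).re) (c : Fin n → ℂ)
    (Y : Fin n → AA (Fin (s + 1))) (hY : ∀ j, Y j - cst _ (c j) ∈ II (Fin (s + 1))) (κ : ℕ)
    (hκ : 1 ≤ κ) (R C : ℝ) (hR : 1 ≤ R) (hC : 0 ≤ C) (v : ℂ → Fin n → ℂ)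
    (hv : ∀ ζ ∈ HP R, ‖v ζ‖ ≤ C * ‖ζ‖ ^ (-(κ : ℝ))) :
    ∀ j, ∀ ε > 0, ∃ R₁ : ℝ, ∀ ζ ∈ HP R, R₁ ≤ ‖ζ‖ → ‖y0 γ Y ζ j + v ζ j - c j‖ ≤ ε := by
  obtain ⟨C₁, ρ₁, hC₁, hρ₁, hlim⟩ := y0_lim γ hγ c Y hY
  intro j ε hε
  have hκ1 : (0 : ℝ) < κ := by exact_mod_cast hκ
  obtain ⟨R₁, h₁⟩ := rpow_small ρ₁ C₁ hρ₁ hC₁ (ε / 2) (half_pos hε)
  obtain ⟨R₂, h₂⟩ := rpow_small κ C hκ1 hC (ε / 2) (half_pos hε)
  refine ⟨max R₁ R₂, fun ζ hζ hle => ?_⟩
  have e1 := h₁ ‖ζ‖ ((le_max_left _ _).trans hle)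
  have e2 := h₂ ‖ζ‖ ((le_max_right _ _).trans hle)
  have e3 : y0 γ Y ζ j + v ζ j - c j = (y0 γ Y ζ j - c j) + v ζ j := by ring
  rw [e3]
  refine (norm_add_le _ _).trans ?_
  have e4 := hlim ζ (HP_mono hR hζ) j
  have e5 := (norm_le_pi_norm (v ζ) j).trans (hv ζ hζ)
  linarith

theorem flower_smul {f : (Fin n → ℂ) → (Fin n → ℂ)} {ν : ℕ} {v : Fin n → ℂ} (t : ℂ) (ht : t ≠ 0)
    (h : HasFlower f ν (fun j => t * v j)) : HasFlower f ν v := by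
  intro U hU
  obtain ⟨δ, hδ, φ, hinj, hφU, h1⟩ := h U hU
  refine ⟨δ, hδ, φ, hinj, hφU, fun ξ₀ hξ₀ => ?_⟩
  obtain ⟨h2, h4⟩ := h1 ξ₀ hξ₀
  refine ⟨h2, fun i j => ?_⟩
  have h5 := (h4 i j).const_mul t⁻¹
  rw [mul_zero] at h5
  refine h5.congr fun ξ => ?_
  field_simp

open Classical in
theorem flower_complex_norm {f : (Fin n → ℂ) → (Fin n → ℂ)} {a : Fin n → (Fin n →₀ ℕ) → ℂ}
    {ν : ℕ} (hf : HasSeries f a) (hν : TangentToId a ν) (q : Fin n → ℂ)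
    (hq : ∀ i, 0 < (q i).re) (hw : WDeg q a) (c : Fin n → ℂ) (j₀ : Fin n) (hj₀ : c j₀ ≠ 0)
    (hmin : ∀ j, q j = q j₀ ∨ (q j₀).re < (q j).re) (hc : ∀ j, lead q a j c = -q j * c j) :
    HasFlower f ν (fun j => if q j = q j₀ then c j else 0) := by
  have hc0 : c ≠ 0 := fun h => hj₀ (by rw [h]; rfl)
  obtain ⟨s, γ, Y, hγ, hγr, hY, κ, hκ, R, C, v, hR, hC, hv, hd, hinj, hne, heq, C', ρ, hC', hρ,
    hb⟩ := core hf q hq hw (coeff_single hν) c hc0 hc 1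
  have hyl := ylim γ hγ c Y hY κ hκ R C hR hC v hv
  refine flower_of_curve f ν hν.1 _ R C' ρ hρ hC' _ hd hinj hne heq hb ?_
  have hz0 : ∀ {ζ : ℂ}, ζ ∈ HP R → ζ ≠ 0 := by
    intro ζ hζ h0
    have h1 := norm_ge_of_HP hζ
    rw [h0, norm_zero] at h1
    linarith
  have hlamne : ∀ ζ ∈ HP R, ζ ^ (-q j₀) ≠ 0 := by
    intro ζ hζ h0
    rw [Complex.cpow_eq_zero_iff] at h0
    exact hz0 hζ h0.1
  refine htan_of_scalar R _ (fun ζ => ζ ^ (-q j₀)) _ ?_ ⟨0, fun ζ hζ _ => hlamne ζ hζ⟩ ?_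
  · intro h0
    have h1 := congrFun h0 j₀
    simp only [if_true, Pi.zero_apply] at h1
    exact hj₀ h1
  · intro i ε hε
    by_cases hi : q i = q j₀
    · obtain ⟨R₁, h1⟩ := hyl i ε hε
      refine ⟨R₁, fun ζ hζ hle => ?_⟩
      simp only [hi, if_true]
      rw [mul_div_cancel_left₀ _ (hlamne ζ hζ)]
      exact h1 ζ hζ hle
    · have hlt : (q j₀).re < (q i).re := (hmin i).resolve_left hi
      obtain ⟨C₃, hC₃, h3⟩ := cpow_bound (q i - q j₀)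
      obtain ⟨R₁, h1⟩ := hyl i 1 one_pos
      obtain ⟨R₂, h2⟩ := rpow_small ((q i).re - (q j₀).re) (C₃ * (‖c i‖ + 1)) (by linarith)
        (by positivity) ε hε
      refine ⟨max R₁ R₂, fun ζ hζ hle => ?_⟩
      simp only [hi, if_false, sub_zero]
      have e1 := h1 ζ hζ ((le_max_left _ _).trans hle)
      have e2 := h2 ‖ζ‖ ((le_max_right _ _).trans hle)
      have e3 : ζ ^ (-q i) * (y0 γ Y ζ i + v ζ i) / ζ ^ (-q j₀) =
          ζ ^ (-(q i - q j₀)) * (y0 γ Y ζ i + v ζ i) := by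
        have e4 : -q i = -(q i - q j₀) + -q j₀ := by ring
        rw [e4, Complex.cpow_add _ _ (hz0 hζ)]
        have e5 := hlamne ζ hζ
        field_simp
      rw [e3, norm_mul]
      have e6 := h3 ζ (HP_mono (by linarith) hζ)
      have e7 : ‖y0 γ Y ζ i + v ζ i‖ ≤ ‖c i‖ + 1 := by
        have e8 : y0 γ Y ζ i + v ζ i = c i + (y0 γ Y ζ i + v ζ i - c i) := by ring
        rw [e8]
        exact (norm_add_le _ _).trans (by linarith)
      have e9 : -(q i - q j₀).re = -((q i).re - (q j₀).re) := by rw [Complex.sub_re]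
      rw [e9] at e6
      calc ‖ζ ^ (-(q i - q j₀))‖ * ‖y0 γ Y ζ i + v ζ i‖
          ≤ (C₃ * ‖ζ‖ ^ (-((q i).re - (q j₀).re))) * (‖c i‖ + 1) :=
            mul_le_mul e6 e7 (norm_nonneg _)
              (mul_nonneg hC₃.le (Real.rpow_nonneg (norm_nonneg _) _))
        _ = C₃ * (‖c i‖ + 1) * ‖ζ‖ ^ (-((q i).re - (q j₀).re)) := by ring
        _ ≤ ε := e2

open Classical in
theorem flower_complex {f : (Fin n → ℂ) → (Fin n → ℂ)} {a : Fin n → (Fin n →₀ ℕ) → ℂ}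
    {ν : ℕ} (hf : HasSeries f a) (hν : TangentToId a ν) (q : Fin n → ℂ)
    (hq : ∀ i, 0 < (q i).re) (hw : WDeg q a) (c : Fin n → ℂ) (j₀ : Fin n) (hj₀ : c j₀ ≠ 0)
    (hmin : ∀ j, q j = q j₀ ∨ (q j₀).re < (q j).re) (lam : ℂ) (hlam : lam ≠ 0)
    (hc : ∀ j, lead q a j c = lam * (q j * c j)) :
    HasFlower f ν (fun j => if q j = q j₀ then c j else 0) := by
  obtain ⟨μ, hμ⟩ : ∃ μ : ℂ, μ = -lam⁻¹ := ⟨_, rfl⟩
  have hμ0 : μ ≠ 0 := by rw [hμ]; exact neg_ne_zero.2 (inv_ne_zero hlam)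
  have hpow : ∀ g : ℂ, μ ^ g ≠ 0 := fun g h0 => by
    rw [Complex.cpow_eq_zero_iff] at h0
    exact hμ0 h0.1
  have h1 := flower_complex_norm hf hν q hq hw (fun i => μ ^ q i * c i) j₀
    (mul_ne_zero (hpow _) hj₀) hmin (by
      intro j
      have h1 : lead q a j (fun i => μ ^ q i * c i) = μ ^ (q j + 1) * lead q a j c := by
        unfold lead
        rw [← tsum_mul_left]
        refine tsum_congr fun α => ?_
        by_cases h : pr q α = q j + 1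
        · rw [if_pos h, if_pos h, mon_scaled μ hμ0, h]
          ring
        · rw [if_neg h, if_neg h, mul_zero]
      rw [h1, hc j, Complex.cpow_add _ _ hμ0, Complex.cpow_one]
      have h2 : μ * lam = -1 := by
        rw [hμ]
        field_simp
      have h4 : μ ^ q j * μ * (lam * (q j * c j)) = μ ^ q j * (μ * lam) * (q j * c j) := by ring
      rw [h4, h2]
      ring)
  refine flower_smul (μ ^ q j₀) (hpow _) ?_
  have h2 : (fun j => μ ^ q j₀ * (if q j = q j₀ then c j else 0)) =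
      fun j => if q j = q j₀ then μ ^ q j * c j else 0 := by
    funext j
    by_cases h : q j = q j₀
    · rw [if_pos h, if_pos h, h]
    · rw [if_neg h, if_neg h, mul_zero]
  rw [h2]
  exact h1

end FFL
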