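import Pool.Agent.MP_d0c340_co.Brouwer3

/-!
# [FFL-N1a] a variational inequality on a simplex (Nash's argument)

`K = {w | 0 ≤ w, ∑ w = 1, w = 0 outside J}` is compact, convex and nonempty (subset of `stdSimplex ℝ (Fin n)`; a closed and
bounded set).  `M(w) = ∑_i w_i g_i(w)`, `r_i(w) = max 0 (g_i(w) - M(w))` for `i ∈ J` and `0` for `i ∉ J`,
`F(w)_i = (w_i + r_i(w)) / (1 + ∑_k r_k(w))`: continuous, maps `K` into `K`.  Brouwer: `MPd0c340.brouwer_convex`.
At a fixed point `w_i S = r_i`, `S = ∑ r_k`.  If `S > 0` then every `i` with `w_i > 0` (such an `i` is in `J`) has `r_i > 0`, `g_i > M(w)`, so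
`M(w) = ∑ w_i g_i > M(w) ∑ w_i = M(w)`, a contradiction.  So `S = 0`, all `r_i = 0` and `g_i ≤ M := M(w)` for `i ∈ J`.
`∑ w_i (M - g_i) = 0` has nonnegative terms, so `g_i = M` if `w_i > 0`.
-/

set_option autoImplicit false

namespace FFL

theorem nash {n : ℕ} (J : Finset (Fin n)) (hJ : J.Nonempty) (g : (Fin n → ℝ) → Fin n → ℝ)
    (hg : Continuous g) : ∃ w : Fin n → ℝ, (∀ i, 0 ≤ w i) ∧ ∑ i, w i = 1 ∧ (∀ i ∉ J, w i = 0) ∧
      ∃ M : ℝ, ∀ i ∈ J, g w i ≤ M ∧ (0 < w i → g w i = M) := by
  classical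
  set M : (Fin n → ℝ) → ℝ := fun w => ∑ i, w i * g w i with hM
  set R : (Fin n → ℝ) → Fin n → ℝ := fun w i => if i ∈ J then max 0 (g w i - M w) else 0 with hR
  set S : (Fin n → ℝ) → ℝ := fun w => ∑ k, R w k with hS
  set F : (Fin n → ℝ) → (Fin n → ℝ) := fun w i => (w i + R w i) / (1 + S w) with hF
  have hgi : ∀ i, Continuous fun w => g w i := fun i => (continuous_apply i).comp hg
  have hMc : Continuous M := by
    rw [hM]
    exact continuous_finsetSum _ fun i _ => (continuous_apply i).mul (hgi i)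
  have hRc : ∀ i, Continuous fun w => R w i := by
    intro i
    by_cases hi : i ∈ J
    · simp only [hR, if_pos hi]
      exact continuous_const.max ((hgi i).sub hMc)
    · simp only [hR, if_neg hi]
      exact continuous_const
  have hSc : Continuous S := continuous_finsetSum _ fun i _ => hRc i
  have hR0 : ∀ w i, 0 ≤ R w i := by
    intro w i
    by_cases hi : i ∈ J
    · simp only [hR, if_pos hi]; exact le_max_left _ _
    · simp only [hR, if_neg hi]; exact le_rfl
  have hS0 : ∀ w, 0 ≤ S w := fun w => Finset.sum_nonneg fun i _ => hR0 w i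
  have hden : ∀ w, 0 < 1 + S w := fun w => by linarith [hS0 w]
  have hFc : Continuous F := by
    refine continuous_pi fun i => ?_
    exact ((continuous_apply i).add (hRc i)).div (continuous_const.add hSc) fun w => (hden w).ne'
  set K : Set (Fin n → ℝ) := stdSimplex ℝ (Fin n) ∩ {w | ∀ i ∉ J, w i = 0} with hK
  have hclosed : IsClosed {w : Fin n → ℝ | ∀ i ∉ J, w i = 0} := by
    have : {w : Fin n → ℝ | ∀ i ∉ J, w i = 0} = ⋂ (i) (_ : i ∉ J), {w : Fin n → ℝ | w i = 0} := by
      ext w; simp
    rw [this]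
    exact isClosed_iInter fun i => isClosed_iInter fun _ =>
      isClosed_eq (continuous_apply i) continuous_const
  have hKc : IsCompact K := (isCompact_stdSimplex ℝ (Fin n)).inter_right hclosed
  have hKconv : Convex ℝ K := by
    refine (convex_stdSimplex ℝ (Fin n)).inter ?_
    intro x hx y hy a b _ _ _ i hi
    have h1 := hx i hi
    have h2 := hy i hi
    simp [h1, h2]
  have hKne : K.Nonempty := by
    obtain ⟨j, hj⟩ := hJ
    refine ⟨Pi.single j 1, single_mem_stdSimplex ℝ j, ?_⟩
    intro i hi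
    have : i ≠ j := fun h => hi (h ▸ hj)
    simp [Pi.single_apply, this]
  have hmaps : Set.MapsTo F K K := by
    rintro w ⟨⟨hw0, hw1⟩, hwJ⟩
    refine ⟨⟨fun i => ?_, ?_⟩, ?_⟩
    · exact div_nonneg (add_nonneg (hw0 i) (hR0 w i)) (hden w).le
    · simp only [hF]
      rw [← Finset.sum_div, Finset.sum_add_distrib, hw1, div_eq_one_iff_eq (hden w).ne']
    · intro i hi
      have h1 := hwJ i hi
      simp only [hF, hR, if_neg hi, h1, add_zero, zero_div]
  obtain ⟨w, ⟨⟨hw0, hw1⟩, hwJ⟩, hfix⟩ :=
    MPd0c340.brouwer_convex K hKc hKconv hKne F hFc.continuousOn hmaps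
  have hfix' : ∀ i, w i * S w = R w i := by
    intro i
    have h1 : F w i = w i := congrFun hfix i
    simp only [hF] at h1
    rw [div_eq_iff (hden w).ne'] at h1
    linarith
  have hsum0 : ∑ i, w i * (g w i - M w) = 0 := by
    have h1 : ∑ i, w i * (g w i - M w) = ∑ i, w i * g w i - (∑ i, w i) * M w := by
      rw [Finset.sum_mul, ← Finset.sum_sub_distrib]
      exact Finset.sum_congr rfl fun i _ => by ring
    rw [h1, hw1, one_mul]
    simp only [hM, sub_self]
  have hSz : S w = 0 := by
    by_contra hne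
    have hSpos : 0 < S w := lt_of_le_of_ne (hS0 w) (Ne.symm hne)
    have hpos : ∀ i, 0 < w i → 0 < g w i - M w := by
      intro i hi
      have h1 : 0 < R w i := by rw [← hfix' i]; positivity
      by_cases hiJ : i ∈ J
      · simp only [hR, if_pos hiJ] at h1
        rcases lt_max_iff.1 h1 with h | h
        · exact absurd h (lt_irrefl _)
        · exact h
      · simp only [hR, if_neg hiJ] at h1
        exact absurd h1 (lt_irrefl _)
    have hterm : ∀ i, 0 ≤ w i * (g w i - M w) := by
      intro i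
      rcases eq_or_lt_of_le (hw0 i) with h | h
      · rw [← h, zero_mul]
      · exact (mul_pos h (hpos i h)).le
    have hz := (Finset.sum_eq_zero_iff_of_nonneg fun i _ => hterm i).1 hsum0
    have hall : ∀ i, w i = 0 := by
      intro i
      by_contra hi
      have hi' : 0 < w i := lt_of_le_of_ne (hw0 i) (Ne.symm hi)
      exact (mul_pos hi' (hpos i hi')).ne' (hz i (Finset.mem_univ i))
    rw [Finset.sum_eq_zero fun i _ => hall i] at hw1
    exact zero_ne_one hw1
  have hRz : ∀ i, R w i = 0 := fun i =>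
    (Finset.sum_eq_zero_iff_of_nonneg fun i _ => hR0 w i).1 hSz i (Finset.mem_univ i)
  have hle : ∀ i ∈ J, g w i ≤ M w := by
    intro i hi
    have h1 := hRz i
    simp only [hR, if_pos hi] at h1
    have h2 : g w i - M w ≤ 0 := by
      rw [← h1]; exact le_max_right _ _
    linarith
  refine ⟨w, hw0, hw1, hwJ, M w, fun i hi => ⟨hle i hi, fun hwi => ?_⟩⟩
  have hterm : ∀ k, 0 ≤ -(w k * (g w k - M w)) := by
    intro k
    by_cases hk : k ∈ J
    · have := hle k hk
      have h3 := hw0 k
      nlinarith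
    · rw [hwJ k hk]; simp
  have hsum1 : ∑ k, -(w k * (g w k - M w)) = 0 := by
    rw [Finset.sum_neg_distrib, hsum0, neg_zero]
  have hz := (Finset.sum_eq_zero_iff_of_nonneg fun k _ => hterm k).1 hsum1 i (Finset.mem_univ i)
  have h4 : w i * (g w i - M w) = 0 := by linarith
  rcases mul_eq_zero.1 h4 with h | h
  · exact absurd h hwi.ne'
  · linarith

end FFL
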