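import Pool.Agent.FFL.N1a
import Pool.Agent.FFL.NDefs

/-!
# [FFL-N1b] weights for a positive direction `d`

For `i ∈ J` let `A'_i = {m ∈ A i | In J m}` (nonempty, finite), `T_i(w) = min_{m ∈ A'_i} wt w m`
(`Finset.inf'`, continuous: `Continuous.finset_inf'_apply`; or use `nash` for a function with
`g i = if h : (A' i).Nonempty then ... else 0`), `g_i(w) = (T_i(w) - w_i)/d_i`; apply `nash`.  The minimum is attained
(`Finset.exists_mem_eq_inf'` or `Finset.exists_min_image`).
-/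

set_option autoImplicit false

namespace FFL

variable {n : ℕ}

theorem weights_d (J : Finset (Fin n)) (hJ : J.Nonempty) (A : Fin n → Finset (Fin n →₀ ℕ))
    (hA : ∀ i ∈ J, ∃ m ∈ A i, In J m) (d : Fin n → ℝ) (hd : ∀ i, 0 < d i) :
    ∃ w : Fin n → ℝ, (∀ i, 0 ≤ w i) ∧ ∑ i, w i = 1 ∧ (∀ i ∉ J, w i = 0) ∧
      ∃ (M : ℝ) (m : Fin n → (Fin n →₀ ℕ)), ∀ i ∈ J, m i ∈ A i ∧ In J (m i) ∧
        (∀ m' ∈ A i, In J m' → wt w (m i) ≤ wt w m') ∧ wt w (m i) - w i ≤ M * d i ∧
        (0 < w i → wt w (m i) - w i = M * d i) := by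
  classical
  set A' : Fin n → Finset (Fin n →₀ ℕ) := fun i => (A i).filter (fun m => In J m) with hA'
  have hne : ∀ i ∈ J, (A' i).Nonempty := by
    intro i hi
    obtain ⟨m, hm, hm'⟩ := hA i hi
    exact ⟨m, Finset.mem_filter.2 ⟨hm, hm'⟩⟩
  have hwt : ∀ m : Fin n →₀ ℕ, Continuous fun w : Fin n → ℝ => wt w m := by
    intro m
    unfold wt
    fun_prop
  set g : (Fin n → ℝ) → Fin n → ℝ := fun w i =>
    if h : (A' i).Nonempty then ((A' i).inf' h (fun m => wt w m) - w i) / d i else 0 with hg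
  have hgc : Continuous g := by
    refine continuous_pi fun i => ?_
    by_cases h : (A' i).Nonempty
    · have h1 : (fun w => g w i) =
          fun w : Fin n → ℝ => ((A' i).inf' h (fun m => wt w m) - w i) / d i := by
        funext w
        simp only [hg, dif_pos h]
      rw [h1]
      exact ((Continuous.finset_inf'_apply h fun m _ => hwt m).sub (continuous_apply i)).div_const _
    · have h1 : (fun w => g w i) = fun _ => 0 := by
        funext w
        simp only [hg, dif_neg h]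
      rw [h1]
      exact continuous_const
  obtain ⟨w, hw0, hw1, hwJ, M, hM⟩ := nash J hJ g hgc
  have key : ∀ i, ∃ m : Fin n →₀ ℕ, i ∈ J → m ∈ A i ∧ In J m ∧
      (∀ m' ∈ A i, In J m' → wt w m ≤ wt w m') ∧ (wt w m - w i) / d i = g w i := by
    intro i
    by_cases hi : i ∈ J
    · obtain ⟨m, hm, hmin⟩ := Finset.exists_mem_eq_inf' (hne i hi) (fun m => wt w m)
      obtain ⟨h1, h2⟩ := Finset.mem_filter.1 hm
      refine ⟨m, fun _ => ⟨h1, h2, ?_, ?_⟩⟩
      · intro m' hm' hJm'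
        rw [← hmin]
        exact Finset.inf'_le _ (Finset.mem_filter.2 ⟨hm', hJm'⟩)
      · simp only [hg, dif_pos (hne i hi), hmin]
    · exact ⟨0, fun h => absurd h hi⟩
  choose m hm using key
  refine ⟨w, hw0, hw1, hwJ, M, m, fun i hi => ?_⟩
  obtain ⟨h1, h2, h3, h4⟩ := hm i hi
  obtain ⟨h5, h6⟩ := hM i hi
  refine ⟨h1, h2, h3, ?_, fun hpos => ?_⟩
  · rw [← h4, div_le_iff₀ (hd i)] at h5
    exact h5
  · have h7 := h6 hpos
    rw [← h4, div_eq_iff (hd i).ne'] at h7
    exact h7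

end FFL
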