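import Pool.Agent.FFL.NDefs

/-!
# [FFL-N1c] positivity of the weights

Let `Z = {i ∈ J | w i = 0}`.  Suppose `Z` is nonempty.  `Z ≠ J` because `∑ w = 1` and `w = 0` outside `J`.  `hirr` gives `i ∈ J`, `i ∉ Z`
(so `0 < w i`) and `m' ∈ A i` with `In Z m'`: `wt w m' = 0`, and `In J m'`, so `wt w (m i) ≤ 0` and
`M d_i = wt w (m i) - w i < 0`, `M < 0`.  For `k ∈ Z`: `0 ≤ wt w (m k) = wt w (m k) - w k ≤ M d_k < 0`, a contradiction.
So `0 < w i` for all `i ∈ J`.  Choose `i ∈ J` with `w i` minimal in `J`: `wt w (m i) = ∑_{k ∈ J} (m i)_k w_k ≥ deg (m i) w_i ≥ 2 w_i`, so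
`M d_i = wt w (m i) - w_i ≥ w_i > 0`.
-/

set_option autoImplicit false

namespace FFL

variable {n : ℕ}

theorem weights_pos (J : Finset (Fin n)) (hJ : J.Nonempty) (A : Fin n → Finset (Fin n →₀ ℕ))
    (h2 : ∀ i, ∀ m ∈ A i, 2 ≤ deg m)
    (hirr : ∀ Z ⊆ J, Z.Nonempty → Z ≠ J → ∃ i ∈ J, i ∉ Z ∧ ∃ m ∈ A i, In Z m)
    (d : Fin n → ℝ) (hd : ∀ i, 0 < d i) (w : Fin n → ℝ) (hw0 : ∀ i, 0 ≤ w i)
    (hw1 : ∑ i, w i = 1) (hwJ : ∀ i ∉ J, w i = 0) (M : ℝ) (m : Fin n → (Fin n →₀ ℕ))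
    (hm : ∀ i ∈ J, m i ∈ A i ∧ In J (m i) ∧
        (∀ m' ∈ A i, In J m' → wt w (m i) ≤ wt w m') ∧ wt w (m i) - w i ≤ M * d i ∧
        (0 < w i → wt w (m i) - w i = M * d i)) : 0 < M ∧ ∀ i ∈ J, 0 < w i := by
  classical
  have hwt0 : ∀ m : Fin n →₀ ℕ, 0 ≤ wt w m := fun m =>
    Finset.sum_nonneg fun k _ => mul_nonneg (Nat.cast_nonneg _) (hw0 k)
  have hpos : ∀ i ∈ J, 0 < w i := by
    by_contra hcon
    push Not at hcon
    obtain ⟨i0, hi0, hi0'⟩ := hcon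
    set Z : Finset (Fin n) := J.filter (fun i => w i = 0) with hZ
    have hi0Z : i0 ∈ Z := Finset.mem_filter.2 ⟨hi0, le_antisymm hi0' (hw0 i0)⟩
    have hZJ : Z ≠ J := by
      intro hZJ
      have h1 : ∑ i, w i = 0 := by
        refine Finset.sum_eq_zero fun i _ => ?_
        by_cases hi : i ∈ J
        · rw [← hZJ] at hi
          exact (Finset.mem_filter.1 hi).2
        · exact hwJ i hi
      rw [h1] at hw1
      exact zero_ne_one hw1
    obtain ⟨i, hiJ, hiZ, m', hm', hm'Z⟩ := hirr Z (Finset.filter_subset _ _) ⟨i0, hi0Z⟩ hZJ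
    have h2 : wt w m' = 0 := by
      refine Finset.sum_eq_zero fun k _ => ?_
      by_cases hk : k ∈ Z
      · rw [(Finset.mem_filter.1 hk).2, mul_zero]
      · rw [hm'Z k hk, Nat.cast_zero, zero_mul]
    obtain ⟨-, -, h3, -, h5⟩ := hm i hiJ
    have h6 := h3 m' hm' (hm'Z.mono (Finset.filter_subset _ _))
    rw [h2] at h6
    have hwi : 0 < w i := by
      rcases (hw0 i).eq_or_lt with h7 | h7
      · exact absurd (Finset.mem_filter.2 ⟨hiJ, h7.symm⟩) hiZ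
      · exact h7
    have h8 := h5 hwi
    have h9 : M * d i < 0 := by linarith
    have hM : M < 0 := by
      by_contra h10
      push Not at h10
      have := mul_nonneg h10 (hd i).le
      linarith
    obtain ⟨-, -, -, h11, -⟩ := hm i0 hi0
    have h12 := mul_neg_of_neg_of_pos hM (hd i0)
    have h13 := hwt0 (m i0)
    have h14 : w i0 = 0 := (Finset.mem_filter.1 hi0Z).2
    linarith
  refine ⟨?_, hpos⟩
  obtain ⟨i0, hi0, hmin⟩ := Finset.exists_min_image J w hJ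
  obtain ⟨h1, h2', -, -, h5⟩ := hm i0 hi0
  have h6 := h5 (hpos i0 hi0)
  have h7 : 2 * w i0 ≤ wt w (m i0) := by
    have h8 : (∑ k, (m i0 k : ℝ)) * w i0 ≤ wt w (m i0) := by
      unfold wt
      rw [Finset.sum_mul]
      refine Finset.sum_le_sum fun k _ => ?_
      by_cases hk : k ∈ J
      · exact mul_le_mul_of_nonneg_left (hmin k hk) (Nat.cast_nonneg _)
      · rw [h2' k hk, Nat.cast_zero, zero_mul, zero_mul]
    have h9 : (2 : ℝ) ≤ ∑ k, (m i0 k : ℝ) := by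
      have h10 := h2 i0 (m i0) h1
      have h11 : (2 : ℝ) ≤ ((deg (m i0) : ℕ) : ℝ) := by exact_mod_cast h10
      refine h11.trans (le_of_eq ?_)
      unfold deg
      push_cast
      rfl
    exact (mul_le_mul_of_nonneg_right h9 (hw0 i0)).trans h8
  have h8 : 0 < M * d i0 := by
    have := hpos i0 hi0
    linarith
  by_contra hcon
  push Not at hcon
  have := mul_nonpos_of_nonpos_of_nonneg hcon (hd i0).le
  linarith

end FFL
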