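import Pool.Agent.FFL.NDefs

/-!
# [FFL-N1d] for all but finitely many points of the moment curve the minimisers are independent

Only finitely many families `(m i)_{i ∈ J}` with `m i ∈ A i` exist.  For every such family which is not linearly independent choose
`t : J → ℂ`, `t ≠ 0`, with `∑_{i ∈ J} t_i shiftv m i = 0` (`Fintype.not_linearIndependent_iff`); the polynomial `∑_{i ∈ J} t_i X^i ∈ ℂ[X]` is
nonzero and has finitely many roots.  `F` is the union of these finite sets of (real) roots.
Let `s ∉ F` and let `w, M, m` be as in the statement, the family not linearly independent.  With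
`∑_k w_k (shiftv m i)_k = wt w (m i) - w_i = M s^i` (as complex numbers): `0 = ∑_{i ∈ J} t_i M s^i`, `M ≠ 0`: `s` is a root.
(The vectors `shiftv m i`, `i ∈ J`, depend only on the restriction of `m` to `J`.)
-/

set_option autoImplicit false

namespace FFL

variable {n : ℕ}

theorem n1d_aux {J : Finset (Fin n)} (φ : J → (Fin n →₀ ℕ)) :
    ∃ F : Finset ℝ, ∀ s : ℝ, s ∉ F → ∀ (w : Fin n → ℝ) (M : ℝ), M ≠ 0 →
      (∀ i : J, wt w (φ i) - w i = M * s ^ ((i : Fin n) : ℕ)) →
        LinearIndependent ℂ (fun (i : J) (k : Fin n) =>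
          (φ i k : ℂ) - if k = (i : Fin n) then 1 else 0) := by
  classical
  by_cases hli : LinearIndependent ℂ (fun (i : J) (k : Fin n) =>
      (φ i k : ℂ) - if k = (i : Fin n) then 1 else 0)
  · exact ⟨∅, fun _ _ _ _ _ _ => hli⟩
  · obtain ⟨t, ht, i0, hi0⟩ := Fintype.not_linearIndependent_iff.1 hli
    set p : Polynomial ℂ := ∑ i : J, Polynomial.C (t i) * Polynomial.X ^ ((i : Fin n) : ℕ) with hp
    have hp0 : p ≠ 0 := by
      intro h0
      apply hi0
      have h1 : p.coeff ((i0 : Fin n) : ℕ) = t i0 := by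
        rw [hp, Polynomial.finsetSum_coeff, Finset.sum_eq_single i0]
        · rw [Polynomial.coeff_C_mul, Polynomial.coeff_X_pow, if_pos rfl, mul_one]
        · intro b _ hb
          rw [Polynomial.coeff_C_mul, Polynomial.coeff_X_pow, if_neg, mul_zero]
          intro h2
          exact hb (Subtype.ext (Fin.ext h2)).symm
        · intro h
          exact absurd (Finset.mem_univ _) h
      rw [← h1, h0, Polynomial.coeff_zero]
    refine ⟨p.roots.toFinset.image Complex.re, fun s hs w M hM hw => ?_⟩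
    exfalso
    apply hs
    rw [Finset.mem_image]
    refine ⟨(s : ℂ), ?_, Complex.ofReal_re s⟩
    rw [Multiset.mem_toFinset, Polynomial.mem_roots hp0, Polynomial.IsRoot.def]
    have h2 : p.eval (s : ℂ) = ∑ i : J, t i * (s : ℂ) ^ ((i : Fin n) : ℕ) := by
      rw [hp, Polynomial.eval_finsetSum]
      refine Finset.sum_congr rfl fun i _ => ?_
      simp
    have h3 : ∀ i : J, (M : ℂ) * (s : ℂ) ^ ((i : Fin n) : ℕ) =
        ∑ k, (w k : ℂ) * ((φ i k : ℂ) - if k = (i : Fin n) then 1 else 0) := by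
      intro i
      have h4 : ((M * s ^ ((i : Fin n) : ℕ) : ℝ) : ℂ) = ((wt w (φ i) - w i : ℝ) : ℂ) := by
        rw [hw i]
      push_cast at h4
      rw [h4]
      unfold wt
      push_cast
      simp only [mul_sub, Finset.sum_sub_distrib, mul_ite, mul_one, mul_zero,
        Finset.sum_ite_eq', Finset.mem_univ, if_true]
      congr 1
      exact Finset.sum_congr rfl fun k _ => mul_comm _ _
    have h5 : (M : ℂ) * p.eval (s : ℂ) = 0 := by
      rw [h2, Finset.mul_sum]
      have h6 : ∀ i : J, (M : ℂ) * (t i * (s : ℂ) ^ ((i : Fin n) : ℕ)) =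
          ∑ k, (w k : ℂ) * (t i * ((φ i k : ℂ) - if k = (i : Fin n) then 1 else 0)) := by
        intro i
        rw [show (M : ℂ) * (t i * (s : ℂ) ^ ((i : Fin n) : ℕ)) =
          t i * ((M : ℂ) * (s : ℂ) ^ ((i : Fin n) : ℕ)) by ring, h3 i, Finset.mul_sum]
        exact Finset.sum_congr rfl fun k _ => by ring
      rw [Finset.sum_congr rfl fun i _ => h6 i, Finset.sum_comm]
      refine Finset.sum_eq_zero fun k _ => ?_
      rw [← Finset.mul_sum]
      have h7 := congrFun ht k
      rw [Finset.sum_apply] at h7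
      simp only [Pi.smul_apply, smul_eq_mul, Pi.zero_apply] at h7
      rw [h7, mul_zero]
    rcases mul_eq_zero.1 h5 with h6 | h6
    · exact absurd (Complex.ofReal_eq_zero.1 h6) hM
    · exact h6

theorem generic_s (J : Finset (Fin n)) (A : Fin n → Finset (Fin n →₀ ℕ)) :
    ∃ F : Finset ℝ, ∀ s : ℝ, s ∉ F → ∀ (w : Fin n → ℝ) (M : ℝ) (m : Fin n → (Fin n →₀ ℕ)),
      M ≠ 0 → (∀ i ∈ J, m i ∈ A i) → (∀ i ∈ J, wt w (m i) - w i = M * s ^ (i : ℕ)) →
        LinearIndependent ℂ (fun i : J => shiftv m i) := by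
  classical
  choose F hF using fun φ : J → (Fin n →₀ ℕ) => n1d_aux φ
  refine ⟨(Fintype.piFinset (fun i : J => A i)).biUnion F, fun s hs w M m hM hmA hw => ?_⟩
  have hφ : (fun i : J => m i) ∈ Fintype.piFinset (fun i : J => A i) :=
    Fintype.mem_piFinset.2 fun i => hmA i i.2
  exact hF (fun i : J => m i) s (fun h => hs (Finset.mem_biUnion.2 ⟨_, hφ, h⟩)) w M hM
    (fun i => hw i i.2)

end FFL
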