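import Pool.Agent.FFL.N1b
import Pool.Agent.FFL.N1c
import Pool.Agent.FFL.N1d

/-!
# [FFL-N1e] the weights

`generic_s` gives the finite set `F`.  Choose a sequence `s_k ∈ (1, 2)`, `s_k ∉ F`, `s_k → 1` (e.g. `1 + 1/(k + k₀)`).  With
`d_i = s_k^i > 0` (`i : Fin n`): `weights_d` and `weights_pos` give `w_k`, `M_k > 0`, `m_k` with `w_k > 0` on `J` and
`wt w_k (m_k i) - w_k i = M_k s_k^i` for `i ∈ J`, and `generic_s` gives the independence.  We may assume that `m_k i = 0` for `i ∉ J`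
(change it; `shiftv m_k i` for `i ∈ J` does not change), so that `m_k` takes finitely many values: some `m` occurs infinitely often;
pass to this subsequence.  The `w_k` are in the compact standard simplex, pass to a convergent subsequence, `w_k → w`;
`M_k = (wt w_k (m i) - w_k i)/s_k^i` converges too, to `M = wt w (m i) - w i` (for all `i ∈ J`).  In the limit: `0 ≤ w`, `∑ w = 1`, `w = 0`
outside `J`, `wt w (m i) ≤ wt w m'` for `m' ∈ A i`, `In J m'`, `wt w (m i) - w i = M` for all `i ∈ J`.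
`weights_pos` with `d = 1` gives `0 < M` and `0 < w` on `J`.  `δ = M`.
-/

set_option autoImplicit false

namespace FFL

variable {n : ℕ}

open Filter Topology

theorem n1e_step (J : Finset (Fin n)) (hJ : J.Nonempty) (A : Fin n → Finset (Fin n →₀ ℕ))
    (h2 : ∀ i, ∀ m ∈ A i, 2 ≤ deg m) (hA : ∀ i ∈ J, ∃ m ∈ A i, In J m)
    (hirr : ∀ Z ⊆ J, Z.Nonempty → Z ≠ J → ∃ i ∈ J, i ∉ Z ∧ ∃ m ∈ A i, In Z m)
    {F : Finset ℝ} (hF : ∀ s : ℝ, s ∉ F → ∀ (w : Fin n → ℝ) (M : ℝ) (m : Fin n → (Fin n →₀ ℕ)),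
      M ≠ 0 → (∀ i ∈ J, m i ∈ A i) → (∀ i ∈ J, wt w (m i) - w i = M * s ^ (i : ℕ)) →
        LinearIndependent ℂ (fun i : J => shiftv m i)) {s : ℝ} (hs : 1 < s) (hsF : s ∉ F) :
    ∃ (w : Fin n → ℝ) (M : ℝ)
      (φ : {φ : J → (Fin n →₀ ℕ) // φ ∈ Fintype.piFinset (fun i : J => A i)}),
      w ∈ stdSimplex ℝ (Fin n) ∧ (∀ i ∉ J, w i = 0) ∧
      (∀ i : J, In J (φ.1 i) ∧ (∀ m' ∈ A i, In J m' → wt w (φ.1 i) ≤ wt w m') ∧
        wt w (φ.1 i) - w i = M * s ^ ((i : Fin n) : ℕ)) ∧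
      LinearIndependent ℂ (fun (i : J) (k : Fin n) =>
        (φ.1 i k : ℂ) - if k = (i : Fin n) then 1 else 0) := by
  classical
  have hd : ∀ i : Fin n, 0 < s ^ (i : ℕ) := fun i => pow_pos (by linarith) _
  obtain ⟨w, hw0, hw1, hwJ, M, m, hm⟩ := weights_d J hJ A hA (fun i => s ^ (i : ℕ)) hd
  obtain ⟨hM, hpos⟩ := weights_pos J hJ A h2 hirr _ hd w hw0 hw1 hwJ M m hm
  have hli := hF s hsF w M m hM.ne' (fun i hi => (hm i hi).1)
    (fun i hi => (hm i hi).2.2.2.2 (hpos i hi))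
  refine ⟨w, M, ⟨fun i : J => m i, Fintype.mem_piFinset.2 fun i => (hm i i.2).1⟩,
    ⟨hw0, hw1⟩, hwJ, fun i => ?_, hli⟩
  exact ⟨(hm i i.2).2.1, (hm i i.2).2.2.1, (hm i i.2).2.2.2.2 (hpos i i.2)⟩

theorem n1e_seq (F : Finset ℝ) : ∃ s : ℕ → ℝ, Tendsto s atTop (𝓝 1) ∧
    ∀ k, 1 < s k ∧ s k ∉ F := by
  classical
  have h1 : ∀ᶠ s in 𝓝 (1 : ℝ), s ∉ F.erase 1 := by
    have h2 : IsOpen ((F.erase 1 : Finset ℝ) : Set ℝ)ᶜ :=
      (F.erase 1).finite_toSet.isClosed.isOpen_compl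
    have h3 : (1 : ℝ) ∈ ((F.erase 1 : Finset ℝ) : Set ℝ)ᶜ := by simp
    exact h2.mem_nhds h3
  have h4 : ∀ᶠ s in 𝓝[>] (1 : ℝ), 1 < s ∧ s ∉ F := by
    filter_upwards [h1.filter_mono nhdsWithin_le_nhds, self_mem_nhdsWithin] with s hs hs'
    refine ⟨hs', fun hsF => hs (Finset.mem_erase.2 ⟨?_, hsF⟩)⟩
    exact (Set.mem_Ioi.1 hs').ne'
  obtain ⟨s, hs, hs'⟩ := exists_seq_forall_of_frequently h4.frequently
  exact ⟨s, hs.mono_right nhdsWithin_le_nhds, hs'⟩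

theorem weights (J : Finset (Fin n)) (hJ : J.Nonempty) (A : Fin n → Finset (Fin n →₀ ℕ))
    (h2 : ∀ i, ∀ m ∈ A i, 2 ≤ deg m) (hA : ∀ i ∈ J, ∃ m ∈ A i, In J m)
    (hirr : ∀ Z ⊆ J, Z.Nonempty → Z ≠ J → ∃ i ∈ J, i ∉ Z ∧ ∃ m ∈ A i, In Z m) :
    ∃ (w : Fin n → ℝ) (δ : ℝ) (m : Fin n → (Fin n →₀ ℕ)), 0 < δ ∧ (∀ i ∈ J, 0 < w i) ∧
      (∀ i ∉ J, w i = 0) ∧ (∀ i ∈ J, m i ∈ A i ∧ In J (m i) ∧ wt w (m i) = w i + δ ∧
        ∀ m' ∈ A i, In J m' → w i + δ ≤ wt w m') ∧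
      LinearIndependent ℂ (fun i : J => shiftv m i) := by
  classical
  obtain ⟨F, hF⟩ := generic_s J A
  obtain ⟨s, hs, hs'⟩ := n1e_seq F
  choose w M φ hw hwJ hφ hli using fun k =>
    n1e_step J hJ A h2 hA hirr hF (hs' k).1 (hs' k).2
  -- pigeonhole
  obtain ⟨φ0, hφ0⟩ := Finite.exists_infinite_fiber φ
  have hfreq : ∃ᶠ k in atTop, φ k = φ0 :=
    Nat.frequently_atTop_iff_infinite.2 (Set.infinite_coe_iff.1 hφ0)
  obtain ⟨ψ, hψ, hψ'⟩ := extraction_of_frequently_atTop hfreq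
  obtain ⟨w0, hw0, θ, hθ, hlim⟩ := (isCompact_stdSimplex (𝕜 := ℝ) (ι := Fin n)).tendsto_subseq
    (x := fun k => w (ψ k)) (fun k => hw (ψ k))
  have hκ : Tendsto (fun j => ψ (θ j)) atTop atTop :=
    hψ.tendsto_atTop.comp hθ.tendsto_atTop
  have hlim' : Tendsto (fun j => w (ψ (θ j))) atTop (𝓝 w0) := hlim
  have hsl : Tendsto (fun j => s (ψ (θ j))) atTop (𝓝 1) := hs.comp hκ
  have hwi : ∀ i, Tendsto (fun j => w (ψ (θ j)) i) atTop (𝓝 (w0 i)) := fun i =>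
    ((continuous_apply i).tendsto w0).comp hlim'
  have hwt : ∀ m : Fin n →₀ ℕ, Tendsto (fun j => wt (w (ψ (θ j))) m) atTop (𝓝 (wt w0 m)) := by
    intro m
    have hc : Continuous fun w : Fin n → ℝ => wt w m := by
      unfold wt
      fun_prop
    exact (hc.tendsto w0).comp hlim'
  have hφj : ∀ j (i : J), In J (φ0.1 i) ∧
      (∀ m' ∈ A i, In J m' → wt (w (ψ (θ j))) (φ0.1 i) ≤ wt (w (ψ (θ j))) m') ∧
        wt (w (ψ (θ j))) (φ0.1 i) - w (ψ (θ j)) i =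
          M (ψ (θ j)) * s (ψ (θ j)) ^ ((i : Fin n) : ℕ) := by
    intro j i
    have := hφ (ψ (θ j)) i
    rwa [hψ' (θ j)] at this
  have hw0J : ∀ i ∉ J, w0 i = 0 := by
    intro i hi
    have h3 : (fun j => w (ψ (θ j)) i) = fun _ => (0 : ℝ) := by
      funext j
      exact hwJ _ i hi
    have h4 := hwi i
    rw [h3] at h4
    exact tendsto_nhds_unique h4 tendsto_const_nhds
  obtain ⟨i0, hi0⟩ := hJ
  set M0 : ℝ := wt w0 (φ0.1 ⟨i0, hi0⟩) - w0 i0 with hM0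
  have hspow : ∀ i : ℕ, Tendsto (fun j => s (ψ (θ j)) ^ i) atTop (𝓝 1) := by
    intro i
    have := hsl.pow i
    rwa [one_pow] at this
  have hMl : Tendsto (fun j => M (ψ (θ j))) atTop (𝓝 M0) := by
    have h3 : (fun j => M (ψ (θ j))) = fun j =>
        (wt (w (ψ (θ j))) (φ0.1 ⟨i0, hi0⟩) - w (ψ (θ j)) i0) / s (ψ (θ j)) ^ (i0 : ℕ) := by
      funext j
      have h4 := (hφj j ⟨i0, hi0⟩).2.2
      have h5 : s (ψ (θ j)) ^ (i0 : ℕ) ≠ 0 := by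
        have := (hs' (ψ (θ j))).1
        positivity
      rw [eq_div_iff h5]
      exact h4.symm
    rw [h3]
    have h6 := ((hwt (φ0.1 ⟨i0, hi0⟩)).sub (hwi i0)).div (hspow (i0 : ℕ)) one_ne_zero
    rwa [div_one] at h6
  have heq : ∀ i : J, wt w0 (φ0.1 i) - w0 i = M0 := by
    intro i
    have h3 := (hwt (φ0.1 i)).sub (hwi i)
    have h4 := hMl.mul (hspow ((i : Fin n) : ℕ))
    rw [mul_one] at h4
    refine tendsto_nhds_unique h3 (h4.congr fun j => ?_)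
    exact ((hφj j i).2.2).symm
  have hle : ∀ i : J, ∀ m' ∈ A i, In J m' → wt w0 (φ0.1 i) ≤ wt w0 m' := by
    intro i m' hm' hJm'
    exact le_of_tendsto_of_tendsto' (hwt (φ0.1 i)) (hwt m')
      (fun j => (hφj j i).2.1 m' hm' hJm')
  set m : Fin n → (Fin n →₀ ℕ) := fun i => if h : i ∈ J then φ0.1 ⟨i, h⟩ else 0 with hm
  have hmi : ∀ i (h : i ∈ J), m i = φ0.1 ⟨i, h⟩ := fun i h => by
    simp only [hm, dif_pos h]
  have hmA : ∀ i ∈ J, m i ∈ A i := by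
    intro i hi
    rw [hmi i hi]
    exact Fintype.mem_piFinset.1 φ0.2 ⟨i, hi⟩
  have hmJ : ∀ i ∈ J, In J (m i) := by
    intro i hi
    rw [hmi i hi]
    exact (hφj 0 ⟨i, hi⟩).1
  have hmeq : ∀ i ∈ J, wt w0 (m i) - w0 i = M0 := by
    intro i hi
    rw [hmi i hi]
    exact heq ⟨i, hi⟩
  have hmle : ∀ i ∈ J, ∀ m' ∈ A i, In J m' → wt w0 (m i) ≤ wt w0 m' := by
    intro i hi
    rw [hmi i hi]
    exact hle ⟨i, hi⟩
  obtain ⟨hMpos, hpos⟩ := weights_pos J ⟨i0, hi0⟩ A h2 hirr (fun _ => 1) (fun _ => one_pos) w0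
    hw0.1 hw0.2 hw0J M0 m (fun i hi => ⟨hmA i hi, hmJ i hi, hmle i hi,
      by rw [mul_one]; exact (hmeq i hi).le, fun _ => by rw [mul_one]; exact hmeq i hi⟩)
  refine ⟨w0, M0, m, hMpos, hpos, hw0J, fun i hi => ⟨hmA i hi, hmJ i hi, ?_, ?_⟩, ?_⟩
  · have := hmeq i hi
    linarith
  · intro m' hm' hJm'
    have h3 := hmeq i hi
    have h4 := hmle i hi m' hm' hJm'
    linarith
  · have h3 : (fun i : J => shiftv m i) = fun (i : J) (k : Fin n) =>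
        (φ0.1 i k : ℂ) - if k = (i : Fin n) then 1 else 0 := by
      funext i k
      unfold shiftv
      rw [hmi i i.2]
    rw [h3]
    have h4 := hli (ψ 0)
    rwa [hψ' 0] at h4

end FFL
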