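import Pool.Agent.FFL.NDefs

/-!
# [FFL-N1f] a minimal invariant coordinate plane

Call `J` closed if `J` is nonempty and every `i` such that some `m ∈ A i` has `In J m` belongs to `J`.  `Finset.univ` is closed (`n > 0`).  Let `J` be
a closed set of minimal cardinality.  `IsolatedType` for `J` gives `I` with `|J| ≤ |I|` and `I ⊆ J` (closed), so `I = J`: first claim.  If
`Z ⊆ J` is nonempty and `Z ≠ J` then `Z` is not closed (smaller cardinality): there is `i ∉ Z` and `m ∈ A i` with `In Z m`; then `In J m` and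
`i ∈ J`.  The third claim is closedness.
-/

set_option autoImplicit false

namespace FFL

variable {n : ℕ}

theorem exists_plane (hn : 0 < n) (A : Fin n → Finset (Fin n →₀ ℕ)) (hI : IsolatedType A) :
    ∃ J : Finset (Fin n), J.Nonempty ∧ (∀ i ∈ J, ∃ m ∈ A i, In J m) ∧
      (∀ Z ⊆ J, Z.Nonempty → Z ≠ J → ∃ i ∈ J, i ∉ Z ∧ ∃ m ∈ A i, In Z m) ∧
      ∀ i ∉ J, ∀ m ∈ A i, ¬ In J m := by
  classical
  obtain ⟨P, hP⟩ : ∃ P : Finset (Fin n) → Prop, ∀ J, P J ↔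
      J.Nonempty ∧ ∀ i, (∃ m ∈ A i, In J m) → i ∈ J := ⟨_, fun _ => Iff.rfl⟩
  have huniv : P Finset.univ := by
    rw [hP]
    exact ⟨⟨⟨0, hn⟩, Finset.mem_univ _⟩, fun i _ => Finset.mem_univ i⟩
  obtain ⟨J, hJ, hmin⟩ := Finset.exists_min_image (Finset.univ.filter fun J => P J)
    (fun J => J.card) ⟨Finset.univ, Finset.mem_filter.2 ⟨Finset.mem_univ _, huniv⟩⟩
  have hJP : P J := (Finset.mem_filter.1 hJ).2
  have hJ2 := (hP J).1 hJP
  have hmin' : ∀ Z, P Z → J.card ≤ Z.card := fun Z hZ =>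
    hmin Z (Finset.mem_filter.2 ⟨Finset.mem_univ _, hZ⟩)
  refine ⟨J, hJ2.1, ?_, ?_, ?_⟩
  · obtain ⟨I, hI1, hI2⟩ := hI J hJ2.1
    have hIJ : I ⊆ J := fun i hi => hJ2.2 i (hI2 i hi)
    have hEq : I = J := Finset.eq_of_subset_of_card_le hIJ hI1
    intro i hi
    rw [← hEq] at hi
    exact hI2 i hi
  · intro Z hZJ hZ hne
    have hnP : ¬ P Z := by
      intro h
      exact hne (Finset.eq_of_subset_of_card_le hZJ (hmin' Z h))
    rw [hP] at hnP
    push Not at hnP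
    obtain ⟨i, ⟨m, hm, hmZ⟩, hiZ⟩ := hnP hZ
    exact ⟨i, hJ2.2 i ⟨m, hm, hmZ.mono hZJ⟩, hiZ, m, hm, hmZ⟩
  · intro i hi m hm h
    exact hi (hJ2.2 i ⟨m, hm, h⟩)

end FFL
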