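import Pool.Agent.FFL.NDefs

/-!
# [FFL-N2a] monomial systems on the torus

The vectors `shiftv m i`, `i ∈ J`, are linearly independent in `ℂ^n`, so the linear map
`x ↦ (∑_k (shiftv m i)_k x_k)_{i ∈ J}`, `ℂ^n → ℂ^J`, is surjective (rank; e.g. `LinearIndependent` rows of a matrix:
`Matrix.rank`, or a linear form vanishing on the range is a relation between the rows).  Choose `η_i` with `exp η_i = y_i` (`i ∈ J`) and
`x` with `∑_k (shiftv m i)_k x_k = η_i`.  Put `c_k = exp x_k` for `k ∈ J` and `c_k = 0` for `k ∉ J`.  For `i ∈ J`, `(m i)_k = 0` for `k ∉ J`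
(and `k ≠ i`), so `c^(m i) = ∏_{k ∈ J} exp(x_k)^((m i)_k) = exp(∑_k (m i)_k x_k)` (sum over all `k`: the other terms are `0`)
`= exp(η_i + x_i) = y_i c_i`.
-/

set_option autoImplicit false

namespace FFL

variable {n : ℕ}

theorem monomial_surj (J : Finset (Fin n)) (m : Fin n → (Fin n →₀ ℕ)) (hm : ∀ i ∈ J, In J (m i))
    (hind : LinearIndependent ℂ (fun i : J => shiftv m i)) (y : Fin n → ℂ)
    (hy : ∀ i ∈ J, y i ≠ 0) : ∃ c : Fin n → ℂ, (∀ i ∉ J, c i = 0) ∧ (∀ i ∈ J, c i ≠ 0) ∧
      ∀ i ∈ J, mon c (m i) = y i * c i := by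
  classical
  obtain ⟨M, hM⟩ : ∃ M : Matrix J (Fin n) ℂ, M = Matrix.of (fun i : J => shiftv m i) := ⟨_, rfl⟩
  have hrank : M.rank = Fintype.card J := by
    apply LinearIndependent.rank_matrix
    rw [hM]
    exact hind
  have hsurj : LinearMap.range M.mulVecLin = ⊤ := by
    apply Submodule.eq_top_of_finrank_eq
    rw [Module.finrank_fintype_fun_eq_card]
    exact hrank
  have hη : ∀ i : Fin n, ∃ η : ℂ, i ∈ J → Complex.exp η = y i := by
    intro i
    by_cases hi : i ∈ J
    · exact ⟨Complex.log (y i), fun _ => Complex.exp_log (hy i hi)⟩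
    · exact ⟨0, fun h => absurd h hi⟩
  choose η hη using hη
  obtain ⟨x, hx⟩ : ∃ x : Fin n → ℂ, M.mulVecLin x = fun i : J => η i := by
    have h1 : (fun i : J => η i) ∈ LinearMap.range M.mulVecLin := by
      rw [hsurj]
      exact Submodule.mem_top
    exact h1
  have hx' : ∀ i ∈ J, ∑ k, shiftv m i k * x k = η i := by
    intro i hi
    have h1 := congrFun hx ⟨i, hi⟩
    rw [Matrix.mulVecLin_apply, hM] at h1
    exact h1
  refine ⟨fun k => if k ∈ J then Complex.exp (x k) else 0, fun i hi => if_neg hi, ?_, ?_⟩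
  · intro i hi
    show (if i ∈ J then Complex.exp (x i) else 0) ≠ 0
    rw [if_pos hi]
    exact Complex.exp_ne_zero _
  · intro i hi
    show (∏ k, (if k ∈ J then Complex.exp (x k) else 0) ^ m i k)
      = y i * (if i ∈ J then Complex.exp (x i) else 0)
    rw [if_pos hi]
    have h1 : ∀ k, (if k ∈ J then Complex.exp (x k) else 0) ^ m i k
        = Complex.exp ((m i k : ℂ) * x k) := by
      intro k
      by_cases hk : k ∈ J
      · rw [if_pos hk, Complex.exp_nat_mul]
      · rw [if_neg hk, hm i hi k hk, pow_zero, Nat.cast_zero, zero_mul, Complex.exp_zero]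
    have h2 : ∑ k, (m i k : ℂ) * x k = η i + x i := by
      rw [← hx' i hi]
      have h3 : ∀ k, (m i k : ℂ) * x k = shiftv m i k * x k + (if k = i then x k else 0) := by
        intro k
        unfold shiftv
        by_cases hk : k = i
        · rw [if_pos hk, if_pos hk]
          ring
        · rw [if_neg hk, if_neg hk]
          ring
      rw [Finset.sum_congr rfl (fun k _ => h3 k), Finset.sum_add_distrib,
        Finset.sum_ite_eq' Finset.univ i x, if_pos (Finset.mem_univ i)]
    rw [Finset.prod_congr rfl (fun k _ => h1 k), ← Complex.exp_sum, h2, Complex.exp_add, hη i hi]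

end FFL
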