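import Pool.Agent.FFL.N2a

/-!
# [FFL-N2b] the parameters for which the system is solvable are Zariski dense

`G ≠ 0`, so there is `a⁰` with `eval a⁰ G ≠ 0` (`MvPolynomial.funext`).  Call the coordinates `(i, m i)`, `i ∈ J`, main.  For `y : Fin n → ℂ`,
`t : ℂ` let `a(y, t)` be the point with the main coordinates `y_i` and the other coordinates `t a⁰_p`.  Let
`Γ ∈ (MvPolynomial (Fin n) ℂ)[X]` be the image of `G` under the substitution `(i, m i) ↦ C (X_i)`, `p ↦ C (C (a⁰_p)) * X`; its value at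
`(y, t)` is `eval (a(y,t)) G`.  `Γ ≠ 0` (value at `y_i = a⁰_(i, m i)`, `t = 1`).  `Γ = X^s Γ₁` with `Γ₁.coeff 0 ≠ 0`.
Suppose the claim is false.  For `c` with `c_i ≠ 0` exactly for `i ∈ J` and `t : ℂ` put, for `i ∈ J`,
`g_i(c,t) = (lam w_i c_i - t ∑_{m' ≠ m i} a⁰_(i,m') c^m') / c^(m i)` (sum over the `m' ∈ A i` with `hb i m'`); note `c^(m i) ≠ 0`.  Then
`a(g(c,t), t)` solves the system with `c`, so `Γ(g(c,t), t) = 0` for all `t`, so `Γ₁(g(c,t),t) = 0` for `t ≠ 0`, and by continuity in `t`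
(`g` is affine in `t`, `Γ₁` is a polynomial) for `t = 0`: `Γ₁(h(c), 0) = 0`, `h_i(c) = lam w_i c_i / c^(m i)`.
For every `z` with `z_i ≠ 0` (`i ∈ J`) there is `c` with `c^(m i) = (lam w_i / z_i) c_i`, that is `h(c) = z` on `J` (`monomial_surj`).
So `Γ₁.coeff 0`, a polynomial in the `X_i`, `i ∈ J`, vanishes at all `z` with `z_i ≠ 0` for `i ∈ J`.  (Γ only involves `X_i` with `i ∈ J`; take
`g_i = 1` for `i ∉ J`.)  Hence it is `0`: multiply by `∏_{i} X_i` and use `MvPolynomial.funext`; a contradiction.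
-/

set_option autoImplicit false

namespace FFL

variable {n : ℕ}

theorem N2bx.exists_eval_ne_zero {τ : Type} (p : MvPolynomial τ ℂ) (hp : p ≠ 0) :
    ∃ z : τ → ℂ, MvPolynomial.eval z p ≠ 0 := by
  by_contra h
  push Not at h
  exact hp (MvPolynomial.funext fun z => by rw [h z, map_zero])

/-- A nonzero polynomial is `X ^ s` times a polynomial with nonzero constant coefficient. -/
theorem N2bx.factor {R : Type} [CommRing R] (Γ : Polynomial R) (h : Γ ≠ 0) :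
    ∃ (s : ℕ) (Γ₁ : Polynomial R), Γ = Polynomial.X ^ s * Γ₁ ∧ Γ₁.coeff 0 ≠ 0 := by
  have h1 : Polynomial.X ^ Γ.natTrailingDegree ∣ Γ := by
    rw [Polynomial.X_pow_dvd_iff]
    intro d hd
    exact Polynomial.coeff_eq_zero_of_lt_natTrailingDegree hd
  obtain ⟨Γ₁, hΓ₁⟩ := h1
  refine ⟨Γ.natTrailingDegree, Γ₁, hΓ₁, ?_⟩
  intro h0
  have h2 : Γ.trailingCoeff ≠ 0 := by
    rw [Ne, Polynomial.trailingCoeff_eq_zero]
    exact h
  apply h2
  have h3 : (Polynomial.X ^ Γ.natTrailingDegree * Γ₁).coeff (0 + Γ.natTrailingDegree) =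
      Γ₁.coeff 0 := Polynomial.coeff_X_pow_mul Γ₁ _ 0
  rw [← hΓ₁, zero_add, h0] at h3
  exact h3

open Classical in
/-- The point with the main coordinates `y` and the other coordinates `t a⁰`. -/
noncomputable def N2bx.pt (J : Finset (Fin n)) (A : Fin n → Finset (Fin n →₀ ℕ))
    (m : Fin n → (Fin n →₀ ℕ)) (a₀ : (Σ i : Fin n, {m' // m' ∈ A i}) → ℂ) (y : Fin n → ℂ) (t : ℂ) :
    (Σ i : Fin n, {m' // m' ∈ A i}) → ℂ :=
  fun p => if p.1 ∈ J ∧ (p.2 : Fin n →₀ ℕ) = m p.1 then y p.1 else a₀ p * t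

open Classical in
theorem N2bx.gam (J : Finset (Fin n)) (A : Fin n → Finset (Fin n →₀ ℕ))
    (m : Fin n → (Fin n →₀ ℕ)) (a₀ : (Σ i : Fin n, {m' // m' ∈ A i}) → ℂ)
    (G : MvPolynomial (Σ i : Fin n, {m' // m' ∈ A i}) ℂ) :
    ∃ Γ : Polynomial (MvPolynomial (Fin n) ℂ), ∀ (y : Fin n → ℂ) (t : ℂ),
      Polynomial.eval₂ (MvPolynomial.eval y) t Γ =
        MvPolynomial.eval (N2bx.pt J A m a₀ y t) G := by
  refine ⟨MvPolynomial.eval₂ ((Polynomial.C).comp MvPolynomial.C)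
    (fun p => if p.1 ∈ J ∧ (p.2 : Fin n →₀ ℕ) = m p.1 then Polynomial.C (MvPolynomial.X p.1)
      else Polynomial.C (MvPolynomial.C (a₀ p)) * Polynomial.X) G, fun y t => ?_⟩
  have h1 := MvPolynomial.eval₂_comp_left
    (Polynomial.eval₂RingHom (MvPolynomial.eval y : MvPolynomial (Fin n) ℂ →+* ℂ) t)
    ((Polynomial.C).comp MvPolynomial.C)
    (fun p : (Σ i : Fin n, {m' // m' ∈ A i}) =>
      if p.1 ∈ J ∧ (p.2 : Fin n →₀ ℕ) = m p.1 then
        (Polynomial.C (MvPolynomial.X p.1) : Polynomial (MvPolynomial (Fin n) ℂ))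
      else Polynomial.C (MvPolynomial.C (a₀ p)) * Polynomial.X) G
  rw [Polynomial.coe_eval₂RingHom] at h1
  rw [h1]
  have h2 : ((Polynomial.eval₂RingHom (MvPolynomial.eval y : MvPolynomial (Fin n) ℂ →+* ℂ) t).comp
      ((Polynomial.C).comp MvPolynomial.C)) = RingHom.id ℂ := by
    ext z
    rw [RingHom.comp_apply, RingHom.comp_apply, Polynomial.coe_eval₂RingHom, Polynomial.eval₂_C,
      MvPolynomial.eval_C, RingHom.id_apply]
  rw [h2]
  have h3 : (Polynomial.eval₂ (MvPolynomial.eval y : MvPolynomial (Fin n) ℂ →+* ℂ) t ∘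
      fun p : (Σ i : Fin n, {m' // m' ∈ A i}) =>
      if p.1 ∈ J ∧ (p.2 : Fin n →₀ ℕ) = m p.1 then
        (Polynomial.C (MvPolynomial.X p.1) : Polynomial (MvPolynomial (Fin n) ℂ))
      else Polynomial.C (MvPolynomial.C (a₀ p)) * Polynomial.X) = N2bx.pt J A m a₀ y t := by
    funext p
    unfold N2bx.pt
    rw [Function.comp_apply]
    split_ifs
    · rw [Polynomial.eval₂_C, MvPolynomial.eval_X]
    · rw [Polynomial.eval₂_mul, Polynomial.eval₂_C, Polynomial.eval₂_X, MvPolynomial.eval_C]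
  rw [h3]
  rfl

open Classical in
theorem dense_solvable (J : Finset (Fin n)) (A : Fin n → Finset (Fin n →₀ ℕ))
    (m : Fin n → (Fin n →₀ ℕ)) (hmA : ∀ i ∈ J, m i ∈ A i) (hm : ∀ i ∈ J, In J (m i))
    (hind : LinearIndependent ℂ (fun i : J => shiftv m i)) (w : Fin n → ℝ)
    (hw : ∀ i ∈ J, 0 < w i) (lam : ℂ) (hlam : lam ≠ 0) (hb : Fin n → (Fin n →₀ ℕ) → Prop)
    (hbm : ∀ i ∈ J, hb i (m i)) (hbJ : ∀ i ∈ J, ∀ m', hb i m' → In J m')
    (G : MvPolynomial (Σ i : Fin n, {m' // m' ∈ A i}) ℂ) (hG : G ≠ 0) :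
    ∃ (a : (Σ i : Fin n, {m' // m' ∈ A i}) → ℂ) (c : Fin n → ℂ), MvPolynomial.eval a G ≠ 0 ∧
      (∀ i ∉ J, c i = 0) ∧ (∀ i ∈ J, c i ≠ 0) ∧
      ∀ i ∈ J, ∑ m' : {m' // m' ∈ A i}, (if hb i m' then a ⟨i, m'⟩ * mon c m' else 0) =
        lam * (w i * c i) := by
  obtain ⟨a₀, ha₀⟩ := N2bx.exists_eval_ne_zero G hG
  obtain ⟨Γ, hΓ⟩ := N2bx.gam J A m a₀ G
  have hΓ0 : Γ ≠ 0 := by
    intro h
    have h1 := hΓ (fun i => if h : i ∈ J then a₀ ⟨i, ⟨m i, hmA i h⟩⟩ else 0) 1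
    rw [h, Polynomial.eval₂_zero] at h1
    apply ha₀
    rw [h1]
    congr 2
    funext p
    obtain ⟨i, m', hm'⟩ := p
    unfold N2bx.pt
    by_cases hc : i ∈ J ∧ m' = m i
    · obtain ⟨hi, rfl⟩ := hc
      simp only [hi, true_and, if_true, dite_true]
    · rw [if_neg hc, mul_one]
  obtain ⟨s, Γ₁, hs, hq⟩ := N2bx.factor Γ hΓ0
  have hprod : Γ₁.coeff 0 * ∏ i : Fin n, (MvPolynomial.X i : MvPolynomial (Fin n) ℂ) ≠ 0 :=
    mul_ne_zero hq (Finset.prod_ne_zero_iff.2 fun i _ => MvPolynomial.X_ne_zero i)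
  obtain ⟨z, hz⟩ := N2bx.exists_eval_ne_zero _ hprod
  rw [map_mul, map_prod] at hz
  have hzq := left_ne_zero_of_mul hz
  have hzi : ∀ i, z i ≠ 0 := by
    intro i
    have h1 := Finset.prod_ne_zero_iff.1 (right_ne_zero_of_mul hz) i (Finset.mem_univ i)
    rwa [MvPolynomial.eval_X] at h1
  have hwi : ∀ i ∈ J, (w i : ℂ) ≠ 0 := by
    intro i hi
    exact_mod_cast (hw i hi).ne'
  obtain ⟨c, hc0, hc1, hc2⟩ := monomial_surj J m hm hind (fun i => lam * w i / z i)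
    (fun i hi => div_ne_zero (mul_ne_zero hlam (hwi i hi)) (hzi i))
  have hmon : ∀ i ∈ J, mon c (m i) ≠ 0 := by
    intro i hi
    rw [hc2 i hi]
    exact mul_ne_zero (div_ne_zero (mul_ne_zero hlam (hwi i hi)) (hzi i)) (hc1 i hi)
  obtain ⟨S, hS⟩ : ∃ S : Fin n → ℂ, S = fun i => ∑ m' : {m' // m' ∈ A i},
    (if hb i m' ∧ (m' : Fin n →₀ ℕ) ≠ m i then a₀ ⟨i, m'⟩ * mon c m' else 0) := ⟨_, rfl⟩
  obtain ⟨g, hg⟩ : ∃ g : ℂ → Fin n → ℂ, g = fun t i =>
    if i ∈ J then (lam * (w i * c i) - t * S i) / mon c (m i) else z i := ⟨_, rfl⟩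
  have hg0 : g 0 = z := by
    rw [hg]
    funext i
    by_cases hi : i ∈ J
    · simp only [hi, if_true, zero_mul, sub_zero]
      rw [div_eq_iff (hmon i hi), hc2 i hi]
      have := hzi i
      field_simp
    · simp only [hi, if_false]
  have hgc : Continuous g := by
    rw [hg]
    refine continuous_pi fun i => ?_
    by_cases hi : i ∈ J
    · simp only [hi, if_true]
      exact (continuous_const.sub (continuous_id.mul continuous_const)).div_const _
    · simp only [hi, if_false]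
      exact continuous_const
  have huc : Continuous fun t : ℂ => Polynomial.eval₂ (MvPolynomial.eval (g t)) t Γ₁ := by
    have h1 : (fun t : ℂ => Polynomial.eval₂ (MvPolynomial.eval (g t)) t Γ₁) = fun t =>
        ∑ k ∈ Finset.range (Γ₁.natDegree + 1), MvPolynomial.eval (g t) (Γ₁.coeff k) * t ^ k := by
      funext t
      exact Polynomial.eval₂_eq_sum_range _ _
    rw [h1]
    refine continuous_finsetSum _ fun k _ => ?_
    exact ((MvPolynomial.continuous_eval (Γ₁.coeff k)).comp hgc).mul (continuous_pow k)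
  have hu0 : Polynomial.eval₂ (MvPolynomial.eval (g 0)) 0 Γ₁ ≠ 0 := by
    rw [hg0, Polynomial.eval₂_at_zero]
    exact hzq
  have hev : ∀ᶠ t in nhdsWithin (0 : ℂ) {0}ᶜ,
      Polynomial.eval₂ (MvPolynomial.eval (g t)) t Γ₁ ≠ 0 :=
    (huc.continuousAt.eventually_ne hu0).filter_mono nhdsWithin_le_nhds
  obtain ⟨t, ht1, ht0⟩ := (hev.and self_mem_nhdsWithin).exists
  have ht0' : t ≠ 0 := ht0
  refine ⟨N2bx.pt J A m a₀ (g t) t, c, ?_, hc0, hc1, ?_⟩
  · rw [← hΓ, hs, Polynomial.eval₂_mul, Polynomial.eval₂_pow, Polynomial.eval₂_X]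
    exact mul_ne_zero (pow_ne_zero _ ht0') ht1
  · intro i hi
    have h1 : ∀ m' : {m' // m' ∈ A i}, (if hb i m' then N2bx.pt J A m a₀ (g t) t ⟨i, m'⟩ * mon c m'
        else 0) = (if (m' : Fin n →₀ ℕ) = m i then g t i * mon c (m i) else 0) +
        t * (if hb i m' ∧ (m' : Fin n →₀ ℕ) ≠ m i then a₀ ⟨i, m'⟩ * mon c m' else 0) := by
      rintro ⟨m', hm'⟩
      unfold N2bx.pt
      by_cases h2 : m' = m i
      · subst h2
        simp only [hbm i hi, hi, if_true, true_and, ne_eq, not_true, and_false, if_false, mul_zero,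
          add_zero]
      · by_cases h3 : hb i m'
        · simp only [h3, h2, if_true, hi, true_and, if_false, ne_eq, not_false_iff, zero_add]
          ring
        · simp only [h3, h2, if_false, false_and, mul_zero, add_zero]
    rw [Finset.sum_congr rfl fun m' _ => h1 m', Finset.sum_add_distrib, ← Finset.mul_sum,
      Finset.sum_eq_single (⟨m i, hmA i hi⟩ : {m' // m' ∈ A i})]
    · have h4 : g t i = (lam * (w i * c i) - t * S i) / mon c (m i) := by
        rw [hg]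
        simp only [hi, if_true]
      have h5 : S i = ∑ m' : {m' // m' ∈ A i},
        (if hb i m' ∧ (m' : Fin n →₀ ℕ) ≠ m i then a₀ ⟨i, m'⟩ * mon c m' else 0) := by rw [hS]
      rw [← h5, if_pos rfl, h4, div_mul_cancel₀ _ (hmon i hi), sub_add_cancel]
    · intro m' _ hne
      rw [if_neg]
      intro h
      exact hne (Subtype.ext h)
    · intro h
      exact absurd (Finset.mem_univ _) h

end FFL
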