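import Mathlib

/-!
# [FFL-N2c2] specialisation of algebraic relations

Let `R = MvPolynomial σ ℂ`, `Ω` a field which is an `R`-algebra with `R → Ω` injective and all `x_k ∈ Ω` algebraic over `R`.  For every `k` there is
`y_k ∈ R`, `y_k ≠ 0`, with `b_k = y_k x_k` integral over `R` (`exists_integral_multiple` / `IsAlgebraic.exists_integral_multiple`).
`D = ∏ y_k`.  `T = Algebra.adjoin R (range b) ⊆ Ω` is integral over `R`.  Let `eval a D ≠ 0`.  The kernel `𝔪` of `eval a` is a maximal ideal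
of `R`; there is a maximal ideal `Q` of `T` over it (`Ideal.exists_ideal_over_maximal_of_isIntegral`; `R → T` is injective); `T ⧸ Q` is integral
over `ℂ` (through `ℂ → R → T`), so `ℂ → T ⧸ Q` is bijective
(`IsAlgClosed.algebraMap_bijective_of_isIntegral`): this gives a ring homomorphism `χ : T → ℂ` with `χ(r) = eval a r` for `r ∈ R`.
(Or: extend `eval a` by `IsAlgClosed` lifting theorems.)  Put `c_k = χ(b_k) / (eval a y_k)`.
Let `F = ∑ r_β X^β` with `F(x) = 0` and let `N` bound all exponents.  In `T`: `0 = D^N F(x) = ∑ r_β (∏_k y_k^(N - β_k)) ∏ b_k^(β_k)`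
(`b_k^(β_k) y_k^(N-β_k) = y_k^N x_k^(β_k)`).  Apply `χ`: `0 = ∑ r_β(a) ∏ y_k(a)^(N-β_k) (y_k(a) c_k)^(β_k) = D(a)^N ∑ r_β(a) c^β`.
-/

set_option autoImplicit false

open MvPolynomial

namespace FFL

/-- Extension of a homomorphism to an algebraically closed field along an integral extension. -/
theorem N2c2x.lift {R T : Type} [CommRing R] [CommRing T] [Algebra R T] [Algebra.IsIntegral R T]
    (hinj : Function.Injective (algebraMap R T)) (f : R →+* ℂ) (hf : Function.Surjective f) :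
    ∃ χ : T →+* ℂ, ∀ r, χ (algebraMap R T r) = f r := by
  have hP : (RingHom.ker f).IsMaximal := RingHom.ker_isMaximal_of_surjective f hf
  have hker : RingHom.ker (algebraMap R T) ≤ RingHom.ker f := by
    rw [(RingHom.injective_iff_ker_eq_bot _).1 hinj]
    exact bot_le
  obtain ⟨Q, hQ, hQP⟩ := Ideal.exists_ideal_over_maximal_of_isIntegral (RingHom.ker f) hker
  let L := T ⧸ Q
  let s : ℂ →+* L := (Ideal.quotientMap Q (algebraMap R T) hQP.ge).comp
    (RingHom.quotientKerEquivOfSurjective hf).symm.toRingHom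
  have hs : ∀ r, s (f r) = Ideal.Quotient.mk Q (algebraMap R T r) := by
    intro r
    have h1 : (RingHom.quotientKerEquivOfSurjective hf).symm (f r) =
        Ideal.Quotient.mk (RingHom.ker f) r := by
      rw [RingEquiv.symm_apply_eq]
      rfl
    change (Ideal.quotientMap Q (algebraMap R T) hQP.ge)
      ((RingHom.quotientKerEquivOfSurjective hf).symm (f r)) = _
    rw [h1]
    exact Ideal.quotientMap_mk
  have hdom : IsDomain L := Ideal.Quotient.isDomain Q
  let _ : Algebra ℂ L := s.toAlgebra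
  have hint : Algebra.IsIntegral ℂ L := by
    constructor
    intro l
    obtain ⟨t, rfl⟩ := Ideal.Quotient.mk_surjective l
    obtain ⟨p, hpm, hp⟩ := Algebra.IsIntegral.isIntegral (R := R) t
    refine ⟨p.map f, hpm.map f, ?_⟩
    rw [Polynomial.eval₂_map]
    have h2 : (algebraMap ℂ L).comp f = (Ideal.Quotient.mk Q).comp (algebraMap R T) := by
      ext r
      exact hs r
    rw [h2, ← Polynomial.hom_eval₂, hp, map_zero]
  have hbij : Function.Bijective s := IsAlgClosed.algebraMap_bijective_of_isIntegral (k := ℂ)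
  refine ⟨(RingEquiv.ofBijective s hbij).symm.toRingHom.comp (Ideal.Quotient.mk Q), fun r => ?_⟩
  change (RingEquiv.ofBijective s hbij).symm (Ideal.Quotient.mk Q (algebraMap R T r)) = f r
  rw [RingEquiv.symm_apply_eq]
  exact (hs r).symm

theorem specialise {σ τ : Type} [Finite σ] [Finite τ] (Ω : Type) [Field Ω]
    [Algebra (MvPolynomial σ ℂ) Ω]
    (hinj : Function.Injective (algebraMap (MvPolynomial σ ℂ) Ω)) (x : τ → Ω)
    (hx : ∀ k, IsAlgebraic (MvPolynomial σ ℂ) (x k)) :
    ∃ D : MvPolynomial σ ℂ, D ≠ 0 ∧ ∀ a : σ → ℂ, eval a D ≠ 0 → ∃ c : τ → ℂ,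
      ∀ F : MvPolynomial τ (MvPolynomial σ ℂ), eval₂ (algebraMap (MvPolynomial σ ℂ) Ω) x F = 0 →
        eval₂ (eval a) c F = 0 := by
  classical
  have := Fintype.ofFinite τ
  choose y hy0 hy using fun k => (hx k).exists_integral_multiple
  obtain ⟨D, hD⟩ : ∃ D : MvPolynomial σ ℂ, D = ∏ k, y k := ⟨_, rfl⟩
  have hD0 : D ≠ 0 := by
    rw [hD]
    exact Finset.prod_ne_zero_iff.2 fun k _ => hy0 k
  have hDx : ∀ k, IsIntegral (MvPolynomial σ ℂ) (D • x k) := by
    intro k
    have h1 : D • x k = (∏ j ∈ Finset.univ.erase k, y j) • (y k • x k) := by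
      rw [smul_smul, Finset.prod_erase_mul _ _ (Finset.mem_univ k), hD]
    rw [h1]
    exact (hy k).smul _
  let T := integralClosure (MvPolynomial σ ℂ) Ω
  have hTint : Algebra.IsIntegral (MvPolynomial σ ℂ) T := integralClosure.AlgebraIsIntegral
  have hTinj : Function.Injective (algebraMap (MvPolynomial σ ℂ) T) := by
    intro r r' h
    exact hinj (congrArg (fun t : T => (t : Ω)) h)
  let b : τ → T := fun k => ⟨D • x k, hDx k⟩
  refine ⟨D, hD0, fun a ha => ?_⟩
  have hsurj : Function.Surjective (eval a : MvPolynomial σ ℂ →+* ℂ) := fun z => ⟨C z, eval_C z⟩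
  obtain ⟨χ, hχ⟩ := N2c2x.lift hTinj (eval a) hsurj
  obtain ⟨c, hc⟩ : ∃ c : τ → ℂ, c = fun k => χ (b k) / eval a D := ⟨_, rfl⟩
  have hDc : ∀ k, χ (b k) = eval a D * c k := by
    intro k
    rw [hc]
    field_simp
  refine ⟨c, fun F hF => ?_⟩
  have key : ∀ F : MvPolynomial τ (MvPolynomial σ ℂ), ∃ N : ℕ, ∃ t : T,
      (t : Ω) = algebraMap (MvPolynomial σ ℂ) Ω D ^ N *
        eval₂ (algebraMap (MvPolynomial σ ℂ) Ω) x F ∧
      χ t = eval a D ^ N * eval₂ (eval a) c F := by
    intro F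
    induction F using MvPolynomial.induction_on with
    | C r =>
      refine ⟨0, algebraMap _ T r, ?_, ?_⟩
      · rw [pow_zero, one_mul, eval₂_C]
        rfl
      · rw [pow_zero, one_mul, eval₂_C, hχ]
    | add p q hp hq =>
      obtain ⟨N₁, t₁, h1, h2⟩ := hp
      obtain ⟨N₂, t₂, h3, h4⟩ := hq
      refine ⟨N₁ + N₂, algebraMap _ T (D ^ N₂) * t₁ + algebraMap _ T (D ^ N₁) * t₂, ?_, ?_⟩
      · have h5 : ((algebraMap _ T (D ^ N₂) * t₁ + algebraMap _ T (D ^ N₁) * t₂ : T) : Ω) =
            algebraMap (MvPolynomial σ ℂ) Ω (D ^ N₂) * (t₁ : Ω) +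
              algebraMap (MvPolynomial σ ℂ) Ω (D ^ N₁) * (t₂ : Ω) := rfl
        rw [h5, h1, h3, map_pow, map_pow, eval₂_add]
        ring
      · rw [map_add, map_mul, map_mul, hχ, hχ, h2, h4, map_pow, map_pow, eval₂_add]
        ring
    | mul_X p k hp =>
      obtain ⟨N, t, h1, h2⟩ := hp
      refine ⟨N + 1, t * b k, ?_, ?_⟩
      · have h5 : ((t * b k : T) : Ω) = (t : Ω) * (D • x k) := rfl
        rw [h5, h1, eval₂_mul, eval₂_X, Algebra.smul_def]
        ring
      · rw [map_mul, h2, hDc, eval₂_mul, eval₂_X]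
        ring
  obtain ⟨N, t, h1, h2⟩ := key F
  rw [hF, mul_zero] at h1
  have ht : t = 0 := by
    apply Subtype.ext
    exact h1
  rw [ht, map_zero] at h2
  exact (mul_eq_zero.1 h2.symm).resolve_left (pow_ne_zero _ ha)

end FFL
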