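import Pool.Agent.FFL.N2c1
import Pool.Agent.FFL.N2c2

/-!
# [FFL-N2c] a system which is solvable for a dense set of parameters is solvable for generic parameters

`generic_point` gives `x : τ → AlgebraicClosure K`, `K = FractionRing (MvPolynomial σ ℂ)`; every `x k` is algebraic over `K`, so over
`MvPolynomial σ ℂ` (`IsFractionRing.isAlgebraic_iff` or `Algebra.IsAlgebraic.trans`); `specialise`.
-/

set_option autoImplicit false

open MvPolynomial

namespace FFL

theorem generic_of_dense {σ τ ι : Type} [Finite σ] [Finite τ] [Finite ι]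
    (F : ι → MvPolynomial τ (MvPolynomial σ ℂ))
    (hd : ∀ G : MvPolynomial σ ℂ, G ≠ 0 → ∃ (a : σ → ℂ) (c : τ → ℂ), eval a G ≠ 0 ∧
      ∀ l, eval₂ (eval a) c (F l) = 0) :
    ∃ D : MvPolynomial σ ℂ, D ≠ 0 ∧ ∀ a : σ → ℂ, eval a D ≠ 0 →
      ∃ c : τ → ℂ, ∀ l, eval₂ (eval a) c (F l) = 0 := by
  obtain ⟨x, hx⟩ := generic_point F hd
  have hmap : (algebraMap (FractionRing (MvPolynomial σ ℂ))
      (AlgebraicClosure (FractionRing (MvPolynomial σ ℂ)))).comp
        (algebraMap (MvPolynomial σ ℂ) (FractionRing (MvPolynomial σ ℂ))) =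
      algebraMap (MvPolynomial σ ℂ) (AlgebraicClosure (FractionRing (MvPolynomial σ ℂ))) :=
    (IsScalarTower.algebraMap_eq (MvPolynomial σ ℂ) (FractionRing (MvPolynomial σ ℂ))
      (AlgebraicClosure (FractionRing (MvPolynomial σ ℂ)))).symm
  have hinj : Function.Injective
      (algebraMap (MvPolynomial σ ℂ) (AlgebraicClosure (FractionRing (MvPolynomial σ ℂ)))) := by
    rw [← hmap, RingHom.coe_comp]
    exact (algebraMap (FractionRing (MvPolynomial σ ℂ))
      (AlgebraicClosure (FractionRing (MvPolynomial σ ℂ)))).injective.comp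
        (IsFractionRing.injective (MvPolynomial σ ℂ) (FractionRing (MvPolynomial σ ℂ)))
  have halg : ∀ k, IsAlgebraic (MvPolynomial σ ℂ) (x k) := by
    intro k
    rw [IsFractionRing.isAlgebraic_iff (MvPolynomial σ ℂ) (FractionRing (MvPolynomial σ ℂ))
      (AlgebraicClosure (FractionRing (MvPolynomial σ ℂ)))]
    exact Algebra.IsAlgebraic.isAlgebraic (x k)
  obtain ⟨D, hD, h⟩ := specialise (AlgebraicClosure (FractionRing (MvPolynomial σ ℂ))) hinj x halg
  refine ⟨D, hD, fun a ha => ?_⟩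
  obtain ⟨c, hc⟩ := h a ha
  refine ⟨c, fun l => hc (F l) ?_⟩
  have h1 := hx l
  rw [hmap] at h1
  exact h1

end FFL
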