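import Mathlib

/-!
# [FFL-N2c1] a generic solution

Let `R = MvPolynomial σ ℂ`, `K = FractionRing R`, `F'_l = map (algebraMap R K) F_l` and `I` the ideal of `MvPolynomial τ K` generated by
the `F'_l`.  If `1 ∈ I`: `1 = ∑ H_l F'_l` (`Ideal.mem_span_range_iff_exists_fun`, `ι` finite); clear the denominators of all coefficients of the
`H_l` (`IsLocalization.exist_integer_multiples_of_finset`): there are `G ∈ R`, `G ≠ 0` and `H'_l ∈ MvPolynomial τ R` with
`C G = ∑ H'_l F_l` (injectivity of `map (algebraMap R K)`).  Evaluate at the `a, c` given by `hd` for this `G`: `eval a G = 0`, a contradiction.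
So the zero locus of `I` in `(AlgebraicClosure K)^τ` is nonempty (Nullstellensatz `MvPolynomial.vanishingIdeal_zeroLocus_eq_radical`:
otherwise `1 ∈ vanishingIdeal = radical I`).
-/

set_option autoImplicit false

open MvPolynomial

namespace FFL

attribute [local instance] MvPolynomial.algebraMvPolynomial in
theorem generic_point {σ τ ι : Type} [Finite σ] [Finite τ] [Finite ι]
    (F : ι → MvPolynomial τ (MvPolynomial σ ℂ))
    (hd : ∀ G : MvPolynomial σ ℂ, G ≠ 0 → ∃ (a : σ → ℂ) (c : τ → ℂ), eval a G ≠ 0 ∧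
      ∀ l, eval₂ (eval a) c (F l) = 0) :
    ∃ c : τ → AlgebraicClosure (FractionRing (MvPolynomial σ ℂ)), ∀ l,
      eval₂ ((algebraMap (FractionRing (MvPolynomial σ ℂ))
        (AlgebraicClosure (FractionRing (MvPolynomial σ ℂ)))).comp
          (algebraMap (MvPolynomial σ ℂ) (FractionRing (MvPolynomial σ ℂ)))) c (F l) = 0 := by
  let K := FractionRing (MvPolynomial σ ℂ)
  let J : Ideal (MvPolynomial τ (MvPolynomial σ ℂ)) := Ideal.span (Set.range F)
  let I : Ideal (MvPolynomial τ K) :=
    J.map (algebraMap (MvPolynomial τ (MvPolynomial σ ℂ)) (MvPolynomial τ K))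
  have hI : I ≠ ⊤ := by
    intro hI
    have h1 : algebraMap (MvPolynomial τ (MvPolynomial σ ℂ)) (MvPolynomial τ K) 1 ∈ I := by
      rw [hI]
      trivial
    rw [IsLocalization.algebraMap_mem_map_algebraMap_iff
      ((nonZeroDivisors (MvPolynomial σ ℂ)).map (C (σ := τ)))] at h1
    obtain ⟨m, ⟨G, hG, rfl⟩, hm⟩ := h1
    rw [mul_one] at hm
    obtain ⟨a, c, ha, hac⟩ := hd G (nonZeroDivisors.ne_zero hG)
    have h2 : J ≤ RingHom.ker (eval₂Hom (eval a) c) := by
      rw [Ideal.span_le]
      rintro _ ⟨l, rfl⟩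
      exact hac l
    have h3 : eval₂Hom (eval a) c (C G) = 0 := h2 hm
    rw [eval₂Hom_C] at h3
    exact ha h3
  have hne : (zeroLocus (AlgebraicClosure K) I).Nonempty := by
    rw [Set.nonempty_iff_ne_empty]
    intro h
    apply hI
    rw [← Ideal.radical_eq_top, ← vanishingIdeal_zeroLocus_eq_radical (K := AlgebraicClosure K), h,
      vanishingIdeal_empty]
  obtain ⟨c, hc⟩ := hne
  refine ⟨c, fun l => ?_⟩
  have h1 := hc _ (Ideal.mem_map_of_mem
    (algebraMap (MvPolynomial τ (MvPolynomial σ ℂ)) (MvPolynomial τ K))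
    (Ideal.subset_span ⟨l, rfl⟩ : F l ∈ J))
  rw [aeval_def, algebraMap_def, eval₂_map] at h1
  exact h1

end FFL
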