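import Pool.Agent.FFL.N2b
import Pool.Agent.FFL.N2c

/-!
# [FFL-N2d] the system is solvable for generic coefficients

Apply `generic_of_dense` with `σ = Σ i, {m' // m' ∈ A i}`, `τ = Option (Fin n)` (`some i`: the unknown `c_i`; `none`: an unknown `t`),
`ι = Option (Fin n)` and
`F (some i) = ∑_{m'} (if hb i m' then C (X ⟨i, m'⟩) * ∏_k (X (some k))^(m' k) else 0) - C (C (lam * w i)) * X (some i)` for `i ∈ J`,
`F (some i) = X (some i)` for `i ∉ J`, `F none = X none * ∏_{i ∈ J} X (some i) - 1`.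
`hd`: `dense_solvable` gives `a`, `c`; take the value `t = (∏_{i ∈ J} c_i)⁻¹`.  Conversely a solution has `c_i = 0` for `i ∉ J` and
`∏_{i ∈ J} c_i ≠ 0`.
-/

set_option autoImplicit false

namespace FFL

variable {n : ℕ}

open Classical in
/-- the system -/
noncomputable def n2d_F (J : Finset (Fin n)) (A : Fin n → Finset (Fin n →₀ ℕ)) (w : Fin n → ℝ)
    (lam : ℂ) (hb : Fin n → (Fin n →₀ ℕ) → Prop) :
    Option (Fin n) → MvPolynomial (Option (Fin n))
      (MvPolynomial (Σ i : Fin n, {m' // m' ∈ A i}) ℂ)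
  | none => MvPolynomial.X none * ∏ i ∈ J, MvPolynomial.X (some i) - 1
  | some i => if i ∈ J then
      ∑ m' : {m' // m' ∈ A i}, (if hb i m' then MvPolynomial.C (MvPolynomial.X ⟨i, m'⟩) *
        ∏ k, (MvPolynomial.X (some k)) ^ (m'.1 k) else 0) -
        MvPolynomial.C (MvPolynomial.C (lam * (w i : ℂ))) * MvPolynomial.X (some i)
      else MvPolynomial.X (some i)

theorem n2d_none (J : Finset (Fin n)) (A : Fin n → Finset (Fin n →₀ ℕ)) (w : Fin n → ℝ)
    (lam : ℂ) (hb : Fin n → (Fin n →₀ ℕ) → Prop)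
    (a : (Σ i : Fin n, {m' // m' ∈ A i}) → ℂ) (c : Option (Fin n) → ℂ) :
    MvPolynomial.eval₂ (MvPolynomial.eval a) c (n2d_F J A w lam hb none) =
      c none * ∏ i ∈ J, c (some i) - 1 := by
  unfold n2d_F
  simp only [MvPolynomial.eval₂_sub, MvPolynomial.eval₂_mul, MvPolynomial.eval₂_X,
    MvPolynomial.eval₂_prod, MvPolynomial.eval₂_one]

open Classical in
theorem n2d_some (J : Finset (Fin n)) (A : Fin n → Finset (Fin n →₀ ℕ)) (w : Fin n → ℝ)
    (lam : ℂ) (hb : Fin n → (Fin n →₀ ℕ) → Prop)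
    (a : (Σ i : Fin n, {m' // m' ∈ A i}) → ℂ) (c : Option (Fin n) → ℂ) {i : Fin n} (hi : i ∈ J) :
    MvPolynomial.eval₂ (MvPolynomial.eval a) c (n2d_F J A w lam hb (some i)) =
      ∑ m' : {m' // m' ∈ A i}, (if hb i m' then a ⟨i, m'⟩ * mon (fun k => c (some k)) m' else 0) -
        lam * (w i * c (some i)) := by
  unfold n2d_F mon
  simp only [hi, if_true, MvPolynomial.eval₂_sub, MvPolynomial.eval₂_mul, MvPolynomial.eval₂_X,
    MvPolynomial.eval₂_C, MvPolynomial.eval_C, MvPolynomial.eval₂_sum]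
  congr 1
  · refine Finset.sum_congr rfl fun m' _ => ?_
    by_cases h : hb i m'
    · simp only [h, if_true, MvPolynomial.eval₂_mul, MvPolynomial.eval₂_C, MvPolynomial.eval_X,
        MvPolynomial.eval₂_prod, MvPolynomial.eval₂_pow, MvPolynomial.eval₂_X]
    · simp only [h, if_false, MvPolynomial.eval₂_zero]
  · ring

theorem n2d_some' (J : Finset (Fin n)) (A : Fin n → Finset (Fin n →₀ ℕ)) (w : Fin n → ℝ)
    (lam : ℂ) (hb : Fin n → (Fin n →₀ ℕ) → Prop)
    (a : (Σ i : Fin n, {m' // m' ∈ A i}) → ℂ) (c : Option (Fin n) → ℂ) {i : Fin n} (hi : i ∉ J) :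
    MvPolynomial.eval₂ (MvPolynomial.eval a) c (n2d_F J A w lam hb (some i)) = c (some i) := by
  unfold n2d_F
  simp only [hi, if_false, MvPolynomial.eval₂_X]

open Classical in
theorem generic_solvable (J : Finset (Fin n)) (A : Fin n → Finset (Fin n →₀ ℕ))
    (m : Fin n → (Fin n →₀ ℕ)) (hmA : ∀ i ∈ J, m i ∈ A i) (hm : ∀ i ∈ J, In J (m i))
    (hind : LinearIndependent ℂ (fun i : J => shiftv m i)) (w : Fin n → ℝ)
    (hw : ∀ i ∈ J, 0 < w i) (lam : ℂ) (hlam : lam ≠ 0) (hb : Fin n → (Fin n →₀ ℕ) → Prop)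
    (hbm : ∀ i ∈ J, hb i (m i)) (hbJ : ∀ i ∈ J, ∀ m', hb i m' → In J m') :
    ∃ D : MvPolynomial (Σ i : Fin n, {m' // m' ∈ A i}) ℂ, D ≠ 0 ∧
      ∀ a : (Σ i : Fin n, {m' // m' ∈ A i}) → ℂ, MvPolynomial.eval a D ≠ 0 →
        ∃ c : Fin n → ℂ, (∀ i ∉ J, c i = 0) ∧ (∀ i ∈ J, c i ≠ 0) ∧
          ∀ i ∈ J, ∑ m' : {m' // m' ∈ A i}, (if hb i m' then a ⟨i, m'⟩ * mon c m' else 0) =
            lam * (w i * c i) := by
  obtain ⟨D, hD, hD'⟩ := generic_of_dense (n2d_F J A w lam hb) (by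
    intro G hG
    obtain ⟨a, c, h1, h2, h3, h4⟩ :=
      dense_solvable J A m hmA hm hind w hw lam hlam hb hbm hbJ G hG
    refine ⟨a, fun o => o.elim (∏ i ∈ J, c i)⁻¹ c, h1, ?_⟩
    intro l
    cases l with
    | none =>
      rw [n2d_none]
      show (∏ i ∈ J, c i)⁻¹ * ∏ i ∈ J, c i - 1 = 0
      rw [inv_mul_cancel₀ (Finset.prod_ne_zero_iff.2 h3), sub_self]
    | some i =>
      by_cases hi : i ∈ J
      · rw [n2d_some J A w lam hb a _ hi, sub_eq_zero]
        exact h4 i hi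
      · rw [n2d_some' J A w lam hb a _ hi]
        exact h2 i hi)
  refine ⟨D, hD, fun a ha => ?_⟩
  obtain ⟨c, hc⟩ := hD' a ha
  have hn := hc none
  rw [n2d_none, sub_eq_zero] at hn
  refine ⟨fun i => c (some i), fun i hi => ?_, fun i hi => ?_, fun i hi => ?_⟩
  · have h1 := hc (some i)
    rwa [n2d_some' J A w lam hb a c hi] at h1
  · intro h0
    have h1 : ∏ i ∈ J, c (some i) = 0 := Finset.prod_eq_zero hi h0
    rw [h1, mul_zero] at hn
    exact zero_ne_one hn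
  · have h1 := hc (some i)
    rw [n2d_some J A w lam hb a c hi, sub_eq_zero] at h1
    exact h1

end FFL
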