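import Pool.Agent.FFL.G2

/-!
# [FFL-N3] germs with an invariant coordinate plane
-/

set_option autoImplicit false

open Filter Topology

namespace FFL

variable {n : ℕ}

open Classical in
/-- the projection to the coordinate plane -/
noncomputable def cut (J : Finset (Fin n)) (z : Fin n → ℂ) : Fin n → ℂ :=
  fun i => if i ∈ J then z i else 0

open Classical in
theorem mon_cut (J : Finset (Fin n)) (z : Fin n → ℂ) (α : Fin n →₀ ℕ) :
    mon (cut J z) α = if In J α then mon z α else 0 := by
  by_cases h : In J α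
  · rw [if_pos h]
    unfold mon cut
    refine Finset.prod_congr rfl fun i _ => ?_
    by_cases hi : i ∈ J
    · rw [if_pos hi]
    · rw [h i hi, pow_zero, pow_zero]
  · rw [if_neg h]
    unfold In at h
    push Not at h
    obtain ⟨k, hk, hk0⟩ := h
    unfold mon cut
    refine Finset.prod_eq_zero (Finset.mem_univ k) ?_
    rw [if_neg hk, zero_pow hk0]

theorem norm_cut_le (J : Finset (Fin n)) (z : Fin n → ℂ) : ‖cut J z‖ ≤ ‖z‖ := by
  rw [pi_norm_le_iff_of_nonneg (norm_nonneg z)]
  intro i
  unfold cut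
  by_cases hi : i ∈ J
  · rw [if_pos hi]
    exact norm_le_pi_norm z i
  · rw [if_neg hi, norm_zero]
    exact norm_nonneg z

theorem wt_single (q : Fin n → ℝ) (j : Fin n) : wt q (Finsupp.single j 1) = q j := by
  unfold wt
  rw [Finset.sum_eq_single j]
  · simp
  · intro b _ hb
    rw [Finsupp.single_eq_of_ne hb, Nat.cast_zero, zero_mul]
  · intro hj
    exact absurd (Finset.mem_univ j) hj

theorem mon_single (z : Fin n → ℂ) (j : Fin n) : mon z (Finsupp.single j 1) = z j := by
  unfold mon
  rw [Finset.prod_eq_single j]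
  · simp
  · intro b _ hb
    rw [Finsupp.single_eq_of_ne hb, pow_zero]
  · intro hj
    exact absurd (Finset.mem_univ j) hj

open Classical in
theorem flower_plane {f : (Fin n → ℂ) → (Fin n → ℂ)} {a : Fin n → (Fin n →₀ ℕ) → ℂ} {ν : ℕ}
    (hf : HasSeries f a) (hν : TangentToId a ν) (J : Finset (Fin n))
    (hJ : ∀ j ∉ J, ∀ α, In J α → a j α = 0) (q : Fin n → ℝ) (hq : ∀ i, 0 < q i) (δ : ℝ)
    (hδ : 0 < δ) (hdeg : ∀ j ∈ J, ∀ α, In J α → a j α ≠ 0 → α ≠ Finsupp.single j 1 →
      q j + δ ≤ wt q α)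
    (c : Fin n → ℂ) (hc0 : c ≠ 0) (hcJ : ∀ i ∉ J, c i = 0) (lam : ℂ) (hlam : lam ≠ 0)
    (hc : ∀ j ∈ J, ∑' α, (if In J α ∧ wt q α = q j + δ then a j α * mon c α else 0) =
      lam * (q j * c j)) :
    ∃ v : Fin n → ℂ, v ≠ 0 ∧ HasFlower f ν v := by
  obtain ⟨a', ha'⟩ : ∃ a' : Fin n → (Fin n →₀ ℕ) → ℂ, a' = fun j α =>
    if j ∈ J then (if In J α then a j α else 0) else
      (if α = Finsupp.single j 1 then 1 else 0) := ⟨_, rfl⟩
  obtain ⟨f', hf'⟩ : ∃ f' : (Fin n → ℂ) → (Fin n → ℂ), f' = fun z j =>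
    if j ∈ J then f (cut J z) j else z j := ⟨_, rfl⟩
  have haJ : ∀ j ∈ J, ∀ α, a' j α = if In J α then a j α else 0 := by
    intro j hj α
    rw [ha']
    exact if_pos hj
  have haN : ∀ j ∉ J, ∀ α, a' j α = if α = Finsupp.single j 1 then 1 else 0 := by
    intro j hj α
    rw [ha']
    exact if_neg hj
  have hInJ : ∀ j ∈ J, In J (Finsupp.single j 1 : Fin n →₀ ℕ) := by
    intro j hj k hk
    exact Finsupp.single_eq_of_ne fun h => hk (h ▸ hj)
  obtain ⟨r, hr, hser⟩ := hf
  have hf's : HasSeries f' a' := by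
    refine ⟨r, hr, fun z hz j => ?_⟩
    by_cases hj : j ∈ J
    · have h1 := hser (cut J z) (lt_of_le_of_lt (norm_cut_le J z) hz) j
      have h2 : f' z j = f (cut J z) j := by rw [hf']; exact if_pos hj
      rw [h2]
      have h3 : (fun α => a' j α * mon z α) = fun α => a j α * mon (cut J z) α := by
        funext α
        rw [haJ j hj, mon_cut]
        by_cases hα : In J α
        · rw [if_pos hα, if_pos hα]
        · rw [if_neg hα, if_neg hα, mul_zero, zero_mul]
      rw [h3]
      exact h1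
    · have h2 : f' z j = z j := by rw [hf']; exact if_neg hj
      rw [h2]
      have h3 := hasSum_ite_eq (Finsupp.single j 1 : Fin n →₀ ℕ) (z j)
      have h4 : (fun α => a' j α * mon z α) =
          fun α => if α = Finsupp.single j 1 then z j else 0 := by
        funext α
        rw [haN j hj]
        by_cases hα : α = Finsupp.single j 1
        · rw [if_pos hα, if_pos hα, one_mul, hα, mon_single]
        · rw [if_neg hα, if_neg hα, zero_mul]
      rw [h4]
      exact h3
  obtain ⟨v, R, C, ρ, φ, hv, hφ⟩ := curve_scaled hf's (by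
      intro j
      by_cases hj : j ∈ J
      · rw [haJ j hj, if_pos (hInJ j hj)]
        exact coeff_single hν j
      · rw [haN j hj, if_pos rfl]) q hq δ hδ (by
      intro j α hα hne
      by_cases hj : j ∈ J
      · rw [haJ j hj] at hα
        by_cases h2 : In J α
        · rw [if_pos h2] at hα
          exact hdeg j hj α h2 hα hne
        · rw [if_neg h2] at hα
          exact absurd rfl hα
      · rw [haN j hj, if_neg hne] at hα
        exact absurd rfl hα) c hc0 lam hlam (by
      intro j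
      by_cases hj : j ∈ J
      · rw [← hc j hj]
        unfold leadR
        refine tsum_congr fun α => ?_
        rw [haJ j hj]
        by_cases h1 : In J α
        · by_cases h2 : wt q α = q j + δ
          · rw [if_pos h2, if_pos h1, if_pos ⟨h1, h2⟩]
          · rw [if_neg h2, if_neg (fun h => h2 h.2)]
        · rw [if_neg h1, if_neg (fun h : _ ∧ _ => h1 h.1), zero_mul]
          exact ite_self _
      · rw [hcJ j hj, mul_zero, mul_zero]
        unfold leadR
        have h1 : (fun α => if wt q α = q j + δ then a' j α * mon c α else 0) = fun _ => 0 := by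
          funext α
          by_cases h2 : wt q α = q j + δ
          · rw [if_pos h2, haN j hj, if_neg, zero_mul]
            intro h3
            rw [h3, wt_single] at h2
            linarith
          · rw [if_neg h2]
        rw [h1, tsum_zero])
  have hzero : ∀ ζ ∈ HP R, ∀ j ∉ J, φ ζ j = 0 := by
    intro ζ hζ j hj
    have hmem : ∀ k : ℕ, ζ + k ∈ HP R := by
      intro k
      rw [mem_HP, Complex.add_re, Complex.natCast_re]
      have h1 : R < ζ.re := hζ
      have h2 : (0 : ℝ) ≤ k := Nat.cast_nonneg k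
      linarith
    have h1 : ∀ k : ℕ, φ (ζ + k) j = φ ζ j := by
      intro k
      induction k with
      | zero => rw [Nat.cast_zero, add_zero]
      | succ k ih =>
        have h2 := congrFun (hφ.heq (ζ + k) (hmem k)) j
        have h3 : f' (φ (ζ + k)) j = φ (ζ + k) j := by rw [hf']; exact if_neg hj
        rw [h3] at h2
        have h4 : ζ + ((k + 1 : ℕ) : ℂ) = ζ + k + 1 := by push_cast; ring
        rw [h4, ← h2, ih]
    have h5 : ∀ ε > 0, ‖φ ζ j‖ ≤ ε := by
      intro ε hε
      obtain ⟨R₁, hR₁⟩ := rpow_small ρ C hφ.hρ hφ.hC ε hε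
      obtain ⟨k, hk⟩ := exists_nat_ge (|R₁| + |ζ.re|)
      have h6 : R₁ ≤ ‖ζ + k‖ := by
        have h7 : (ζ + k).re ≤ ‖ζ + k‖ := (le_abs_self _).trans (Complex.abs_re_le_norm _)
        rw [Complex.add_re, Complex.natCast_re] at h7
        have h8 := le_abs_self R₁
        have h9 := neg_abs_le ζ.re
        linarith
      rw [← h1 k]
      exact ((norm_le_pi_norm _ j).trans (hφ.hb _ (hmem k))).trans (hR₁ _ h6)
    exact norm_eq_zero.1 (le_antisymm (le_of_forall_pos_le_add fun ε hε => by
      rw [zero_add]; exact h5 ε hε) (norm_nonneg _))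
  obtain ⟨R₁, hR₁⟩ := rpow_small ρ C hφ.hρ hφ.hC (r / 2) (half_pos hr)
  have hRR : R ≤ max R R₁ := le_max_left _ _
  have hsub : HP (max R R₁) ⊆ HP R := HP_mono hRR
  refine ⟨v, hv, Curve.flower (R := max R R₁) (C := C) (ρ := ρ) (φ := φ)
    ⟨hφ.hR.trans hRR, hφ.hρ, hφ.hC, hφ.hd.mono hsub, hφ.hinj.mono hsub,
      fun ζ hζ => hφ.hne ζ (hsub hζ), ?_, fun ζ hζ => hφ.hb ζ (hsub hζ), ?_⟩ ν hν.1⟩
  · intro ζ hζ
    have hζ' := hsub hζ
    have hcut : cut J (φ ζ) = φ ζ := by
      funext i
      unfold cut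
      by_cases hi : i ∈ J
      · rw [if_pos hi]
      · rw [if_neg hi, hzero ζ hζ' i hi]
    rw [← hφ.heq ζ hζ']
    funext j
    by_cases hj : j ∈ J
    · have h2 : f' (φ ζ) j = f (cut J (φ ζ)) j := by rw [hf']; exact if_pos hj
      rw [h2, hcut]
    · have h2 : f' (φ ζ) j = φ ζ j := by rw [hf']; exact if_neg hj
      rw [h2, hzero ζ hζ' j hj]
      have h3 : ‖φ ζ‖ < r := by
        have h4 : R₁ ≤ ‖ζ‖ := by
          have h5 : max R R₁ < ‖ζ‖ := norm_ge_of_HP hζ
          exact (le_max_right _ _).trans h5.le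
        have h6 := (hφ.hb ζ hζ').trans (hR₁ _ h4)
        linarith
      have h4 := hser (φ ζ) h3 j
      rw [← hcut] at h4
      have h5 : (fun α => a j α * mon (cut J (φ ζ)) α) = fun _ => 0 := by
        funext α
        rw [mon_cut]
        by_cases hα : In J α
        · rw [if_pos hα, hJ j hj α hα, zero_mul]
        · rw [if_neg hα, mul_zero]
      rw [h5, hcut] at h4
      exact h4.unique hasSum_zero
  · intro i j ε hε
    obtain ⟨R', hR'⟩ := hφ.htan i j ε hε
    exact ⟨R', fun ζ hζ hle => hR' ζ (hsub hζ) hle⟩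

end FFL
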