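import Pool.Agent.FFL.N1e
import Pool.Agent.FFL.N1f
import Pool.Agent.FFL.N2d
import Pool.Agent.FFL.N3

/-!
# [FFL-N4] generic germs with given Newton polyhedra have Fatou flowers
-/

set_option autoImplicit false

open Filter Topology

namespace FFL

variable {n : ℕ}

theorem wt_congr {J : Finset (Fin n)} {α : Fin n →₀ ℕ} (hα : In J α) {q q' : Fin n → ℝ}
    (h : ∀ i ∈ J, q i = q' i) : wt q α = wt q' α := by
  unfold wt
  refine Finset.sum_congr rfl fun i _ => ?_
  by_cases hi : i ∈ J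
  · rw [h i hi]
  · rw [hα i hi, Nat.cast_zero, zero_mul, zero_mul]

open Classical in
/-- a multi-index which is not in the coordinate plane has large weight if the outside weights are large -/
theorem wt_large {J : Finset (Fin n)} {m : Fin n →₀ ℕ} (hm : ¬ In J m) (q : Fin n → ℝ)
    (hq : ∀ i, 0 < q i) (L : ℝ) (hL : 0 < L) : L ≤ wt (fun i => if i ∈ J then q i else L) m := by
  unfold In at hm
  push Not at hm
  obtain ⟨k, hk, hk0⟩ := hm
  unfold wt
  have h1 : (m k : ℝ) * (if k ∈ J then q k else L) ≤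
      ∑ i, (m i : ℝ) * (if i ∈ J then q i else L) := by
    refine Finset.single_le_sum (f := fun i => (m i : ℝ) * (if i ∈ J then q i else L))
      (fun i _ => ?_) (Finset.mem_univ k)
    refine mul_nonneg (Nat.cast_nonneg _) ?_
    by_cases hi : i ∈ J
    · rw [if_pos hi]; exact (hq i).le
    · rw [if_neg hi]; exact hL.le
  refine le_trans ?_ h1
  rw [if_neg hk]
  have h2 : (1 : ℝ) ≤ m k := by exact_mod_cast Nat.one_le_iff_ne_zero.2 hk0
  nlinarith

open Classical in
/-- For exponents in an invariant coordinate plane the comparison can be made inside the plane. -/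
theorem exists_in_plane {A : Finset (Fin n →₀ ℕ)} {J : Finset (Fin n)} {α : Fin n →₀ ℕ}
    (hα : In J α) (h : ∀ u : Fin n → ℝ, (∀ i, 0 < u i) → ∃ m ∈ A, wt u m < wt u α)
    (q : Fin n → ℝ) (hq : ∀ i, 0 < q i) : ∃ m ∈ A, In J m ∧ wt q m < wt q α := by
  obtain ⟨L, hL⟩ : ∃ L : ℝ, L = wt q α + 1 := ⟨_, rfl⟩
  have h0 : 0 ≤ wt q α := by
    unfold wt
    exact Finset.sum_nonneg fun i _ => mul_nonneg (Nat.cast_nonneg _) (hq i).le
  have hL0 : 0 < L := by rw [hL]; linarith
  obtain ⟨m, hm, hlt⟩ := h (fun i => if i ∈ J then q i else L) (by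
    intro i
    by_cases hi : i ∈ J
    · simp only [hi, if_true]; exact hq i
    · simp only [hi, if_false]; exact hL0)
  have h1 : wt (fun i => if i ∈ J then q i else L) α = wt q α :=
    wt_congr hα fun i hi => by simp only [hi, if_true]
  rw [h1] at hlt
  have hmJ : In J m := by
    by_contra hcon
    have h2 := wt_large hcon q hq L hL0
    rw [hL] at h2
    rw [hL] at hlt
    linarith
  refine ⟨m, hm, hmJ, ?_⟩
  have h3 : wt (fun i => if i ∈ J then q i else L) m = wt q m :=
    wt_congr hmJ fun i hi => by simp only [hi, if_true]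
  rw [h3] at hlt
  exact hlt

open Classical in
theorem newton_generic (hn : 0 < n) (A : Fin n → Finset (Fin n →₀ ℕ))
    (h2 : ∀ i, ∀ m ∈ A i, 2 ≤ deg m) (hI : IsolatedType A) :
    ∃ D : MvPolynomial (Σ i : Fin n, {m // m ∈ A i}) ℂ, D ≠ 0 ∧
      ∀ (f : (Fin n → ℂ) → (Fin n → ℂ)) (a : Fin n → (Fin n →₀ ℕ) → ℂ) (ν : ℕ),
        HasSeries f a → TangentToId a ν → NewtonType A a →
        MvPolynomial.eval (fun p => a p.1 p.2.1) D ≠ 0 →
        ∃ v : Fin n → ℂ, v ≠ 0 ∧ HasFlower f ν v := by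
  obtain ⟨J, hJ, hAJ, hirr, hcl⟩ := exists_plane hn A hI
  obtain ⟨w, δ, m, hδ, hwpos, hwout, hm, hind⟩ := weights J hJ A h2 hAJ hirr
  obtain ⟨D, hD, hsol⟩ := generic_solvable J A m (fun i hi => (hm i hi).1)
    (fun i hi => (hm i hi).2.1) hind w hwpos 1 one_ne_zero
    (fun i m' => In J m' ∧ wt w m' = w i + δ) (fun i hi => ⟨(hm i hi).2.1, (hm i hi).2.2.1⟩)
    (fun i _ m' h => h.1)
  refine ⟨D, hD, fun f a ν hf hν hN hev => ?_⟩
  obtain ⟨c, hcJ, hc1, hc⟩ := hsol _ hev
  obtain ⟨q, hq⟩ : ∃ q : Fin n → ℝ, q = fun i => if i ∈ J then w i else 1 := ⟨_, rfl⟩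
  have hqJ : ∀ i ∈ J, q i = w i := fun i hi => by rw [hq]; exact if_pos hi
  have hq0 : ∀ i, 0 < q i := by
    intro i
    by_cases hi : i ∈ J
    · rw [hqJ i hi]; exact hwpos i hi
    · rw [hq]; simp only [hi, if_false]; exact one_pos
  have hqw : ∀ α, In J α → wt q α = wt w α := fun α hα => wt_congr hα hqJ
  -- comparison for exponents outside `A`
  have hout : ∀ j, ∀ α, In J α → a j α ≠ 0 → α ≠ Finsupp.single j 1 → α ∉ A j →
      ∃ m' ∈ A j, In J m' ∧ wt q m' < wt q α := by
    intro j α hα h1 h3 h4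
    exact exists_in_plane hα (hN j α h1 h3 h4) q hq0
  have hinv : ∀ j ∉ J, ∀ α, In J α → a j α = 0 := by
    intro j hj α hα
    by_contra h1
    have h3 : α ≠ Finsupp.single j 1 := by
      intro h3
      have h4 := hα j hj
      rw [h3, Finsupp.single_eq_same] at h4
      exact one_ne_zero h4
    by_cases h4 : α ∈ A j
    · exact hcl j hj α h4 hα
    · obtain ⟨m', hm', hmJ, _⟩ := hout j α hα h1 h3 h4
      exact hcl j hj m' hm' hmJ
  have hmin : ∀ j ∈ J, ∀ m' ∈ A j, In J m' → q j + δ ≤ wt q m' := by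
    intro j hj m' hm' hmJ
    rw [hqJ j hj, hqw m' hmJ]
    exact (hm j hj).2.2.2 m' hm' hmJ
  obtain ⟨j₀, hj₀⟩ := hJ
  refine flower_plane hf hν J hinv q hq0 δ hδ ?_ c ?_ hcJ 1 one_ne_zero ?_
  · intro j hj α hα h1 h3
    by_cases h4 : α ∈ A j
    · exact hmin j hj α h4 hα
    · obtain ⟨m', hm', hmJ, hlt⟩ := hout j α hα h1 h3 h4
      exact (hmin j hj m' hm' hmJ).trans hlt.le
  · intro h0
    apply hc1 j₀ hj₀
    rw [h0]
    rfl
  · intro j hj
    have h5 := hc j hj
    rw [hqJ j hj, ← h5]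
    have h6 : ∀ α, α ∉ A j → (if In J α ∧ wt q α = w j + δ then a j α * mon c α else 0) = 0 := by
      intro α hα
      by_cases h7 : In J α ∧ wt q α = w j + δ
      · rw [if_pos h7]
        by_cases h8 : a j α = 0
        · rw [h8, zero_mul]
        · exfalso
          have h9 : α ≠ Finsupp.single j 1 := by
            intro h9
            have h10 := h7.2
            rw [h9, wt_single, hqJ j hj] at h10
            linarith
          obtain ⟨m', hm', hmJ, hlt⟩ := hout j α h7.1 h8 h9 hα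
          have h10 := hmin j hj m' hm' hmJ
          rw [hqJ j hj] at h10
          rw [h7.2] at hlt
          linarith
      · rw [if_neg h7]
    rw [tsum_eq_sum (s := A j) (fun α hα => h6 α hα), ← Finset.sum_coe_sort]
    refine Finset.sum_congr rfl fun m' _ => ?_
    by_cases h7 : In J (m' : Fin n →₀ ℕ) ∧ wt w m' = w j + δ
    · rw [if_pos h7, if_pos ⟨h7.1, by rw [hqw _ h7.1]; exact h7.2⟩]
    · rw [if_neg h7, if_neg]
      intro h8
      exact h7 ⟨h8.1, by rw [← hqw _ h8.1]; exact h8.2⟩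

end FFL
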